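import Mathlib

/-! Combinatorial arrangements of closed curves, every two of which cross at most twice. -/

namespace Pool.Agent.Lib.MP_65c801_co

open Finset Classical

/-- strictly between -/
def btw (a b x : ℕ) : Prop := (a < x ∧ x < b) ∨ (b < x ∧ x < a)

/-- The curve `i` has `m i` vertices, numbered cyclically by `k : ℤ`; `dart i k true` leaves the
`k`-th vertex forwards and `dart i k false` leaves it backwards; `bar` is the other end of an edge,
`vt` the vertex of a dart and `pos` its place in the rotation at that vertex. -/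
structure Arr (ι X Vx : Type) [Fintype X] where
  m : ι → ℕ
  mpos : ∀ i, 0 < m i
  dart : ι → ℤ → Bool → X
  surj : ∀ x, ∃ i k e, dart i k e = x
  deq : ∀ i k e j l e', dart i k e = dart j l e' ↔ i = j ∧ e = e' ∧ (m i : ℤ) ∣ k - l
  bar : X → X
  barT : ∀ i k, bar (dart i k true) = dart i (k + 1) false
  barF : ∀ i k, bar (dart i (k + 1) false) = dart i k true
  vt : X → Vx
  vtTF : ∀ i k, vt (dart i k false) = vt (dart i k true)
  vinj : ∀ i k l, vt (dart i k true) = vt (dart i l true) → (m i : ℤ) ∣ k - l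
  pos : X → ℕ
  pinj : ∀ x y, vt x = vt y → pos x = pos y → x = y
  cross : ∀ i k j l, i ≠ j → vt (dart i k true) = vt (dart j l true) →
    ¬ (btw (pos (dart i k true)) (pos (dart i k false)) (pos (dart j l true)) ↔
      btw (pos (dart i k true)) (pos (dart i k false)) (pos (dart j l false)))
  two : ∀ i j, i ≠ j → ∀ k1 k2 k3 l1 l2 l3, k1 < k2 → k2 < k3 → k3 < k1 + m i →
    vt (dart i k1 true) = vt (dart j l1 true) → vt (dart i k2 true) = vt (dart j l2 true) →
    vt (dart i k3 true) = vt (dart j l3 true) → False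
  planar : ∀ z : X → ZMod 2, (∀ x, z (bar x) = z x) →
    (∀ v, ∑ x ∈ univ.filter (fun x => vt x = v), z x = 0) →
    ∃ (w : X → ZMod 2) (f : Vx → ZMod 2), (∀ x, w (bar x) = w x + z x) ∧
      ∀ x, w x = f (vt x) + ∑ y ∈ univ.filter (fun y => vt y = vt x ∧ pos y < pos x), z y

/-- The combinatorial cutting theorem. A cut `(i, c)` is the vertex `c / 2` of the curve `i` when `c`
is even, and the middle of the edge from the vertex `(c - 1) / 2` to the next one when `c` is odd. -/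
def CombCut : Prop :=
  ∃ C : ℝ, 0 < C ∧ ∀ (ι X Vx : Type) [Fintype ι] [Fintype X] [Fintype Vx] (A : Arr ι X Vx) (n : ℕ),
    1 ≤ n → Fintype.card ι ≤ n → Fintype.card Vx ≤ 2 * n ^ 2 →
    ∃ (k0 : ι → ℤ) (D : Finset (ι × ℤ)), (D.card : ℝ) ≤ C * (n : ℝ) ^ ((3 : ℝ) / 2 - 1 / 10 ^ 7) ∧
      (∀ i, (i, 2 * k0 i) ∈ D) ∧
      ∀ i j, i ≠ j → ∀ k l k' l', k0 i < k → k < l → l < k0 i + A.m i →
        k0 j < k' → k' < k0 j + A.m j → k0 j < l' → l' < k0 j + A.m j →
        A.vt (A.dart i k true) = A.vt (A.dart j k' true) →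
        A.vt (A.dart i l true) = A.vt (A.dart j l' true) →
        (∃ c, (i, c) ∈ D ∧ 2 * k ≤ c ∧ c ≤ 2 * l) ∨
          ∃ c, (j, c) ∈ D ∧ 2 * min k' l' ≤ c ∧ c ≤ 2 * max k' l'

/-- The curve `B` crosses the curve `A` at `p`: arbitrarily close to `p` there are points of `B` in
two different components of the complement of `A`. -/
def CrossesAt (A B : Set ℂ) (p : ℂ) : Prop :=
  ∀ U ∈ nhds p, ∃ a ∈ U ∩ (B \ A), ∃ b ∈ U ∩ (B \ A), b ∉ connectedComponentIn Aᶜ a

/-- The geometric cutting theorem. -/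
def GeoCut : Prop :=
  ∃ C : ℝ, 0 < C ∧ ∀ (n : ℕ) (γ : Fin n → Circle → ℂ), (∀ i, Continuous (γ i)) →
    (∀ i, Function.Injective (γ i)) →
    (∀ i j, i ≠ j → (Set.range (γ i) ∩ Set.range (γ j)).encard ≤ 2) →
    (∀ i j, i ≠ j → ∀ p ∈ Set.range (γ i) ∩ Set.range (γ j),
      CrossesAt (Set.range (γ i)) (Set.range (γ j)) p) →
    ∃ X : Finset ℂ, (X.card : ℝ) ≤ C * (n : ℝ) ^ ((3 : ℝ) / 2 - 1 / 10 ^ 7) ∧
      (∀ x ∈ X, ∃ i, x ∈ Set.range (γ i)) ∧ (∀ i, ∃ x ∈ X, x ∈ Set.range (γ i)) ∧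
      ∀ i j, i ≠ j → ∀ p q, (connectedComponentIn (Set.range (γ i) \ ↑X) p ∩
        connectedComponentIn (Set.range (γ j) \ ↑X) q).Subsingleton

end Pool.Agent.Lib.MP_65c801_co
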