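import Pool.Agent.Lib.MP_65c801_co.Ident

/-! A nontrivial bound for the number of four-cycles with two equally labelled adjacent edges. -/

namespace Pool.Agent.Lib.MP_65c801_co

open Finset Classical

variable {A X : Type*} [Fintype A] [Fintype X]

lemma good_triple {G : A → X → Prop} {lab : A → X → ℕ} (hs : SignOK G lab) {k2 : ℝ}
    (hk2 : ∀ x u, cnt (fun a => G a x ∧ lab a x = u) ≤ k2) (hk0 : 0 ≤ k2) (x y z : X) :
    cnt (fun c => G c x ∧ G c y ∧ G c z ∧ lab c x ≠ lab c y ∧ lab c y ≠ lab c z ∧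
      lab c x ≠ lab c z) ≤ 6 * k2 := by
  set T : A → Prop := fun c => G c x ∧ G c y ∧ G c z ∧ lab c x ≠ lab c y ∧ lab c y ≠ lab c z ∧
      lab c x ≠ lab c z with hT
  have N : ∀ c0, cnt (fun c => T c ∧ (lab c x = lab c0 x ∨ lab c y = lab c0 y ∨
      lab c z = lab c0 z)) ≤ 3 * k2 := by
    intro c0
    have := cnt_le_add3 (p := fun c => T c ∧ (lab c x = lab c0 x ∨ lab c y = lab c0 y ∨
      lab c z = lab c0 z)) (q := fun c => G c x ∧ lab c x = lab c0 x)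
      (r := fun c => G c y ∧ lab c y = lab c0 y) (s := fun c => G c z ∧ lab c z = lab c0 z)
      (fun c hc => by
        obtain ⟨⟨h1, h2, h3, -⟩, h | h | h⟩ := hc
        · exact Or.inl ⟨h1, h⟩
        · exact Or.inr (Or.inl ⟨h2, h⟩)
        · exact Or.inr (Or.inr ⟨h3, h⟩))
    linarith [hk2 x (lab c0 x), hk2 y (lab c0 y), hk2 z (lab c0 z)]
  by_cases h1 : ∃ c1, T c1
  · obtain ⟨c1, h1⟩ := h1
    by_cases h2 : ∃ c2, T c2 ∧ ¬ (lab c2 x = lab c1 x ∨ lab c2 y = lab c1 y ∨ lab c2 z = lab c1 z)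
    · obtain ⟨c2, h2, h2'⟩ := h2
      have := cnt_le_add (p := T)
        (q := fun c => T c ∧ (lab c x = lab c1 x ∨ lab c y = lab c1 y ∨ lab c z = lab c1 z))
        (r := fun c => T c ∧ (lab c x = lab c2 x ∨ lab c y = lab c2 y ∨ lab c z = lab c2 z))
        (fun c hc => by
          by_contra hn
          simp only [not_or, not_and, hc, true_implies] at hn h2'
          obtain ⟨a1, a2, a3, a4, a5, a6⟩ := h1
          obtain ⟨b1, b2, b3, b4, b5, b6⟩ := h2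
          obtain ⟨d1, d2, d3, d4, d5, d6⟩ := hc
          exact hs.k33 a1 a2 a3 b1 b2 b3 d1 d2 d3 a4 a5 a6 b4 b5 b6 d4 d5 d6
            (Ne.symm h2'.1) (Ne.symm hn.2.1) (Ne.symm hn.1.1)
            (Ne.symm h2'.2.1) (Ne.symm hn.2.2.1) (Ne.symm hn.1.2.1)
            (Ne.symm h2'.2.2) (Ne.symm hn.2.2.2) (Ne.symm hn.1.2.2))
      linarith [N c1, N c2]
    · have : cnt T ≤ cnt (fun c => T c ∧ (lab c x = lab c1 x ∨ lab c y = lab c1 y ∨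
          lab c z = lab c1 z)) := cnt_mono fun c hc => ⟨hc, by
            by_contra hn; exact h2 ⟨c, hc, hn⟩⟩
      linarith [N c1]
  · rw [cnt_zero (fun c hc => h1 ⟨c, hc⟩)]; linarith

lemma cube_split (p : X → Prop) (l : X → ℕ) :
    cnt p ^ 3 ≤ cnt (fun z : X × X × X => p z.1 ∧ p z.2.1 ∧ p z.2.2 ∧ l z.1 ≠ l z.2.1 ∧
      l z.2.1 ≠ l z.2.2 ∧ l z.1 ≠ l z.2.2) +
      3 * (cnt (fun z : X × X => p z.1 ∧ p z.2 ∧ l z.1 = l z.2) * cnt p) := by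
  have e : cnt p ^ 3 = cnt (fun z : X × X × X => p z.1 ∧ p z.2.1 ∧ p z.2.2) := by
    rw [cnt_mul p (fun z : X × X => p z.1 ∧ p z.2), ← cnt_sq]; ring
  have m := cnt_mul (fun z : X × X => p z.1 ∧ p z.2 ∧ l z.1 = l z.2) p
  have b1 : cnt (fun z : X × X × X => (p z.1 ∧ p z.2.1 ∧ p z.2.2) ∧ l z.1 = l z.2.1) ≤ _ :=
    (cnt_inj (fun z => ((z.1, z.2.1), z.2.2)) (fun z hz => ⟨⟨hz.1.1, hz.1.2.1, hz.2⟩, hz.1.2.2⟩)
      (fun z w _ _ h => by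
        simp only [Prod.mk.injEq] at h; exact Prod.ext h.1.1 (Prod.ext h.1.2 h.2))).trans m.le
  have b2 : cnt (fun z : X × X × X => (p z.1 ∧ p z.2.1 ∧ p z.2.2) ∧ l z.2.1 = l z.2.2) ≤ _ :=
    (cnt_inj (fun z => ((z.2.1, z.2.2), z.1)) (fun z hz => ⟨⟨hz.1.2.1, hz.1.2.2, hz.2⟩, hz.1.1⟩)
      (fun z w _ _ h => by
        simp only [Prod.mk.injEq] at h; exact Prod.ext h.2 (Prod.ext h.1.1 h.1.2))).trans m.le
  have b3 : cnt (fun z : X × X × X => (p z.1 ∧ p z.2.1 ∧ p z.2.2) ∧ l z.1 = l z.2.2) ≤ _ :=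
    (cnt_inj (fun z => ((z.1, z.2.2), z.2.1)) (fun z hz => ⟨⟨hz.1.1, hz.1.2.2, hz.2⟩, hz.1.2.1⟩)
      (fun z w _ _ h => by
        simp only [Prod.mk.injEq] at h; exact Prod.ext h.1.1 (Prod.ext h.2 h.1.2))).trans m.le
  have s1 := cnt_le_add (p := fun z : X × X × X => p z.1 ∧ p z.2.1 ∧ p z.2.2)
    (q := fun z => p z.1 ∧ p z.2.1 ∧ p z.2.2 ∧ l z.1 ≠ l z.2.1 ∧
      l z.2.1 ≠ l z.2.2 ∧ l z.1 ≠ l z.2.2)
    (r := fun z => ((p z.1 ∧ p z.2.1 ∧ p z.2.2) ∧ l z.1 = l z.2.1) ∨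
      ((p z.1 ∧ p z.2.1 ∧ p z.2.2) ∧ l z.2.1 = l z.2.2) ∨
      ((p z.1 ∧ p z.2.1 ∧ p z.2.2) ∧ l z.1 = l z.2.2)) (fun z hz => by tauto)
  have s2 := cnt_le_add3 (p := fun z : X × X × X =>
      ((p z.1 ∧ p z.2.1 ∧ p z.2.2) ∧ l z.1 = l z.2.1) ∨
      ((p z.1 ∧ p z.2.1 ∧ p z.2.2) ∧ l z.2.1 = l z.2.2) ∨
      ((p z.1 ∧ p z.2.1 ∧ p z.2.2) ∧ l z.1 = l z.2.2)) (fun z hz => hz)
  linarith

/-- pairs of a set `Y` with a common neighbour -/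
lemma XX_le {G : A → X → Prop} {lab : A → X → ℕ} (hs : SignOK G lab) {k1 k2 D ze : ℝ}
    (hk2 : ∀ x u, cnt (fun a => G a x ∧ lab a x = u) ≤ k2) (hk0 : 0 ≤ k2)
    (hD : ∀ x, cnt (fun a => G a x) ≤ D) (hze : 0 < ze) (hk1 : 0 < k1) (hk : k2 ≤ ze ^ 2 * D)
    (Y : X → Prop) (hY : cnt Y ≤ k1) :
    ∑ c, cnt (fun x => Y x ∧ G c x) ^ 2 ≤
      6 * ∑ c, cnt (fun z : X × X => (Y z.1 ∧ G c z.1) ∧ (Y z.2 ∧ G c z.2) ∧
        lab c z.1 = lab c z.2) + 13 * ze * cnt Y * k1 * D := by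
  set good : A → ℝ := fun c => cnt (fun z : X × X × X => (Y z.1 ∧ G c z.1) ∧ (Y z.2.1 ∧ G c z.2.1) ∧
    (Y z.2.2 ∧ G c z.2.2) ∧ lab c z.1 ≠ lab c z.2.1 ∧
      lab c z.2.1 ≠ lab c z.2.2 ∧ lab c z.1 ≠ lab c z.2.2) with hgood
  have zk : 0 < ze * k1 := mul_pos hze hk1
  have pt : ∀ c, cnt (fun x => Y x ∧ G c x) ^ 2 ≤
      6 * cnt (fun z : X × X => (Y z.1 ∧ G c z.1) ∧ (Y z.2 ∧ G c z.2) ∧ lab c z.1 = lab c z.2) +
      ze * k1 * cnt (fun x => Y x ∧ G c x) + 2 / (ze * k1) * good c := by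
    intro c
    have h := cube_split (fun x => Y x ∧ G c x) (lab c)
    have g0 : 0 ≤ good c := cnt_nonneg _
    have d0 := cnt_nonneg (fun x => Y x ∧ G c x)
    have b0 := cnt_nonneg
      (fun z : X × X => (Y z.1 ∧ G c z.1) ∧ (Y z.2 ∧ G c z.2) ∧ lab c z.1 = lab c z.2)
    change _ ≤ good c + _ at h
    set d := cnt (fun x => Y x ∧ G c x)
    set b := cnt (fun z : X × X => (Y z.1 ∧ G c z.1) ∧ (Y z.2 ∧ G c z.2) ∧ lab c z.1 = lab c z.2)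
    have g1 : 0 ≤ 2 / (ze * k1) * good c := by positivity
    have g2 : 0 ≤ ze * k1 * d := by positivity
    by_cases c1 : d ^ 2 ≤ 6 * b
    · linarith
    · by_cases c2 : d ≤ ze * k1
      · nlinarith
      · push Not at c1 c2
        have h3 : d ^ 3 ≤ 2 * good c := by nlinarith
        have h4 : d ^ 2 ≤ 2 / (ze * k1) * good c := by
          rw [div_mul_eq_mul_div, le_div_iff₀ zk]; nlinarith
        linarith
  have y0 := cnt_nonneg Y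
  have s1 : ∑ c, cnt (fun x => Y x ∧ G c x) ≤ cnt Y * D := by
    rw [← cnt_prod' (fun z : X × A => Y z.1 ∧ G z.2 z.1)]
    exact cnt_pair_le (fun x c h => h.1) (fun x _ => (cnt_mono fun c hc => hc.2).trans (hD x))
  have s2 : ∑ c, good c ≤ cnt Y ^ 3 * (6 * k2) := by
    have e : cnt Y ^ 3 = cnt (fun z : X × X × X => Y z.1 ∧ Y z.2.1 ∧ Y z.2.2) := by
      rw [cnt_mul Y (fun z : X × X => Y z.1 ∧ Y z.2), ← cnt_sq]; ring
    rw [e, hgood, ← cnt_prod' (fun w : (X × X × X) × A => (Y w.1.1 ∧ G w.2 w.1.1) ∧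
      (Y w.1.2.1 ∧ G w.2 w.1.2.1) ∧ (Y w.1.2.2 ∧ G w.2 w.1.2.2) ∧ lab w.2 w.1.1 ≠ lab w.2 w.1.2.1 ∧
      lab w.2 w.1.2.1 ≠ lab w.2 w.1.2.2 ∧ lab w.2 w.1.1 ≠ lab w.2 w.1.2.2)]
    exact cnt_pair_le (fun z c h => ⟨h.1.1, h.2.1.1, h.2.2.1.1⟩) (fun z _ =>
      (cnt_mono fun c hc => ⟨hc.1.2, hc.2.1.2, hc.2.2.1.2, hc.2.2.2⟩).trans
        (good_triple hs hk2 hk0 z.1 z.2.1 z.2.2))
  refine (Finset.sum_le_sum fun c _ => pt c).trans ?_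
  simp only [Finset.sum_add_distrib, ← Finset.mul_sum]
  have D0 : 0 ≤ D := by nlinarith [sq_pos_of_pos hze]
  have t1 : ze * k1 * ∑ c, cnt (fun x => Y x ∧ G c x) ≤ ze * k1 * (cnt Y * D) :=
    mul_le_mul_of_nonneg_left s1 zk.le
  have t2 : 2 / (ze * k1) * ∑ c, good c ≤ 12 * ze * cnt Y * k1 * D := by
    rw [div_mul_eq_mul_div, div_le_iff₀ zk]
    have : cnt Y ^ 3 ≤ cnt Y * k1 ^ 2 := by
      have : cnt Y ^ 2 ≤ k1 ^ 2 := pow_le_pow_left₀ y0 hY 2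
      nlinarith
    have h5 : cnt Y ^ 3 * (6 * k2) ≤ cnt Y * k1 ^ 2 * (6 * (ze ^ 2 * D)) := by gcongr
    nlinarith
  linarith

lemma Tog_le {G : A → X → Prop} {lab : A → X → ℕ} {H : A → X → Prop} {w : A → X → ℕ}
    {k2 D al s Q : ℝ}
    (hk2 : ∀ x u, cnt (fun a => G a x ∧ lab a x = u) ≤ k2) (hk0 : 0 ≤ k2)
    (hD : ∀ x, cnt (fun a => G a x) ≤ D)
    (two : ∀ b b', ∃ u1 u2, ∀ u a, b ≠ b' → H a b → H a b' → w a b = u → w a b' = u →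
      u = u1 ∨ u = u2)
    (ball : ∀ c u, ∃ B : A → Prop, cnt B ≤ al ∧
      ∀ b, G c b → lab c b = u → s ≤ cnt (fun a => B a ∧ H a b ∧ w a b = u))
    (hQ : ∀ b u, cnt (fun a => H a b ∧ w a b = u) ≤ Q) (hQ0 : 0 ≤ Q) (hs : 0 < s) (hal : 0 ≤ al)
    (Y : X → Prop) :
    ∑ c, cnt (fun z : X × X => (Y z.1 ∧ G c z.1) ∧ (Y z.2 ∧ G c z.2) ∧ lab c z.1 = lab c z.2) ≤
      2 * al / s * (cnt Y * D) + 2 * al * Q / s ^ 2 * (cnt Y ^ 2 * (2 * k2)) := by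
  set sh : X → X → ℕ → Prop := fun b b' u => b ≠ b' ∧ ∃ a, H a b ∧ H a b' ∧ w a b = u ∧ w a b' = u
    with hsh
  have pt : ∀ c u, cnt (fun x => (Y x ∧ G c x) ∧ lab c x = u) ^ 2 ≤
      2 * al / s * cnt (fun x => (Y x ∧ G c x) ∧ lab c x = u) +
      2 * al * Q / s ^ 2 * cnt (fun z : X × X => ((Y z.1 ∧ G c z.1) ∧ (Y z.2 ∧ G c z.2) ∧
        lab c z.1 = lab c z.2 ∧ sh z.1 z.2 (lab c z.1)) ∧ lab c z.1 = u) := by
    intro c u
    obtain ⟨B, hB, hB'⟩ := ball c u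
    set S : X → Prop := fun x => (Y x ∧ G c x) ∧ lab c x = u with hS
    set I : X × A → Prop := fun z => S z.1 ∧ B z.2 ∧ H z.2 z.1 ∧ w z.2 z.1 = u with hI
    have i1 : cnt S * s ≤ cnt I := cnt_pair_ge fun x hx =>
      (hB' x hx.1.2 hx.2).trans (cnt_mono fun a ha => ⟨hx, ha⟩)
    have i2 := cnt_cs' (p := I) (q := B) (fun z => z.2) (fun z hz => hz.2.1)
    set cp := cnt (fun z : X × X => ((Y z.1 ∧ G c z.1) ∧ (Y z.2 ∧ G c z.2) ∧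
        lab c z.1 = lab c z.2 ∧ sh z.1 z.2 (lab c z.1)) ∧ lab c z.1 = u) with hcp
    have i3 : cnt (fun z : (X × A) × (X × A) => I z.1 ∧ I z.2 ∧ z.1.2 = z.2.2) ≤ cnt I + cp * Q := by
      refine (cnt_le_add (q := fun z => (I z.1 ∧ I z.2 ∧ z.1.2 = z.2.2) ∧ z.1.1 = z.2.1)
        (r := fun z => (I z.1 ∧ I z.2 ∧ z.1.2 = z.2.2) ∧ z.1.1 ≠ z.2.1)
        (fun z hz => by tauto)).trans (add_le_add ?_ ?_)
      · exact cnt_inj (fun z => z.1) (fun z hz => hz.1.1) (fun z z' hz hz' h =>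
          Prod.ext h (Prod.ext (by rw [← hz.2, ← hz'.2, h]) (by rw [← hz.1.2.2, ← hz'.1.2.2, h])))
      · refine cnt_fib_le' (fun z => (z.1.1, z.2.1)) ?_ ?_
        · rintro ⟨⟨b, a⟩, ⟨b', a'⟩⟩ ⟨⟨h1, h2, h3⟩, h4⟩
          simp only at h3 h4; subst h3
          obtain ⟨⟨y1, l1⟩, -, e1, w1⟩ := h1
          obtain ⟨⟨y2, l2⟩, -, e2, w2⟩ := h2
          exact ⟨⟨y1, y2, l1.trans l2.symm, h4, a, e1, e2, w1.trans l1.symm, w2.trans l1.symm⟩, l1⟩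
        · intro z _
          refine le_trans (cnt_inj (q := fun a => H a z.1 ∧ w a z.1 = u) (fun v => v.1.2) ?_ ?_)
            (hQ _ _)
          · rintro ⟨⟨b, a⟩, ⟨b', a'⟩⟩ ⟨⟨⟨h1, -⟩, -⟩, rfl⟩
            exact h1.2.2
          · rintro ⟨⟨b, a⟩, ⟨b', a'⟩⟩ ⟨⟨d, e⟩, ⟨d', e'⟩⟩ ⟨⟨⟨-, -, h1⟩, -⟩, rfl⟩ ⟨⟨⟨-, -, h2⟩, -⟩, h3⟩ h4
            simp only [Prod.mk.injEq] at h1 h2 h3 h4 ⊢
            subst h1 h2 h4; tauto
    have I0 := cnt_nonneg I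
    have S0 := cnt_nonneg S
    have cp0 : 0 ≤ cp := cnt_nonneg _
    have i4 : cnt I ^ 2 ≤ al * (cnt I + cp * Q) :=
      i2.trans (mul_le_mul hB i3 (cnt_nonneg _) hal)
    by_cases c1 : cnt I ≤ 2 * al
    · have : cnt S ≤ 2 * al / s := by rw [le_div_iff₀ hs]; linarith
      have h2 : 0 ≤ 2 * al * Q / s ^ 2 * cp := by positivity
      nlinarith
    · push Not at c1
      have h1 : cnt I ^ 2 ≤ 2 * al * Q * cp := by nlinarith
      have h2 : (cnt S * s) ^ 2 ≤ cnt I ^ 2 := pow_le_pow_left₀ (by positivity) i1 2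
      have h3 : cnt S ^ 2 ≤ 2 * al * Q / s ^ 2 * cp := by
        rw [div_mul_eq_mul_div, le_div_iff₀ (by positivity)]; nlinarith
      have h4 : 0 ≤ 2 * al / s * cnt S := by positivity
      linarith
  have pc : ∀ c, cnt (fun z : X × X => (Y z.1 ∧ G c z.1) ∧ (Y z.2 ∧ G c z.2) ∧
      lab c z.1 = lab c z.2) ≤ 2 * al / s * cnt (fun x => Y x ∧ G c x) +
      2 * al * Q / s ^ 2 * cnt (fun z : X × X => (Y z.1 ∧ G c z.1) ∧ (Y z.2 ∧ G c z.2) ∧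
        lab c z.1 = lab c z.2 ∧ sh z.1 z.2 (lab c z.1)) := by
    intro c
    rw [cnt_fib _ (fun z : X × X => lab c z.1) (univ.image (lab c))
        (fun z _ => mem_image_of_mem _ (mem_univ _)),
      cnt_fib (fun x => Y x ∧ G c x) (lab c) (univ.image (lab c))
        (fun z _ => mem_image_of_mem _ (mem_univ _)),
      cnt_fib (fun z : X × X => (Y z.1 ∧ G c z.1) ∧ (Y z.2 ∧ G c z.2) ∧
        lab c z.1 = lab c z.2 ∧ sh z.1 z.2 (lab c z.1)) (fun z : X × X => lab c z.1)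
        (univ.image (lab c)) (fun z _ => mem_image_of_mem _ (mem_univ _)),
      Finset.mul_sum, Finset.mul_sum, ← Finset.sum_add_distrib]
    refine Finset.sum_le_sum fun u _ => le_trans ?_ (pt c u)
    rw [cnt_sq]
    exact cnt_mono fun z hz => ⟨⟨hz.1.1, hz.2⟩, hz.1.2.1, hz.1.2.2 ▸ hz.2⟩
  have s1 : ∑ c, cnt (fun x => Y x ∧ G c x) ≤ cnt Y * D := by
    rw [← cnt_prod' (fun z : X × A => Y z.1 ∧ G z.2 z.1)]
    exact cnt_pair_le (fun x c h => h.1) (fun x _ => (cnt_mono fun c hc => hc.2).trans (hD x))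
  have s2 : ∑ c, cnt (fun z : X × X => (Y z.1 ∧ G c z.1) ∧ (Y z.2 ∧ G c z.2) ∧
        lab c z.1 = lab c z.2 ∧ sh z.1 z.2 (lab c z.1)) ≤ cnt Y ^ 2 * (2 * k2) := by
    rw [cnt_sq, ← cnt_prod' (fun v : (X × X) × A => (Y v.1.1 ∧ G v.2 v.1.1) ∧
      (Y v.1.2 ∧ G v.2 v.1.2) ∧ lab v.2 v.1.1 = lab v.2 v.1.2 ∧ sh v.1.1 v.1.2 (lab v.2 v.1.1))]
    refine cnt_pair_le (fun z c h => ⟨h.1.1, h.2.1.1⟩) fun z _ => ?_
    obtain ⟨u1, u2, hu⟩ := two z.1 z.2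
    refine (cnt_le_add (q := fun c => G c z.1 ∧ lab c z.1 = u1)
      (r := fun c => G c z.1 ∧ lab c z.1 = u2) ?_).trans (by linarith [hk2 z.1 u1, hk2 z.1 u2])
    rintro c ⟨h1, -, -, h2, a, h3, h4, h5, h6⟩
    rcases hu _ a h2 h3 h4 h5 h6 with h | h
    · exact Or.inl ⟨h1.2, h⟩
    · exact Or.inr ⟨h1.2, h⟩
  refine (Finset.sum_le_sum fun c _ => pc c).trans ?_
  simp only [Finset.sum_add_distrib, ← Finset.mul_sum]
  gcongr

theorem ZL_bound {G : A → X → Prop} {lab : A → X → ℕ} (hsg : SignOK G lab)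
    {H : A → X → Prop} {w : A → X → ℕ} {k1 k2 D al s Q ze : ℝ}
    (hk1 : ∀ a u, cnt (fun x => G a x ∧ lab a x = u) ≤ k1)
    (hk2 : ∀ x u, cnt (fun a => G a x ∧ lab a x = u) ≤ k2) (hk0 : 0 ≤ k2)
    (hD : ∀ x, cnt (fun a => G a x) ≤ D)
    (two : ∀ b b', ∃ u1 u2, ∀ u a, b ≠ b' → H a b → H a b' → w a b = u → w a b' = u →
      u = u1 ∨ u = u2)
    (ball : ∀ c u, ∃ B : A → Prop, cnt B ≤ al ∧
      ∀ b, G c b → lab c b = u → s ≤ cnt (fun a => B a ∧ H a b ∧ w a b = u))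
    (hQ : ∀ b u, cnt (fun a => H a b ∧ w a b = u) ≤ Q) (hQ0 : 0 ≤ Q) (hs : 0 < s) (hal : 0 ≤ al)
    (hze : 0 < ze) (hk1' : 0 < k1) (hk : k2 ≤ ze ^ 2 * D) :
    ZL G lab ≤ cnt (fun e : A × X => G e.1 e.2) *
      (12 * al * D / s + k1 * (24 * al * Q * k2 / s ^ 2 + 13 * ze * D)) := by
  have D0 : 0 ≤ D := by nlinarith [sq_pos_of_pos hze]
  set zz := 12 * al * D / s + k1 * (24 * al * Q * k2 / s ^ 2 + 13 * ze * D) with hzz
  unfold ZL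
  rw [cnt_prod (fun e : A × X => G e.1 e.2), Finset.sum_mul, cnt_prod, Fintype.sum_prod_type]
  refine Finset.sum_le_sum fun a _ => ?_
  rw [cnt_fib (fun x => G a x) (lab a) (univ.image (lab a))
    (fun z _ => mem_image_of_mem _ (mem_univ _)), Finset.sum_mul]
  have e : ∀ c, cnt (fun z : X × X => C4 G ((a, c), z) ∧ lab a z.1 = lab a z.2) ≤
      ∑ u ∈ univ.image (lab a), cnt (fun x => (G a x ∧ lab a x = u) ∧ G c x) ^ 2 := by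
    intro c
    rw [cnt_fib _ (fun z : X × X => lab a z.1) (univ.image (lab a))
        (fun z _ => mem_image_of_mem _ (mem_univ _))]
    refine Finset.sum_le_sum fun u _ => ?_
    rw [cnt_sq]
    exact cnt_mono fun z hz => ⟨⟨⟨hz.1.1.1, hz.2⟩, hz.1.1.2.2.1⟩,
      ⟨hz.1.1.2.1, hz.1.2 ▸ hz.2⟩, hz.1.1.2.2.2⟩
  refine (Finset.sum_le_sum fun c _ => e c).trans ?_
  rw [Finset.sum_comm]
  refine Finset.sum_le_sum fun u _ => ?_
  have h1 := XX_le hsg hk2 hk0 hD hze hk1' hk (fun x => G a x ∧ lab a x = u) (hk1 a u)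
  have h2 := Tog_le hk2 hk0 hD two ball hQ hQ0 hs hal (fun x => G a x ∧ lab a x = u)
  have y0 := cnt_nonneg (fun x => G a x ∧ lab a x = u)
  have y1 := hk1 a u
  set y := cnt (fun x => G a x ∧ lab a x = u)
  have h3 : 2 * al * Q / s ^ 2 * (y ^ 2 * (2 * k2)) ≤ 2 * al * Q / s ^ 2 * (y * k1 * (2 * k2)) := by
    gcongr; nlinarith
  have h4 : y * zz = 6 * (2 * al / s * (y * D) + 2 * al * Q / s ^ 2 * (y * k1 * (2 * k2))) +
      13 * ze * y * k1 * D := by rw [hzz]; ring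
  linarith

end Pool.Agent.Lib.MP_65c801_co
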