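import Pool.Agent.Lib.MP_65c801_co.Paths
import Pool.Agent.Lib.MP_65c801_co.Zb

/-! The lower window degree of a regular family is small: neighbours of a curve in a window cross
each other there, so they lie in a narrow band of ranks. -/

namespace Pool.Agent.Lib.MP_65c801_co

open Finset Classical

variable {V α : Type*} [LinearOrder α] [Fintype V]
variable {h : V → ℕ → α} {H : V → V → Prop} {t : V → V → ℕ} {S' R L : ℕ} {n P Q d σ : ℝ}

lemma kst {G : V → V → Prop} (hn : NoAlt h) (f : Fam h G t) (B M : V → Prop)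
    (hM : ∀ a y, G a y → B y → M a) {φ : ℝ} (φ0 : 0 < φ) (hB : cnt B ≤ φ ^ 3) :
    cnt (fun e : V × V => G e.1 e.2 ∧ B e.2 ∧ 6 ≤ cnt (fun a => G a e.2)) ≤ 13 * φ ^ 2 * cnt M := by
  by_cases M0 : cnt M ≤ 0
  · rw [cnt_zero]
    · exact mul_nonneg (by positivity) (cnt_nonneg _)
    · intro e he
      linarith [one_le_cnt (p := M) (hM _ _ he.1 he.2.1)]
  push Not at M0
  set τ := cnt M / φ with hτ
  have τ0 : 0 < τ := by positivity
  set good : V → ℝ := fun y => cnt (fun z : V × V × V => B y ∧ G z.1 y ∧ G z.2.1 y ∧ G z.2.2 y ∧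
    t z.1 y ≠ t z.2.1 y ∧ t z.2.1 y ≠ t z.2.2 y ∧ t z.1 y ≠ t z.2.2 y) with hgood
  have pt : ∀ y, cnt (fun a => G a y ∧ B y ∧ 6 ≤ cnt (fun a => G a y)) ≤
      (if B y then τ else 0) + 2 / τ ^ 2 * good y := by
    intro y
    have g0 : 0 ≤ 2 / τ ^ 2 * good y := mul_nonneg (by positivity) (cnt_nonneg _)
    by_cases c : B y ∧ 6 ≤ cnt (fun a => G a y)
    · rw [if_pos c.1]
      have h1 := cube_split (fun a => G a y) (fun a => t a y)
      have h2 : cnt (fun z : V × V => G z.1 y ∧ G z.2 y ∧ t z.1 y = t z.2 y) ≤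
          cnt (fun a => G a y) :=
        cnt_inj (fun z => z.1) (fun z hz => hz.1) (fun z w hz hw e => Prod.ext e (by
          rw [← f.injL hz.1 hz.2.1 hz.2.2, ← f.injL hw.1 hw.2.1 hw.2.2, e]))
      have h3 : cnt (fun z : V × V × V => G z.1 y ∧ G z.2.1 y ∧ G z.2.2 y ∧
        t z.1 y ≠ t z.2.1 y ∧ t z.2.1 y ≠ t z.2.2 y ∧ t z.1 y ≠ t z.2.2 y) ≤ good y :=
        cnt_mono fun z hz => ⟨c.1, hz⟩
      have h4 : cnt (fun a => G a y ∧ B y ∧ 6 ≤ cnt (fun a => G a y)) ≤ cnt (fun a => G a y) :=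
        cnt_mono fun a ha => ha.1
      have c2 := c.2
      set D := cnt (fun a => G a y)
      have h5 : D ^ 3 ≤ 2 * good y := by
        have := mul_le_mul_of_nonneg_right h2 (by linarith : 0 ≤ D)
        nlinarith
      by_cases c3 : D ≤ τ
      · linarith
      · push Not at c3
        have : D ≤ 2 / τ ^ 2 * good y := by
          rw [div_mul_eq_mul_div, le_div_iff₀ (by positivity)]
          have : τ ^ 2 ≤ D ^ 2 := pow_le_pow_left₀ τ0.le c3.le 2
          nlinarith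
        linarith
    · rw [cnt_zero (fun a ha => c ha.2)]
      split_ifs <;> linarith
  have s1 : ∑ y, (if B y then τ else 0) ≤ cnt B * τ :=
    sum_le_cnt_mul _ (fun y hy => by simp [hy]) (fun y hy => by simp [hy])
  have s2 : ∑ y, good y ≤ cnt M ^ 3 * 6 := by
    have e : cnt M ^ 3 = cnt (fun z : V × V × V => M z.1 ∧ M z.2.1 ∧ M z.2.2) := by
      rw [cnt_mul M (fun z : V × V => M z.1 ∧ M z.2), ← cnt_sq]; ring
    rw [e, hgood, ← cnt_prod' (fun v : (V × V × V) × V => B v.2 ∧ G v.1.1 v.2 ∧ G v.1.2.1 v.2 ∧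
      G v.1.2.2 v.2 ∧ t v.1.1 v.2 ≠ t v.1.2.1 v.2 ∧ t v.1.2.1 v.2 ≠ t v.1.2.2 v.2 ∧
      t v.1.1 v.2 ≠ t v.1.2.2 v.2)]
    refine cnt_pair_le (fun z y hz => ⟨hM _ _ hz.2.1 hz.1, hM _ _ hz.2.2.1 hz.1,
      hM _ _ hz.2.2.2.1 hz.1⟩) fun z _ => ?_
    have := good_triple (f.sign hn).flip (k2 := 1)
      (fun a u => cnt_le_one fun x y hx hy => f.injU hx.1 hy.1 (hx.2.trans hy.2.symm))
      zero_le_one z.1 z.2.1 z.2.2
    exact (cnt_mono fun y hy => hy.2).trans (by simpa using this)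
  rw [cnt_prod']
  refine (Finset.sum_le_sum fun y _ => pt y).trans ?_
  rw [Finset.sum_add_distrib, ← Finset.mul_sum]
  have t1 : cnt B * τ ≤ φ ^ 2 * cnt M := by
    calc cnt B * τ ≤ φ ^ 3 * τ := mul_le_mul_of_nonneg_right hB τ0.le
      _ = _ := by rw [hτ]; field_simp
  have t2 : 2 / τ ^ 2 * ∑ y, good y ≤ 12 * φ ^ 2 * cnt M := by
    calc _ ≤ 2 / τ ^ 2 * (cnt M ^ 3 * 6) := mul_le_mul_of_nonneg_left s2 (by positivity)
      _ = _ := by rw [hτ]; field_simp; ring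
  linarith

/-- rank as a natural number -/
noncomputable def rkN (h : V → ℕ → α) (s : ℕ) (v : V) : ℕ :=
  (univ.filter fun z => h z s < h v s).card

lemma rk_eq (s : ℕ) (v : V) : rk h s v = rkN h s v := by
  unfold rk rkN cnt; congr

lemma rkN_inj (hi : Inj h) {s : ℕ} {a b : V} (e : rkN h s a = rkN h s b) : a = b := by
  have e' : rk h s a = rk h s b := by rw [rk_eq, rk_eq, e]
  rcases lt_trichotomy (h a s) (h b s) with c | c | c
  · linarith [rk_add_one c]
  · exact hi _ _ _ c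
  · linarith [rk_add_one c]

lemma bucket_le (hi : Inj h) (s : ℕ) {W : ℕ} (W0 : 0 < W) (ρ : ℕ) :
    cnt (fun y => rkN h s y / W = ρ) ≤ W := by
  have := cnt_fib_le (p := fun y => rkN h s y / W = ρ) (fun y => rkN h s y % W) (range W)
    (fun y _ => mem_range.2 (Nat.mod_lt _ W0)) (K := 1) (fun j _ => cnt_le_one fun x y hx hy =>
      rkN_inj hi (s := s) (by
        rw [← Nat.div_add_mod (rkN h s x) W, ← Nat.div_add_mod (rkN h s y) W, hx.1, hy.1, hx.2,
          hy.2]))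
  simpa using this

theorem Reg.band (r : Reg h H t S' R L n P Q d σ) {W : ℕ} {φ : ℝ} (W0 : 0 < W)
    (hW : 16 * n ^ 2 * Q ≤ W * cnt (fun e : V × V => H e.1 e.2)) (φ0 : 0 < φ)
    (hφ : (W:ℝ) ≤ φ ^ 3) (hQ : 24 * σ ≤ Q) : P ≤ 78 * σ * φ ^ 2 := by
  have S0 : 0 < S' * R := Nat.mul_pos r.Sp r.Rp
  set S := S' * R with hS
  set m := cnt (fun e : V × V => H e.1 e.2) with hm
  have W0' : (0:ℝ) < W := by exact_mod_cast W0
  set H1 : V → V → Prop := fun a y => H a y ∧ 2 * cnt (Cr h S (t a y / S) y) ≤ W with hH1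
  have np := r.np
  have dp := r.dp
  have sp := r.sp
  have Pp := r.Pp
  have Qp := r.Qp
  have big := r.big
  have bad : cnt (fun e : V × V => H e.1 e.2 ∧ ¬ H1 e.1 e.2) ≤ m / 4 := by
    have b1 : cnt (fun e : V × V => H e.1 e.2 ∧ ¬ H1 e.1 e.2) * (W / 2) ≤
        cnt (fun v : (V × V) × V => H v.1.1 v.1.2 ∧ Cr h S (t v.1.1 v.1.2 / S) v.1.2 v.2) := by
      refine cnt_pair_ge fun e he => ?_
      have : ¬ 2 * cnt (Cr h S (t e.1 e.2 / S) e.2) ≤ W := fun hc => he.2 ⟨he.1, hc⟩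
      have h2 : cnt (Cr h S (t e.1 e.2 / S) e.2) ≤
          cnt (fun y => H e.1 e.2 ∧ Cr h S (t e.1 e.2 / S) e.2 y) := cnt_mono fun y hy => ⟨he.1, hy⟩
      push Not at this
      linarith
    have b2 : cnt (fun v : (V × V) × V => H v.1.1 v.1.2 ∧ Cr h S (t v.1.1 v.1.2 / S) v.1.2 v.2) ≤
        cnt (fun _ : V × V => True) * (2 * Q) := by
      refine cnt_fib_le' (fun v => (v.1.2, v.2)) (fun _ _ => trivial) ?_
      rintro ⟨y, z⟩ -
      obtain ⟨u1, u2, hu⟩ := cr_two r.noalt S y z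
      refine le_trans (cnt_inj (q := fun a => (H a y ∧ t a y / S = u1) ∨ (H a y ∧ t a y / S = u2))
        (fun v => v.1.1) ?_ ?_) ((cnt_or _ _).trans (by linarith [r.dQ y u1, r.dQ y u2]))
      · rintro ⟨⟨a, y'⟩, z'⟩ ⟨⟨g, c⟩, e⟩
        simp only [Prod.mk.injEq] at e
        obtain ⟨rfl, rfl⟩ := e
        rcases hu _ c with e | e
        · exact Or.inl ⟨g, e⟩
        · exact Or.inr ⟨g, e⟩
      · rintro ⟨⟨a, y1⟩, z1⟩ ⟨⟨b, y2⟩, z2⟩ ⟨-, e1⟩ ⟨-, e2⟩ e
        simp only [Prod.mk.injEq] at e1 e2 e ⊢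
        exact ⟨⟨e, e1.1.trans e2.1.symm⟩, e1.2.trans e2.2.symm⟩
    have b3 : cnt (fun _ : V × V => True) ≤ n ^ 2 := by
      refine (cnt_le_card _).trans ?_
      rw [Fintype.card_prod]; push_cast; rw [sq]
      exact mul_le_mul r.card r.card (by positivity) np.le
    have b4 : cnt (fun _ : V × V => True) * (2 * Q) ≤ n ^ 2 * (2 * Q) :=
      mul_le_mul_of_nonneg_right b3 (by positivity)
    have : (W:ℝ) * cnt (fun e : V × V => H e.1 e.2 ∧ ¬ H1 e.1 e.2) ≤ W * (m / 4) := by nlinarith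
    exact le_of_mul_le_mul_left this W0'
  obtain ⟨G, hG, hG'⟩ := groups (H := fun y a => H a y) (w := fun y a => t a y / S)
    r.card r.Qp.le r.dp.le r.act2
  set dg : V → ℕ → ℝ := fun y u => cnt (fun a => H1 a y ∧ t a y / S = u) with hdg
  have low : cnt (fun e : V × V => H1 e.1 e.2 ∧ ¬ 6 ≤ dg e.2 (t e.1 e.2 / S)) ≤ G.card * 6 := by
    refine cnt_fib_le (fun e => (e.2, t e.1 e.2 / S)) G (fun e he => hG' _ _ he.1.1) ?_
    rintro ⟨y, u⟩ -
    by_cases c : 6 ≤ dg y u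
    · rw [cnt_zero]; · norm_num
      rintro ⟨a, y'⟩ ⟨⟨-, h1⟩, e⟩
      simp only [Prod.mk.injEq] at e
      obtain ⟨rfl, rfl⟩ := e
      exact h1 c
    · refine le_trans (cnt_inj (q := fun a => H1 a y ∧ t a y / S = u) (fun e => e.1) ?_ ?_)
        (not_le.1 c).le
      · rintro ⟨a, y'⟩ ⟨⟨h1, -⟩, e⟩
        simp only [Prod.mk.injEq] at e
        obtain ⟨rfl, rfl⟩ := e
        exact ⟨h1, rfl⟩
      · rintro ⟨a, y1⟩ ⟨b, y2⟩ ⟨-, h1⟩ ⟨-, h2⟩ e
        simp only [Prod.mk.injEq] at h1 h2 e ⊢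
        exact ⟨e, h1.1.trans h2.1.symm⟩
  have anchor : ∀ a u, ∃ ρ0 : ℕ, ∀ y, H1 a y → t a y / S = u →
      ρ0 ≤ rkN h (u * S) y / W + 1 ∧ rkN h (u * S) y / W ≤ ρ0 + 1 := by
    intro a u
    by_cases hex : ∃ y0, H1 a y0 ∧ t a y0 / S = u
    · obtain ⟨y0, g0, w0⟩ := hex
      have cl : ∀ y y', H1 a y → H1 a y' → t a y / S = u → t a y' / S = u →
          rkN h (u * S) y' / W ≤ rkN h (u * S) y / W + 1 := by
        intro y y' g g' w w'
        by_cases e : y = y'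
        · subst e; omega
        · have c := rk_cr r.inj S0 (r.fam.crU e g.1 g'.1 w w')
          have c1 := g.2
          have c2 := g'.2
          rw [w] at c1; rw [w'] at c2
          rw [rk_eq, rk_eq] at c
          have : rkN h (u * S) y' ≤ rkN h (u * S) y + W := by
            have : (rkN h (u * S) y' : ℝ) ≤ rkN h (u * S) y + W := by linarith
            exact_mod_cast this
          rw [← Nat.add_div_right _ W0]
          exact Nat.div_le_div_right this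
      exact ⟨rkN h (u * S) y0 / W, fun y g w => ⟨cl y y0 g g0 w w0, cl y0 y g0 g w0 w⟩⟩
    · exact ⟨0, fun y g w => absurd ⟨y, g, w⟩ hex⟩
  choose ρ0 hρ0 using anchor
  choose T hT hT' using r.act1
  set kf : V × V → ℕ × ℕ := fun e => (t e.1 e.2 / S, rkN h (t e.1 e.2 / S * S) e.2 / W)
  set Mk : ℕ × ℕ → V → Prop := fun k a => k.1 ∈ T a ∧ ρ0 a k.1 ≤ k.2 + 1 ∧ k.2 ≤ ρ0 a k.1 + 1
  have high : cnt (fun e : V × V => H1 e.1 e.2 ∧ 6 ≤ dg e.2 (t e.1 e.2 / S)) ≤
      ∑ k ∈ univ.image kf, 13 * φ ^ 2 * cnt (Mk k) := by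
    rw [cnt_fib _ kf (univ.image kf) (fun z _ => mem_image_of_mem _ (mem_univ _))]
    refine Finset.sum_le_sum fun k _ => ?_
    refine le_trans (cnt_mono ?_) (kst (G := fun a y => H1 a y ∧ t a y / S = k.1) r.noalt
      (r.fam.mono fun a y g => g.1.1) (fun y => rkN h (k.1 * S) y / W = k.2) (Mk k) ?_ φ0
      ((bucket_le r.inj _ W0 _).trans hφ))
    · rintro ⟨a, y⟩ ⟨⟨g, c⟩, rfl⟩
      exact ⟨⟨g, rfl⟩, rfl, c⟩
    · rintro a y ⟨g, w⟩ b
      have := hρ0 a k.1 y g w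
      rw [b] at this
      exact ⟨w ▸ hT' a y g.1, this⟩
  have sumM : (∑ k ∈ univ.image kf, cnt (Mk k)) * P ≤ 3 * (n * d) := by
    simp only [cnt_eq_sum]
    rw [Finset.sum_comm, Finset.sum_mul]
    have : ∀ a, (∑ k ∈ univ.image kf, @ite ℝ (Mk k a) (propDecidable _) 1 0) * P ≤ 3 * d := by
      intro a
      have h1 : ((univ.image kf).filter (fun k => Mk k a)).card ≤ (T a).card * 3 := by
        refine (card_le_card (t := (T a ×ˢ range 3).image
          (fun z : ℕ × ℕ => (z.1, ρ0 a z.1 + z.2 - 1))) ?_).trans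
          (card_image_le.trans (by rw [card_product, card_range]))
        intro k hk
        obtain ⟨-, h1, h2, h3⟩ := mem_filter.1 hk
        exact mem_image.2 ⟨(k.1, k.2 + 1 - ρ0 a k.1), mem_product.2 ⟨h1, mem_range.2 (by
          show k.2 + 1 - ρ0 a k.1 < 3; omega)⟩, Prod.ext rfl (by
          show ρ0 a k.1 + (k.2 + 1 - ρ0 a k.1) - 1 = k.2; omega)⟩
      have h2 : (∑ k ∈ univ.image kf, @ite ℝ (Mk k a) (propDecidable _) 1 0) ≤ (T a).card * 3 := by
        have h3 : (((univ.image kf).filter (fun k => Mk k a)).card : ℝ) ≤ (T a).card * 3 := by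
          exact_mod_cast h1
        refine le_trans (le_of_eq ?_) h3
        rw [Finset.card_filter]; push_cast
        exact Finset.sum_congr rfl fun k _ => by by_cases c : Mk k a <;> simp [c]
      nlinarith [hT a, mul_le_mul_of_nonneg_right h2 Pp.le]
    calc _ ≤ ∑ _a : V, 3 * d := Finset.sum_le_sum fun a _ => this a
      _ = Fintype.card V * (3 * d) := by simp
      _ ≤ n * (3 * d) := mul_le_mul_of_nonneg_right r.card (by positivity)
      _ = 3 * (n * d) := by ring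
  rw [← Finset.mul_sum] at high
  have s1 := cnt_split (fun e : V × V => H e.1 e.2) (fun e => H1 e.1 e.2)
  have s2 := cnt_split (fun e : V × V => H1 e.1 e.2) (fun e => 6 ≤ dg e.2 (t e.1 e.2 / S))
  have s3 : cnt (fun e : V × V => H e.1 e.2 ∧ H1 e.1 e.2) ≤ cnt (fun e : V × V => H1 e.1 e.2) :=
    cnt_mono fun e he => he.2
  have mp : 0 < m := by
    by_contra hc; push Not at hc; nlinarith [mul_pos np dp]
  have l1 : (G.card : ℝ) * 6 ≤ m / 4 := by
    have : (G.card : ℝ) * (24 * σ) ≤ G.card * Q := mul_le_mul_of_nonneg_left hQ (by positivity)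
    have : σ * (G.card * 6) ≤ σ * (m / 4) := by nlinarith
    exact le_of_mul_le_mul_left this sp
  set SM := ∑ k ∈ univ.image kf, cnt (Mk k)
  have l2 : m / 2 ≤ 13 * φ ^ 2 * SM := by linarith
  have l3 : m / 2 * P ≤ 13 * φ ^ 2 * (3 * (σ * m)) := by
    calc m / 2 * P ≤ 13 * φ ^ 2 * SM * P := mul_le_mul_of_nonneg_right l2 Pp.le
      _ = 13 * φ ^ 2 * (SM * P) := by ring
      _ ≤ _ := mul_le_mul_of_nonneg_left (by linarith) (by positivity)
  have : m * P ≤ m * (78 * σ * φ ^ 2) := by nlinarith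
  exact le_of_mul_le_mul_left this mp

end Pool.Agent.Lib.MP_65c801_co
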