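import Pool.Agent.Lib.MP_65c801_co.Arr

/-! Parameters on a Jordan curve. -/

namespace Pool.Agent.Lib.MP_65c801_co

open Classical

/-- cyclic numbering of a finite set of points of the circle -/
theorem exists_tau (T : Finset Circle) (hT : T.Nonempty) : ∃ τ : ℤ → ℝ, StrictMono τ ∧
    (∀ k, τ (k + T.card) = τ k + 2 * Real.pi) ∧ ∀ t : ℝ, Circle.exp t ∈ T ↔ ∃ k, τ k = t := by
  set S : Finset ℝ := T.image (fun z : Circle => Complex.arg (z : ℂ)) with hS
  have hcard : S.card = T.card := Finset.card_image_of_injective _ Circle.injective_arg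
  have hm : 0 < T.card := hT.card_pos
  have hmz : (0 : ℤ) < (T.card : ℤ) := by exact_mod_cast hm
  let e := S.orderEmbOfFin hcard
  have hlt : ∀ k : ℤ, (k % (T.card : ℤ)).toNat < T.card := by
    intro k
    have h1 := Int.emod_nonneg k hmz.ne'
    have h2 := Int.emod_lt_of_pos k hmz
    omega
  let r : ℤ → Fin T.card := fun k => ⟨(k % (T.card : ℤ)).toNat, hlt k⟩
  have hmem : ∀ j, e j ∈ S := fun j => Finset.orderEmbOfFin_mem S hcard j
  have hb : ∀ j, -Real.pi < e j ∧ e j ≤ Real.pi := by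
    intro j
    obtain ⟨z, -, hz⟩ := Finset.mem_image.1 (hmem j)
    rw [← hz]
    exact ⟨Complex.neg_pi_lt_arg _, Complex.arg_le_pi _⟩
  refine ⟨fun k => e (r k) + 2 * Real.pi * ((k / (T.card : ℤ) : ℤ) : ℝ), ?_, ?_, ?_⟩
  · intro k l hkl
    have hle : k / (T.card : ℤ) ≤ l / (T.card : ℤ) := Int.ediv_le_ediv hmz hkl.le
    rcases hle.eq_or_lt with heq | hl
    · have h1 := Int.emod_add_mul_ediv k (T.card : ℤ)
      have h2 := Int.emod_add_mul_ediv l (T.card : ℤ)
      have h3 : k % (T.card : ℤ) < l % (T.card : ℤ) := by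
        rw [heq] at h1
        linarith
      have h4 := Int.emod_nonneg k hmz.ne'
      have h5 : r k < r l := by
        show (k % (T.card : ℤ)).toNat < (l % (T.card : ℤ)).toNat
        omega
      have h6 : e (r k) < e (r l) := e.strictMono h5
      show e (r k) + 2 * Real.pi * ((k / (T.card : ℤ) : ℤ) : ℝ)
        < e (r l) + 2 * Real.pi * ((l / (T.card : ℤ) : ℤ) : ℝ)
      rw [heq]
      linarith
    · have h1 : ((k / (T.card : ℤ) : ℤ) : ℝ) + 1 ≤ ((l / (T.card : ℤ) : ℤ) : ℝ) := by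
        exact_mod_cast hl
      have h2 := hb (r k)
      have h3 := hb (r l)
      have h4 := Real.pi_pos
      show e (r k) + 2 * Real.pi * ((k / (T.card : ℤ) : ℤ) : ℝ)
        < e (r l) + 2 * Real.pi * ((l / (T.card : ℤ) : ℤ) : ℝ)
      nlinarith
  · intro k
    have h1 : r (k + T.card) = r k := by
      apply Fin.ext
      show ((k + T.card) % (T.card : ℤ)).toNat = (k % (T.card : ℤ)).toNat
      rw [Int.add_emod_right]
    have h2 : (k + T.card) / (T.card : ℤ) = k / (T.card : ℤ) + 1 := by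
      have := Int.add_mul_ediv_right k 1 hmz.ne'
      rwa [one_mul] at this
    show e (r (k + T.card)) + 2 * Real.pi * (((k + T.card) / (T.card : ℤ) : ℤ) : ℝ)
      = e (r k) + 2 * Real.pi * ((k / (T.card : ℤ) : ℤ) : ℝ) + 2 * Real.pi
    rw [h1, h2]
    push_cast
    ring
  · intro t
    constructor
    · intro ht
      have h1 : Complex.arg ((Circle.exp t : Circle) : ℂ) ∈ S := Finset.mem_image_of_mem _ ht
      have h2 : Complex.arg ((Circle.exp t : Circle) : ℂ) ∈ Set.range e := by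
        rw [Finset.range_orderEmbOfFin]
        exact h1
      obtain ⟨j, hj⟩ := h2
      have h3 : Circle.exp t = Circle.exp (e j) := by rw [hj, Circle.exp_arg]
      obtain ⟨n, hn⟩ := Circle.exp_eq_exp.1 h3
      have hj0 : (0 : ℤ) ≤ (j : ℕ) := Int.natCast_nonneg _
      have hj1 : ((j : ℕ) : ℤ) < (T.card : ℤ) := by exact_mod_cast j.2
      have h4 : (((j : ℕ) : ℤ) + n * (T.card : ℤ)) % (T.card : ℤ) = (j : ℕ) := by
        rw [Int.add_mul_emod_self_right, Int.emod_eq_of_lt hj0 hj1]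
      have h5 : (((j : ℕ) : ℤ) + n * (T.card : ℤ)) / (T.card : ℤ) = n := by
        rw [Int.add_mul_ediv_right _ _ hmz.ne', Int.ediv_eq_zero_of_lt hj0 hj1, zero_add]
      refine ⟨((j : ℕ) : ℤ) + n * (T.card : ℤ), ?_⟩
      have h6 : r (((j : ℕ) : ℤ) + n * (T.card : ℤ)) = j := by
        apply Fin.ext
        show ((((j : ℕ) : ℤ) + n * (T.card : ℤ)) % (T.card : ℤ)).toNat = (j : ℕ)
        rw [h4, Int.toNat_natCast]
      show e (r (((j : ℕ) : ℤ) + n * (T.card : ℤ)))
        + 2 * Real.pi * (((((j : ℕ) : ℤ) + n * (T.card : ℤ)) / (T.card : ℤ) : ℤ) : ℝ) = t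
      rw [h6, h5, hn]
      ring
    · rintro ⟨k, hk⟩
      obtain ⟨z, hz, hz'⟩ := Finset.mem_image.1 (hmem (r k))
      have h1 : Circle.exp t = z := by
        rw [← Circle.exp_arg z, hz']
        refine Circle.exp_eq_exp.2 ⟨k / (T.card : ℤ), ?_⟩
        rw [← hk]
        ring
      rw [h1]
      exact hz

/-- two cuts separate a Jordan curve -/
theorem cut_sep {γ : Circle → ℂ} (hc : Continuous γ) (hi : Function.Injective γ) {Y : Set ℂ}
    {a s b t : ℝ} (h1 : a < s) (h2 : s < b) (h3 : b < t) (h4 : t < a + 2 * Real.pi)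
    (ha : γ (Circle.exp a) ∈ Y) (hb : γ (Circle.exp b) ∈ Y) {S : Set ℂ} (hS : IsPreconnected S)
    (hY : S ⊆ Set.range γ \ Y) (hs : γ (Circle.exp s) ∈ S) (ht : γ (Circle.exp t) ∈ S) : False := by
  have hf : Continuous fun x : ℝ => γ (Circle.exp x) := hc.comp Circle.exp.continuous
  have hA : IsClosed ((fun x : ℝ => γ (Circle.exp x)) '' Set.Icc a b) :=
    (isCompact_Icc.image hf).isClosed
  have hB : IsClosed ((fun x : ℝ => γ (Circle.exp x)) '' Set.Icc b (a + 2 * Real.pi)) :=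
    (isCompact_Icc.image hf).isClosed
  have hcov : S ⊆ (fun x : ℝ => γ (Circle.exp x)) '' Set.Icc a b ∪
      (fun x : ℝ => γ (Circle.exp x)) '' Set.Icc b (a + 2 * Real.pi) := by
    intro p hp
    obtain ⟨⟨z, hz⟩, -⟩ := hY hp
    have hz2 : z ∈ Circle.exp '' Set.Icc a (a + 2 * Real.pi) := by
      rw [Circle.periodic_exp.image_Icc Real.two_pi_pos, Circle.exp_surjective.range_eq]
      trivial
    obtain ⟨x, ⟨hx1, hx2⟩, hx⟩ := hz2
    rcases le_total x b with h | h
    · exact Or.inl ⟨x, ⟨hx1, h⟩, by simp only [hx, hz]⟩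
    · exact Or.inr ⟨x, ⟨h, hx2⟩, by simp only [hx, hz]⟩
  obtain ⟨p, hp, ⟨x, ⟨hx1, hx2⟩, hx⟩, ⟨y, ⟨hy1, hy2⟩, hy⟩⟩ :=
    isPreconnected_closed_iff.1 hS _ _ hA hB hcov
      ⟨_, hs, s, ⟨h1.le, h2.le⟩, rfl⟩ ⟨_, ht, t, ⟨h3.le, h4.le⟩, rfl⟩
  have hpY : p ∉ Y := (hY hp).2
  have hxy : Circle.exp x = Circle.exp y := hi (by
    simp only at hx hy
    rw [hx, hy])
  rcases hx1.eq_or_lt with hxa | hxa
  · apply hpY
    rw [← hx]
    simp only
    rw [← hxa]
    exact ha
  · have hxy' : x = y :=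
      Circle.exp_injOn_Ioc (a := a) (b := a + 2 * Real.pi) (by linarith)
        ⟨hxa, by linarith⟩ ⟨by linarith, hy2⟩ hxy
    have hxb : x = b := le_antisymm hx2 (hxy' ▸ hy1)
    apply hpY
    rw [← hx]
    simp only
    rw [hxb]
    exact hb

end Pool.Agent.Lib.MP_65c801_co
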