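import Pool.Agent.Lib.MP_65c801_co.Build2
import Pool.Agent.Lib.MP_65c801_co.Tau

/-! The combinatorial arrangement of a family of pseudo-circles. -/

namespace Pool.Agent.Lib.MP_65c801_co

open Classical

namespace BuildAux

/-- the points lying on two different curves -/
def PP {n : ℕ} (γ : Fin n → Circle → ℂ) : Set ℂ :=
  {p | ∃ i j, i ≠ j ∧ p ∈ Set.range (γ i) ∩ Set.range (γ j)}

lemma PP_card {n : ℕ} {γ : Fin n → Circle → ℂ}
    (h2 : ∀ i j, i ≠ j → (Set.range (γ i) ∩ Set.range (γ j)).encard ≤ 2) :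
    ∃ Q : Finset ℂ, Q.card ≤ 2 * n ^ 2 ∧ ∀ p, p ∈ Q ↔ p ∈ PP γ := by
  have h : ∀ u : Fin n × Fin n, ∃ Q : Finset ℂ, Q.card ≤ 2 ∧
      ∀ p, p ∈ Q ↔ u.1 ≠ u.2 ∧ p ∈ Set.range (γ u.1) ∩ Set.range (γ u.2) := by
    rintro ⟨i, j⟩
    by_cases hij : i = j
    · exact ⟨∅, by simp, fun p => by simp [hij]⟩
    · have h3 := h2 i j hij
      have h4 : (Set.range (γ i) ∩ Set.range (γ j)).Finite := Set.finite_of_encard_le_coe (k := 2) h3
      refine ⟨h4.toFinset, ?_, fun p => by simp only [Set.Finite.mem_toFinset, ne_eq, hij,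
        not_false_eq_true, true_and]⟩
      rw [h4.encard_eq_coe_toFinset_card] at h3
      exact_mod_cast h3
  choose Q h3 h4 using h
  refine ⟨Finset.univ.biUnion Q, ?_, fun p => ?_⟩
  · refine (Finset.card_biUnion_le_card_mul _ _ 2 fun u _ => h3 u).trans (le_of_eq ?_)
    simp only [Finset.card_univ, Fintype.card_prod, Fintype.card_fin]
    ring
  · simp only [Finset.mem_biUnion, Finset.mem_univ, true_and, h4, PP, Set.mem_ofPred_eq, Prod.exists]

lemma mem_PP {n : ℕ} {γ : Fin n → Circle → ℂ} {i : Fin n} {p : ℂ} (hp : p ∈ PP γ) :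
    ∃ j, j ≠ i ∧ p ∈ Set.range (γ j) := by
  obtain ⟨j, l, h1, h2, h3⟩ := hp
  by_cases h : j = i
  · exact ⟨l, fun h4 => h1 (h.trans h4.symm), h3⟩
  · exact ⟨j, h, h2⟩

end BuildAux

open BuildAux

theorem exists_arr (n : ℕ) (γ : Fin n → Circle → ℂ) (hc : ∀ i, Continuous (γ i))
    (hi : ∀ i, Function.Injective (γ i))
    (h2 : ∀ i j, i ≠ j → (Set.range (γ i) ∩ Set.range (γ j)).encard ≤ 2)
    (hx : ∀ i j, i ≠ j → ∀ p ∈ Set.range (γ i) ∩ Set.range (γ j),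
      CrossesAt (Set.range (γ i)) (Set.range (γ j)) p) :
    ∃ (ι X Vx : Type) (_ : Fintype ι) (_ : Fintype X) (_ : Fintype Vx) (A : Arr ι X Vx)
      (e : ι → Fin n) (τ : ι → ℤ → ℝ) (pt : Vx → ℂ), Function.Injective e ∧
      Fintype.card Vx ≤ 2 * n ^ 2 ∧ Function.Injective pt ∧ (∀ i, StrictMono (τ i)) ∧
      (∀ i k, τ i (k + A.m i) = τ i k + 2 * Real.pi) ∧
      (∀ i k, pt (A.vt (A.dart i k true)) = γ (e i) (Circle.exp (τ i k))) ∧
      ∀ i j, i ≠ j → ∀ t : ℝ, γ i (Circle.exp t) ∈ Set.range (γ j) → ∃ i' k, e i' = i ∧ τ i' k = t := by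
  obtain ⟨Q, hQ, hP⟩ := PP_card h2
  let ι : Type := {i : Fin n // ∃ z, γ i z ∈ Q}
  have h1 : ∀ i : ι, ∃ (m : ℕ) (τ : ℤ → ℝ), 0 < m ∧ StrictMono τ ∧
      (∀ k, τ (k + m) = τ k + 2 * Real.pi) ∧ ∀ t : ℝ, γ i.1 (Circle.exp t) ∈ Q ↔ ∃ k, τ k = t := by
    rintro ⟨i, z, hz⟩
    have h3 : (Q.preimage (γ i) (hi i).injOn).Nonempty := ⟨z, Finset.mem_preimage.2 hz⟩
    obtain ⟨τ, h4, h5, h6⟩ := exists_tau _ h3
    exact ⟨_, τ, h3.card_pos, h4, h5, fun t => Finset.mem_preimage.symm.trans (h6 t)⟩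
  choose m τ mpos mono per hτ using h1
  have : ∀ i, NeZero (m i) := fun i => ⟨(mpos i).ne'⟩
  let X : Type := Σ i : ι, ZMod (m i) × Bool
  have hne : ∀ {i j : ι}, i ≠ j → i.1 ≠ j.1 := fun h h' => h (Subtype.ext h')
  let S : St ι X :=
    { γ := fun i => γ i.1
      hc := fun i => hc i.1
      hi := fun i => hi i.1
      h2 := fun i j h => h2 _ _ (hne h)
      hx := fun i j h => hx _ _ (hne h)
      m := m
      mpos := mpos
      τ := τ
      mono := mono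
      per := per
      meet := fun i j h t ht => (hτ i t).1 ((hP _).2 ⟨_, _, hne h, ⟨_, rfl⟩, ht⟩)
      other := fun i k => by
        have h3 := (hτ i _).2 ⟨k, rfl⟩
        obtain ⟨j, h4, z, h5⟩ := mem_PP (i := i.1) ((hP _).1 h3)
        exact ⟨⟨j, z, h5 ▸ h3⟩, fun h => h4 (congrArg Subtype.val h), z, h5⟩
      dart := fun i k e => ⟨i, (k : ZMod (m i)), e⟩
      surj := fun x => by
        obtain ⟨i, u, e⟩ := x
        obtain ⟨k, rfl⟩ := ZMod.intCast_surjective u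
        exact ⟨i, k, e, rfl⟩
      deq := fun i k e j l e' => by
        constructor
        · intro h
          obtain rfl : i = j := congrArg Sigma.fst h
          obtain ⟨h3, h4⟩ := Prod.mk.inj (eq_of_heq (Sigma.mk.inj h).2)
          exact ⟨rfl, h4, (ZMod.intCast_eq_intCast_iff_dvd_sub _ _ _).1 h3.symm⟩
        · rintro ⟨rfl, rfl, h⟩
          rw [(ZMod.intCast_eq_intCast_iff_dvd_sub _ _ _).2 h] }
  have hv : ∀ x, S.p x 0 ∈ Q := fun x => by
    obtain ⟨i, k, e, rfl⟩ := S.surj x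
    rw [St.p_zero]
    exact (hτ i _).2 ⟨k, rfl⟩
  obtain ⟨A, a1, a2, a3⟩ := S.arr (Vx := {p // p ∈ Q}) Subtype.val Subtype.val_injective
    (fun x => ⟨S.p x 0, hv x⟩) fun _ => rfl
  refine ⟨ι, X, {p // p ∈ Q}, inferInstance, inferInstance, inferInstance, A, Subtype.val, τ,
    Subtype.val, Subtype.val_injective, by rwa [Fintype.card_coe], Subtype.val_injective, mono,
    fun i k => ?_, fun i k => ?_, fun i j h t ht => ?_⟩
  · rw [a1]
    exact per i k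
  · rw [a2, a3]
    exact S.p_zero i k true
  · have h3 : γ i (Circle.exp t) ∈ Q := (hP _).2 ⟨_, _, h, ⟨_, rfl⟩, ht⟩
    obtain ⟨k, hk⟩ := (hτ ⟨i, _, h3⟩ t).1 h3
    exact ⟨⟨i, _, h3⟩, k, rfl, hk⟩

end Pool.Agent.Lib.MP_65c801_co
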