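import Pool.Agent.Lib.MP_65c801_co.Wind

/-! Winding numbers tell the components of the complement of a Jordan curve apart. -/

namespace Pool.Agent.Lib.MP_65c801_co

open Classical Complex

namespace EilenAux

open Set

lemma const {f : ℝ → ℂ} (hf : Continuous f) (h : ∀ t, exp (f t) = 1) (s t : ℝ) : f s = f t := by
  have hc : (range fun n : ℤ => (n : ℂ) * (2 * Real.pi * I)).Countable := countable_range _
  refine hc.isTotallyDisconnected (range f) ?_ (isPreconnected_range hf) ⟨s, rfl⟩ ⟨t, rfl⟩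
  rintro _ ⟨u, rfl⟩
  obtain ⟨n, hn⟩ := exp_eq_one_iff.1 (h u)
  exact ⟨n, hn.symm⟩

lemma shift {γ : Circle → ℂ} {q : ℂ} {L : ℝ → ℂ} (c : Continuous L)
    (e : ∀ t, exp (L t) = γ (Circle.exp t) - q) {x : ℂ} {t0 : ℝ}
    (h : L (t0 + 2 * Real.pi) - L t0 = x) (t : ℝ) : L (t + 2 * Real.pi) - L t = x := by
  rw [← h]
  refine const (f := fun t => L (t + 2 * Real.pi) - L t) (by fun_prop) (fun u => ?_) t t0
  rw [exp_sub, e (u + _), Circle.exp_add_two_pi, ← e u, div_self (exp_ne_zero _)]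

lemma exists_log {H : ℂ → ℂ} (hH : Continuous H) (h0 : ∀ z, H z ≠ 0) :
    ∃ l : ℂ → ℂ, Continuous l ∧ ∀ z, exp (l z) = H z := by
  obtain ⟨f, ⟨-, hf⟩, -⟩ := isCoveringMapOn_exp.existsUnique_continuousMap_lifts
    (⟨H, hH⟩ : C(ℂ, ℂ)) (a₀ := 0) (exp_log (h0 0)) h0
  exact ⟨f, f.continuous, fun z => congrFun hf z⟩

lemma closure_sub {K : Set ℂ} (hK : IsClosed K) (q : ℂ) :
    closure (connectedComponentIn Kᶜ q) ⊆ connectedComponentIn Kᶜ q ∪ K := by
  intro z hz
  by_cases h : z ∈ K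
  · exact Or.inr h
  obtain ⟨w, h1, h2⟩ := mem_closure_iff.1 hz _ (hK.isOpen_compl.connectedComponentIn (x := z))
    (mem_connectedComponentIn h)
  left
  rw [connectedComponentIn_eq h2, ← connectedComponentIn_eq h1]
  exact mem_connectedComponentIn h

lemma glue {γ : Circle → ℂ} (hc : Continuous γ) (hi : Function.Injective γ) {q1 q2 : ℂ}
    (h1 : q1 ∉ range γ) (hne : q2 ∉ connectedComponentIn (range γ)ᶜ q1)
    (hU : Bornology.IsBounded (connectedComponentIn (range γ)ᶜ q1))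
    {L1 L2 : ℝ → ℂ} (c1 : Continuous L1) (c2 : Continuous L2)
    (e1 : ∀ t, exp (L1 t) = γ (Circle.exp t) - q1) (e2 : ∀ t, exp (L2 t) = γ (Circle.exp t) - q2)
    {a b : ℤ} {t0 : ℝ} (ha : L1 (t0 + 2 * Real.pi) - L1 t0 = 2 * Real.pi * I * a)
    (hb : L2 (t0 + 2 * Real.pi) - L2 t0 = 2 * Real.pi * I * b) {al be : ℤ}
    (hab : be * a = al * b) : be = 0 := by
  have hK : IsClosed (range γ) := (isCompact_range hc).isClosed
  set U := connectedComponentIn (range γ)ᶜ q1 with hUd
  have hUo : IsOpen U := hK.isOpen_compl.connectedComponentIn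
  have h2 : q2 ∉ range γ := by
    rintro ⟨z, hz⟩
    obtain ⟨t, rfl⟩ := Circle.exp_surjective z
    exact exp_ne_zero _ (by rw [e2 t, hz, sub_self])
  have hq1 : q1 ∈ U := mem_connectedComponentIn h1
  have hq2 : ∀ z ∈ closure U, z - q2 ≠ 0 := fun z hz e => by
    rw [sub_eq_zero.1 e] at hz
    exact (closure_sub hK q1 hz).elim hne h2
  set G : ℝ → ℂ := fun t => be * L1 t - al * L2 t with hG
  have hper : Function.Periodic G (2 * Real.pi) := fun t => by
    have h3 := shift c1 e1 ha t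
    have h4 := shift c2 e2 hb t
    have h5 : (be : ℂ) * a = al * b := by exact_mod_cast hab
    simp only [hG]
    linear_combination be * h3 - al * h4 + 2 * Real.pi * I * h5
  have hG' : (fun z : Circle => G (arg z)) ∘ Circle.exp = G := funext fun t => by
    obtain ⟨m, hm⟩ := Circle.exp_eq_exp.1 (Circle.exp_arg (Circle.exp t))
    rw [Function.comp_apply, hm]
    exact hper.int_mul m t
  have hq : Topology.IsQuotientMap Circle.exp :=
    isLocalHomeomorph_circleExp.isOpenMap.isQuotientMap Circle.exp.continuous Circle.exp_surjective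
  have hGc : Continuous fun z : Circle => G (arg z) :=
    hq.continuous_iff.2 (by rw [hG']; fun_prop)
  obtain ⟨g, hg⟩ := ContinuousMap.exists_extension' (hc.isClosedEmbedding hi) ⟨_, hGc⟩
  have hgK : ∀ z ∈ range γ, exp (g z) * (z - q2) ^ al = (z - q1) ^ be := by
    rintro _ ⟨z, rfl⟩
    obtain ⟨t, rfl⟩ := Circle.exp_surjective z
    have h3 : g (γ (Circle.exp t)) = G t := (congrFun hg _).trans (congrFun hG' t)
    rw [h3, ← e1, ← e2, ← exp_int_mul, ← exp_int_mul, ← exp_add, hG]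
    simp
  have hH : Continuous fun z => if z ∈ U then exp (g z) * (z - q2) ^ al else (z - q1) ^ be := by
    refine continuous_if (fun z hz => hgK z ?_) ?_ ?_
    · rw [setOf_mem_eq, hUo.frontier_eq] at hz
      exact (closure_sub hK q1 hz.1).resolve_left hz.2
    · exact ContinuousOn.mul (by fun_prop)
        (ContinuousOn.zpow₀ (by fun_prop) _ fun z hz => Or.inl (hq2 z hz))
    · refine ContinuousOn.zpow₀ (by fun_prop) _ fun z hz => Or.inl fun e => ?_
      rw [sub_eq_zero.1 e] at hz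
      exact hUo.isClosed_compl.closure_subset hz hq1
  obtain ⟨l, hl, hle⟩ := exists_log hH fun z => by
    split_ifs with hz
    · exact mul_ne_zero (exp_ne_zero _) (zpow_ne_zero _ (hq2 z (subset_closure hz)))
    · exact zpow_ne_zero _ fun e => hz (sub_eq_zero.1 e ▸ hq1)
  obtain ⟨R, hR0, hR⟩ := hU.subset_ball_lt 0 q1
  have hout : ∀ φ : ℝ, q1 + exp (Real.log R + φ * I) ∉ U := fun φ hφ => by
    have := hR hφ
    rw [mem_ball_iff_norm, add_sub_cancel_left, norm_exp] at this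
    simp [Real.exp_log hR0] at this
  have h3 := const (f := fun φ : ℝ => be * (Real.log R + φ * I) - l (q1 + exp (Real.log R + φ * I)))
    (by fun_prop) (fun φ => by
      rw [exp_sub, hle, if_neg (hout φ), add_sub_cancel_left, exp_int_mul,
        div_self (zpow_ne_zero _ (exp_ne_zero _))]) (2 * Real.pi) 0
  have h4 : exp (Real.log R + ((2 * Real.pi : ℝ) : ℂ) * I) = exp (Real.log R + ((0 : ℝ) : ℂ) * I) := by
    push_cast
    rw [exp_add, exp_two_pi_mul_I, zero_mul, add_zero, mul_one]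
  rw [h4] at h3
  have h5 : (be : ℂ) * (2 * Real.pi * I) = 0 := by
    push_cast at h3
    linear_combination h3
  exact_mod_cast (mul_eq_zero.1 h5).resolve_right two_pi_I_ne_zero

lemma bounded {K : Set ℂ} (hK : Bornology.IsBounded K) {q1 q2 : ℂ}
    (h1 : ¬Bornology.IsBounded (connectedComponentIn Kᶜ q1))
    (h2 : ¬Bornology.IsBounded (connectedComponentIn Kᶜ q2)) :
    connectedComponentIn Kᶜ q1 = connectedComponentIn Kᶜ q2 := by
  obtain ⟨R, hR0, hR⟩ := hK.subset_ball_lt 0 0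
  set E := (fun p : ℝ × ℝ => (p.1 : ℂ) * exp (p.2 * I)) '' (Ici R ×ˢ univ) with hE
  have hEc : IsPreconnected E :=
    (isPreconnected_Ici.prod isPreconnected_univ).image _ (Continuous.continuousOn (by fun_prop))
  have hEK : E ⊆ Kᶜ := by
    rintro _ ⟨p, hp, rfl⟩ h
    have h3 := hR h
    have h4 : R ≤ p.1 := hp.1
    rw [mem_ball_zero_iff, norm_mul, norm_exp_ofReal_mul_I, mul_one, norm_real,
      Real.norm_of_nonneg (hR0.le.trans h4)] at h3
    exact h3.not_ge h4
  have key : ∀ q, ¬Bornology.IsBounded (connectedComponentIn Kᶜ q) →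
      ∃ z ∈ E, z ∈ connectedComponentIn Kᶜ q := fun q hq => by
    obtain ⟨z, hz, hz'⟩ := not_subset.1 fun h => hq ((Metric.isBounded_ball (x := 0) (r := R)).subset h)
    exact ⟨z, ⟨(‖z‖, arg z), ⟨by simpa using hz', trivial⟩, norm_mul_exp_arg_mul_I z⟩, hz⟩
  obtain ⟨z1, a1, b1⟩ := key q1 h1
  obtain ⟨z2, a2, b2⟩ := key q2 h2
  rw [connectedComponentIn_eq b1, connectedComponentIn_eq b2]
  exact connectedComponentIn_eq (hEc.subset_connectedComponentIn a1 hEK a2)

end EilenAux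

theorem eilen {γ : Circle → ℂ} (hc : Continuous γ) (hi : Function.Injective γ) {q1 q2 : ℂ}
    (h1 : q1 ∉ Set.range γ) (hne : q2 ∉ connectedComponentIn (Set.range γ)ᶜ q1)
    {L1 L2 : ℝ → ℂ} (c1 : Continuous L1) (c2 : Continuous L2)
    (e1 : ∀ t, exp (L1 t) = γ (Circle.exp t) - q1) (e2 : ∀ t, exp (L2 t) = γ (Circle.exp t) - q2)
    {a b : ℤ} {t0 : ℝ} (ha : L1 (t0 + 2 * Real.pi) - L1 t0 = 2 * Real.pi * I * a)
    (hb : L2 (t0 + 2 * Real.pi) - L2 t0 = 2 * Real.pi * I * b) : a ≠ b ∧ (a = 0 ∨ b = 0) := by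
  have h2 : q2 ∉ Set.range γ := by
    rintro ⟨z, hz⟩
    obtain ⟨t, rfl⟩ := Circle.exp_surjective z
    exact exp_ne_zero _ (by rw [e2 t, hz, sub_self])
  by_cases hU : Bornology.IsBounded (connectedComponentIn (Set.range γ)ᶜ q1)
  · exact ⟨fun h => one_ne_zero (EilenAux.glue hc hi h1 hne hU c1 c2 e1 e2 ha hb (al := 1)
      (by rw [h])), Or.inr (EilenAux.glue hc hi h1 hne hU c1 c2 e1 e2 ha hb (mul_comm b a))⟩
  have hU2 : Bornology.IsBounded (connectedComponentIn (Set.range γ)ᶜ q2) := by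
    by_contra h
    exact hne (EilenAux.bounded (isCompact_range hc).isBounded hU h ▸ mem_connectedComponentIn h2)
  have hne' : q1 ∉ connectedComponentIn (Set.range γ)ᶜ q2 := fun h =>
    hne (connectedComponentIn_eq h ▸ mem_connectedComponentIn h2)
  exact ⟨fun h => one_ne_zero (EilenAux.glue hc hi h2 hne' hU2 c2 c1 e2 e1 hb ha (al := 1)
    (by rw [h])), Or.inl (EilenAux.glue hc hi h2 hne' hU2 c2 c1 e2 e1 hb ha (mul_comm a b))⟩

end Pool.Agent.Lib.MP_65c801_co
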