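import Pool.Agent.Lib.MP_65c801_co.Wheel
import Pool.Agent.Lib.MP_65c801_co.Eilen

/-! Half-edges of a family of Jordan curves. -/

namespace Pool.Agent.Lib.MP_65c801_co

namespace BuildAux

open Finset Classical Complex

/-- the sign of a direction -/
def sg (e : Bool) : ℤ := if e then 1 else -1

@[simp] lemma sg_true : sg true = 1 := rfl

@[simp] lemma sg_false : sg false = -1 := rfl

lemma sg_not (e : Bool) : sg (!e) = - sg e := by cases e <;> rfl

/-- the parameter along a half-edge -/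
noncomputable def th (τ : ℤ → ℝ) (k : ℤ) (e : Bool) (s : ℝ) : ℝ :=
  τ k + s * (τ (k + sg e) - τ k) / 2

lemma th_zero (τ : ℤ → ℝ) (k : ℤ) (e : Bool) : th τ k e 0 = τ k := by simp [th]

lemma th_one (τ : ℤ → ℝ) (k : ℤ) (e : Bool) : th τ (k + sg e) (!e) 1 = th τ k e 1 := by
  have h : k + sg e + sg (!e) = k := by rw [sg_not]; ring
  simp only [th, h]
  ring

lemma th_cont (τ : ℤ → ℝ) (k : ℤ) (e : Bool) : Continuous (th τ k e) := by
  unfold th
  fun_prop

lemma th_true {τ : ℤ → ℝ} (hτ : StrictMono τ) (k : ℤ) {s : ℝ} (hs : s ∈ Set.Icc (0 : ℝ) 1) :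
    τ k ≤ th τ k true s ∧ th τ k true s < τ (k + 1) ∧ (0 < s → τ k < th τ k true s) := by
  have h : τ k < τ (k + 1) := hτ (by omega)
  obtain ⟨h0, h1⟩ := hs
  simp only [th, sg_true]
  refine ⟨by nlinarith, by nlinarith, fun h2 => by nlinarith⟩

lemma th_false {τ : ℤ → ℝ} (hτ : StrictMono τ) (k : ℤ) {s : ℝ} (hs : s ∈ Set.Icc (0 : ℝ) 1) :
    th τ k false s ≤ τ k ∧ τ (k + -1) < th τ k false s ∧ (0 < s → th τ k false s < τ k) := by
  have h : τ (k + -1) < τ k := hτ (by omega)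
  obtain ⟨h0, h1⟩ := hs
  simp only [th, sg_false]
  refine ⟨by nlinarith, by nlinarith, fun h2 => by nlinarith⟩

lemma th_ne {τ : ℤ → ℝ} (hτ : StrictMono τ) (k l : ℤ) (e : Bool) {s : ℝ}
    (hs : s ∈ Set.Ioc (0 : ℝ) 1) : τ l ≠ th τ k e s := by
  intro h
  have hs' : s ∈ Set.Icc (0 : ℝ) 1 := ⟨hs.1.le, hs.2⟩
  cases e
  · obtain ⟨-, h2, h3⟩ := th_false hτ k hs'
    have h4 := hτ.lt_iff_lt.1 (h2.trans_eq h.symm)
    have h5 := hτ.lt_iff_lt.1 (h.trans_lt (h3 hs.1))
    omega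
  · obtain ⟨-, h2, h3⟩ := th_true hτ k hs'
    have h4 := hτ.lt_iff_lt.1 (h.trans_lt h2)
    have h5 := hτ.lt_iff_lt.1 ((h3 hs.1).trans_eq h.symm)
    omega

lemma th_inj {τ : ℤ → ℝ} (hτ : StrictMono τ) {k l : ℤ} {e e' : Bool} {s t : ℝ}
    (hs : s ∈ Set.Ioc (0 : ℝ) 1) (ht : t ∈ Set.Icc (0 : ℝ) 1) (h : th τ k e s = th τ l e' t) :
    (l = k ∧ e' = e ∧ t = s) ∨ (l = k + sg e ∧ e' = !e ∧ s = 1 ∧ t = 1) := by
  have hs' : s ∈ Set.Icc (0 : ℝ) 1 := ⟨hs.1.le, hs.2⟩
  cases e <;> cases e'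
  · obtain ⟨-, h2, h3⟩ := th_false hτ k hs'
    obtain ⟨h4, h5, -⟩ := th_false hτ l ht
    have h6 := hτ.lt_iff_lt.1 ((h2.trans_eq h).trans_le h4)
    have h7 := hτ.lt_iff_lt.1 ((h5.trans_eq h.symm).trans (h3 hs.1))
    obtain rfl : l = k := by omega
    have h8 : τ (l + -1) < τ l := hτ (by omega)
    simp only [th, sg_false] at h
    refine Or.inl ⟨rfl, rfl, ?_⟩
    have h9 : (t - s) * (τ (l + -1) - τ l) = 0 := by linarith
    rcases mul_eq_zero.1 h9 with h10 | h10 <;> linarith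
  · obtain ⟨-, h2, h3⟩ := th_false hτ k hs'
    obtain ⟨h4, h5, -⟩ := th_true hτ l ht
    have h6 := hτ.lt_iff_lt.1 ((h2.trans_eq h).trans h5)
    have h7 := hτ.lt_iff_lt.1 ((h4.trans_eq h.symm).trans_lt (h3 hs.1))
    obtain rfl : k = l + 1 := by omega
    have h8 : τ l < τ (l + 1) := hτ (by omega)
    simp only [th, sg_false, sg_true, add_neg_cancel_right] at h
    have h9 : (s + t - 2) * (τ (l + 1) - τ l) = 0 := by linarith
    have h10 : s + t - 2 = 0 := by
      rcases mul_eq_zero.1 h9 with h10 | h10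
      · exact h10
      · linarith
    exact Or.inr ⟨by simp, rfl, by linarith [hs.2, ht.2], by linarith [hs.2, ht.2]⟩
  · obtain ⟨-, h2, h3⟩ := th_true hτ k hs'
    obtain ⟨h4, h5, -⟩ := th_false hτ l ht
    have h6 := hτ.lt_iff_lt.1 (((h3 hs.1).trans_eq h).trans_le h4)
    have h7 := hτ.lt_iff_lt.1 ((h5.trans_eq h.symm).trans h2)
    obtain rfl : l = k + 1 := by omega
    have h8 : τ k < τ (k + 1) := hτ (by omega)
    simp only [th, sg_false, sg_true, add_neg_cancel_right] at h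
    have h9 : (s + t - 2) * (τ (k + 1) - τ k) = 0 := by linarith
    have h10 : s + t - 2 = 0 := by
      rcases mul_eq_zero.1 h9 with h10 | h10
      · exact h10
      · linarith
    exact Or.inr ⟨by simp, rfl, by linarith [hs.2, ht.2], by linarith [hs.2, ht.2]⟩
  · obtain ⟨-, h2, h3⟩ := th_true hτ k hs'
    obtain ⟨h4, h5, -⟩ := th_true hτ l ht
    have h6 := hτ.lt_iff_lt.1 (((h3 hs.1).trans_eq h).trans h5)
    have h7 := hτ.lt_iff_lt.1 ((h4.trans_eq h.symm).trans_lt h2)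
    obtain rfl : l = k := by omega
    have h8 : τ l < τ (l + 1) := hτ (by omega)
    simp only [th, sg_true] at h
    refine Or.inl ⟨rfl, rfl, ?_⟩
    have h9 : (t - s) * (τ (l + 1) - τ l) = 0 := by linarith
    rcases mul_eq_zero.1 h9 with h10 | h10 <;> linarith

/-- the points between two consecutive middles lie on the two half-edges -/
lemma th_cover {τ : ℤ → ℝ} (hτ : StrictMono τ) (k : ℤ) {t : ℝ} (h1 : th τ k false 1 ≤ t)
    (h2 : t ≤ th τ k true 1) (h3 : t ≠ τ k) : ∃ e, ∃ s ∈ Set.Ioc (0 : ℝ) 1, th τ k e s = t := by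
  have h4 : τ k < τ (k + 1) := hτ (by omega)
  have h5 : τ (k + -1) < τ k := hτ (by omega)
  simp only [th, sg_true, sg_false] at h1 h2
  rcases lt_or_gt_of_ne h3 with h | h
  · refine ⟨false, (τ k - t) * 2 / (τ k - τ (k + -1)), ⟨div_pos (by linarith) (by linarith), ?_⟩, ?_⟩
    · rw [div_le_one (by linarith)]
      linarith
    · have h6 : τ k - τ (k + -1) ≠ 0 := by linarith
      simp only [th, sg_false]
      field_simp
      ring
  · refine ⟨true, (t - τ k) * 2 / (τ (k + 1) - τ k), ⟨div_pos (by linarith) (by linarith), ?_⟩, ?_⟩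
    · rw [div_le_one (by linarith)]
      linarith
    · have h6 : τ (k + 1) - τ k ≠ 0 := by linarith
      simp only [th, sg_true]
      field_simp
      ring

lemma per_mul {τ : ℤ → ℝ} {m : ℕ} (h : ∀ k, τ (k + m) = τ k + 2 * Real.pi) (k a : ℤ) :
    τ (k + m * a) = τ k + a * (2 * Real.pi) := by
  induction a using Int.induction_on with
  | zero => simp
  | succ a ih =>
    rw [show k + m * ((a : ℤ) + 1) = k + m * a + m by ring, h, ih]
    push_cast
    ring
  | pred a ih =>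
    have h1 := h (k + m * (-(a : ℤ) - 1))
    rw [show k + m * (-(a : ℤ) - 1) + m = k + m * -(a : ℤ) by ring, ih] at h1
    push_cast at h1 ⊢
    linarith

lemma th_per {τ : ℤ → ℝ} {m : ℕ} (h : ∀ k, τ (k + m) = τ k + 2 * Real.pi) (k a : ℤ) (e : Bool)
    (s : ℝ) : th τ (k + m * a) e s = th τ k e s + a * (2 * Real.pi) := by
  simp only [th]
  rw [show k + m * a + sg e = k + sg e + m * a by ring, per_mul h, per_mul h]
  ring

lemma exp_per (t : ℝ) (a : ℤ) : Circle.exp (t + a * (2 * Real.pi)) = Circle.exp t :=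
  Circle.exp_eq_exp.2 ⟨a, rfl⟩

/-- curves with numbered vertices, darts and half-edges -/
structure St (ι X : Type) where
  γ : ι → Circle → ℂ
  hc : ∀ i, Continuous (γ i)
  hi : ∀ i, Function.Injective (γ i)
  h2 : ∀ i j, i ≠ j → (Set.range (γ i) ∩ Set.range (γ j)).encard ≤ 2
  hx : ∀ i j, i ≠ j → ∀ p ∈ Set.range (γ i) ∩ Set.range (γ j),
    CrossesAt (Set.range (γ i)) (Set.range (γ j)) p
  m : ι → ℕ
  mpos : ∀ i, 0 < m i
  τ : ι → ℤ → ℝ
  mono : ∀ i, StrictMono (τ i)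
  per : ∀ i k, τ i (k + m i) = τ i k + 2 * Real.pi
  meet : ∀ i j, i ≠ j → ∀ t, γ i (Circle.exp t) ∈ Set.range (γ j) → ∃ k, τ i k = t
  other : ∀ i k, ∃ j, j ≠ i ∧ γ i (Circle.exp (τ i k)) ∈ Set.range (γ j)
  dart : ι → ℤ → Bool → X
  surj : ∀ x, ∃ i k e, dart i k e = x
  deq : ∀ i k e j l e', dart i k e = dart j l e' ↔ i = j ∧ e = e' ∧ (m i : ℤ) ∣ k - l

namespace St

variable {ι X : Type} (S : St ι X)

/-- the curve of a dart -/
noncomputable def cv (x : X) : ι := (S.surj x).choose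

/-- a number of the vertex of a dart -/
noncomputable def nb (x : X) : ℤ := (S.surj x).choose_spec.choose

/-- the direction of a dart -/
noncomputable def dr (x : X) : Bool := (S.surj x).choose_spec.choose_spec.choose

lemma dart_eq (x : X) : S.dart (S.cv x) (S.nb x) (S.dr x) = x :=
  (S.surj x).choose_spec.choose_spec.choose_spec

lemma cv_dart (i : ι) (k : ℤ) (e : Bool) : S.cv (S.dart i k e) = i :=
  ((S.deq _ _ _ _ _ _).1 (S.dart_eq _)).1

lemma dr_dart (i : ι) (k : ℤ) (e : Bool) : S.dr (S.dart i k e) = e :=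
  ((S.deq _ _ _ _ _ _).1 (S.dart_eq _)).2.1

lemma nb_dart (i : ι) (k : ℤ) (e : Bool) : ∃ a : ℤ, S.nb (S.dart i k e) = k + S.m i * a := by
  obtain ⟨a, ha⟩ := ((S.deq _ _ _ _ _ _).1 (S.dart_eq (S.dart i k e))).2.2
  rw [cv_dart] at ha
  exact ⟨a, by linarith⟩

lemma dart_per (i : ι) (k a : ℤ) (e : Bool) : S.dart i (k + S.m i * a) e = S.dart i k e :=
  (S.deq _ _ _ _ _ _).2 ⟨rfl, rfl, a, by ring⟩

/-- the other end of an edge -/
noncomputable def bar (x : X) : X := S.dart (S.cv x) (S.nb x + sg (S.dr x)) (!S.dr x)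

/-- the half-edge of a dart -/
noncomputable def p (x : X) (s : ℝ) : ℂ :=
  S.γ (S.cv x) (Circle.exp (th (S.τ (S.cv x)) (S.nb x) (S.dr x) s))

lemma bar_dart (i : ι) (k : ℤ) (e : Bool) : S.bar (S.dart i k e) = S.dart i (k + sg e) (!e) := by
  obtain ⟨a, ha⟩ := S.nb_dart i k e
  rw [bar, cv_dart, dr_dart, ha, show k + S.m i * a + sg e = k + sg e + S.m i * a by ring, dart_per]

lemma p_dart (i : ι) (k : ℤ) (e : Bool) (s : ℝ) :
    S.p (S.dart i k e) s = S.γ i (Circle.exp (th (S.τ i) k e s)) := by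
  obtain ⟨a, ha⟩ := S.nb_dart i k e
  rw [p, cv_dart, dr_dart, ha, th_per (S.per i), exp_per]

lemma p_zero (i : ι) (k : ℤ) (e : Bool) : S.p (S.dart i k e) 0 = S.γ i (Circle.exp (S.τ i k)) := by
  rw [p_dart, th_zero]

lemma bar_bar (x : X) : S.bar (S.bar x) = x := by
  obtain ⟨i, k, e, rfl⟩ := S.surj x
  rw [bar_dart, bar_dart, sg_not, Bool.not_not, add_neg_cancel_right]

lemma cv_bar (x : X) : S.cv (S.bar x) = S.cv x := by rw [bar, cv_dart]

lemma dr_bar (x : X) : S.dr (S.bar x) = !S.dr x := by rw [bar, dr_dart]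

lemma bar_ne (x : X) : S.bar x ≠ x := fun h => by
  have h1 := S.dr_bar x
  rw [h] at h1
  simp at h1

lemma p_bar (x : X) : S.p (S.bar x) 1 = S.p x 1 := by
  obtain ⟨i, k, e, rfl⟩ := S.surj x
  rw [bar_dart, p_dart, p_dart, th_one]

lemma p_cont (x : X) : Continuous (S.p x) :=
  (S.hc _).comp (Circle.exp.continuous.comp (th_cont _ _ _))

lemma p_mem (x : X) (s : ℝ) : S.p x s ∈ Set.range (S.γ (S.cv x)) := ⟨_, rfl⟩

lemma p_not_mem (x : X) {i : ι} (h : S.cv x ≠ i) {s : ℝ} (hs : s ∈ Set.Ioc (0 : ℝ) 1) :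
    S.p x s ∉ Set.range (S.γ i) := fun h1 => by
  obtain ⟨k, hk⟩ := S.meet _ _ h _ h1
  exact th_ne (S.mono _) _ _ _ hs hk

lemma vert_inj {i : ι} {k l : ℤ}
    (h : S.γ i (Circle.exp (S.τ i k)) = S.γ i (Circle.exp (S.τ i l))) : (S.m i : ℤ) ∣ k - l := by
  obtain ⟨a, ha⟩ := Circle.exp_eq_exp.1 (S.hi i h)
  rw [← per_mul (S.per i)] at ha
  exact ⟨a, by rw [(S.mono i).injective ha]; ring⟩

lemma disj (x y : X) (s t : ℝ) (hs : s ∈ Set.Ioc (0 : ℝ) 1) (ht : t ∈ Set.Icc (0 : ℝ) 1)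
    (h : S.p x s = S.p y t) : (y = x ∧ t = s) ∨ (y = S.bar x ∧ s = 1 ∧ t = 1) := by
  have h1 : S.cv x = S.cv y := by
    by_contra h1
    exact S.p_not_mem x h1 hs (h ▸ S.p_mem y t)
  obtain ⟨i, k, e, rfl⟩ := S.surj x
  obtain ⟨j, l, e', rfl⟩ := S.surj y
  rw [cv_dart, cv_dart] at h1
  subst h1
  rw [p_dart, p_dart] at h
  obtain ⟨a, ha⟩ := Circle.exp_eq_exp.1 (S.hi i h)
  rw [← th_per (S.per i)] at ha
  rw [← S.dart_per i l a]
  rcases th_inj (S.mono i) hs ht ha with ⟨h1, h2, h3⟩ | ⟨h1, h2, h3⟩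
  · exact Or.inl ⟨by rw [h1, h2], h3⟩
  · exact Or.inr ⟨by rw [h1, h2, bar_dart], h3⟩

/-- the cycle of the curve `i` -/
noncomputable def cy (i : ι) (x : X) : ℤ := if S.cv x = i then sg (S.dr x) else 0

lemma cy_dart (i : ι) (k : ℤ) (e : Bool) : S.cy i (S.dart i k e) = sg e := by
  rw [cy, cv_dart, if_pos rfl, dr_dart]

lemma cy_ne {i : ι} {x : X} (h : S.cv x ≠ i) : S.cy i x = 0 := if_neg h

lemma cy_bar (i : ι) (x : X) : S.cy i (S.bar x) = - S.cy i x := by
  rw [cy, cy, cv_bar, dr_bar, sg_not]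
  split_ifs <;> simp

variable [Fintype X]

lemma sum_cy (i : ι) (f : X → ℤ) : ∑ x, S.cy i x * f x =
    ∑ k ∈ range (S.m i), (f (S.dart i k true) - f (S.dart i k false)) := by
  have hm : (0 : ℤ) < S.m i := by exact_mod_cast S.mpos i
  have h1 : ∑ x, S.cy i x * f x =
      ∑ x ∈ (range (S.m i) ×ˢ (univ : Finset Bool)).image (fun u => S.dart i (u.1 : ℤ) u.2),
        S.cy i x * f x := by
    refine (sum_subset (subset_univ _) fun x _ hx => ?_).symm
    rw [S.cy_ne, zero_mul]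
    intro h
    apply hx
    obtain ⟨j, k, e, rfl⟩ := S.surj x
    rw [cv_dart] at h
    subst h
    have h2 := Int.emod_nonneg k hm.ne'
    have h3 := Int.emod_lt_of_pos k hm
    refine mem_image.2 ⟨((k % S.m j).toNat, e), mem_product.2 ⟨mem_range.2 (by omega), mem_univ _⟩, ?_⟩
    refine (S.deq _ _ _ _ _ _).2 ⟨rfl, rfl, -(k / S.m j), ?_⟩
    have h4 := Int.emod_add_mul_ediv k (S.m j)
    simp only [Int.toNat_of_nonneg h2]
    linarith
  rw [h1, sum_image, sum_product]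
  · refine sum_congr rfl fun k _ => ?_
    simp only [Fintype.univ_bool, mem_singleton, Bool.true_eq_false, not_false_eq_true, sum_insert,
      sum_singleton, cy_dart, sg_true, sg_false]
    ring
  · rintro ⟨k, e⟩ hk ⟨l, e'⟩ hl h
    obtain ⟨-, h2, a, ha⟩ := (S.deq _ _ _ _ _ _).1 h
    simp only [coe_product, coe_range, Set.mem_prod, Set.mem_Iio] at hk hl
    simp only at h2 ha
    have h3 : a = 0 := by
      by_contra h3
      rcases lt_or_gt_of_ne h3 with h4 | h4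
      · have : (k : ℤ) < S.m i := by exact_mod_cast hk.1
        have : (l : ℤ) < S.m i := by exact_mod_cast hl.1
        nlinarith
      · have : (k : ℤ) < S.m i := by exact_mod_cast hk.1
        have : (l : ℤ) < S.m i := by exact_mod_cast hl.1
        nlinarith
    rw [h3, mul_zero] at ha
    exact Prod.ext (by simp only; omega) h2

lemma cyc_of {R : Type} [CommRing R] {a : X → R} (h1 : ∀ x, a x + a (S.bar x) = 0)
    (h2 : ∀ v, ∑ x ∈ univ.filter (fun x => S.p x 0 = v), a x = 0) : Cyc S.p a := by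
  intro r
  rw [h2]
  refine sum_involution (fun x _ => S.bar x) (fun x _ => h1 x) (fun x _ _ => S.bar_ne x)
    (fun x hx => ?_) fun x _ => S.bar_bar x
  simp only [mem_filter, mem_univ, true_and] at hx ⊢
  rw [p_bar, hx]

lemma cy_vert (i : ι) (v : ℂ) : ∑ x ∈ univ.filter (fun x => S.p x 0 = v), S.cy i x = 0 := by
  rw [sum_filter]
  have h := S.sum_cy i fun x => if S.p x 0 = v then 1 else 0
  simp only [mul_ite, mul_one, mul_zero, p_zero, sub_self, sum_const_zero] at h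
  exact h

lemma cyc_cy (i : ι) : Cyc S.p (S.cy i) :=
  S.cyc_of (fun x => by rw [cy_bar, add_neg_cancel]) (S.cy_vert i)

lemma tele (i : ι) {q : ℂ} {L : ℝ → ℂ} (hL : Continuous L)
    (h : ∀ t, exp (L t) = S.γ i (Circle.exp t) - q) :
    L (S.τ i 0 + 2 * Real.pi) - L (S.τ i 0) = 2 * Real.pi * I * (W S.p (S.cy i) q : ℤ) := by
  have h1 : ∀ k e, L (th (S.τ i) k e 1) - L (S.τ i k) =
      2 * Real.pi * I * (wn (S.p (S.dart i k e)) q) +
        log (S.γ i (Circle.exp (th (S.τ i) k e 1)) - q) - log (S.γ i (Circle.exp (S.τ i k)) - q) := by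
    intro k e
    have h2 := wn_spec (p := S.p (S.dart i k e)) (L := fun s => L (th (S.τ i) k e s)) (q := q)
      (hL.comp (th_cont _ _ _)).continuousOn fun s _ => by rw [h, p_dart]
    simpa only [th_zero, p_dart] using h2
  let G : ℕ → ℂ := fun k => L (S.τ i k) - log (S.γ i (Circle.exp (S.τ i k)) - q) +
    2 * Real.pi * I * (wn (S.p (S.dart i k false)) q)
  have h3 : ∀ k : ℕ, G (k + 1) - G k = 2 * Real.pi * I *
      ((wn (S.p (S.dart i k true)) q - wn (S.p (S.dart i k false)) q : ℤ) : ℂ) := by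
    intro k
    have h4 := h1 k true
    have h5 := h1 (k + 1) false
    have h6 := th_one (S.τ i) k true
    simp only [sg_true, Bool.not_true] at h6
    rw [h6] at h5
    simp only [G]
    push_cast
    linear_combination h4 - h5
  have h7 := sum_range_sub G (S.m i)
  simp only [h3, ← mul_sum] at h7
  have h8 : W S.p (S.cy i) q = ∑ k ∈ range (S.m i),
      (wn (S.p (S.dart i k true)) q - wn (S.p (S.dart i k false)) q) := by
    rw [← S.sum_cy i fun x => wn (S.p x) q]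
    rfl
  have h9 := S.per i 0
  have h10 := S.dart_per i 0 1 false
  have h11 := exp_per (S.τ i 0) 1
  simp only [zero_add, mul_one, Int.cast_one, one_mul] at h9 h10 h11
  rw [h8, Int.cast_sum, h7]
  simp only [G, h9, h10, h11, Nat.cast_zero]
  ring

end St

end BuildAux

end Pool.Agent.Lib.MP_65c801_co
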