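import Pool.Agent.Lib.MP_65c801_co.Build1

/-! The rotation system of a family of pseudo-circles is planar. -/

namespace Pool.Agent.Lib.MP_65c801_co

namespace BuildAux

open Finset Classical Complex

namespace St

variable {ι X : Type} (S : St ι X) [Fintype X]

lemma W_eq (i : ι) {T : Set ℂ} (hT : IsPreconnected T) (h : ∀ q ∈ T, q ∉ Set.range (S.γ i))
    {q q' : ℂ} (hq : q ∈ T) (hq' : q' ∈ T) : W S.p (S.cy i) q = W S.p (S.cy i) q' := by
  refine W_const (fun x => (S.p_cont x).continuousOn) (S.cyc_cy i) hT (fun q hq x hx s _ hs => ?_) hq hq'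
  have h1 : S.cv x = i := by
    by_contra h1
    exact hx (S.cy_ne h1)
  exact h q hq (hs ▸ h1 ▸ S.p_mem x s)

lemma W_ne (i : ι) {q1 q2 : ℂ} (h1 : q1 ∉ Set.range (S.γ i)) (h2 : q2 ∉ Set.range (S.γ i))
    (hne : q2 ∉ connectedComponentIn (Set.range (S.γ i))ᶜ q1) :
    W S.p (S.cy i) q1 ≠ W S.p (S.cy i) q2 ∧ (W S.p (S.cy i) q1 = 0 ∨ W S.p (S.cy i) q2 = 0) := by
  have hc : ∀ q : ℂ, Continuous fun t : ℝ => S.γ i (Circle.exp t) - q := fun q =>
    ((S.hc i).comp Circle.exp.continuous).sub continuous_const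
  obtain ⟨L1, c1, e1⟩ := exists_log_real (hc q1) fun t ht => h1 ⟨_, sub_eq_zero.1 ht⟩
  obtain ⟨L2, c2, e2⟩ := exists_log_real (hc q2) fun t ht => h2 ⟨_, sub_eq_zero.1 ht⟩
  exact eilen (S.hc i) (S.hi i) h1 hne c1 c2 e1 e2 (S.tele i c1 e1) (S.tele i c2 e2)

lemma two_val (i : ι) {q1 q2 : ℂ} (h1 : q1 ∉ Set.range (S.γ i)) (h2 : q2 ∉ Set.range (S.γ i))
    (hne : W S.p (S.cy i) q1 ≠ W S.p (S.cy i) q2) : W S.p (S.cy i) q1 = 0 ∨ W S.p (S.cy i) q2 = 0 := by
  refine (S.W_ne i h1 h2 fun h => hne ?_).2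
  exact S.W_eq i isPreconnected_connectedComponentIn
    (fun q hq => connectedComponentIn_subset _ _ hq) (mem_connectedComponentIn h1) h

lemma W_cross {i j : ι} (hij : i ≠ j) {k l : ℤ}
    (h : S.γ i (Circle.exp (S.τ i k)) = S.γ j (Circle.exp (S.τ j l))) :
    W S.p (S.cy i) (S.p (S.dart j l true) 1) ≠ W S.p (S.cy i) (S.p (S.dart j l false) 1) := by
  have m1 : (1 : ℝ) ∈ Set.Icc (0 : ℝ) 1 := ⟨zero_le_one, le_rfl⟩
  have ha := (th_false (S.mono j) l m1).2.2 one_pos
  have hb := (th_true (S.mono j) l m1).2.2 one_pos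
  set a0 := th (S.τ j) l false 1 with ha0
  set b0 := th (S.τ j) l true 1 with hb0
  let K : Set ℂ := (fun t : ℝ => S.γ j (Circle.exp t)) '' Set.Icc b0 (a0 + 2 * Real.pi)
  have hK : IsClosed K := (isCompact_Icc.image ((S.hc j).comp Circle.exp.continuous)).isClosed
  have hv : S.γ j (Circle.exp (S.τ j l)) ∉ K := by
    rintro ⟨t, ⟨h1, h2⟩, h3⟩
    obtain ⟨a, h4⟩ := Circle.exp_eq_exp.1 (S.hi j h3)
    have h5 := Real.two_pi_pos
    have h6 : (0 : ℝ) < a := by
      by_contra h6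
      nlinarith [not_lt.1 h6]
    have h7 : (a : ℝ) < 1 := by
      by_contra h7
      nlinarith [not_lt.1 h7]
    have h8 : 0 < a := by exact_mod_cast h6
    have h9 : a < 1 := by exact_mod_cast h7
    omega
  have key : ∀ b ∈ Kᶜ ∩ (Set.range (S.γ j) \ Set.range (S.γ i)), ∃ e,
      W S.p (S.cy i) b = W S.p (S.cy i) (S.p (S.dart j l e) 1) := by
    rintro b ⟨h1, ⟨z, rfl⟩, h2⟩
    obtain ⟨t, rfl⟩ := Circle.exp_surjective z
    obtain ⟨h3, h4⟩ := toIcoMod_mem_Ico Real.two_pi_pos a0 t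
    have h5 : Circle.exp (toIcoMod Real.two_pi_pos a0 t) = Circle.exp t := by
      refine Circle.exp_eq_exp.2 ⟨-toIcoDiv Real.two_pi_pos a0 t, ?_⟩
      have h5 := toIcoMod_add_toIcoDiv_zsmul Real.two_pi_pos a0 t
      rw [zsmul_eq_mul] at h5
      push_cast
      linarith
    set u := toIcoMod Real.two_pi_pos a0 t
    rw [← h5] at h1 h2 ⊢
    have h6 : u ≤ b0 := by
      by_contra h6
      exact h1 ⟨u, ⟨(not_le.1 h6).le, h4.le⟩, rfl⟩
    obtain ⟨e, s, hs, h7⟩ := th_cover (S.mono j) l h3 h6 fun h7 => h2 ⟨_, by rw [h, h7]⟩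
    refine ⟨e, S.W_eq i (T := S.p (S.dart j l e) '' Set.Ioc 0 1)
      (isPreconnected_Ioc.image _ (S.p_cont _).continuousOn) ?_ ⟨s, hs, by rw [p_dart, h7]⟩
      ⟨1, ⟨one_pos, le_rfl⟩, rfl⟩⟩
    rintro _ ⟨r, hr, rfl⟩
    exact S.p_not_mem _ (by rw [cv_dart]; exact hij.symm) hr
  obtain ⟨a, h1, b, h2, h3⟩ := S.hx i j hij _ ⟨⟨_, h⟩, _, rfl⟩ Kᶜ (hK.isOpen_compl.mem_nhds hv)
  have h4 := (S.W_ne i h1.2.2 h2.2.2 h3).1
  obtain ⟨e1, h5⟩ := key a h1
  obtain ⟨e2, h6⟩ := key b h2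
  rw [h5, h6] at h4
  cases e1 <;> cases e2
  · exact absurd rfl h4
  · exact h4.symm
  · exact h4
  · exact absurd rfl h4

/-- the value of a cycle on the corner just before a dart -/
noncomputable def F (pos : X → ℕ) (g : ℂ → X → ℤ) {R : Type} [CommRing R] (a : X → R) (x : X) : R :=
  ∑ y, a y * (g (S.p x 0) y : R) +
    ∑ y ∈ univ.filter (fun y => S.p y 0 = S.p x 0 ∧ pos y < pos x), a y

variable (pos : X → ℕ) (g : ℂ → X → ℤ)

lemma F_add {R : Type} [CommRing R] (a b : X → R) (x : X) :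
    S.F pos g (fun y => a y + b y) x = S.F pos g a x + S.F pos g b x := by
  simp only [F, add_mul, sum_add_distrib]
  ring

lemma F_cast {R : Type} [CommRing R] (a : X → ℤ) (x : X) :
    S.F pos g (fun y => (a y : R)) x = (S.F pos g a x : ℤ) := by
  simp only [F, Int.cast_add, Int.cast_sum, Int.cast_mul, Int.cast_id]

omit [Fintype X] in
lemma dart_ne (i : ι) (k : ℤ) : S.dart i k true ≠ S.dart i k false := fun h => by
  have h1 := ((S.deq _ _ _ _ _ _).1 h).2.1
  simp at h1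

lemma F_cy (i : ι) (k : ℤ) {y : X} (hy : S.p y 0 = S.γ i (Circle.exp (S.τ i k))) :
    S.F pos g (S.cy i) y = ∑ x, S.cy i x * g (S.γ i (Circle.exp (S.τ i k))) x +
      ((if pos (S.dart i k true) < pos y then 1 else 0) -
        if pos (S.dart i k false) < pos y then 1 else 0) := by
  rw [F, hy, sum_filter]
  congr 1
  rw [Fintype.sum_eq_add _ _ (S.dart_ne i k)]
  · simp only [p_zero, true_and, cy_dart, sg_true, sg_false]
    split_ifs <;> simp
  · rintro x ⟨h1, h2⟩
    split_ifs with h3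
    · refine S.cy_ne fun h4 => ?_
      obtain ⟨j, l, e, rfl⟩ := S.surj x
      rw [cv_dart] at h4
      subst h4
      have h5 := h3.1
      rw [p_zero] at h5
      have h6 : S.dart j l e = S.dart j k e := (S.deq _ _ _ _ _ _).2 ⟨rfl, rfl, S.vert_inj h5⟩
      cases e
      · exact h2 h6
      · exact h1 h6
    · rfl

variable {pos g}

section

variable (pinj : ∀ x y, S.p x 0 = S.p y 0 → pos x = pos y → x = y)
  (hW : ∀ (R : Type) [CommRing R] (a : X → R), Cyc S.p a → ∀ x, a x = 0 → a (S.bar x) = 0 →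
    W S.p a (S.p x 1) = S.F pos g a x)

include hW in
lemma W_F {i : ι} {y : X} (h : S.cv y ≠ i) : W S.p (S.cy i) (S.p y 1) = S.F pos g (S.cy i) y :=
  hW ℤ _ (S.cyc_cy i) y (S.cy_ne h) (S.cy_ne (by rwa [cv_bar]))

include pinj in
omit [Fintype X] in
lemma pos_ne {i j : ι} (hij : i ≠ j) {k l : ℤ}
    (h : S.γ i (Circle.exp (S.τ i k)) = S.γ j (Circle.exp (S.τ j l))) (e e' : Bool) :
    pos (S.dart i k e) ≠ pos (S.dart j l e') := fun h1 =>
  hij ((S.deq _ _ _ _ _ _).1 (pinj _ _ (by rw [p_zero, p_zero, h]) h1)).1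

include pinj in
omit [Fintype X] in
lemma pos_ne' (i : ι) (k : ℤ) : pos (S.dart i k true) ≠ pos (S.dart i k false) := fun h1 =>
  S.dart_ne i k (pinj _ _ (by rw [p_zero, p_zero]) h1)

include hW in
lemma F_cross {i j : ι} (hij : i ≠ j) {k l : ℤ}
    (h : S.γ i (Circle.exp (S.τ i k)) = S.γ j (Circle.exp (S.τ j l))) :
    S.F pos g (S.cy i) (S.dart j l true) ≠ S.F pos g (S.cy i) (S.dart j l false) := by
  have h1 := S.W_cross hij h
  rwa [S.W_F hW (by rw [cv_dart]; exact hij.symm), S.W_F hW (by rw [cv_dart]; exact hij.symm)] at h1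

include pinj hW in
lemma cross {i j : ι} (hij : i ≠ j) {k l : ℤ}
    (h : S.γ i (Circle.exp (S.τ i k)) = S.γ j (Circle.exp (S.τ j l))) :
    ¬ (btw (pos (S.dart i k true)) (pos (S.dart i k false)) (pos (S.dart j l true)) ↔
      btw (pos (S.dart i k true)) (pos (S.dart i k false)) (pos (S.dart j l false))) := by
  have h1 := S.F_cross hW hij h
  rw [S.F_cy pos g i k (by rw [p_zero, h]), S.F_cy pos g i k (by rw [p_zero, h])] at h1
  have h2 := S.pos_ne pinj hij h true true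
  have h3 := S.pos_ne pinj hij h true false
  have h4 := S.pos_ne pinj hij h false true
  have h5 := S.pos_ne pinj hij h false false
  have h6 := S.pos_ne' pinj i k
  unfold btw
  split_ifs at h1 <;> omega

include pinj in
lemma F_false (i : ι) (k : ℤ) :
    S.F pos g (S.cy i) (S.dart i k false) = S.F pos g (S.cy i) (S.dart i k true) + 1 := by
  rw [S.F_cy pos g i k (S.p_zero _ _ _), S.F_cy pos g i k (S.p_zero _ _ _)]
  have h6 := S.pos_ne' pinj i k
  split_ifs <;> omega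

include pinj hW in
lemma both (i : ι) (k : ℤ) : ∃ q1 q2, q1 ∉ Set.range (S.γ i) ∧ q2 ∉ Set.range (S.γ i) ∧
    W S.p (S.cy i) q1 = S.F pos g (S.cy i) (S.dart i k true) ∧
    W S.p (S.cy i) q2 = S.F pos g (S.cy i) (S.dart i k true) + 1 := by
  obtain ⟨j, hj, z, hz⟩ := S.other i k
  obtain ⟨t, rfl⟩ := Circle.exp_surjective z
  obtain ⟨l, rfl⟩ := S.meet j i hj t ⟨_, hz.symm⟩
  have h := hz.symm
  have hij := hj.symm
  have hc : ∀ e, S.cv (S.dart j l e) ≠ i := fun e => by rw [cv_dart]; exact hj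
  have hn : ∀ e, S.p (S.dart j l e) 1 ∉ Set.range (S.γ i) := fun e =>
    S.p_not_mem _ (hc e) ⟨one_pos, le_rfl⟩
  have h1 := S.F_cross hW hij h
  have h7 : ∀ e, S.F pos g (S.cy i) (S.dart j l e) = S.F pos g (S.cy i) (S.dart i k true) ∨
      S.F pos g (S.cy i) (S.dart j l e) = S.F pos g (S.cy i) (S.dart i k true) + 1 := by
    intro e
    rw [S.F_cy pos g i k (S.p_zero _ _ _), S.F_cy pos g i k (by rw [p_zero, h])]
    have h2 := S.pos_ne pinj hij h true e
    have h4 := S.pos_ne pinj hij h false e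
    have h6 := S.pos_ne' pinj i k
    split_ifs <;> omega
  rcases h7 true with h2 | h2 <;> rcases h7 false with h3 | h3
  · exact absurd (h2.trans h3.symm) h1
  · exact ⟨_, _, hn true, hn false, (S.W_F hW (hc _)).trans h2, (S.W_F hW (hc _)).trans h3⟩
  · exact ⟨_, _, hn false, hn true, (S.W_F hW (hc _)).trans h3, (S.W_F hW (hc _)).trans h2⟩
  · exact absurd (h2.trans h3.symm) h1

include pinj hW in
lemma F_const (i : ι) (k l : ℤ) :
    S.F pos g (S.cy i) (S.dart i k true) = S.F pos g (S.cy i) (S.dart i l true) := by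
  obtain ⟨q1, q2, h1, h2, h3, h4⟩ := S.both pinj hW i k
  obtain ⟨r1, r2, g1, g2, g3, g4⟩ := S.both pinj hW i l
  have a1 := S.two_val i h1 h2
  have a2 := S.two_val i g1 g2
  have a3 := S.two_val i h1 g2
  have a4 := S.two_val i g1 h2
  rw [h3, h4] at a1
  rw [g3, g4] at a2
  rw [h3, g4] at a3
  rw [g3, h4] at a4
  omega

include pinj hW in
lemma F_jump (x : X) : S.F pos g (fun y => (S.cy (S.cv x) y : ZMod 2)) (S.bar x) =
    S.F pos g (fun y => (S.cy (S.cv x) y : ZMod 2)) x + 1 := by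
  obtain ⟨i, k, e, rfl⟩ := S.surj x
  rw [F_cast, F_cast, cv_dart, bar_dart]
  cases e
  · rw [S.F_false pinj, Bool.not_false, S.F_const pinj hW i _ k, Int.cast_add, Int.cast_one, add_assoc,
      show (1 : ZMod 2) + 1 = 0 from rfl, add_zero]
  · rw [Bool.not_true, S.F_false pinj, S.F_const pinj hW i _ k, Int.cast_add, Int.cast_one]

include pinj hW in
lemma planar (z : X → ZMod 2) (h1 : ∀ x, z (S.bar x) = z x)
    (h2 : ∀ v, ∑ x ∈ univ.filter (fun x => S.p x 0 = v), z x = 0) (x : X) :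
    S.F pos g z (S.bar x) = S.F pos g z x + z x := by
  have key : ∀ a : X → ZMod 2, (∀ x, a x + a (S.bar x) = 0) →
      (∀ v, ∑ x ∈ univ.filter (fun x => S.p x 0 = v), a x = 0) → a x = 0 →
      S.F pos g a (S.bar x) = S.F pos g a x := by
    intro a a1 a2 a3
    have a4 : a (S.bar x) = 0 := by rw [← a1 x, a3, zero_add]
    rw [← hW _ a (S.cyc_of a1 a2) x a3 a4, ← hW _ a (S.cyc_of a1 a2) (S.bar x) a4 (by rwa [bar_bar]),
      p_bar]
  have h3 : ∀ y, z y + z (S.bar y) = 0 := fun y => by rw [h1, CharTwo.add_self_eq_zero]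
  have h4 : ∀ u : ZMod 2, u = 0 ∨ u = 1 := by decide
  rcases h4 (z x) with h5 | h5
  · rw [key z h3 h2 h5, h5, add_zero]
  · let c : X → ZMod 2 := fun y => (S.cy (S.cv x) y : ZMod 2)
    have h6 : z = fun y => (z y + c y) + c y := by
      funext y
      rw [add_assoc, CharTwo.add_self_eq_zero, add_zero]
    have h7 : c x = 1 := by
      simp only [c, cy, if_true]
      cases S.dr x <;> rfl
    have h8 := key (fun y => z y + c y) (fun y => ?_) (fun v => ?_) (by
      simp only [h5, h7]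
      rfl)
    · rw [h5, h6, S.F_add pos g (fun y => z y + c y) c, S.F_add pos g (fun y => z y + c y) c, h8,
        S.F_jump pinj hW, add_assoc]
    · simp only [c, cy_bar, Int.cast_neg]
      linear_combination h3 y
    · rw [sum_add_distrib, h2, zero_add, ← Int.cast_sum, cy_vert, Int.cast_zero]

end

omit [Fintype X] in
lemma two {i j : ι} (hij : i ≠ j) {k1 k2 k3 : ℤ} (a1 : k1 < k2) (a2 : k2 < k3) (a3 : k3 < k1 + S.m i)
    (b1 : S.γ i (Circle.exp (S.τ i k1)) ∈ Set.range (S.γ j))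
    (b2 : S.γ i (Circle.exp (S.τ i k2)) ∈ Set.range (S.γ j))
    (b3 : S.γ i (Circle.exp (S.τ i k3)) ∈ Set.range (S.γ j)) : False := by
  have key : ∀ k l : ℤ, k < l → l < k + S.m i →
      S.γ i (Circle.exp (S.τ i k)) ≠ S.γ i (Circle.exp (S.τ i l)) := by
    intro k l h1 h2 h
    have h3 := Int.le_of_dvd (by omega) (S.vert_inj h.symm)
    omega
  have h1 : ({S.γ i (Circle.exp (S.τ i k1)), S.γ i (Circle.exp (S.τ i k2)),
      S.γ i (Circle.exp (S.τ i k3))} : Set ℂ).encard = 3 :=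
    Set.encard_eq_three.2 ⟨_, _, _, key k1 k2 a1 (by omega), key k1 k3 (a1.trans a2) a3,
      key k2 k3 a2 (by omega), rfl⟩
  have h2 : ({S.γ i (Circle.exp (S.τ i k1)), S.γ i (Circle.exp (S.τ i k2)),
      S.γ i (Circle.exp (S.τ i k3))} : Set ℂ) ⊆ Set.range (S.γ i) ∩ Set.range (S.γ j) := by
    rintro _ (rfl | rfl | rfl)
    exacts [⟨⟨_, rfl⟩, b1⟩, ⟨⟨_, rfl⟩, b2⟩, ⟨⟨_, rfl⟩, b3⟩]
  have h3 := (h1 ▸ Set.encard_le_encard h2).trans (S.h2 i j hij)
  exact absurd h3 (by decide)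

theorem arr {Vx : Type} (pt : Vx → ℂ) (hpt : Function.Injective pt) (vt : X → Vx)
    (hvt : ∀ x, pt (vt x) = S.p x 0) :
    ∃ A : Arr ι X Vx, A.m = S.m ∧ A.dart = S.dart ∧ A.vt = vt := by
  obtain ⟨pos, g, pinj, hW⟩ := wheel S.p S.bar (fun x => (S.p_cont x).continuousOn) S.disj
  have hv : ∀ x y, vt x = vt y ↔ S.p x 0 = S.p y 0 := fun x y => by
    rw [← hvt, ← hvt, hpt.eq_iff]
  have hd : ∀ {i k e j l e'}, vt (S.dart i k e) = vt (S.dart j l e') →
      S.γ i (Circle.exp (S.τ i k)) = S.γ j (Circle.exp (S.τ j l)) := fun h => by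
    rwa [hv, p_zero, p_zero] at h
  refine ⟨{ m := S.m
            mpos := S.mpos
            dart := S.dart
            surj := S.surj
            deq := S.deq
            bar := S.bar
            barT := fun i k => S.bar_dart i k true
            barF := fun i k => ?_
            vt := vt
            vtTF := fun i k => (hv _ _).2 (by rw [p_zero, p_zero])
            vinj := fun i k l h => S.vert_inj (hd h)
            pos := pos
            pinj := fun x y h => pinj x y ((hv _ _).1 h)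
            cross := fun i k j l hij h => S.cross pinj hW hij (hd h)
            two := fun i j hij k1 k2 k3 l1 l2 l3 a1 a2 a3 b1 b2 b3 =>
              S.two hij (by exact_mod_cast a1) (by exact_mod_cast a2) (by exact_mod_cast a3)
                ⟨_, (hd b1).symm⟩ ⟨_, (hd b2).symm⟩ ⟨_, (hd b3).symm⟩
            planar := fun z h1 h2 => ?_ }, rfl, rfl, rfl⟩
  · rw [bar_dart, sg_false, add_neg_cancel_right, Bool.not_false]
  · refine ⟨S.F pos g z, fun v => ∑ y, z y * (g (pt v) y : ZMod 2), S.planar pinj hW z h1 fun v => ?_,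
      fun x => ?_⟩
    · by_cases h : ∃ x, S.p x 0 = v
      · obtain ⟨x, rfl⟩ := h
        rw [← h2 (vt x)]
        exact sum_congr (filter_congr fun y _ => (hv y x).symm) fun _ _ => rfl
      · exact sum_eq_zero fun x hx => absurd ⟨x, (mem_filter.1 hx).2⟩ h
    · simp only [F, hvt, hv]

end St

end BuildAux

end Pool.Agent.Lib.MP_65c801_co
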