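import Pool.Agent.Lib.MP_65c801_co.Params

/-! Cutting all lenses in the discrete model. -/

namespace Pool.Agent.Lib.MP_65c801_co

open Finset Classical

variable {V α : Type*} [LinearOrder α] [Fintype V] {h : V → ℕ → α}

/-- `a` rises above `y` strictly between two times at most `M` -/
def BLens (h : V → ℕ → α) (M : ℕ) (a y : V) : Prop :=
  ∃ t1 t2 t3, t1 < t2 ∧ t2 < t3 ∧ t3 ≤ M ∧ h a t1 < h y t1 ∧ h y t2 < h a t2 ∧ h a t3 < h y t3

omit [Fintype V] in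
lemma BLens.dyadic (hn : NoAlt h) (hi : Inj h) {M L : ℕ} (hM : M ≤ 2 ^ L) {a y : V}
    (b : BLens h M a y) : ∃ l < L, ∃ τ < M, h y τ < h a τ ∧ 2 ^ l ∣ τ ∧
      ∀ τ', h y τ' < h a τ' → 2 ^ l ∣ τ' → τ' = τ := by
  obtain ⟨t1, t2, t3, c1, c2, c3, h1, h2, h3⟩ := b
  have bd : ∀ τ, h y τ < h a τ → t1 < τ ∧ τ < t3 := fun τ hτ => by
    by_contra hc
    exact lt_asymm hτ (ends_of_three hn hi c1 c2 h1 h2 h3 (by omega))
  have hab : a ≠ y := fun e => by subst e; exact lt_irrefl _ h1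
  have conv : ∀ p q r, p < q → q < r → h y p < h a p → h y r < h a r → h y q < h a q := by
    intro p q r pq qr hp hr
    by_contra hc
    exact hn a y t1 p q r (bd p hp).1 pq qr h1 hp (lt_of_not_gt' hi hab hc) hr
  have ex : ∀ l, (∃ τ, h y τ < h a τ ∧ 2 ^ l ∣ τ) → l < L := by
    rintro l ⟨τ, k1, k2⟩
    have := bd τ k1
    have h4 := Nat.le_of_dvd (by omega) k2
    exact (Nat.pow_lt_pow_iff_right (by norm_num : 1 < 2)).1 (by omega)
  set l := Nat.findGreatest (fun l => ∃ τ, h y τ < h a τ ∧ 2 ^ l ∣ τ) L with hl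
  have s1 : ∃ τ, h y τ < h a τ ∧ 2 ^ l ∣ τ :=
    Nat.findGreatest_spec (P := fun l => ∃ τ, h y τ < h a τ ∧ 2 ^ l ∣ τ) (Nat.zero_le L)
      ⟨t2, h2, by simp⟩
  have s2 : ¬ ∃ τ, h y τ < h a τ ∧ 2 ^ (l + 1) ∣ τ := fun hc =>
    Nat.findGreatest_is_greatest (P := fun l => ∃ τ, h y τ < h a τ ∧ 2 ^ l ∣ τ)
      (Nat.lt_succ_self l) (ex _ hc).le hc
  have key : ∀ p r, p < r → h y p < h a p → h y r < h a r → 2 ^ l ∣ p → 2 ^ l ∣ r → False := by
    rintro _ _ pr hp hr ⟨u, rfl⟩ ⟨v, rfl⟩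
    have uv : u < v := lt_of_mul_lt_mul_left pr (Nat.zero_le _)
    rcases Nat.even_or_odd' u with ⟨k, rfl | rfl⟩
    · exact s2 ⟨_, hp, k, by ring⟩
    · refine s2 ⟨2 ^ l * (2 * k + 2), ?_, k + 1, by ring⟩
      rcases (show 2 * k + 2 ≤ v by omega).eq_or_lt with e | e
      · rw [e]; exact hr
      · exact conv _ _ _ (Nat.mul_lt_mul_of_pos_left (by omega) (by positivity))
          (Nat.mul_lt_mul_of_pos_left e (by positivity)) hp hr
  obtain ⟨τ, k1, k2⟩ := s1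
  refine ⟨l, ex l ⟨τ, k1, k2⟩, τ, by linarith [(bd τ k1).2], k1, k2, fun τ' k3 k4 => ?_⟩
  rcases lt_trichotomy τ' τ with c | c | c
  · exact (key _ _ c k3 k1 k4 k2).elim
  · exact c
  · exact (key _ _ c k1 k3 k2 k4).elim

theorem cut_of_bound (hn : NoAlt h) (hi : Inj h) {M L : ℕ} (hM : M ≤ 2 ^ L) {ν : ℝ}
    (hν : ∀ (E : V → V → Prop) (t : V → V → ℕ), Fam h E t → (∀ a y, E a y → t a y < M) →
      cnt (fun e : V × V => E e.1 e.2) ≤ ν) :
    ∃ X : Finset (V × ℕ), (X.card : ℝ) ≤ 2 * L * ν ∧ ∀ a y, BLens h M a y →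
      ∃ τ < M, h y τ < h a τ ∧ ((a, τ) ∈ X ∨ (y, τ) ∈ X) := by
  have : ∀ a y, ∃ l τ, BLens h M a y → l < L ∧ τ < M ∧ h y τ < h a τ ∧ 2 ^ l ∣ τ ∧
      ∀ τ', h y τ' < h a τ' → 2 ^ l ∣ τ' → τ' = τ := fun a y => by
    by_cases b : BLens h M a y
    · obtain ⟨l, h1, τ, h2⟩ := b.dyadic hn hi hM
      exact ⟨l, τ, fun _ => ⟨h1, h2⟩⟩
    · exact ⟨0, 0, fun b' => absurd b' b⟩
  choose lv t ht using this
  have level : ∀ l, ∃ X : Finset (V × ℕ), (X.card : ℝ) ≤ 2 * ν ∧ ∀ a y, BLens h M a y →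
      lv a y = l → ((a, t a y) ∈ X ∨ (y, t a y) ∈ X) := by
    intro l
    set Ok : Finset (V × V) → Prop := fun F => (∀ e ∈ F, BLens h M e.1 e.2 ∧ lv e.1 e.2 = l) ∧
      ∀ e ∈ F, ∀ e' ∈ F, t e.1 e.2 = t e'.1 e'.2 → (e.1 = e'.1 ∨ e.2 = e'.2) → e = e'
    obtain ⟨F, hF, hmax⟩ := Finset.exists_max_image (univ.filter Ok) card
      ⟨∅, by simp [Ok]⟩
    simp only [mem_filter, mem_univ, true_and] at hF hmax
    have fam : Fam h (fun a y => (a, y) ∈ F) t := by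
      refine ⟨fun a y g => (ht a y (hF.1 _ g).1).2.2.1, fun a x y g g' e => ?_,
        fun a b x g g' e => ?_⟩
      · obtain ⟨b1, b2⟩ := hF.1 _ g
        obtain ⟨b3, b4⟩ := hF.1 _ g'
        have hay : a ≠ y := fun e => by
          obtain ⟨_, _, _, _, _, _, k, _⟩ := b3
          simp only [e] at k; exact lt_irrefl _ k
        refine lt_of_not_gt' hi hay fun hc => e ?_
        have := (ht a y b3).2.2.2.2 _ hc (by
          have := (ht a x b1).2.2.2.1; simp only at b2 b4; rw [b4, ← b2]; exact this)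
        exact congrArg Prod.snd (hF.2 _ g _ g' this (Or.inl rfl))
      · obtain ⟨b1, b2⟩ := hF.1 _ g
        obtain ⟨b3, b4⟩ := hF.1 _ g'
        have hay : b ≠ x := fun e => by
          obtain ⟨_, _, _, _, _, _, k, _⟩ := b3
          simp only [e] at k; exact lt_irrefl _ k
        refine lt_of_not_gt' hi hay fun hc => e ?_
        have := (ht b x b3).2.2.2.2 _ hc (by
          have := (ht a x b1).2.2.2.1; simp only at b2 b4; rw [b4, ← b2]; exact this)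
        exact congrArg Prod.fst (hF.2 _ g _ g' this (Or.inr rfl))
    have hc := hν _ t fam (fun a y g => (ht a y (hF.1 _ g).1).2.1)
    have hc' : (F.card : ℝ) ≤ ν := by
      refine le_trans (le_of_eq ?_) hc
      unfold cnt
      congr 2
      ext e; simp
    refine ⟨F.image (fun e => (e.1, t e.1 e.2)) ∪ F.image (fun e => (e.2, t e.1 e.2)), ?_,
      fun a y b e => ?_⟩
    · have : (F.image (fun e => (e.1, t e.1 e.2)) ∪ F.image (fun e => (e.2, t e.1 e.2))).card ≤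
          F.card + F.card := (card_union_le _ _).trans (add_le_add card_image_le card_image_le)
      have : (((F.image (fun e => (e.1, t e.1 e.2)) ∪
          F.image (fun e => (e.2, t e.1 e.2))).card : ℕ) : ℝ) ≤ F.card + F.card := by
        exact_mod_cast this
      linarith
    · by_contra hc
      simp only [mem_union, mem_image, not_or, not_exists, not_and, Prod.mk.injEq] at hc
      have nF : (a, y) ∉ F := fun g => hc.1.1 _ g rfl rfl
      have : Ok (insert (a, y) F) := by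
        constructor
        · intro e he
          rcases mem_insert.1 he with rfl | he
          · exact ⟨b, e⟩
          · exact hF.1 _ he
        · intro e1 h1 e2 h2 k1 k2
          rcases mem_insert.1 h1 with rfl | h1 <;> rcases mem_insert.1 h2 with rfl | h2
          · rfl
          · rcases k2 with k | k
            · exact (hc.1.1 _ h2 k.symm k1.symm).elim
            · exact (hc.2.2 _ h2 k.symm k1.symm).elim
          · rcases k2 with k | k
            · exact (hc.1.1 _ h1 k k1).elim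
            · exact (hc.2.2 _ h1 k k1).elim
          · exact hF.2 _ h1 _ h2 k1 k2
      have := hmax _ this
      rw [card_insert_of_notMem nF] at this
      omega
  choose X hX hX' using level
  refine ⟨(range L).biUnion X, ?_, fun a y b => ⟨t a y, (ht a y b).2.1, (ht a y b).2.2.1, ?_⟩⟩
  · have : (((range L).biUnion X).card : ℝ) ≤ ∑ l ∈ range L, ((X l).card : ℝ) := by
      exact_mod_cast card_biUnion_le
    refine this.trans ?_
    calc _ ≤ ∑ _l ∈ range L, 2 * ν := Finset.sum_le_sum fun l _ => hX l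
      _ = _ := by simp; ring
  · simp only [mem_biUnion, mem_range]
    rcases hX' _ a y b rfl with k | k
    · exact Or.inl ⟨_, (ht a y b).1, k⟩
    · exact Or.inr ⟨_, (ht a y b).1, k⟩

lemma exists_base (K : ℕ) (K0 : 0 < K) : ∃ C : ℝ, 0 < C ∧ ∀ n : ℕ, 1 ≤ n → ∃ x : ℕ, 128000 ≤ x ∧
    x ^ (2 * K) < 2 ^ x ∧ n ≤ x ^ K ∧ (x:ℝ) ≤ C * (n:ℝ) ^ (1 / (K:ℝ)) := by
  have h1 := tendsto_pow_const_div_const_pow_of_one_lt (2 * K) (by norm_num : (1:ℝ) < 2)
  obtain ⟨x0, hx0⟩ := Filter.eventually_atTop.1 (h1.eventually (gt_mem_nhds one_pos))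
  refine ⟨(max x0 128000 : ℕ) + 2, by positivity, fun n hn => ?_⟩
  have n1 : (1:ℝ) ≤ n := by exact_mod_cast hn
  have r1 : 1 ≤ (n:ℝ) ^ (1 / (K:ℝ)) := Real.one_le_rpow n1 (by positivity)
  refine ⟨max x0 128000 + ⌈(n:ℝ) ^ (1 / (K:ℝ))⌉₊, by omega, ?_, ?_, ?_⟩
  · have := hx0 (max x0 128000 + ⌈(n:ℝ) ^ (1 / (K:ℝ))⌉₊) (by omega)
    rw [div_lt_one (by positivity)] at this
    exact_mod_cast this
  · have h2 : (n:ℝ) ≤ ((max x0 128000 + ⌈(n:ℝ) ^ (1 / (K:ℝ))⌉₊ : ℕ) : ℝ) ^ K := by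
      calc (n:ℝ) = ((n:ℝ) ^ (1 / (K:ℝ))) ^ K := by
            rw [one_div, Real.rpow_inv_natCast_pow (by positivity) K0.ne']
        _ ≤ _ := pow_le_pow_left₀ (by positivity) (by
            rw [Nat.cast_add]
            linarith [Nat.le_ceil ((n:ℝ) ^ (1 / (K:ℝ))),
              (by positivity : (0:ℝ) ≤ ((max x0 128000 : ℕ) : ℝ))]) K
    exact_mod_cast h2
  · have := (Nat.ceil_lt_add_one (by linarith : 0 ≤ (n:ℝ) ^ (1 / (K:ℝ)))).le
    rw [Nat.cast_add]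
    nlinarith [(by positivity : (0:ℝ) ≤ ((max x0 128000 : ℕ) : ℝ))]

/-- all bounded lenses of a discrete model can be cut with `O(n^{3/2 - 10^{-7}})` cuts -/
theorem cut_discrete : ∃ C : ℝ, 0 < C ∧ ∀ (V α : Type) [Fintype V] [LinearOrder α]
    (h : V → ℕ → α), NoAlt h → Inj h → ∀ n M : ℕ, 1 ≤ n → Fintype.card V ≤ n → M ≤ n ^ 2 →
    ∃ X : Finset (V × ℕ), (X.card : ℝ) ≤ C * (n:ℝ) ^ ((3:ℝ) / 2 - 1 / 10 ^ 7) ∧
      ∀ a y, BLens h M a y → ∃ τ < M, h y τ < h a τ ∧ ((a, τ) ∈ X ∨ (y, τ) ∈ X) := by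
  obtain ⟨N, hN⟩ : ∃ N : ℕ, N = 4999996 := ⟨_, rfl⟩
  obtain ⟨C, C0, hC⟩ := exists_base (2 * N + 8) (by omega)
  refine ⟨C ^ (3 * N + 11), by positivity, fun V α _ _ h hn hi n M n1 hc hM => ?_⟩
  obtain ⟨x, x1, x2, x3, x4⟩ := hC n n1
  have e1 : 2 * (2 * N + 8) = 4 * N + 16 := by ring
  rw [e1] at x2
  have hM' : M ≤ x ^ (4 * N + 16) := by
    rw [← e1, mul_comm, pow_mul]; exact hM.trans (Nat.pow_le_pow_left x3 2)
  obtain ⟨X, hX, hX'⟩ := cut_of_bound hn hi (hM'.trans x2.le) (ν := (x:ℝ) ^ (3 * N + 9))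
    (fun E t f tb => fam_bound hn hi f hN x1 x2 (by exact_mod_cast hc.trans x3)
      (fun a y g => (tb a y g).trans_le hM'))
  refine ⟨X, hX.trans ?_, hX'⟩
  have X2 : (2:ℝ) ≤ x := by exact_mod_cast (by omega : 2 ≤ x)
  calc 2 * (x:ℝ) * x ^ (3 * N + 9) = 2 * x ^ (3 * N + 10) := by ring
    _ ≤ x ^ (3 * N + 11) := cpw (by linarith) X2 le_rfl
    _ ≤ (C * (n:ℝ) ^ (1 / ((2 * N + 8 : ℕ):ℝ))) ^ (3 * N + 11) :=
        pow_le_pow_left₀ (by positivity) x4 _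
    _ = _ := by
        rw [mul_pow, ← Real.rpow_natCast ((n:ℝ) ^ _), ← Real.rpow_mul (by positivity)]
        have : 1 / ((2 * N + 8 : ℕ):ℝ) * ((3 * N + 11 : ℕ):ℝ) = (3:ℝ) / 2 - 1 / 10 ^ 7 := by
          rw [hN]; norm_num
        rw [this]

end Pool.Agent.Lib.MP_65c801_co
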