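import Pool.Agent.Lib.MP_65c801_co.Run
import Pool.Agent.Lib.MP_65c801_co.Cut

/-! The arcs of the sweep form a family of pseudo-parabolas. -/

namespace Pool.Agent.Lib.MP_65c801_co

open Finset Classical

lemma alt_core {p q : Prop} {bi bj di dj θ : ℕ} {r0 s0 c0 r2 s2 c2 r3 s3 c3 r5 s5 c5 : ℕ}
    (hθ : (q ∧ θ = 1) ∨ (¬ q ∧ θ = 0))
    (o : (p ∧ s3 ≤ r3) ∨ (¬ p ∧ r2 ≤ s2)) (l : r2 ≤ 2) (c : c5 ≤ 2)
    (h1 : Arr.Ham r0 s0 c0 r2 s2 c2) (h2 : Arr.Ham r2 s2 c2 r3 s3 c3) (h3 : Arr.Ham r3 s3 c3 r5 s5 c5)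
    (b2 : θ < r2) (b3 : r3 ≤ θ)
    (first : 0 < c2 ∨ (bi < bj ∧ ¬ q) ∨ (bj < bi ∧ p) ∨ bi = bj)
    (last : c3 < 2 ∨ (di < dj ∧ ¬ p) ∨ (dj < di ∧ q) ∨ di = dj)
    (birth : c0 = 0 → (bi < bj ∧ r0 ≠ 1) ∨ (bj < bi ∧ r0 = s0))
    (death : c5 = 2 → (di < dj ∧ r5 = s5) ∨ (dj < di ∧ r5 ≠ 1)) : False := by
  unfold Arr.Ham at *
  have B : c2 = 0 → (¬ q ∧ r2 ≠ 1) ∨ (p ∧ r2 = s2) := fun e => by
    rcases birth (by omega) with ⟨a, b⟩ | ⟨a, b⟩
    · rcases first with f | f | f | f
      · omega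
      · exact Or.inl ⟨f.2, by omega⟩
      · omega
      · omega
    · rcases first with f | f | f | f
      · omega
      · omega
      · exact Or.inr ⟨f.2, by omega⟩
      · omega
  have D : c3 = 2 → (¬ p ∧ r3 = s3) ∨ (q ∧ r3 ≠ 1) := fun e => by
    rcases death (by omega) with ⟨a, b⟩ | ⟨a, b⟩
    · rcases last with f | f | f | f
      · omega
      · exact Or.inl ⟨f.2, by omega⟩
      · omega
      · omega
    · rcases last with f | f | f | f
      · omega
      · omega
      · exact Or.inr ⟨f.2, by omega⟩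
      · omega
  have c3' : c3 ≤ 2 := by omega
  clear first last birth death h1 h3 c
  by_cases hp : p <;> by_cases hq : q <;> simp only [hp, hq, true_and, false_and,
    not_true, not_false_iff, false_or, or_false, imp_false] at hθ o B D <;> omega

/-- the height of an arc born at `b` and dead at `d`, extended downwards when `cap` holds and upwards
otherwise -/
noncomputable def hgt (cap : Prop) (b d : ℕ) (κ : ℕ → ℕ) (t : ℕ) : ℤ ×ₗ ℤ ×ₗ ℕ :=
  if t < b then toLex (if cap then -2 else 2, toLex (if cap then -(b : ℤ) else b, κ b))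
  else if t < d then toLex (0, toLex (0, κ t))
  else toLex (if cap then -1 else 1, toLex (if cap then (d : ℤ) else -d, κ (d - 1)))

section hgt

variable {p q : Prop} {b d b' d' t : ℕ} {κ κ' : ℕ → ℕ}

lemma hgt_mid (h1 : b ≤ t) (h2 : t < d) (h3 : b' ≤ t) (h4 : t < d') :
    hgt p b d κ t < hgt q b' d' κ' t ↔ κ t < κ' t := by
  unfold hgt
  rw [if_neg (by omega), if_pos h2, if_neg (by omega), if_pos h4]
  simp [Prod.Lex.lt_iff]

lemma hgt_pre (h : t < b') (h' : b < b') : hgt p b d κ t < hgt q b' d' κ' t ↔ ¬ q := by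
  unfold hgt
  rw [if_pos h]
  by_cases hp : p <;> by_cases hq : q <;> split_ifs <;> simp [Prod.Lex.lt_iff, *] <;> omega

lemma hgt_pre' (h : t < b) (h' : b' < b) : hgt p b d κ t < hgt q b' d' κ' t ↔ p := by
  unfold hgt
  rw [if_pos h]
  by_cases hp : p <;> by_cases hq : q <;> split_ifs <;> simp [Prod.Lex.lt_iff, *] <;> omega

lemma hgt_post (h : d ≤ t) (h0 : b ≤ t) (h1 : b' ≤ t) (h' : d < d') :
    hgt p b d κ t < hgt q b' d' κ' t ↔ p := by
  unfold hgt
  rw [if_neg (by omega), if_neg (by omega), if_neg (c := t < b') (by omega)]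
  by_cases hp : p <;> by_cases hq : q <;> split_ifs <;> simp [Prod.Lex.lt_iff, *] <;> omega

lemma hgt_post' (h : d' ≤ t) (h0 : b ≤ t) (h1 : b' ≤ t) (h' : d' < d) :
    hgt p b d κ t < hgt q b' d' κ' t ↔ ¬ q := by
  unfold hgt
  rw [if_neg (by omega), if_neg (c := t < b') (by omega), if_neg (c := t < d') (by omega)]
  by_cases hp : p <;> by_cases hq : q <;> split_ifs <;> simp [Prod.Lex.lt_iff, *] <;> omega

lemma hgt_eq_pre {t' : ℕ} (h : t < b) (h' : t' < b) : hgt p b d κ t = hgt p b d κ t' := by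
  unfold hgt; rw [if_pos h, if_pos h']

lemma hgt_eq_post {t' : ℕ} (bd : b < d) (h : d ≤ t) (h' : d ≤ t') : hgt p b d κ t = hgt p b d κ t' := by
  unfold hgt
  rw [if_neg (c := t < b) (by omega), if_neg (c := t < d) (by omega), if_neg (c := t' < b) (by omega),
    if_neg (c := t' < d) (by omega)]

lemma hgt_inj (bd : b < d) (bd' : b' < d') (h : hgt p b d κ t = hgt q b' d' κ' t) :
    ∃ τ, b ≤ τ ∧ τ < d ∧ b' ≤ τ ∧ τ < d' ∧ κ τ = κ' τ := by
  unfold hgt at h
  by_cases hp : p <;> by_cases hq : q <;> split_ifs at h <;>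
    simp only [toLex_inj, Prod.mk.injEq, neg_inj, Nat.cast_inj] at h <;>
    first
    | omega
    | (obtain ⟨-, rfl, h⟩ := h; exact ⟨_, by omega, by omega, by omega, by omega, h⟩)
    | exact ⟨t, by omega, by omega, by omega, by omega, h.2.2⟩

lemma hgt_same (hp : p) (hq : ¬ q) (h : hgt q b d κ' t < hgt p b d κ t) : b ≤ t ∧ t < d := by
  unfold hgt at h
  split_ifs at h <;> simp [Prod.Lex.lt_iff] at h <;> omega

end hgt

namespace Arr

variable {ι X Vx : Type} [Fintype X] [Fintype ι] {A : Arr ι X Vx} [Fintype Vx]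

/-- the slot `s` is the upper one -/
def cap (σ : ℕ → St ι Vx) (b : ι → ℕ) (s : ι × Bool) : Prop :=
  (σ (b s.1)).key (oth s) < (σ (b s.1)).key s

/-- the height of the arc swept by the slot `s` -/
noncomputable def H (σ : ℕ → St ι Vx) (b d : ι → ℕ) (s : ι × Bool) : ℕ → ℤ ×ₗ ℤ ×ₗ ℕ :=
  hgt (cap σ b s) (b s.1) (d s.1) fun t => (σ t).key s

variable {σ : ℕ → St ι Vx} {M : ℕ} {b d : ι → ℕ} (R : A.Run σ M b d)
include R

omit [Fintype Vx] in
lemma Run.inj : Inj (H σ b d) := fun t s u h => by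
  obtain ⟨τ, h1, h2, h3, h4, e⟩ := hgt_inj (R.bd _) (R.bd _) h
  exact (R.inv τ).kinj s u (R.alive h1 h2) (R.alive h3 h4) e

omit [Fintype Vx] in
lemma Run.cap_iff {s : ι × Bool} {t : ℕ} (h1 : b s.1 ≤ t) (h2 : t < d s.1) :
    (cap σ b s ∧ (σ t).key (oth s) < (σ t).key s) ∨
      (¬ cap σ b s ∧ (σ t).key s < (σ t).key (oth s)) := by
  by_cases c : cap σ b s
  · exact Or.inl ⟨c, R.same c h1 h2⟩
  · refine Or.inr ⟨c, ?_⟩
    have a := R.alive le_rfl (R.bd s.1)
    have := (R.inv _).key_ne (s := oth s) a a (oth_ne s)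
    have := R.same (s := oth s) (by unfold cap at c; simp only [oth_oth, oth_fst]; omega) h1 h2
    rwa [oth_oth] at this

omit [Fintype Vx] in
lemma Run.lt_iff {s u : ι × Bool} (su : s.1 ≠ u.1) {t : ℕ} (h1 : b s.1 ≤ t) (h2 : t < d s.1)
    (h3 : b u.1 ≤ t) (h4 : t < d u.1) :
    (σ t).key s < (σ t).key u ↔ rk (σ t) u.1 s ≤ if cap σ b u then 1 else 0 := by
  have c := R.cap_iff h3 h4
  have k1 := (R.inv t).key_ne (R.alive h1 h2) (R.alive h3 h4) (by rintro rfl; exact su rfl)
  have k2 := (R.inv t).key_ne (u := oth u) (R.alive h1 h2) (R.alive h3 h4)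
    (by rintro rfl; exact su rfl)
  obtain ⟨j, f⟩ := u
  unfold rk
  cases f <;> simp only [oth, Bool.not_true, Bool.not_false] at * <;>
    rcases c with ⟨c1, c2⟩ | ⟨c1, c2⟩ <;> simp only [c1, if_true, if_false] <;> split_ifs <;> omega

theorem Run.noAlt : NoAlt (H σ b d) := by
  intro s u t1 t2 t3 t4 c1 c2 c3 h1 h2 h3 h4
  have bs := R.bd s.1
  have bu := R.bd u.1
  by_cases su : s.1 = u.1
  · rcases eq_or_oth su with rfl | rfl
    · exact lt_irrefl _ h1
    have k := R.cap_iff le_rfl bu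
    have k' : cap σ b (oth u) ↔ (σ (b u.1)).key u < (σ (b u.1)).key (oth u) := by
      unfold cap; rw [oth_oth]; rfl
    have mid : ∀ t, b u.1 ≤ t → t < d u.1 → (H σ b d u t < H σ b d (oth u) t ↔ ¬ cap σ b u) ∧
        (H σ b d (oth u) t < H σ b d u t ↔ cap σ b u) := fun t a1 a2 => by
      have := R.cap_iff a1 a2
      unfold H
      rw [oth_fst, hgt_mid a1 a2 a1 a2, hgt_mid a1 a2 a1 a2]
      rcases this with ⟨x, y⟩ | ⟨x, y⟩ <;> simp only [x, not_true, not_false_iff, iff_true, iff_false] <;>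
        omega
    rcases k with ⟨x, y⟩ | ⟨x, y⟩
    · have a1 := hgt_same x (mt k'.1 (by omega)) h1
      have a3 := hgt_same x (mt k'.1 (by omega)) h3
      simp only [oth_fst] at a1 a3
      exact (mid t2 (by omega) (by omega)).1.1 h2 x
    · have a2 := hgt_same (k'.2 y) x h2
      have a4 := hgt_same (k'.2 y) x h4
      exact x ((mid t3 (by omega) (by omega)).2.1 h3)
  replace h2 := lt_asymm h2
  replace h4 := lt_asymm h4
  unfold H at h1 h2 h3 h4
  have pre : ∀ t t', t < max (b s.1) (b u.1) → t' < max (b s.1) (b u.1) →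
      (H σ b d s t < H σ b d u t ↔ H σ b d s t' < H σ b d u t') := fun t t' a a' => by
    unfold H
    rcases lt_trichotomy (b s.1) (b u.1) with c | c | c
    · rw [hgt_pre (by omega) c, hgt_pre (by omega) c]
    · rw [hgt_eq_pre (t := t) (t' := t') (by omega) (by omega),
        hgt_eq_pre (t := t) (t' := t') (by omega) (by omega)]
    · rw [hgt_pre' (by omega) c, hgt_pre' (by omega) c]
  have post : ∀ t t', max (b s.1) (b u.1) ≤ t → t ≤ t' → min (d s.1) (d u.1) ≤ t →
      (H σ b d s t < H σ b d u t ↔ H σ b d s t' < H σ b d u t') := fun t t' a a' a'' => by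
    unfold H
    rcases lt_trichotomy (d s.1) (d u.1) with c | c | c
    · rw [hgt_post (by omega) (by omega) (by omega) c, hgt_post (by omega) (by omega) (by omega) c]
    · rw [hgt_eq_post (t := t) (t' := t') bs (by omega) (by omega),
        hgt_eq_post (t := t) (t' := t') bu (by omega) (by omega)]
    · rw [hgt_post' (by omega) (by omega) (by omega) c, hgt_post' (by omega) (by omega) (by omega) c]
  have e2 : max (b s.1) (b u.1) ≤ t2 := by
    by_contra c
    exact h2 ((pre t1 t2 (by omega) (by omega)).1 h1)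
  have e3 : t3 < min (d s.1) (d u.1) := by
    by_contra c
    exact h4 ((post t3 t4 (by omega) (by omega) (by omega)).1 h3)
  have mid : ∀ t, max (b s.1) (b u.1) ≤ t → t < min (d s.1) (d u.1) →
      (H σ b d s t < H σ b d u t ↔ rk (σ t) u.1 s ≤ if cap σ b u then 1 else 0) := fun t a a' => by
    unfold H
    rw [hgt_mid (by omega) (by omega) (by omega) (by omega),
      R.lt_iff su (by omega) (by omega) (by omega) (by omega)]
  have b2 := not_le.1 (mt (mid t2 e2 (by omega)).2 h2)
  have b3 := (mid t3 (by omega) e3).1 h3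
  have adj1 : ∀ t, (∀ e, (σ t).key (u.1, e) < (σ t).key (s.1, true) ↔
      (σ t).key (u.1, e) < (σ t).key (s.1, false)) → rk (σ t) u.1 s = rk (σ t) u.1 (oth s) := by
    intro t h
    obtain ⟨i, e⟩ := s
    cases e <;> simp only [rk, oth, Bool.not_true, Bool.not_false, h]
  have adj2 : ∀ t, max (b s.1) (b u.1) ≤ t → t < min (d s.1) (d u.1) →
      (∀ e, (σ t).key (s.1, e) < (σ t).key (u.1, true) ↔
      (σ t).key (s.1, e) < (σ t).key (u.1, false)) → rk (σ t) u.1 s ≠ 1 := by
    intro t a a' h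
    have k := fun f => (R.inv t).key_ne (s := s) (u := (u.1, f)) (R.alive (by omega) (by omega))
      (R.alive (by simp only; omega) (by simp only; omega)) (by rintro rfl; exact su rfl)
    have k1 := k true
    have k2 := k false
    have := h s.2
    unfold rk
    simp only [Prod.mk.eta] at this
    split_ifs <;> omega
  refine alt_core (p := cap σ b s) (q := cap σ b u) (bi := b s.1) (bj := b u.1) (di := d s.1)
    (dj := d u.1) (by split_ifs with c <;> simp [c]) ?_ (by unfold rk; split_ifs <;> omega)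
    (cnt_le su) (R.ham (t := max (b s.1) (b u.1)) (by omega) (by omega) e2 (by omega) (by omega))
    (R.ham (by omega) (by omega) c2.le (by omega) (by omega))
    (R.ham (t' := min (d s.1) (d u.1) - 1) (by omega) (by omega) (by omega) (by omega) (by omega))
    b2 b3 ?_ ?_ (fun c => ?_) fun c => ?_
  · rcases R.cap_iff (s := s) (t := t3) (by omega) (by omega) with ⟨x, y⟩ | ⟨x, -⟩
    · exact Or.inl ⟨x, by unfold rk; split_ifs <;> omega⟩
    · have y := ((R.cap_iff (s := s) (t := t2) (by omega) (by omega)).resolve_left fun c => x c.1).2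
      exact Or.inr ⟨x, by unfold rk; split_ifs <;> omega⟩
  · by_cases c : t1 < max (b s.1) (b u.1)
    · right
      rcases lt_trichotomy (b s.1) (b u.1) with c' | c' | c'
      · exact Or.inl ⟨c', (hgt_pre (by omega) c').1 h1⟩
      · exact Or.inr (Or.inr c')
      · exact Or.inr (Or.inl ⟨c', (hgt_pre' (by omega) c').1 h1⟩)
    · have := (mid t1 (by omega) (by omega)).1 h1
      have := R.ham (s := s) (j := u.1) (t := t1) (by omega) (by omega) c1.le (by omega) (by omega)
      unfold Ham at this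
      left; omega
  · by_cases c : t4 < min (d s.1) (d u.1)
    · have := mt (mid t4 (by omega) c).2 h4
      have := R.ham (s := s) (j := u.1) (t := t3) (by omega) (by omega) c3.le (by omega) (by omega)
      have := cnt_le (A := A) (σ := σ t4) su
      unfold Ham at *
      left; omega
    · right
      rcases lt_trichotomy (d s.1) (d u.1) with c' | c' | c'
      · exact Or.inl ⟨c', mt (hgt_post (by omega) (by omega) (by omega) c').2 h4⟩
      · exact Or.inr (Or.inr c')
      · exact Or.inr (Or.inl ⟨c', not_not.1 (mt (hgt_post' (by omega) (by omega) (by omega) c').2 h4)⟩)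
  · rcases le_total (b s.1) (b u.1) with c' | c'
    · rw [max_eq_right c'] at c ⊢
      obtain ⟨x, y⟩ := R.birth (Ne.symm su) c' (by omega) (Or.inr c)
      exact Or.inl ⟨x, adj2 _ (by omega) (by omega) y⟩
    · rw [max_eq_left c'] at c ⊢
      obtain ⟨x, y⟩ := R.birth su c' (by omega) (Or.inl c)
      exact Or.inr ⟨x, adj1 _ y⟩
  · rcases le_total (d s.1) (d u.1) with c' | c'
    · rw [min_eq_left c'] at c ⊢
      obtain ⟨x, y⟩ := R.death su c' (by omega) (Or.inl c)
      exact Or.inl ⟨x, adj1 _ y⟩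
    · rw [min_eq_right c'] at c ⊢
      obtain ⟨x, y⟩ := R.death (Ne.symm su) c' (by omega) (Or.inr c)
      exact Or.inr ⟨x, adj2 _ (by omega) (by omega) y⟩

end Arr

end Pool.Agent.Lib.MP_65c801_co
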