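import Pool.Agent.Lib.MP_65c801_co.Arr

/-! Systems of chords of a disc, every two of which meet at most twice: some move of the sweep is
always available. -/

namespace Pool.Agent.Lib.MP_65c801_co

open Finset Classical

/-- Chords of a disc. Slots are the ends of the chords, ordered by `key`; `seq s` lists the vertices
met from the slot `s`. The last three fields express planarity. -/
structure Chords (S Vx : Type*) where
  key : S → ℕ
  pa : S → S
  len : S → ℕ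
  seq : S → ℕ → Vx
  kinj : ∀ a b, key a = key b → a = b
  papa : ∀ s, pa (pa s) = s
  pane : ∀ s, pa s ≠ s
  lenpos : ∀ s, 0 < len s
  lenpa : ∀ s, len (pa s) = len s
  seqpa : ∀ s n, n ≤ len s → seq (pa s) n = seq s (len s - n)
  inj : ∀ s n m, 0 < n → n < len s → 0 < m → m < len s → seq s n = seq s m → n = m
  two : ∀ s u, u ≠ s → u ≠ pa s → ∀ k1 k2 k3, 0 < k1 → k1 < k2 → k2 < k3 → k3 < len u →
    (∃ n, 0 < n ∧ n < len s ∧ seq s n = seq u k1) → (∃ n, 0 < n ∧ n < len s ∧ seq s n = seq u k2) →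
    (∃ n, 0 < n ∧ n < len s ∧ seq s n = seq u k3) → False
  c0 : ∀ s u, u ≠ s → u ≠ pa s →
    (∀ k n, 0 < k → k < len u → 0 < n → n < len s → seq s n ≠ seq u k) →
    (btw (key s) (key (pa s)) (key u) ↔ btw (key s) (key (pa s)) (key (pa u)))
  c2 : ∀ s u, u ≠ s → u ≠ pa s → ∀ k1 k2, 0 < k1 → k1 < k2 → k2 < len u →
    (∃ n, 0 < n ∧ n < len s ∧ seq s n = seq u k1) → (∃ n, 0 < n ∧ n < len s ∧ seq s n = seq u k2) →
    (btw (key s) (key (pa s)) (key u) ↔ btw (key s) (key (pa s)) (key (pa u)))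
  vee : ∀ s n t m, 0 < n → n < len s → 0 < m → m < len t → t ≠ s → t ≠ pa s → seq s n = seq t m →
    ∃ val : S → ℕ → Prop, (∀ u, u ≠ s → u ≠ t → (val u 0 ↔ btw (key s) (key t) (key u))) ∧
      (∀ u k, k < len u → (val (pa u) k ↔ val u (len u - 1 - k))) ∧
      (∀ u k u' k', 0 < k → k < len u → 0 < k' → k' < len u' → seq u k = seq u' k' →
        (∀ j, 0 < j → j ≤ n → seq s j ≠ seq u k) → (∀ j, 0 < j → j ≤ m → seq t j ≠ seq u k) →
        (val u k ↔ val u' k')) ∧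
      (∀ u k j, 0 < k → k < len u → 0 < j → j < m → seq u k = seq t j → u ≠ t → u ≠ pa t →
        (∀ j, 0 < j → j ≤ n → seq s j ≠ seq u k) → ¬ (val u k ↔ val u (k - 1))) ∧
      (val s n ↔ val t m)

namespace Chords

variable {S Vx : Type*} (C : Chords S Vx)

/-- the chord of `s` passes through `y` -/
def On (s : S) (y : Vx) : Prop := ∃ n, 0 < n ∧ n < C.len s ∧ C.seq s n = y

/-- strictly between two slots -/
def Bt (a b x : S) : Prop := btw (C.key a) (C.key b) (C.key x)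

/-- the `n`-th vertex from `u` lies on another chord with a slot in `G` -/
def Vert (G : Finset S) (u : S) (n : ℕ) : Prop :=
  0 < n ∧ n < C.len u ∧ ∃ d, (d ∈ G ∨ C.pa d ∈ G) ∧ d ≠ u ∧ d ≠ C.pa u ∧ C.On d (C.seq u n)

/-- the first such vertex from `u` is `y` -/
def First (G : Finset S) (u : S) (y : Vx) : Prop :=
  ∃ n, C.Vert G u n ∧ C.seq u n = y ∧ ∀ k < n, ¬ C.Vert G u k

/-- convex sets of slots -/
def Conv (G : S → Prop) : Prop := ∀ a b x, G a → G b → C.Bt a b x → G x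

/-- a move of the sweep is available in `G` -/
def Move (G : Finset S) : Prop :=
  (∃ u ∈ G, C.pa u ∈ G ∧ (∀ x, ¬ C.Bt u (C.pa u) x) ∧ ∀ n, ¬ C.Vert G u n) ∨
  ∃ (y : Vx) (B : S → Prop), (∃ u, B u) ∧ (∀ u, B u → u ∈ G ∧ C.First G u y) ∧ C.Conv B ∧
    ∀ d, (d ∈ G ∨ C.pa d ∈ G) → C.On d y → B d ∨ B (C.pa d)

/-- there is something to sweep in `G` -/
def Hyp (G : Finset S) : Prop := ∃ u ∈ G, C.pa u ∈ G ∨ ∃ n, C.Vert G u n

variable {C}

lemma on_pa {s : S} {y : Vx} : C.On (C.pa s) y ↔ C.On s y := by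
  have key : ∀ s, C.On (C.pa s) y → C.On s y := by
    rintro s ⟨n, h1, h2, h3⟩
    rw [C.lenpa] at h2
    exact ⟨C.len s - n, by omega, by omega, by rw [← C.seqpa s n h2.le]; exact h3⟩
  exact ⟨key s, fun h => key _ (by rw [C.papa]; exact h)⟩

lemma kne {a b : S} (h : a ≠ b) : C.key a ≠ C.key b := fun e => h (C.kinj _ _ e)

lemma pa_ne_of {a b : S} (h : a ≠ C.pa b) : C.pa a ≠ b := fun e => h (by rw [← e, C.papa])

lemma pa_ne_pa {a b : S} (h : a ≠ b) : C.pa a ≠ C.pa b := fun e =>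
  h (by rw [← C.papa a, e, C.papa])

lemma exists_first {G : Finset S} {u : S} {n : ℕ} (h : C.Vert G u n) :
    ∃ k ≤ n, C.Vert G u k ∧ ∀ j < k, ¬ C.Vert G u j :=
  ⟨Nat.find ⟨n, h⟩, Nat.find_min' _ h, Nat.find_spec (⟨n, h⟩ : ∃ n, C.Vert G u n),
    fun _ hj => Nat.find_min _ hj⟩

lemma Vert.mono {G G' : Finset S} (hG : G ⊆ G') {u : S} {n : ℕ} (h : C.Vert G u n) :
    C.Vert G' u n := by
  obtain ⟨h1, h2, d, h3, h4⟩ := h
  exact ⟨h1, h2, d, h3.imp (fun h => hG h) (fun h => hG h), h4⟩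

lemma First.on {G : Finset S} {u : S} {y : Vx} (h : C.First G u y) : C.On u y := by
  obtain ⟨n, h1, h2, -⟩ := h
  exact ⟨n, h1.1, h1.2.1, h2⟩

/-- no crossings: a shortest chord inside `G` is an empty hump -/
lemma move_of_no_vert [Fintype S] {G : Finset S} (hG : C.Conv (· ∈ G))
    (h : ∀ u ∈ G, ∀ n, ¬ C.Vert G u n) (hu : ∃ u ∈ G, C.pa u ∈ G) : C.Move G := by
  obtain ⟨u, hu, hmin⟩ := Finset.exists_min_image (G.filter fun u => C.pa u ∈ G)
    (fun u => C.key u - C.key (C.pa u) + (C.key (C.pa u) - C.key u))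
    (by obtain ⟨u, h1, h2⟩ := hu; exact ⟨u, mem_filter.2 ⟨h1, h2⟩⟩)
  obtain ⟨u1, u2⟩ := mem_filter.1 hu
  refine Or.inl ⟨u, u1, u2, fun x hx => ?_, h u u1⟩
  have xG := hG _ _ x u1 u2 hx
  have x1 : x ≠ u := by rintro rfl; unfold Bt btw at hx; omega
  have x2 : x ≠ C.pa u := by rintro rfl; unfold Bt btw at hx; omega
  have := (C.c0 u x x1 x2 (fun k n k1 k2 n1 n2 e =>
    h x xG k ⟨k1, k2, u, Or.inl u1, x1.symm, (pa_ne_of x2).symm, n, n1, n2, e⟩)).1 hx
  have h2 := hmin x (mem_filter.2 ⟨xG, hG _ _ _ u1 u2 this⟩)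
  unfold Bt btw at hx
  unfold btw at this
  omega

/-- the data of a two-sided cycle -/
structure Vee (C : Chords S Vx) (s : S) (n : ℕ) (t : S) (m : ℕ) (val : S → ℕ → Prop) : Prop where
  r0 : ∀ u, u ≠ s → u ≠ t → (val u 0 ↔ C.Bt s t u)
  r1 : ∀ u k, k < C.len u → (val (C.pa u) k ↔ val u (C.len u - 1 - k))
  r4 : ∀ u k u' k', 0 < k → k < C.len u → 0 < k' → k' < C.len u' → C.seq u k = C.seq u' k' →
        (∀ j, 0 < j → j ≤ n → C.seq s j ≠ C.seq u k) → (∀ j, 0 < j → j ≤ m → C.seq t j ≠ C.seq u k) →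
        (val u k ↔ val u' k')
  r3 : ∀ u k j, 0 < k → k < C.len u → 0 < j → j < m → C.seq u k = C.seq t j → u ≠ t → u ≠ C.pa t →
        (∀ j, 0 < j → j ≤ n → C.seq s j ≠ C.seq u k) → ¬ (val u k ↔ val u (k - 1))
  r5 : val s n ↔ val t m

lemma exists_vee {s t : S} {n m : ℕ} (n0 : 0 < n) (n1 : n < C.len s) (m0 : 0 < m) (m1 : m < C.len t)
    (ts : t ≠ s) (ts' : t ≠ C.pa s) (e : C.seq s n = C.seq t m) : ∃ val, C.Vee s n t m val := by
  obtain ⟨val, a, b, c, d, f⟩ := C.vee s n t m n0 n1 m0 m1 ts ts' e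
  exact ⟨val, a, b, c, d, f⟩

/-- a vertex off the cycle -/
def Off (C : Chords S Vx) (s : S) (n : ℕ) (t : S) (m : ℕ) (y : Vx) : Prop :=
  (∀ j, 0 < j → j ≤ n → C.seq s j ≠ y) ∧ ∀ j, 0 < j → j ≤ m → C.seq t j ≠ y

lemma Vee.const {s t : S} {n m : ℕ} {val : S → ℕ → Prop} (V : C.Vee s n t m val) (u : S) {a b : ℕ}
    (ab : a ≤ b) (hb : b < C.len u) (h : ∀ k, a < k → k ≤ b → C.Off s n t m (C.seq u k)) :
    val u a ↔ val u b := by
  induction b, ab using Nat.le_induction with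
  | base => rfl
  | succ b ab ih =>
    rw [ih (by omega) (fun k k1 k2 => h k k1 (by omega))]
    have o := h (b + 1) (by omega) le_rfl
    have h1 := V.r4 u (b + 1) (C.pa u) (C.len u - (b + 1)) (by omega) hb (by omega)
      (by rw [C.lenpa]; omega) (by rw [C.seqpa u _ (by omega)]; congr 1; omega) o.1 o.2
    have h2 := V.r1 u (C.len u - (b + 1)) (by omega)
    rw [h1, h2, show C.len u - 1 - (C.len u - (b + 1)) = b by omega]

lemma Vee.last {s t : S} {n m : ℕ} {val : S → ℕ → Prop} (V : C.Vee s n t m val) (u : S)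
    (h1 : C.pa u ≠ s) (h2 : C.pa u ≠ t) : val u (C.len u - 1) ↔ C.Bt s t (C.pa u) := by
  rw [← V.r0 _ h1 h2, V.r1 u 0 (C.lenpos u)]; rfl

/-- slots on the far side of the chord of `z`, seen from `u` -/
def Far (C : Chords S Vx) (u z x : S) : Prop :=
  x ≠ z ∧ x ≠ C.pa z ∧ ¬ (C.Bt z (C.pa z) x ↔ C.Bt z (C.pa z) u)

/-- the number of far slots -/
noncomputable def om [Fintype S] (C : Chords S Vx) (u z : S) : ℕ := (univ.filter (C.Far u z)).card

lemma om_pa [Fintype S] (u z : S) : C.om u (C.pa z) = C.om u z := by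
  unfold om
  refine congrArg card (filter_congr fun x _ => ?_)
  unfold Far Bt btw
  rw [C.papa]; tauto

lemma om_lt [Fintype S] {s t u d : S} (hu : C.Bt s t u ∨ u = t) (ht : ¬ C.Bt s t (C.pa t))
    (st : s ≠ C.pa t) (h1 : C.Far s t d) (h2 : C.Far s t (C.pa d)) : C.om u d < C.om s t := by
  refine card_lt_card ⟨fun x hx => ?_, fun hc => ?_⟩
  · simp only [mem_filter, mem_univ, true_and] at hx ⊢
    obtain ⟨a1, a2, a3⟩ := h1
    obtain ⟨b1, b2, b3⟩ := h2
    obtain ⟨c1, c2, c3⟩ := hx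
    have a1 := C.kne a1
    have a2 := C.kne a2
    have b1 := C.kne b1
    have b2 := C.kne b2
    have c1 := C.kne c1
    have c2 := C.kne c2
    have st := C.kne st
    have tt := C.kne (C.pane t)
    have hu' : C.Bt s t u ∨ C.key u = C.key t := hu.imp id (congrArg C.key)
    clear hu
    have key : C.key x ≠ C.key t ∧ C.key x ≠ C.key (C.pa t) ∧
        ¬ (C.Bt t (C.pa t) x ↔ C.Bt t (C.pa t) s) := by
      unfold Bt btw at *
      omega
    exact ⟨fun e => key.1 (congrArg C.key e), fun e => key.2.1 (congrArg C.key e), key.2.2⟩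
  · have := hc (mem_filter.2 ⟨mem_univ d, h1⟩)
    exact (mem_filter.1 this).2.1 rfl

section main

variable {G : Finset S} {s t : S} {n m : ℕ} {val : S → ℕ → Prop}
  (V : C.Vee s n t m val) (n0 : 0 < n) (n1 : n < C.len s) (m0 : 0 < m) (m1 : m < C.len t)
  (ts : t ≠ s) (ts' : t ≠ C.pa s) (e : C.seq s n = C.seq t m) (tG : t ∈ G)
  (hfirst : ∀ k < n, ¬ C.Vert G s k) (ht : ¬ C.Bt s t (C.pa t))

include hfirst n1 in
lemma not_on_A {d : S} (dG : d ∈ G ∨ C.pa d ∈ G) (d1 : d ≠ s) (d2 : d ≠ C.pa s) {y : Vx}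
    (hy : C.On d y) (j : ℕ) (j0 : 0 < j) (j1 : j < n) : C.seq s j ≠ y := fun h =>
  hfirst j j1 ⟨j0, by omega, d, dG, d1, d2, h ▸ hy⟩

include hfirst n1 e m0 in
lemma not_off {d : S} (dG : d ∈ G ∨ C.pa d ∈ G) (d1 : d ≠ s) (d2 : d ≠ C.pa s) {y : Vx}
    (hy : C.On d y) (h : ¬ C.Off s n t m y) : ∃ j, 0 < j ∧ j ≤ m ∧ C.seq t j = y := by
  by_contra hc
  push Not at hc
  refine h ⟨fun j j0 j1 => ?_, hc⟩
  rcases j1.eq_or_lt with rfl | j1
  · rw [e]; exact hc m m0 le_rfl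
  · exact not_on_A n1 hfirst dG d1 d2 hy j j0 j1

include V n1 m0 m1 ts ts' e tG hfirst ht in
lemma cont_z (k : ℕ) (k1 : m ≤ k) (k2 : k < C.len t) : ¬ val t k := by
  have h := V.const t (a := k) (b := C.len t - 1) (by omega) (by omega) (fun j j1 j2 => by
    by_contra hc
    obtain ⟨i, i0, i1, i2⟩ := not_off n1 m0 e hfirst (Or.inl tG) ts ts' ⟨j, by omega, by omega, rfl⟩ hc
    have := C.inj t i j i0 (by omega) (by omega) (by omega) i2
    omega)
  rw [h, V.last t (pa_ne_of ts') (C.pane t)]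
  exact ht

include V n0 n1 m0 m1 ts ts' e tG hfirst ht in
lemma cont_a (ha : ¬ C.Bt s t (C.pa s)) :
    (∀ k, n ≤ k → k < C.len s → ¬ val s k) ∧ ∀ j, 0 < j → j < m → ¬ C.On s (C.seq t j) := by
  have h0 : ¬ val s n := by rw [V.r5]; exact cont_z V n1 m0 m1 ts ts' e tG hfirst ht m le_rfl m1
  have h1 : ¬ val s (C.len s - 1) := by rw [V.last s (C.pane s) ts'.symm]; exact ha
  have off : ∀ k, n < k → k < C.len s → (∀ j, 0 < j → j < m → C.seq t j ≠ C.seq s k) →
      C.Off s n t m (C.seq s k) := fun k k1 k2 h => by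
    have a : ∀ j, 0 < j → j ≤ n → C.seq s j ≠ C.seq s k := fun j j0 j1 h => by
      have := C.inj s j k j0 (by omega) (by omega) k2 h; omega
    refine ⟨a, fun j j0 j1 => ?_⟩
    rcases j1.eq_or_lt with rfl | j1
    · rw [← e]; exact a n n0 le_rfl
    · exact h j j0 j1
  have none : ∀ j, 0 < j → j < m → ¬ C.On s (C.seq t j) := by
    rintro j j0 j1 ⟨k, k0, k1, hk⟩
    have kn : n < k := by
      rcases lt_trichotomy k n with c | c | c
      · exact absurd hk (not_on_A n1 hfirst (Or.inl tG) ts ts' ⟨j, j0, by omega, rfl⟩ k k0 c)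
      · subst c
        have := C.inj t m j m0 m1 j0 (by omega) (e ▸ hk); omega
      · exact c
    have only : ∀ k', n < k' → k' < C.len s → k' ≠ k → C.Off s n t m (C.seq s k') := by
      intro k' a b c
      refine off k' a b fun i i0 i1 h => ?_
      rcases lt_or_gt_of_ne c with c | c
      · exact C.two t s ts.symm (pa_ne_of ts').symm n k' k n0 a c k1 ⟨m, m0, m1, e.symm⟩
          ⟨i, i0, by omega, h⟩ ⟨j, j0, by omega, hk.symm⟩
      · exact C.two t s ts.symm (pa_ne_of ts').symm n k k' n0 kn c b ⟨m, m0, m1, e.symm⟩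
          ⟨j, j0, by omega, hk.symm⟩ ⟨i, i0, by omega, h⟩
    have c1 := V.const s (a := n) (b := k - 1) (by omega) (by omega)
      (fun i a b => only i a (by omega) (by omega))
    have c2 := V.const s (a := k) (b := C.len s - 1) (by omega) (by omega)
      (fun i a b => only i (by omega) (by omega) (by omega))
    have c3 := V.r3 s k j k0 k1 j0 j1 hk ts.symm (pa_ne_of ts').symm (fun i i0 i1 h => by
      have := C.inj s i k i0 (by omega) k0 k1 h; omega)
    tauto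
  refine ⟨fun k k1 k2 => ?_, none⟩
  rw [← V.const s k1 k2 (fun i a b => off i a (by omega) fun j j0 j1 h =>
    none j j0 j1 ⟨i, by omega, by omega, h.symm⟩)]
  exact h0

include n0 n1 m0 m1 ts ts' e tG hfirst ht in
lemma far_one {d : S} (dG : d ∈ G ∨ C.pa d ∈ G) (d1 : d ≠ s) (d2 : d ≠ C.pa s) (d3 : d ≠ t)
    (d4 : d ≠ C.pa t) (hd : ¬ C.Bt s t d) {k1 k2 j : ℕ} (k0 : 0 < k1) (k12 : k1 < k2)
    (k3 : k2 < C.len d) (j0 : 0 < j) (j1 : j < m) (h1 : C.seq t j = C.seq d k1)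
    (h2 : C.On t (C.seq d k2)) : C.Far s t d := by
  obtain ⟨val', V'⟩ := exists_vee (t := C.pa t) (m := C.len t - m) n0 n1 (by omega)
    (by rw [C.lenpa]; omega) (pa_ne_of ts') (pa_ne_pa ts) (by
      rw [C.seqpa t _ (by omega), e]; congr 1; omega)
  have offP : ∀ i, 0 < i → i < m → C.Off s n (C.pa t) (C.len t - m) (C.seq t i) := by
    intro i i0 i1
    refine ⟨fun l l0 l1 h => ?_, fun l l0 l1 h => ?_⟩
    · rcases l1.eq_or_lt with rfl | l1
      · have := C.inj t m i m0 m1 i0 (by omega) (e ▸ h); omega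
      · exact not_on_A n1 hfirst (Or.inl tG) ts ts' ⟨i, i0, by omega, rfl⟩ l l0 l1 h
    · rw [C.seqpa t l (by omega)] at h
      have := C.inj t _ i (by omega) (by omega) i0 (by omega) h; omega
  have c1 := V'.const d (a := 0) (b := k1) (by omega) (by omega) (fun k a b => by
    rcases b.eq_or_lt with rfl | b
    · rw [← h1]; exact offP j j0 j1
    · have no : ¬ C.On t (C.seq d k) := fun h =>
        C.two t d d3 d4 k k1 k2 a b k12 k3 h ⟨j, j0, by omega, h1⟩ h2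
      refine ⟨fun l l0 l1 h => ?_, fun l l0 l1 h => no ?_⟩
      · rcases l1.eq_or_lt with rfl | l1
        · exact no ⟨m, m0, m1, e ▸ h⟩
        · exact not_on_A n1 hfirst dG d1 d2 ⟨k, a, by omega, rfl⟩ l l0 l1 h
      · exact on_pa.1 ⟨l, l0, by rw [C.lenpa]; omega, h⟩)
  have c2 := V'.r4 t j d k1 j0 (by omega) k0 (by omega) h1 (offP j j0 j1).1 (offP j j0 j1).2
  have c3 := V'.const t (a := 0) (b := j) (by omega) (by omega) (fun k a b => offP k a (by omega))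
  have c4 := V'.r0 d d1 d4
  have c5 := V'.r0 t ts (C.pane t).symm
  have c6 : C.Bt s (C.pa t) d ↔ C.Bt s (C.pa t) t :=
    c4.symm.trans (c1.trans (c2.symm.trans (c3.symm.trans c5)))
  refine ⟨d3, d4, ?_⟩
  have := C.kne d1
  have := C.kne d3
  have := C.kne d4
  have := C.kne ts
  have := C.kne (pa_ne_of ts')
  have := C.kne (C.pane t)
  clear c1 c2 c3 c4 c5
  unfold Bt btw at *
  omega

include V n0 n1 m0 m1 ts ts' e tG hfirst ht in
lemma far_both {d : S} (dG : d ∈ G ∨ C.pa d ∈ G) (d1 : d ≠ s) (d2 : d ≠ C.pa s) (d3 : d ≠ t)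
    (d4 : d ≠ C.pa t) (hd : ¬ C.Bt s t d) (hd' : ¬ C.Bt s t (C.pa d))
    (h : (∃ k < C.len d, val d k) ∨ ∃ j, 0 < j ∧ j < m ∧ C.On d (C.seq t j)) :
    C.Far s t d ∧ C.Far s t (C.pa d) := by
  have h' : ∃ k < C.len d, val d k := by
    rcases h with h | ⟨j, j0, j1, k, k0, k1, hk⟩
    · exact h
    · have := V.r3 d k j k0 k1 j0 j1 hk d3 d4 (fun i i0 i1 h => by
        rcases i1.eq_or_lt with rfl | i1
        · have := C.inj t m j m0 m1 j0 (by omega) (e ▸ h.trans hk); omega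
        · exact not_on_A n1 hfirst dG d1 d2 ⟨k, k0, k1, rfl⟩ i i0 i1 h)
      by_cases c : val d k
      · exact ⟨k, k1, c⟩
      · exact ⟨k - 1, by omega, by tauto⟩
  clear h
  obtain ⟨k, k1, hk⟩ := h'
  have a0 : ¬ val d 0 := by rw [V.r0 d d1 d3]; exact hd
  have a1 : ¬ val d (C.len d - 1) := by rw [V.last d (pa_ne_of d2) (pa_ne_of d4)]; exact hd'
  obtain ⟨ka, ka0, ka1, ha⟩ : ∃ ka, 0 < ka ∧ ka ≤ k ∧ ¬ C.Off s n t m (C.seq d ka) := by
    by_contra hc; push Not at hc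
    exact a0 ((V.const d (Nat.zero_le k) k1 hc).2 hk)
  obtain ⟨kb, kb0, kb1, hb⟩ : ∃ kb, k < kb ∧ kb ≤ C.len d - 1 ∧ ¬ C.Off s n t m (C.seq d kb) := by
    by_contra hc; push Not at hc
    exact a1 ((V.const d (by omega) (by omega) hc).1 hk)
  obtain ⟨ja, ja0, ja1, ea⟩ := not_off n1 m0 e hfirst dG d1 d2 ⟨ka, ka0, by omega, rfl⟩ ha
  obtain ⟨jb, jb0, jb1, eb⟩ := not_off n1 m0 e hfirst dG d1 d2 ⟨kb, by omega, by omega, rfl⟩ hb
  have c2 := C.c2 t d d3 d4 ka kb ka0 (by omega) (by omega) ⟨ja, ja0, by omega, ea⟩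
    ⟨jb, jb0, by omega, eb⟩
  rcases ja1.eq_or_lt with rfl | ja1
  · have jb2 : jb < ja := by
      refine lt_of_le_of_ne jb1 ?_
      rintro rfl
      have := C.inj d ka kb ka0 (by omega) (by omega) (by omega) (ea.symm.trans eb); omega
    have f := far_one n0 n1 m0 m1 ts ts' e tG hfirst ht (d := C.pa d)
      (by rw [C.papa]; exact dG.symm) (pa_ne_of d2) (pa_ne_pa d1) (pa_ne_of d4) (pa_ne_pa d3) hd'
      (k1 := C.len d - kb) (k2 := C.len d - ka) (by omega) (by omega) (by rw [C.lenpa]; omega)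
      jb0 jb2 (by rw [C.seqpa d _ (by omega), eb]; congr 1; omega)
      ⟨ja, ja0, m1, by rw [C.seqpa d _ (by omega), ea]; congr 1; omega⟩
    exact ⟨⟨d3, d4, fun h => f.2.2 (c2.symm.trans h)⟩, f⟩
  · have f := far_one n0 n1 m0 m1 ts ts' e tG hfirst ht dG d1 d2 d3 d4 hd ka0 (by omega)
      (by omega : kb < C.len d) ja0 ja1 ea ⟨jb, jb0, by omega, eb⟩
    exact ⟨f, pa_ne_of d4, pa_ne_pa d3, fun h => f.2.2 (c2.trans h)⟩

end main

end Chords

end Pool.Agent.Lib.MP_65c801_co
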