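import Pool.Agent.Lib.MP_65c801_co.Chord

/-! A move of the sweep is always available. -/

namespace Pool.Agent.Lib.MP_65c801_co

open Finset Classical

namespace Chords

variable {S Vx : Type*} {C : Chords S Vx}

/-- the bundle of slots around `u` that lead to `y` -/
def Bun (C : Chords S Vx) (G : Finset S) (u : S) (y : Vx) (x : S) : Prop :=
  x ∈ G ∧ C.First G x y ∧ ∀ w, C.Bt u x w → C.First G w y

/-- a candidate pair -/
def Cand (C : Chords S Vx) (G : Finset S) (s t : S) : Prop :=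
  s ∈ G ∧ t ∈ G ∧ ∃ n m, C.Vert G s n ∧ (∀ k < n, ¬ C.Vert G s k) ∧ 0 < m ∧ m < C.len t ∧
    C.seq s n = C.seq t m ∧ t ≠ s ∧ t ≠ C.pa s ∧ ¬ C.Bt s t (C.pa t) ∧ ¬ C.Bun G s (C.seq s n) t

lemma cand_of {G : Finset S} (hG : C.Conv (· ∈ G)) (hM : ¬ C.Move G) {u : S} (uG : u ∈ G) {y : Vx}
    (hy : C.First G u y) :
    ∃ t, C.Cand G u t ∧ C.On t y ∧ ¬ C.Bun G u y t ∧ ¬ C.Bun G u y (C.pa t) := by
  have hu : C.Bun G u y u := ⟨uG, hy, fun w hw => by unfold Bt btw at hw; omega⟩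
  have hc : C.Conv (C.Bun G u y) := by
    rintro a b x ⟨a1, a2, a3⟩ ⟨b1, b2, b3⟩ hx
    refine ⟨hG _ _ _ a1 b1 hx, ?_, fun w hw => ?_⟩
    · by_cases e : x = u
      · exact e ▸ hy
      · have := C.kne e
        have : C.Bt u a x ∨ C.Bt u b x := by unfold Bt btw at *; omega
        exact this.elim (a3 x) (b3 x)
    · have : C.Bt u a w ∨ C.Bt u b w := by unfold Bt btw at *; omega
      exact this.elim (a3 w) (b3 w)
  obtain ⟨d, d1, d2, d3, d4⟩ : ∃ d, (d ∈ G ∨ C.pa d ∈ G) ∧ C.On d y ∧ ¬ C.Bun G u y d ∧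
      ¬ C.Bun G u y (C.pa d) := by
    by_contra h
    refine hM (Or.inr ⟨y, C.Bun G u y, ⟨u, hu⟩, fun x hx => ⟨hx.1, hx.2.1⟩, hc, fun d d1 d2 => ?_⟩)
    by_contra h'
    push Not at h'
    exact h ⟨d, d1, d2, h'.1, h'.2⟩
  have key : ∀ d, d ∈ G → C.On d y → ¬ C.Bun G u y d → ¬ C.Bun G u y (C.pa d) →
      ¬ C.Bt u d (C.pa d) → C.Cand G u d := by
    rintro d d1 ⟨m, m0, m1, e⟩ d3 d4 d5
    obtain ⟨n, n1, n2, n3⟩ := hy
    refine ⟨uG, d1, n, m, n1, n3, m0, m1, n2.trans e.symm, ?_, ?_, d5, n2 ▸ d3⟩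
    · rintro rfl; exact d3 hu
    · rintro rfl; rw [C.papa] at d4; exact d4 hu
  have key2 : ∀ d, d ∈ G → C.On d y → ¬ C.Bun G u y d → ¬ C.Bun G u y (C.pa d) →
      ∃ t, C.Cand G u t ∧ C.On t y ∧ ¬ C.Bun G u y t ∧ ¬ C.Bun G u y (C.pa t) := by
    intro d d1 d2 d3 d4
    by_cases h : C.Bt u d (C.pa d)
    · refine ⟨C.pa d, key _ (hG _ _ _ uG d1 h) (on_pa.2 d2) d4 (by rwa [C.papa]) ?_, on_pa.2 d2, d4,
        by rwa [C.papa]⟩
      rw [C.papa]; unfold Bt btw at *; omega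
    · exact ⟨d, key d d1 d2 d3 d4 h, d2, d3, d4⟩
  rcases d1 with d1 | d1
  · exact key2 d d1 d2 d3 d4
  · exact key2 _ d1 (on_pa.2 d2) d4 (by rwa [C.papa])

section two

variable {G : Finset S} {s t : S} {n m : ℕ} {val : S → ℕ → Prop}
  (V : C.Vee s n t m val) (n0 : 0 < n) (n1 : n < C.len s) (m0 : 0 < m) (m1 : m < C.len t)
  (ts : t ≠ s) (ts' : t ≠ C.pa s) (e : C.seq s n = C.seq t m) (sG : s ∈ G) (tG : t ∈ G)
  (hs : ∀ k < n, ¬ C.Vert G s k) (ht : ∀ k < m, ¬ C.Vert G t k)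

include n0 n1 m0 m1 ts ts' e sG tG hs ht in
lemma both_first : C.Bt s t (C.pa s) ↔ C.Bt s t (C.pa t) := by
  obtain ⟨val, V⟩ := exists_vee n0 n1 m0 m1 ts ts' e
  have c1 := V.const s (a := n) (b := C.len s - 1) (by omega) (by omega) (fun k a b => by
    have a' : ∀ j, 0 < j → j ≤ n → C.seq s j ≠ C.seq s k := fun j j0 j1 h => by
      have := C.inj s j k j0 (by omega) (by omega) (by omega) h; omega
    refine ⟨a', fun j j0 j1 => ?_⟩
    rcases j1.eq_or_lt with rfl | j1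
    · rw [← e]; exact a' n n0 le_rfl
    · exact not_on_A m1 ht (Or.inl sG) ts.symm (pa_ne_of ts').symm ⟨k, by omega, by omega, rfl⟩ j j0 j1)
  have c2 := V.const t (a := m) (b := C.len t - 1) (by omega) (by omega) (fun k a b => by
    have a' : ∀ j, 0 < j → j ≤ m → C.seq t j ≠ C.seq t k := fun j j0 j1 h => by
      have := C.inj t j k j0 (by omega) (by omega) (by omega) h; omega
    refine ⟨fun j j0 j1 => ?_, a'⟩
    rcases j1.eq_or_lt with rfl | j1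
    · rw [e]; exact a' m m0 le_rfl
    · exact not_on_A n1 hs (Or.inl tG) ts ts' ⟨k, by omega, by omega, rfl⟩ j j0 j1)
  rw [← V.last s (C.pane s) ts'.symm, ← V.last t (pa_ne_of ts') (C.pane t), ← c1, ← c2]
  exact V.r5

include n0 n1 hs in
lemma toward_A {d : S} (dG : d ∈ G ∨ C.pa d ∈ G) {k : ℕ} (k1 : k < C.len d)
    (ho : ∀ j, 0 < j → j ≤ n → C.seq s j ≠ C.seq d k)
    (hv : ∀ i, 0 < i → i ≤ k → C.seq d i ≠ C.seq s n) (i : ℕ) (i0 : 0 < i) (i1 : i ≤ k) :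
    d ≠ s ∧ ∀ j, 0 < j → j ≤ n → C.seq s j ≠ C.seq d i := by
  have d1 : d ≠ s := by
    rintro rfl
    rcases le_or_gt k n with c | c
    · exact ho k (by omega) c rfl
    · exact hv n n0 c.le rfl
  refine ⟨d1, fun j j0 j1 h => ?_⟩
  rcases j1.eq_or_lt with rfl | j1
  · exact hv i i0 i1 h.symm
  · by_cases d2 : d = C.pa s
    · subst d2
      rw [C.lenpa] at k1
      rw [C.seqpa s i (by omega)] at h
      have := C.inj s j _ j0 (by omega) (by omega) (by omega) h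
      refine hv (C.len s - n) (by omega) (by omega) ?_
      rw [C.seqpa s _ (by omega)]; congr 1; omega
    · exact not_on_A n1 hs dG d1 d2 ⟨i, i0, by omega, rfl⟩ j j0 j1 h

include V n0 n1 m0 m1 e hs ht in
lemma toward {d : S} (dG : d ∈ G ∨ C.pa d ∈ G) {k : ℕ} (k0 : 0 < k) (k1 : k < C.len d)
    (ho : C.Off s n t m (C.seq d k)) (hv : ∀ i, 0 < i → i ≤ k → C.seq d i ≠ C.seq s n) :
    (val d k ↔ C.Bt s t d) := by
  have a := toward_A n0 n1 hs dG k1 ho.1 hv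
  have b := toward_A m0 m1 ht dG k1 ho.2 (e ▸ hv)
  rw [← V.r0 d (a k k0 le_rfl).1 (b k k0 le_rfl).1]
  exact (V.const d (Nat.zero_le k) k1 fun i i0 i1 => ⟨(a i i0 i1).2, (b i i0 i1).2⟩).symm

include n0 n1 m0 m1 ts ts' e sG tG hs ht in
/-- the slots strictly between two slots leading to the same vertex form a closed system when none of
their chords passes through that vertex -/
lemma closed (hG : C.Conv (· ∈ G)) (hv : ∀ w, C.Bt s t w → ¬ C.On w (C.seq s n)) {w : S}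
    (hw : C.Bt s t w) : C.Bt s t (C.pa w) ∧ ∀ d, (d ∈ G ∨ C.pa d ∈ G) → ∀ k, 0 < k → k < C.len w →
      C.On d (C.seq w k) → C.Bt s t d ∨ C.Bt s t (C.pa d) := by
  obtain ⟨val, V⟩ := exists_vee n0 n1 m0 m1 ts ts' e
  have wG : w ∈ G := hG _ _ _ sG tG hw
  have os : C.On s (C.seq s n) := ⟨n, n0, n1, rfl⟩
  have ot : C.On t (C.seq s n) := ⟨m, m0, m1, e.symm⟩
  have w1 : w ≠ s := by rintro rfl; exact hv _ hw os
  have w2 : w ≠ C.pa s := by rintro rfl; exact hv _ hw (on_pa.2 os)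
  have w3 : w ≠ t := by rintro rfl; exact hv _ hw ot
  have w4 : w ≠ C.pa t := by rintro rfl; exact hv _ hw (on_pa.2 ot)
  have off : ∀ k, 0 < k → k < C.len w → C.Off s n t m (C.seq w k) := fun k k0 k1 => by
    refine ⟨fun j j0 j1 h => ?_, fun j j0 j1 h => ?_⟩
    · rcases j1.eq_or_lt with rfl | j1
      · exact hv w hw ⟨k, k0, k1, h.symm⟩
      · exact not_on_A n1 hs (Or.inl wG) w1 w2 ⟨k, k0, k1, rfl⟩ j j0 j1 h
    · rcases j1.eq_or_lt with rfl | j1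
      · exact hv w hw ⟨k, k0, k1, h.symm.trans e.symm⟩
      · exact not_on_A m1 ht (Or.inl wG) w3 w4 ⟨k, k0, k1, rfl⟩ j j0 j1 h
  have all : ∀ k, k < C.len w → val w k := fun k k1 =>
    (V.const w (Nat.zero_le k) k1 fun i i0 i1 => off i i0 (by omega)).1 ((V.r0 w w1 w3).2 hw)
  have := C.lenpos w
  refine ⟨(V.last w (pa_ne_of w2) (pa_ne_of w4)).1 (all _ (by omega)), ?_⟩
  rintro d dG k k0 k1 ⟨l, l0, l1, hl⟩
  have o := off k k0 k1
  have ne : C.seq w k ≠ C.seq s n := (o.1 n n0 le_rfl).symm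
  by_cases c : ∀ i, 0 < i → i ≤ l → C.seq d i ≠ C.seq s n
  · left
    rw [← toward V n0 n1 m0 m1 e hs ht dG l0 l1 (hl ▸ o) c,
      ← V.r4 w k d l k0 k1 l0 l1 hl.symm o.1 o.2]
    exact all k k1
  · right
    push Not at c
    obtain ⟨i, i0, i1, hi⟩ := c
    have hl' : C.seq (C.pa d) (C.len d - l) = C.seq w k := by
      rw [C.seqpa d _ (by omega), ← hl]; congr 1; omega
    rw [← toward V n0 n1 m0 m1 e hs ht (d := C.pa d) (by rw [C.papa]; exact dG.symm)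
      (k := C.len d - l) (by omega) (by rw [C.lenpa]; omega) (hl' ▸ o) (fun j j0 j1 h => by
        rw [C.seqpa d j (by omega), ← hi] at h
        have h2 := C.inj d _ i (by omega) (by omega) i0 (by omega) h
        have : i = l := by omega
        subst this
        exact ne (hl.symm.trans hi)),
      ← V.r4 w k (C.pa d) _ k0 k1 (by omega) (by rw [C.lenpa]; omega) hl'.symm o.1 o.2]
    exact all k k1

end two

/-- a move in a closed subsystem is a move -/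
lemma Move.lift {G J : Finset S} (hJ : J ⊆ G)
    (hc : ∀ w ∈ J, ∀ d, (d ∈ G ∨ C.pa d ∈ G) → ∀ k, 0 < k → k < C.len w →
      C.On d (C.seq w k) → d ∈ J ∨ C.pa d ∈ J) (h : C.Move J) : C.Move G := by
  have key : ∀ w ∈ J, ∀ k, C.Vert G w k → C.Vert J w k := by
    rintro w hw k ⟨k0, k1, d, d1, d2, d3, d4⟩
    exact ⟨k0, k1, d, hc w hw d d1 k k0 k1 d4, d2, d3, d4⟩
  rcases h with ⟨u, u1, u2, u3, u4⟩ | ⟨y, B, ⟨u, hu⟩, b2, b3, b4⟩
  · exact Or.inl ⟨u, hJ u1, hJ u2, u3, fun n hn => u4 n (key u u1 n hn)⟩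
  · refine Or.inr ⟨y, B, ⟨u, hu⟩, fun x hx => ?_, b3, fun d d1 d2 => b4 d ?_ d2⟩
    · obtain ⟨x1, k, k1, k2, k3⟩ := b2 x hx
      exact ⟨hJ x1, k, k1.mono hJ, k2, fun j j1 hj => k3 j j1 (key x x1 j hj)⟩
    · obtain ⟨u1, k, k1, k2, -⟩ := b2 u hu
      exact hc u u1 d d1 k k1.1 k1.2.1 (k2 ▸ d2)

end Chords

end Pool.Agent.Lib.MP_65c801_co
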