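import Pool.Agent.Lib.MP_65c801_co.Chord2

/-! A move of the sweep is always available: the induction. -/

namespace Pool.Agent.Lib.MP_65c801_co

open Finset Classical

namespace Chords

variable {S Vx : Type*} {C : Chords S Vx}

section step

variable {G I : Finset S} {s t : S} {n m : ℕ} {val : S → ℕ → Prop}
  (V : C.Vee s n t m val) (n0 : 0 < n) (n1 : n < C.len s) (m0 : 0 < m) (m1 : m < C.len t)
  (ts : t ≠ s) (ts' : t ≠ C.pa s) (e : C.seq s n = C.seq t m) (tG : t ∈ G)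
  (hfirst : ∀ k < n, ¬ C.Vert G s k) (ht : ¬ C.Bt s t (C.pa t))
  (hI : ∀ x, x ∈ I ↔ C.Bt s t x ∨ x = t) (IG : I ⊆ G)

include V n0 n1 m0 m1 ts ts' e tG hfirst ht hI in
lemma kill {d : S} (dG : d ∈ G) (d1 : d ∉ I) (d2 : C.pa d ∉ I) {y : Vx} (hy : C.On d y)
    (h : (∃ j, 0 < j ∧ j < m ∧ C.seq t j = y) ∨
      (C.Off s n t m y ∧ ∃ u k, 0 < k ∧ k < C.len u ∧ C.seq u k = y ∧ val u k)) :
    C.Far s t d ∧ C.Far s t (C.pa d) := by
  rw [hI, not_or] at d1 d2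
  by_cases c : d = s ∨ d = C.pa s
  · exfalso
    have ha : ¬ C.Bt s t (C.pa s) := by
      rcases c with rfl | rfl
      · exact d2.1
      · exact d1.1
    have hs : C.On s y := by
      rcases c with rfl | rfl
      · exact hy
      · exact on_pa.1 hy
    obtain ⟨a1, a2⟩ := cont_a V n0 n1 m0 m1 ts ts' e tG hfirst ht ha
    rcases h with ⟨j, j0, j1, rfl⟩ | ⟨o, u, k, k0, k1, rfl, hv⟩
    · exact a2 j j0 j1 hs
    · obtain ⟨l, l0, l1, hl⟩ := hs
      refine a1 l ?_ l1 ((V.r4 u k s l k0 k1 l0 l1 hl.symm o.1 o.2).1 hv)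
      by_contra c
      exact o.1 l l0 (by omega) hl
  · push Not at c
    refine far_both V n0 n1 m0 m1 ts ts' e tG hfirst ht (Or.inl dG) c.1 c.2 d1.2
      (fun h => d2.2 (by rw [h, C.papa])) d1.1 d2.1 ?_
    rcases h with ⟨j, j0, j1, rfl⟩ | ⟨o, u, k, k0, k1, rfl, hv⟩
    · exact Or.inr ⟨j, j0, j1, hy⟩
    · obtain ⟨l, l0, l1, hl⟩ := hy
      exact Or.inl ⟨l, l1, (V.r4 u k d l k0 k1 l0 l1 hl.symm o.1 o.2).1 hv⟩

include V n0 n1 m0 m1 ts ts' e hfirst ht hI IG in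
lemma val_in {u : S} (hu : C.Bt s t u) {i : ℕ} (i1 : i < C.len u) (h : ∀ k ≤ i, ¬ C.Vert I u k) :
    val u i ∧ ∀ k, 0 < k → k ≤ i → C.Off s n t m (C.seq u k) := by
  have u1 : u ≠ s := by rintro rfl; unfold Bt btw at hu; omega
  have u2 : u ≠ t := by rintro rfl; unfold Bt btw at hu; omega
  have u3 : u ≠ C.pa t := by rintro rfl; exact ht hu
  have tI : t ∈ I := (hI t).2 (Or.inr rfl)
  have nt : ∀ k, 0 < k → k ≤ i → ¬ C.On t (C.seq u k) := fun k k0 k1 hk =>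
    h k k1 ⟨k0, by omega, t, Or.inl tI, u2.symm, (pa_ne_of u3).symm, hk⟩
  have off : ∀ k, 0 < k → k ≤ i → C.Off s n t m (C.seq u k) := fun k k0 k1 => by
    by_cases c : u = C.pa s
    · subst c
      rw [C.lenpa] at i1
      refine ⟨fun j j0 j1 hj => ?_, fun j j0 j1 hj => nt k k0 k1 ⟨j, j0, by omega, hj⟩⟩
      rw [C.seqpa s k (by omega)] at hj
      have := C.inj s j _ j0 (by omega) (by omega) (by omega) hj
      refine nt (C.len s - n) (by omega) (by omega) ⟨m, m0, m1, ?_⟩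
      rw [C.seqpa s _ (by omega), ← e]; congr 1; omega
    · by_contra hc
      obtain ⟨j, j0, j1, hj⟩ := not_off n1 m0 e hfirst (Or.inl (IG ((hI u).2 (Or.inl hu)))) u1 c
        ⟨k, k0, by omega, rfl⟩ hc
      exact nt k k0 k1 ⟨j, j0, by omega, hj⟩
  exact ⟨(V.const u (Nat.zero_le i) i1 off).1 ((V.r0 u u1 u2).2 hu), off⟩

variable (sG : s ∈ G) (hb : ¬ C.Bun G s (C.seq s n) t)
  (small : ∀ u ∈ I, ∀ y, C.First G u y → ∃ d ∈ G, C.On d y ∧ d ≠ u ∧ d ≠ C.pa u ∧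
    ¬ C.Bun G u y d ∧ ¬ C.Bun G u y (C.pa d) ∧ ¬ (C.Far s t d ∧ C.Far s t (C.pa d)))

include V n0 n1 m0 m1 ts ts' e tG hfirst ht hI IG small in
/-- before its first vertex in `I`, a slot strictly inside has no vertex in `G` -/
lemma inner_first {u : S} (hu : C.Bt s t u) {i : ℕ} (h : ∀ k ≤ i, ¬ C.Vert I u k) :
    ¬ C.Vert G u i := fun hv => by
  obtain ⟨k, k1, k2, k3⟩ := exists_first hv
  obtain ⟨d, dG, d1, d2, d3, -, -, d4⟩ := small u ((hI u).2 (Or.inl hu)) _ ⟨k, k2, rfl, k3⟩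
  obtain ⟨a, b⟩ := val_in V n0 n1 m0 m1 ts ts' e hfirst ht hI IG hu k2.2.1
    (fun j j1 => h j (by omega))
  have nI : ¬ (d ∈ I ∨ C.pa d ∈ I) := fun c => h k k1 ⟨k2.1, k2.2.1, d, c, d2, d3, d1⟩
  exact d4 (kill V n0 n1 m0 m1 ts ts' e tG hfirst ht hI dG (fun c => nI (Or.inl c))
    (fun c => nI (Or.inr c)) d1 (Or.inr ⟨b k k2.1 le_rfl, u, k, k2.1, k2.2.1, rfl, a⟩))

include V n0 n1 m0 m1 ts ts' e tG hfirst ht hI small in
/-- the same for `t` before the common vertex -/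
lemma t_first {i : ℕ} (im : i < m) (h : ∀ k ≤ i, ¬ C.Vert I t k) : ¬ C.Vert G t i := fun hv => by
  obtain ⟨k, k1, k2, k3⟩ := exists_first hv
  obtain ⟨d, dG, d1, d2, d3, -, -, d4⟩ := small t ((hI t).2 (Or.inr rfl)) _ ⟨k, k2, rfl, k3⟩
  have nI : ¬ (d ∈ I ∨ C.pa d ∈ I) := fun c => h k k1 ⟨k2.1, k2.2.1, d, c, d2, d3, d1⟩
  exact d4 (kill V n0 n1 m0 m1 ts ts' e tG hfirst ht hI dG (fun c => nI (Or.inl c))
    (fun c => nI (Or.inr c)) d1 (Or.inl ⟨k, k2.1, by omega, rfl⟩))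

include V n0 n1 m0 m1 ts ts' e tG hfirst ht hI IG sG hb small in
lemma hyp_I : C.Hyp I := by
  by_contra hH
  have tI : t ∈ I := (hI t).2 (Or.inr rfl)
  have nv : ∀ u ∈ I, ∀ k, ¬ C.Vert I u k := fun u hu k hk => hH ⟨u, hu, Or.inr ⟨k, hk⟩⟩
  have vt : C.Vert G t m := ⟨m0, m1, s, Or.inl sG, ts.symm, (pa_ne_of ts').symm, n, n0, n1, e⟩
  have none : ∀ u, ¬ C.Bt s t u := fun u hu => by
    have uI := (hI u).2 (Or.inl hu)
    have := C.lenpos u
    have a := (val_in V n0 n1 m0 m1 ts ts' e hfirst ht hI IG hu (i := C.len u - 1) (by omega)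
      (fun k _ => nv u uI k)).1
    have u1 : C.pa u ≠ s := by
      rintro rfl
      rw [C.papa] at ts'
      exact nv t tI m ⟨m0, m1, u, Or.inl uI, ts'.symm, (pa_ne_of ts).symm, on_pa.1 ⟨n, n0, n1, e⟩⟩
    have u2 : C.pa u ≠ t := fun c => hH ⟨u, uI, Or.inl (c ▸ tI)⟩
    exact hH ⟨u, uI, Or.inl ((hI _).2 (Or.inl ((V.last u u1 u2).1 a)))⟩
  exact hb ⟨tG, ⟨m, vt, e.symm, fun k k1 =>
    t_first V n0 n1 m0 m1 ts ts' e tG hfirst ht hI small k1 fun j _ => nv t tI j⟩,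
    fun w hw => absurd hw (none w)⟩

include V n0 n1 m0 m1 ts ts' e tG hfirst ht hI IG small in
lemma block_first {y : Vx} {B : S → Prop} (b2 : ∀ u, B u → u ∈ I ∧ C.First I u y)
    {u0 : S} (h0 : B u0) (h1 : C.Bt s t u0) (u : S) (hu : B u) : C.First G u y := by
  obtain ⟨uI, k, k1, k2, k3⟩ := b2 u hu
  refine ⟨k, k1.mono IG, k2, fun i i1 => ?_⟩
  rcases (hI u).1 uI with c | rfl
  · exact inner_first V n0 n1 m0 m1 ts ts' e tG hfirst ht hI IG small c fun j j1 => k3 j (by omega)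
  · refine t_first V n0 n1 m0 m1 ts ts' e tG hfirst ht hI small ?_ fun j j1 => k3 j (by omega)
    by_contra c
    obtain ⟨-, l, l1, l2, l3⟩ := b2 u0 h0
    have l0 := l1.1
    have l4 := l1.2.1
    have k4 := k1.2.1
    have a := (val_in V n0 n1 m0 m1 ts ts' e hfirst ht hI IG h1 (i := l - 1) (by omega)
      (fun j j1 => l3 j (by omega))).1
    have o : C.Off s n u m y := by
      by_contra hc
      obtain ⟨j, j0, j1, hj⟩ := not_off n1 m0 e hfirst (Or.inl tG) ts ts' ⟨k, k1.1, k4, k2⟩ hc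
      have := C.inj u j k j0 (by omega) k1.1 k4 (hj.trans k2.symm)
      omega
    have b := (V.const u0 (a := l - 1) (b := l) (by omega) l4 (fun j j0 j1 => by
      rw [show j = l by omega, l2]; exact o)).1 a
    exact cont_z V n1 m0 m1 ts ts' e tG hfirst ht k (by omega) k4
      ((V.r4 u0 l u k l0 l4 k1.1 k4 (l2.trans k2.symm) (l2 ▸ o.1) (l2 ▸ o.2)).1 b)

end step

theorem move [Fintype S] (G : Finset S) : C.Conv (· ∈ G) → C.Hyp G → C.Move G := by
  induction G using Finset.strongInduction with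
  | H G ih =>
  intro hG hH
  by_contra hM
  obtain ⟨s0, s0G, n0, hn0⟩ : ∃ u ∈ G, ∃ n, C.Vert G u n := by
    by_contra hc
    push Not at hc
    obtain ⟨u, u1, u2 | ⟨n, u2⟩⟩ := hH
    · exact hM (move_of_no_vert hG hc ⟨u, u1, u2⟩)
    · exact hc u u1 n u2
  obtain ⟨⟨s, t⟩, hst, hmin⟩ := exists_min_image (univ.filter fun p : S × S => C.Cand G p.1 p.2)
    (fun p => C.om p.1 p.2) (by
      obtain ⟨k, -, k2, k3⟩ := exists_first hn0
      obtain ⟨t, ht, -⟩ := cand_of hG hM s0G ⟨k, k2, rfl, k3⟩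
      exact ⟨(s0, t), mem_filter.2 ⟨mem_univ _, ht⟩⟩)
  obtain ⟨sG, tG, n, m, vs, hfirst, m0, m1, e, ts, ts', ht, hb⟩ := (mem_filter.1 hst).2
  dsimp only at sG tG vs hfirst m1 e ts ts' ht hb hmin
  have n0 := vs.1
  have n1 := vs.2.1
  obtain ⟨val, V⟩ := exists_vee n0 n1 m0 m1 ts ts' e
  obtain ⟨I, hI⟩ : ∃ I : Finset S, ∀ x, x ∈ I ↔ C.Bt s t x ∨ x = t :=
    ⟨univ.filter fun x => C.Bt s t x ∨ x = t, fun x => by simp⟩
  have IG : I ⊆ G := fun x hx => by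
    rcases (hI x).1 hx with c | rfl
    · exact hG _ _ _ sG tG c
    · exact tG
  have sI : s ∉ I := fun c => by
    rcases (hI s).1 c with c | c
    · unfold Bt btw at c; omega
    · exact ts c.symm
  have tI : t ∈ I := (hI t).2 (Or.inr rfl)
  have ptI : C.pa t ∉ I := fun c => ((hI _).1 c).elim ht (C.pane t)
  have cI : C.Conv (· ∈ I) := fun a b x ha hb hx => by
    have ha' : C.Bt s t a ∨ C.key a = C.key t := ((hI a).1 ha).imp id (congrArg C.key)
    have hb' : C.Bt s t b ∨ C.key b = C.key t := ((hI b).1 hb).imp id (congrArg C.key)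
    have := C.kne ts
    exact (hI x).2 (Or.inl (by unfold Bt btw at *; omega))
  have small : ∀ u ∈ I, ∀ y, C.First G u y → ∃ d ∈ G, C.On d y ∧ d ≠ u ∧ d ≠ C.pa u ∧
      ¬ C.Bun G u y d ∧ ¬ C.Bun G u y (C.pa d) ∧ ¬ (C.Far s t d ∧ C.Far s t (C.pa d)) := by
    intro u uI y hy
    obtain ⟨d, d1, d2, d3, d4⟩ := cand_of hG hM (IG uI) hy
    have h1 := hmin (u, d) (mem_filter.2 ⟨mem_univ _, d1⟩)
    obtain ⟨-, dG, -, -, -, -, -, -, -, a, b, -⟩ := d1
    refine ⟨d, dG, d2, a, b, d3, d4, fun h => ?_⟩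
    exact absurd (om_lt ((hI u).1 uI) ht (pa_ne_of ts').symm h.1 h.2) (not_lt.2 h1)
  have mI := ih I ⟨IG, fun c => sI (c sG)⟩ cI
    (hyp_I V n0 n1 m0 m1 ts ts' e tG hfirst ht hI IG sG hb small)
  rcases mI with ⟨u, u1, u2, u3, u4⟩ | ⟨y, B, ⟨u1, hu1⟩, b2, b3, b4⟩
  · have c : C.Bt s t u := ((hI u).1 u1).resolve_right (by rintro rfl; exact ptI u2)
    exact hM (Or.inl ⟨u, IG u1, IG u2, u3, fun k =>
      inner_first V n0 n1 m0 m1 ts ts' e tG hfirst ht hI IG small c fun j _ => u4 j⟩)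
  obtain ⟨u, hu, c⟩ : ∃ u, B u ∧ C.Bt s t u := by
    rcases (hI u1).1 (b2 u1 hu1).1 with c | rfl
    · exact ⟨u1, hu1, c⟩
    · obtain ⟨-, k, ⟨-, -, d, d1, d2, d3, d4⟩, rfl, -⟩ := b2 u1 hu1
      rcases b4 d d1 d4 with h | h
      · exact ⟨d, h, ((hI d).1 (b2 d h).1).resolve_right d2⟩
      · exact ⟨_, h, ((hI _).1 (b2 _ h).1).resolve_right (pa_ne_of d3)⟩
  have bf := block_first V n0 n1 m0 m1 ts ts' e tG hfirst ht hI IG small b2 hu c
  by_cases hy : y = C.seq s n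
  · subst hy
    have tB : B t := (b4 t (Or.inl tI) ⟨m, m0, m1, e.symm⟩).resolve_right fun h => ptI (b2 _ h).1
    have bothf : ∀ x, B x → x ≠ C.pa s → (C.Bt s x (C.pa s) ↔ C.Bt s x (C.pa x)) := by
      intro x hx x1
      obtain ⟨k, k1, k2, k3⟩ := bf x hx
      exact both_first n0 n1 k1.1 k1.2.1 (by rintro rfl; exact sI (b2 _ hx).1) x1 k2.symm sG
        (IG (b2 x hx).1) hfirst k3
    have ha : ¬ C.Bt s t (C.pa s) := fun h => ht ((bothf t tB ts').1 h)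
    have psI : C.pa s ∉ I := fun c => ((hI _).1 c).elim ha ts'.symm
    obtain ⟨u0, hu0, hm0⟩ := exists_min_image (univ.filter B)
      (fun u => C.key u - C.key s + (C.key s - C.key u)) ⟨t, mem_filter.2 ⟨mem_univ _, tB⟩⟩
    replace hu0 := (mem_filter.1 hu0).2
    have kI : ∀ x, B x → C.Bt s t x ∨ C.key x = C.key t := fun x hx =>
      ((hI x).1 (b2 x hx).1).imp id (congrArg C.key)
    have k0 := kI u0 hu0
    have kst := C.kne ts
    have JI : ∀ w, C.Bt s u0 w → C.Bt s t w := fun w hw => by unfold Bt btw at *; omega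
    have JB : ∀ w, C.Bt s u0 w → ¬ B w := fun w hw hB => by
      have := hm0 w (mem_filter.2 ⟨mem_univ _, hB⟩)
      unfold Bt btw at *; omega
    have hv : ∀ w, C.Bt s u0 w → ¬ C.On w (C.seq s n) := fun w hw ho => by
      have pB := (b4 w (Or.inl ((hI w).2 (Or.inl (JI w hw)))) ho).resolve_left (JB w hw)
      have h1 := bothf _ pB (fun c => psI (c ▸ (b2 _ pB).1))
      rw [C.papa] at h1
      have h2 := hm0 _ (mem_filter.2 ⟨mem_univ _, pB⟩)
      have h3 := kI _ pB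
      unfold Bt btw at *; omega
    obtain ⟨k, k1, k2, k3⟩ := bf u0 hu0
    have cl := fun w => closed n0 n1 k1.1 k1.2.1 (by rintro rfl; exact sI (b2 _ hu0).1)
      (fun c => psI (c ▸ (b2 _ hu0).1)) k2.symm sG (IG (b2 _ hu0).1) hfirst k3 hG hv (w := w)
    obtain ⟨J, hJ⟩ : ∃ J : Finset S, ∀ x, x ∈ J ↔ C.Bt s u0 x :=
      ⟨univ.filter fun x => C.Bt s u0 x, fun x => by simp⟩
    have JG : J ⊆ G := fun x hx => IG ((hI x).2 (Or.inl (JI x ((hJ x).1 hx))))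
    obtain ⟨x, hx⟩ : ∃ x, C.Bt s u0 x := by
      by_contra hc
      push Not at hc
      refine hb ⟨tG, bf t tB, fun w hw => bf w ?_⟩
      by_cases c : w = u0
      · exact c ▸ hu0
      · have := C.kne c
        have := hc w
        exact b3 u0 t w hu0 tB (by unfold Bt btw at *; omega)
    refine hM (Move.lift JG (fun w hw d d1 k k0 k1 hd => ?_) (ih J ⟨JG, fun c => ?_⟩
      (fun a b x ha hb hx => ?_) ⟨x, (hJ x).2 hx, Or.inl ((hJ _).2 (cl x hx).1)⟩))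
    · rw [hJ, hJ]; exact (cl w ((hJ w).1 hw)).2 d d1 k k0 k1 hd
    · have := (hJ s).1 (c sG); unfold Bt btw at this; omega
    · have ha := (hJ a).1 ha
      have hb := (hJ b).1 hb
      exact (hJ x).2 (by unfold Bt btw at *; omega)
  · obtain ⟨d, dG, d1, d2, d3, d4, d5, d6⟩ := small u (b2 u hu).1 y (bf u hu)
    have BB : ∀ x, B x → C.Bun G u y x := fun x hx =>
      ⟨IG (b2 x hx).1, bf x hx, fun w hw => bf w (b3 _ _ _ hu hx hw)⟩
    have nI : ¬ (d ∈ I ∨ C.pa d ∈ I) := fun c => (b4 d c d1).elim (fun h => d4 (BB _ h))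
      fun h => d5 (BB _ h)
    refine d6 (kill V n0 n1 m0 m1 ts ts' e tG hfirst ht hI dG (fun c => nI (Or.inl c))
      (fun c => nI (Or.inr c)) d1 ?_)
    obtain ⟨-, l, l1, l2, l3⟩ := b2 u hu
    have l0 := l1.1
    have l4 := l1.2.1
    by_cases o : C.Off s n t m y
    · have a := (val_in V n0 n1 m0 m1 ts ts' e hfirst ht hI IG c (i := l - 1) (by omega)
        (fun j j1 => l3 j (by omega))).1
      exact Or.inr ⟨o, u, l, l0, l4, l2, (V.const u (a := l - 1) (b := l) (by omega) l4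
        (fun j j0 j1 => by rw [show j = l by omega, l2]; exact o)).1 a⟩
    · left
      have : ∃ j, 0 < j ∧ j ≤ m ∧ C.seq t j = y := by
        by_cases c2 : u = C.pa s
        · refine not_off n1 m0 e hfirst (Or.inl dG) ?_ (c2 ▸ d2) d1 o
          rintro rfl
          exact d3 (by rw [c2, C.papa])
        · exact not_off n1 m0 e hfirst (Or.inl (IG (b2 u hu).1))
            (by rintro rfl; exact sI (b2 _ hu).1) c2 ⟨l, l0, l4, l2⟩ o
      obtain ⟨j, j0, j1, hj⟩ := this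
      refine ⟨j, j0, lt_of_le_of_ne j1 ?_, hj⟩
      rintro rfl
      exact hy (hj.symm.trans e.symm)

end Chords

end Pool.Agent.Lib.MP_65c801_co
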