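import Mathlib

/-! Real-valued counting of predicates on finite types, with the double-counting lemmas used below. -/

namespace Pool.Agent.Lib.MP_65c801_co

open Finset Classical

/-- number of points of a finite type satisfying a predicate, as a real number -/
noncomputable def cnt {X : Type*} [Fintype X] (p : X → Prop) : ℝ :=
  ((univ.filter p).card : ℝ)

section
variable {X Y Z : Type*} [Fintype X] [Fintype Y] [Fintype Z]

lemma cnt_nonneg (p : X → Prop) : 0 ≤ cnt p := by unfold cnt; positivity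

lemma cnt_eq_sum (p : X → Prop) : cnt p = ∑ x, if p x then (1:ℝ) else 0 := by
  unfold cnt; rw [Finset.card_filter]; push_cast; rfl

lemma cnt_mono {p q : X → Prop} (h : ∀ x, p x → q x) : cnt p ≤ cnt q := by
  unfold cnt
  exact_mod_cast Finset.card_le_card (fun x hx => by
    simp only [mem_filter, mem_univ, true_and] at hx ⊢; exact h x hx)

lemma cnt_congr {p q : X → Prop} (h : ∀ x, p x ↔ q x) : cnt p = cnt q :=
  le_antisymm (cnt_mono fun x => (h x).1) (cnt_mono fun x => (h x).2)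

lemma cnt_le_card (p : X → Prop) : cnt p ≤ Fintype.card X := by
  unfold cnt; exact_mod_cast Finset.card_le_univ _

lemma cnt_zero {p : X → Prop} (h : ∀ x, ¬ p x) : cnt p = 0 := by
  rw [cnt_eq_sum]; exact Finset.sum_eq_zero fun x _ => by simp [h x]

lemma cnt_le_one {p : X → Prop} (h : ∀ x y, p x → p y → x = y) : cnt p ≤ 1 := by
  unfold cnt
  exact_mod_cast Finset.card_le_one.2 (fun x hx y hy => by
    simp only [mem_filter, mem_univ, true_and] at hx hy; exact h x y hx hy)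

lemma one_le_cnt {p : X → Prop} {x : X} (h : p x) : 1 ≤ cnt p := by
  unfold cnt
  exact_mod_cast Finset.card_pos.2 ⟨x, by simp [h]⟩

lemma exists_of_cnt_pos {p : X → Prop} (h : 0 < cnt p) : ∃ x, p x := by
  by_contra hn; push Not at hn; rw [cnt_zero hn] at h; exact lt_irrefl _ h

lemma cnt_or (p q : X → Prop) : cnt (fun x => p x ∨ q x) ≤ cnt p + cnt q := by
  simp only [cnt_eq_sum, ← Finset.sum_add_distrib]
  refine Finset.sum_le_sum fun x _ => ?_
  by_cases hp : p x <;> by_cases hq : q x <;> simp [hp, hq]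

lemma cnt_le_add {p q r : X → Prop} (h : ∀ x, p x → q x ∨ r x) : cnt p ≤ cnt q + cnt r :=
  (cnt_mono h).trans (cnt_or q r)

lemma cnt_le_add3 {p q r s : X → Prop} (h : ∀ x, p x → q x ∨ r x ∨ s x) :
    cnt p ≤ cnt q + cnt r + cnt s := by
  have := cnt_le_add (p := p) (q := q) (r := fun x => r x ∨ s x) h
  have := cnt_or r s
  linarith

lemma cnt_split (p q : X → Prop) :
    cnt p = cnt (fun x => p x ∧ q x) + cnt (fun x => p x ∧ ¬ q x) := by
  simp only [cnt_eq_sum, ← Finset.sum_add_distrib]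
  refine Finset.sum_congr rfl fun x _ => ?_
  by_cases hp : p x <;> by_cases hq : q x <;> simp [hp, hq]

lemma cnt_prod (p : X × Y → Prop) : cnt p = ∑ x, cnt (fun y => p (x, y)) := by
  simp only [cnt_eq_sum]; rw [Fintype.sum_prod_type]

lemma cnt_prod' (p : X × Y → Prop) : cnt p = ∑ y, cnt (fun x => p (x, y)) := by
  simp only [cnt_eq_sum]; rw [Fintype.sum_prod_type_right]

lemma cnt_mul (p : X → Prop) (q : Y → Prop) :
    cnt (fun z : X × Y => p z.1 ∧ q z.2) = cnt p * cnt q := by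
  simp only [cnt_eq_sum]; rw [Fintype.sum_prod_type, Finset.sum_mul_sum]
  refine Finset.sum_congr rfl fun x _ => Finset.sum_congr rfl fun y _ => ?_
  by_cases hp : p x <;> by_cases hq : q y <;> simp [hp, hq]

lemma cnt_sq (p : X → Prop) : cnt p ^ 2 = cnt (fun z : X × X => p z.1 ∧ p z.2) := by
  rw [cnt_mul, sq]

lemma cnt_inj {p : X → Prop} {q : Y → Prop} (f : X → Y) (hf : ∀ x, p x → q (f x))
    (hi : ∀ x y, p x → p y → f x = f y → x = y) : cnt p ≤ cnt q := by
  unfold cnt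
  exact_mod_cast Finset.card_le_card_of_injOn f (fun x hx => by
    simp only [coe_filter, mem_univ, true_and, Set.mem_ofPred_eq] at hx ⊢; exact hf x hx)
    (fun x hx y hy hxy => by
      simp only [coe_filter, mem_univ, true_and, Set.mem_ofPred_eq] at hx hy; exact hi x y hx hy hxy)

omit [Fintype Y] in
lemma cnt_fib (p : X → Prop) (f : X → Y) (T : Finset Y) (hf : ∀ x, p x → f x ∈ T) :
    cnt p = ∑ y ∈ T, cnt (fun x => p x ∧ f x = y) := by
  simp only [cnt_eq_sum]
  rw [Finset.sum_comm]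
  refine Finset.sum_congr rfl fun x _ => ?_
  by_cases hp : p x
  · simp only [hp, true_and, if_true]
    rw [Finset.sum_ite_eq]; simp [hf x hp]
  · simp [hp]

omit [Fintype Y] in
lemma cnt_fib_le {p : X → Prop} (f : X → Y) (T : Finset Y) (hf : ∀ x, p x → f x ∈ T) {K : ℝ}
    (hK : ∀ y ∈ T, cnt (fun x => p x ∧ f x = y) ≤ K) : cnt p ≤ T.card * K := by
  rw [cnt_fib p f T hf]
  calc _ ≤ ∑ _y ∈ T, K := Finset.sum_le_sum hK
    _ = _ := by simp

lemma cnt_fib_le' {p : X → Prop} {q : Y → Prop} (f : X → Y) (hf : ∀ x, p x → q (f x)) {K : ℝ}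
    (hK : ∀ y, q y → cnt (fun x => p x ∧ f x = y) ≤ K) : cnt p ≤ cnt q * K := by
  have := cnt_fib_le (p := p) f (univ.filter q) (fun x hx => by simp [hf x hx]) (K := K)
    (fun y hy => hK y (by simpa using hy))
  exact this

lemma cnt_fib_ge {p : X → Prop} {q : Y → Prop} (f : X → Y) {K : ℝ}
    (hK : ∀ y, q y → K ≤ cnt (fun x => p x ∧ f x = y)) : cnt q * K ≤ cnt p := by
  rw [cnt_fib p f univ (fun _ _ => mem_univ _), cnt_eq_sum q, Finset.sum_mul]
  refine Finset.sum_le_sum fun y _ => ?_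
  by_cases hq : q y
  · simpa [hq] using hK y hq
  · simpa [hq] using cnt_nonneg _

/-- a weighted sum bounded on the support -/
lemma sum_le_cnt_mul {q : Y → Prop} (g : Y → ℝ) {K : ℝ} (h1 : ∀ y, q y → g y ≤ K)
    (h2 : ∀ y, ¬ q y → g y ≤ 0) : ∑ y, g y ≤ cnt q * K := by
  rw [cnt_eq_sum, Finset.sum_mul]
  refine Finset.sum_le_sum fun y _ => ?_
  by_cases hq : q y
  · simpa [hq] using h1 y hq
  · simpa [hq] using h2 y hq

lemma cnt_mul_le_sum {q : Y → Prop} (g : Y → ℝ) {K : ℝ} (h1 : ∀ y, q y → K ≤ g y)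
    (h2 : ∀ y, 0 ≤ g y) : cnt q * K ≤ ∑ y, g y := by
  rw [cnt_eq_sum, Finset.sum_mul]
  refine Finset.sum_le_sum fun y _ => ?_
  by_cases hq : q y
  · simpa [hq] using h1 y hq
  · simpa [hq] using h2 y

/-- pairs whose first coordinate satisfies `q`, with at most `K` partners each -/
lemma cnt_pair_le {p : X × Y → Prop} {q : X → Prop} {K : ℝ} (h1 : ∀ x y, p (x, y) → q x)
    (hK : ∀ x, q x → cnt (fun y => p (x, y)) ≤ K) : cnt p ≤ cnt q * K := by
  rw [cnt_prod]
  exact sum_le_cnt_mul _ hK (fun x hx => le_of_eq (cnt_zero fun y hy => hx (h1 x y hy)))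

lemma cnt_pair_ge {p : X × Y → Prop} {q : X → Prop} {K : ℝ}
    (hK : ∀ x, q x → K ≤ cnt (fun y => p (x, y))) : cnt q * K ≤ cnt p := by
  rw [cnt_prod p]
  exact cnt_mul_le_sum _ hK (fun x => cnt_nonneg _)

omit [Fintype Y] in
/-- Cauchy-Schwarz for fibres -/
lemma cnt_cs {p : X → Prop} (f : X → Y) (T : Finset Y) (hf : ∀ x, p x → f x ∈ T) :
    cnt p ^ 2 ≤ T.card * cnt (fun z : X × X => p z.1 ∧ p z.2 ∧ f z.1 = f z.2) := by
  rw [cnt_fib p f T hf,
    cnt_fib (fun z : X × X => p z.1 ∧ p z.2 ∧ f z.1 = f z.2) (fun z => f z.1) T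
      (fun z hz => hf _ hz.1)]
  refine (sq_sum_le_card_mul_sum_sq).trans (le_of_eq ?_)
  congr 1
  refine Finset.sum_congr rfl fun y _ => ?_
  rw [cnt_sq]
  exact cnt_congr fun z => ⟨fun h => ⟨⟨h.1.1, h.2.1, h.1.2.trans h.2.2.symm⟩, h.1.2⟩,
    fun h => ⟨⟨h.1.1, h.2⟩, h.1.2.1, h.1.2.2 ▸ h.2⟩⟩

lemma cnt_cs' {p : X → Prop} {q : Y → Prop} (f : X → Y) (hf : ∀ x, p x → q (f x)) :
    cnt p ^ 2 ≤ cnt q * cnt (fun z : X × X => p z.1 ∧ p z.2 ∧ f z.1 = f z.2) :=
  cnt_cs f (univ.filter q) (fun x hx => by simp [hf x hx])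

lemma cnt_cover (p : X → Prop) (k : ℕ) (q : ℕ → X → Prop) (h : ∀ x, p x → ∃ i < k, q i x) :
    cnt p ≤ ∑ i ∈ range k, cnt (fun x => p x ∧ q i x) := by
  simp only [cnt_eq_sum]
  rw [Finset.sum_comm]
  refine Finset.sum_le_sum fun x _ => ?_
  by_cases hp : p x
  · obtain ⟨i, hi, hq⟩ := h x hp
    simp only [hp, true_and, if_true]
    calc (1:ℝ) = if q i x then 1 else 0 := by simp [hq]
      _ ≤ _ := Finset.single_le_sum (f := fun j => if q j x then (1:ℝ) else 0)
          (fun j _ => by split_ifs <;> norm_num) (mem_range.2 hi)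
  · simp [hp]

/-- pigeonhole over `k` classes -/
lemma pigeon (p : X → Prop) (k : ℕ) (hk : 0 < k) (q : ℕ → X → Prop)
    (h : ∀ x, p x → ∃ i < k, q i x) : ∃ i < k, cnt p ≤ k * cnt (fun x => p x ∧ q i x) := by
  by_contra hn
  push Not at hn
  have h1 := cnt_cover p k q h
  have h2 : ∑ i ∈ range k, (k:ℝ) * cnt (fun x => p x ∧ q i x) < ∑ _i ∈ range k, cnt p :=
    Finset.sum_lt_sum_of_nonempty ⟨0, mem_range.2 hk⟩ (fun i hi => hn i (mem_range.1 hi))
  rw [← Finset.mul_sum] at h2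
  simp only [sum_const, card_range, nsmul_eq_mul] at h2
  have hk' : (0:ℝ) < k := by exact_mod_cast hk
  nlinarith

lemma dyadic (r : ℝ) (L : ℕ) (h1 : 1 ≤ r) (h2 : r < 2 ^ L) :
    ∃ i < L, (2:ℝ) ^ i ≤ r ∧ r < 2 * 2 ^ i := by
  induction L with
  | zero => simp at h2; linarith
  | succ L ih =>
    by_cases h : r < 2 ^ L
    · obtain ⟨i, hi, h3⟩ := ih h
      exact ⟨i, by omega, h3⟩
    · push Not at h
      exact ⟨L, by omega, h, by rw [pow_succ] at h2; linarith⟩

lemma cnt_swap (p : X × Y → Prop) : cnt (fun z : Y × X => p (z.2, z.1)) = cnt p := by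
  rw [cnt_prod, cnt_prod' p]

end

end Pool.Agent.Lib.MP_65c801_co
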