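import Pool.Agent.Lib.MP_65c801_co.Cert

/-! The combinatorial cutting theorem. -/

namespace Pool.Agent.Lib.MP_65c801_co

open Finset Classical

/-- orientation along the direction of a slot -/
def sgn {ι : Type} (s : ι × Bool) (k : ℤ) : ℤ := if s.2 then k else -k

lemma prop1 {p q p' q' : Prop} (hp : p) (hp' : ¬ p') (h : q ↔ q') : ¬ ((p ↔ q) ↔ (p' ↔ q')) := by
  tauto

lemma prop2 {a a' b c d : Prop}
    (h : ¬ ((¬ (a ↔ b) ↔ ¬ (c ↔ d)) ↔ (¬ (a' ↔ b) ↔ ¬ (c ↔ d)))) : ¬ (a ↔ a') := fun e => h (by rw [e])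

lemma prop3 {a b c d : Prop} (g1 : ¬ (a ↔ b)) (g4 : b ↔ c) (g2 : ¬ (c ↔ d)) :
    (a → ¬ b ∧ d) ∧ (¬ a → b ∧ ¬ d) := by
  tauto

namespace Arr

variable {ι X Vx : Type} [Fintype X] [Fintype ι] {A : Arr ι X Vx} [Fintype Vx]

omit [Fintype Vx] in
lemma Inv.on_iff {σ : St ι Vx} (h : A.Inv σ) {s : ι × Bool} (a : σ.alive s.1) (k : ℤ) :
    A.On σ s (A.v s.1 k) ↔ A.v s.1 k ∈ σ.Un := by
  refine ⟨fun ⟨n, n0, n1, e⟩ => e ▸ h.mem_Un a n0 n1, fun c => ?_⟩
  obtain ⟨-, l, l0, l1, e⟩ := h.unB _ _ a.1 c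
  obtain ⟨n, n0, n1, rfl⟩ := h.exists_idx a.1 l0 l1
  exact ⟨n, n0, n1, e⟩

lemma Inv.int_cases {σ : St ι Vx} (h : A.Inv σ) {s u : ι × Bool} (a : σ.alive s.1) (b : σ.alive u.1)
    (su : s.1 ≠ u.1) {p q : Vx} (pq : p ≠ q) (hp : p ∈ A.com s.1 u.1) (hq : q ∈ A.com s.1 u.1) :
    (btw (σ.key s) (σ.key (oth s)) (σ.key u) ↔ btw (σ.key s) (σ.key (oth s)) (σ.key (oth u))) ↔
      (p ∈ σ.Un ↔ q ∈ σ.Un) := by
  have only : ∀ k, 0 < k → k < σ.len u.1 → A.On σ s (A.v u.1 (σ.idx u k)) →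
      A.v u.1 (σ.idx u k) ∈ σ.Un ∧ (A.v u.1 (σ.idx u k) = p ∨ A.v u.1 (σ.idx u k) = q) := by
    rintro k k0 k1 ⟨n, -, -, e⟩
    refine ⟨h.mem_Un b k0 k1, ?_⟩
    by_contra c
    push Not at c
    exact absurd (A.com_card su) (not_le.2 (two_lt_card.2 ⟨_, mem_filter.2 ⟨mem_univ _, _, _, e, rfl⟩,
      p, hp, q, hq, c.1, c.2, pq⟩))
  have ex : ∀ y ∈ A.com s.1 u.1, y ∈ σ.Un → ∃ k, 0 < k ∧ k < σ.len u.1 ∧ A.v u.1 (σ.idx u k) = y ∧
      A.On σ s (A.v u.1 (σ.idx u k)) := fun y hy c => by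
    obtain ⟨k, l, e1, e2⟩ := (mem_filter.1 hy).2
    obtain ⟨n, n0, n1, e⟩ := (h.on_iff b l).2 (e2 ▸ c)
    exact ⟨n, n0, n1, e.trans e2, by rw [e, e2, ← e1]; exact (h.on_iff a k).2 (e1 ▸ c)⟩
  have one : ∀ y y', y ∈ A.com s.1 u.1 → y ∈ σ.Un → y' ∉ σ.Un →
      (∀ z, z = p ∨ z = q → z = y ∨ z = y') → ¬ (btw (σ.key s) (σ.key (oth s)) (σ.key u) ↔
        btw (σ.key s) (σ.key (oth s)) (σ.key (oth u))) := fun y y' hy c c' hz => by
    obtain ⟨k, k0, k1, e, o⟩ := ex y hy c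
    refine h.int1 a b su.symm k0 k1 o fun l l0 l1 lk o' => ?_
    obtain ⟨x1, x2⟩ := only l l0 l1 o'
    rcases hz _ x2 with x3 | x3
    · exact lk (h.idx_inj b.1 l1.le k1.le (by omega) (by omega) (x3.trans e.symm))
    · exact c' (x3 ▸ x1)
  by_cases c1 : p ∈ σ.Un <;> by_cases c2 : q ∈ σ.Un
  · obtain ⟨k, k0, k1, e, o⟩ := ex p hp c1
    obtain ⟨l, l0, l1, e', o'⟩ := ex q hq c2
    have kl : k ≠ l := by rintro rfl; exact pq (e.symm.trans e')
    simp only [c1, c2, iff_true]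
    rcases lt_or_gt_of_ne kl with c | c
    · exact h.int2 a b su.symm k0 c l1 o o'
    · exact h.int2 a b su.symm l0 c k1 o' o
  · simp only [c1, c2, iff_false, not_true]
    exact one p q hp c1 c2 fun _ => id
  · simp only [c1, c2, false_iff, not_true, iff_false]
    exact one q p hq c2 c1 fun _ => Or.symm
  · simp only [c1, c2, iff_true]
    exact h.int0 a b su.symm fun k k0 k1 o => by
      obtain ⟨x1, x2 | x2⟩ := only k k0 k1 o
      · exact c1 (x2 ▸ x1)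
      · exact c2 (x2 ▸ x1)

variable {σ : ℕ → St ι Vx} {M : ℕ} {b d : ι → ℕ} (R : A.Run σ M b d)
include R

omit [Fintype Vx] in
lemma Run.q_step {s : ι × Bool} {t : ℕ} (h : b s.1 ≤ t) :
    (¬ mv (σ t) (σ (t + 1)) s ∧ sgn s ((σ (t + 1)).idx s 0) = sgn s ((σ t).idx s 0)) ∨
      (mv (σ t) (σ (t + 1)) s ∧ sgn s ((σ (t + 1)).idx s 0) = sgn s ((σ t).idx s 0) + 1 ∧
        (σ (t + 1)).idx s 0 = (σ t).idx s 1) := by
  by_cases c : mv (σ t) (σ (t + 1)) s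
  · have := ((R.step t).mov s ((R.born _ _).2 h) c).1
    refine Or.inr ⟨c, ?_, this⟩
    rw [this]
    unfold sgn St.idx
    split_ifs <;> omega
  · exact Or.inl ⟨c, by rw [not_not.1 c]⟩

omit [Fintype Vx] in
lemma Run.q_mono {s : ι × Bool} {t t' : ℕ} (h : b s.1 ≤ t) (tt : t ≤ t') :
    sgn s ((σ t).idx s 0) ≤ sgn s ((σ t').idx s 0) := by
  induction t', tt using Nat.le_induction with
  | base => rfl
  | succ t' tt ih => have := R.q_step (s := s) (t := t') (by omega); omega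

omit [Fintype Vx] in
lemma Run.pass {s : ι × Bool} {k : ℤ} (h1 : sgn s ((σ (b s.1)).idx s 0) < sgn s k) {T : ℕ}
    (hT : b s.1 ≤ T) (h2 : sgn s k ≤ sgn s ((σ T).idx s 0)) :
    ∃ t, b s.1 ≤ t ∧ mv (σ t) (σ (t + 1)) s ∧ (σ t).idx s 1 = k := by
  induction T, hT using Nat.le_induction with
  | base => omega
  | succ T hT ih =>
    by_cases c : sgn s k ≤ sgn s ((σ T).idx s 0)
    · exact ih c
    · rcases R.q_step hT with ⟨-, e⟩ | ⟨x, e, e'⟩
      · omega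
      · refine ⟨T, hT, x, ?_⟩
        rw [← e']
        unfold sgn at *
        split_ifs at * <;> omega

omit [Fintype Vx] in
lemma Run.side (i : ι) {k l : ℤ} (k0 : (σ (b i)).β i < k) (k1 : k < (σ (b i)).β i + A.m i)
    (l0 : (σ (b i)).β i < l) (l1 : l < (σ (b i)).β i + A.m i) :
    (2 * min k l ≤ (σ M).β i + (σ M).α i ∧ (σ M).β i + (σ M).α i ≤ 2 * max k l) ∨
    ∃ e, (∃ t, b i ≤ t ∧ mv (σ t) (σ (t + 1)) (i, e) ∧ (σ t).idx (i, e) 1 = k) ∧
      ∃ t, b i ≤ t ∧ mv (σ t) (σ (t + 1)) (i, e) ∧ (σ t).idx (i, e) 1 = l := by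
  have := R.bpos i
  have := R.bd i
  have := R.dM i
  have h1 : (σ (b i)).α i = (σ (b i)).β i + A.m i := by
    have := ((R.step (b i - 1)).birth i (by rw [R.born]; omega) (by rw [R.born]; omega)).1
    rwa [show b i - 1 + 1 = b i by omega] at this
  have h2 := ((R.step (d i - 1)).death i (R.alive (by omega) (by omega)) (by rw [R.dead]; omega)).1
  have h3 := R.q_mono (s := (i, true)) (t := d i - 1) (t' := M) (by simp only; omega) (by omega)
  have h4 := R.q_mono (s := (i, false)) (t := d i - 1) (t' := M) (by simp only; omega) (by omega)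
  have h5 := (R.inv M).lt i (by rw [R.born]; omega)
  simp only [sgn, St.idx, if_true, Bool.false_eq_true, if_false] at h3 h4
  by_cases c : 2 * min k l ≤ (σ M).β i + (σ M).α i
  · by_cases c' : (σ M).β i + (σ M).α i ≤ 2 * max k l
    · exact Or.inl ⟨c, c'⟩
    · refine Or.inr ⟨true, R.pass (s := (i, true)) (T := M) ?_ (by simp only; omega) ?_,
        R.pass (s := (i, true)) (T := M) ?_ (by simp only; omega) ?_⟩ <;>
      simp only [sgn, St.idx, if_true] <;> omega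
  · refine Or.inr ⟨false, R.pass (s := (i, false)) (T := M) ?_ (by simp only; omega) ?_,
      R.pass (s := (i, false)) (T := M) ?_ (by simp only; omega) ?_⟩ <;>
    simp only [sgn, St.idx, Bool.false_eq_true, if_false] <;> omega

omit [Fintype Vx] in
lemma Run.un_mono {t t' : ℕ} (tt : t ≤ t') : (σ t').Un ⊆ (σ t).Un := by
  induction t', tt using Nat.le_induction with
  | base => rfl
  | succ t' _ ih => exact (R.step t').un.trans ih

omit [Fintype Vx] in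
lemma Run.once {t t' : ℕ} {y : Vx} (a : y ∈ (σ t).Un) (a' : y ∉ (σ (t + 1)).Un) (c : y ∈ (σ t').Un)
    (c' : y ∉ (σ (t' + 1)).Un) : t = t' := by
  by_contra h
  rcases lt_or_gt_of_ne h with h | h
  · exact a' (R.un_mono h c)
  · exact c' (R.un_mono h a)

omit [Fintype Vx] in
lemma Run.mv_lt {s : ι × Bool} {t : ℕ} (h : b s.1 ≤ t) (c : mv (σ t) (σ (t + 1)) s) : t + 1 < d s.1 := by
  have := ((R.step t).mov s ((R.born _ _).2 h) c).2.2.2.2
  rw [R.dead] at this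
  omega

lemma Run.flip {s u : ι × Bool} (su : s.1 ≠ u.1) {t : ℕ} (h1 : b s.1 ≤ t) (h2 : b u.1 ≤ t)
    (c1 : mv (σ t) (σ (t + 1)) s) (c2 : mv (σ t) (σ (t + 1)) u) {q : Vx} (hq : q ∈ A.com s.1 u.1)
    (pq : A.v s.1 ((σ t).idx s 1) ≠ q) :
    ¬ ((σ t).key s < (σ t).key u ↔ (σ (t + 1)).key s < (σ (t + 1)).key u) := by
  have d1 := R.mv_lt h1 c1
  have d2 := R.mv_lt h2 c2
  have a := R.alive h1 (by omega)
  have a' := R.alive (t := t + 1) (by omega) d1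
  have c := R.alive h2 (by omega)
  have c' := R.alive (t := t + 1) (by omega) d2
  obtain ⟨e1, e2, e3⟩ := (R.step t).both a.1 c.1 ⟨c1, c2⟩
  have hp : A.v s.1 ((σ t).idx s 1) ∈ A.com s.1 u.1 := mem_filter.2 ⟨mem_univ _, _, _, rfl, e1.symm⟩
  have i1 := (R.inv t).int_cases a c su pq hp hq
  have i2 := (R.inv (t + 1)).int_cases a' c' su pq hp hq
  have i3 : q ∈ (σ t).Un ↔ q ∈ (σ (t + 1)).Un := ⟨fun x => by
    by_contra x'
    exact pq ((R.step t).one _ _ e2 e3 x x'), fun x => (R.step t).un x⟩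
  have i4 : ¬ ((btw ((σ t).key s) ((σ t).key (oth s)) ((σ t).key u) ↔
      btw ((σ t).key s) ((σ t).key (oth s)) ((σ t).key (oth u))) ↔
      (btw ((σ (t + 1)).key s) ((σ (t + 1)).key (oth s)) ((σ (t + 1)).key u) ↔
      btw ((σ (t + 1)).key s) ((σ (t + 1)).key (oth s)) ((σ (t + 1)).key (oth u)))) := by
    rw [i1, i2]; exact prop1 e2 e3 i3
  have m1 := ((R.step t).mov s a.1 c1).2.1
  have m2 := ((R.step t).mov u c.1 c2).2.1
  have o1 := (R.step t).ord s (oth u) a a' c c' fun x => m2 x.2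
  have o2 := (R.step t).ord (oth s) u a a' c c' fun x => m1 x.1
  have o3 := (R.step t).ord (oth s) (oth u) a a' c c' fun x => m1 x.1
  have bt : ∀ τ, (σ τ).alive s.1 → (σ τ).alive u.1 → ∀ x : ι × Bool, x.1 = u.1 →
      (btw ((σ τ).key s) ((σ τ).key (oth s)) ((σ τ).key x) ↔
        ¬ ((σ τ).key s < (σ τ).key x ↔ (σ τ).key (oth s) < (σ τ).key x)) := fun τ a c x hx => by
    have := (R.inv τ).key_ne (u := x) a (hx ▸ c) (by rintro rfl; exact su hx)
    have := (R.inv τ).key_ne (s := oth s) (u := x) a (hx ▸ c) (by rintro rfl; exact su hx)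
    unfold btw
    omega
  rw [bt t a c u rfl, bt t a c (oth u) rfl, bt _ a' c' u rfl, bt _ a' c' (oth u) rfl, o1, o2, o3] at i4
  exact prop2 i4

lemma Run.lens {s u : ι × Bool} (su : s.1 ≠ u.1) {t1 t2 : ℕ} (tt : t1 < t2) (h1 : b s.1 ≤ t1)
    (h2 : b u.1 ≤ t1) (c1 : mv (σ t1) (σ (t1 + 1)) s) (c2 : mv (σ t1) (σ (t1 + 1)) u)
    (c3 : mv (σ t2) (σ (t2 + 1)) s) (c4 : mv (σ t2) (σ (t2 + 1)) u) {Y : Finset ((ι × Bool) × ℕ)}
    (hY : ∀ a y, BLens (H σ b d) M a y → ∃ τ < M, H σ b d y τ < H σ b d a τ ∧ ((a, τ) ∈ Y ∨ (y, τ) ∈ Y)) :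
    ∃ τ, t1 < τ ∧ τ ≤ t2 ∧ ((s, τ) ∈ Y ∨ (u, τ) ∈ Y) := by
  have d1 := R.mv_lt (by omega) c3
  have d2 := R.mv_lt (by omega) c4
  have := R.dM s.1
  obtain ⟨e1, e2, e3⟩ := (R.step t1).both ((R.born _ _).2 h1) ((R.born _ _).2 h2) ⟨c1, c2⟩
  obtain ⟨f1, f2, f3⟩ := (R.step t2).both ((R.born _ _).2 (by omega)) ((R.born _ _).2 (by omega))
    ⟨c3, c4⟩
  have hp : A.v s.1 ((σ t1).idx s 1) ∈ A.com s.1 u.1 := mem_filter.2 ⟨mem_univ _, _, _, rfl, e1.symm⟩
  have hq : A.v s.1 ((σ t2).idx s 1) ∈ A.com s.1 u.1 := mem_filter.2 ⟨mem_univ _, _, _, rfl, f1.symm⟩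
  have pq : A.v s.1 ((σ t1).idx s 1) ≠ A.v s.1 ((σ t2).idx s 1) := fun e =>
    e3 (e ▸ R.un_mono tt f2)
  have g1 := R.flip su h1 h2 c1 c2 hq pq
  have g2 := R.flip su (by omega) (by omega) c3 c4 hp pq.symm
  have g3 : ∀ t, t1 + 1 ≤ t → t ≤ t2 →
      ((σ (t1 + 1)).key s < (σ (t1 + 1)).key u ↔ (σ t).key s < (σ t).key u) := fun t a a' => by
    induction t, a using Nat.le_induction with
    | base => rfl
    | succ t a ih =>
      rw [ih (by omega)]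
      refine (R.step t).ord s u (R.alive (by omega) (by omega)) (R.alive (by omega) (by omega))
        (R.alive (by omega) (by omega)) (R.alive (by omega) (by omega)) fun c => ?_
      obtain ⟨x1, x2, x3⟩ := (R.step t).both ((R.born _ _).2 (by omega)) ((R.born _ _).2 (by omega)) c
      refine absurd (A.com_card su) (not_le.2 (two_lt_card.2 ⟨_,
        mem_filter.2 ⟨mem_univ _, _, _, rfl, x1.symm⟩, _, hp, _, hq, fun e => ?_, fun e => ?_, pq⟩))
      · exact e3 (e ▸ R.un_mono a x2)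
      · exact x3 (e ▸ R.un_mono a' f2)
  have g4 := g3 t2 tt le_rfl
  have mid : ∀ t, t1 ≤ t → t ≤ t2 + 1 →
      (H σ b d s t < H σ b d u t ↔ (σ t).key s < (σ t).key u) ∧
      (H σ b d u t < H σ b d s t ↔ ¬ (σ t).key s < (σ t).key u) := fun t a a' => by
    have := (R.inv t).key_ne (s := s) (u := u) (R.alive (by omega) (by omega))
      (R.alive (by omega) (by omega)) (by rintro rfl; exact su rfl)
    unfold H
    rw [hgt_mid (by omega) (by omega) (by omega) (by omega),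
      hgt_mid (by omega) (by omega) (by omega) (by omega)]
    omega
  have m1 := mid t1 le_rfl (by omega)
  have m2 := mid (t1 + 1) (by omega) (by omega)
  have m3 := mid (t2 + 1) (by omega) le_rfl
  have fin : ∀ a y, H σ b d a t1 < H σ b d y t1 → H σ b d y (t1 + 1) < H σ b d a (t1 + 1) →
      H σ b d a (t2 + 1) < H σ b d y (t2 + 1) → ∃ τ, t1 < τ ∧ τ ≤ t2 ∧ ((a, τ) ∈ Y ∨ (y, τ) ∈ Y) := by
    intro a y x1 x2 x3
    obtain ⟨τ, -, y1, y2⟩ := hY a y ⟨t1, t1 + 1, t2 + 1, by omega, by omega, by omega, x1, x2, x3⟩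
    have : ¬ (τ ≤ t1 ∨ t2 + 1 ≤ τ) := fun c =>
      lt_asymm y1 (ends_of_three R.noAlt R.inj (by omega) (by omega) x1 x2 x3 c)
    exact ⟨τ, by omega, by omega, y2⟩
  have g5 := prop3 g1 g4 g2
  by_cases c : (σ t1).key s < (σ t1).key u
  · exact fin s u (m1.1.2 c) (m2.2.2 (g5.1 c).1) (m3.1.2 (g5.1 c).2)
  · obtain ⟨τ, y1, y2, y3⟩ := fin u s (m1.2.2 c) (m2.1.2 (g5.2 c).1) (m3.2.2 (g5.2 c).2)
    exact ⟨τ, y1, y2, y3.symm⟩

omit [Fintype Vx] in
lemma Run.pos {s : ι × Bool} {t1 t2 τ : ℕ} (h1 : b s.1 ≤ t1) (c1 : mv (σ t1) (σ (t1 + 1)) s)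
    (a : t1 < τ) (a' : τ ≤ t2) :
    2 * min ((σ t1).idx s 1) ((σ t2).idx s 1) ≤ (σ τ).idx s 0 + (σ τ).idx s 1 ∧
      (σ τ).idx s 0 + (σ τ).idx s 1 ≤ 2 * max ((σ t1).idx s 1) ((σ t2).idx s 1) := by
  have x1 := ((R.q_step h1).resolve_left fun c => c.1 c1).2.2
  have x2 := R.q_mono (s := s) (t := t1 + 1) (t' := τ) (by omega) a
  have x3 := R.q_mono (s := s) (t := τ) (t' := t2) (by omega) a'
  rw [x1] at x2
  unfold sgn St.idx at *
  split_ifs at * <;> omega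

end Arr

theorem combCut : CombCut := by
  obtain ⟨C, C0, hC⟩ := cut_discrete
  refine ⟨4 * C + 2, by positivity, fun ι X Vx _ _ _ A n n1 hι hV => ?_⟩
  obtain ⟨σ, b, d, R⟩ := A.exists_run
  obtain ⟨Y, Y1, hY⟩ := hC (ι × Bool) _ _ R.noAlt R.inj (2 * n) (Fintype.card Vx + Fintype.card ι)
    (by omega) (by simp; omega) (by nlinarith)
  set M := Fintype.card Vx + Fintype.card ι
  refine ⟨fun i => (σ (b i)).β i, (univ.image fun i => (i, 2 * (σ (b i)).β i)) ∪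
    (univ.image fun i => (i, (σ M).β i + (σ M).α i)) ∪
    Y.image fun p => (p.1.1, (σ p.2).idx p.1 0 + (σ p.2).idx p.1 1), ?_, fun i => by simp, ?_⟩
  · have n0 : (1 : ℝ) ≤ n := by exact_mod_cast n1
    have e1 : (n : ℝ) ≤ (n : ℝ) ^ ((3 : ℝ) / 2 - 1 / 10 ^ 7) := by
      conv_lhs => rw [← Real.rpow_one n]
      exact Real.rpow_le_rpow_of_exponent_le n0 (by norm_num)
    have e2 : ((2 * n : ℕ) : ℝ) ^ ((3 : ℝ) / 2 - 1 / 10 ^ 7) ≤
        4 * (n : ℝ) ^ ((3 : ℝ) / 2 - 1 / 10 ^ 7) := by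
      push_cast
      rw [Real.mul_rpow (by norm_num) (by positivity)]
      refine mul_le_mul_of_nonneg_right ?_ (by positivity)
      calc (2 : ℝ) ^ ((3 : ℝ) / 2 - 1 / 10 ^ 7) ≤ 2 ^ (2 : ℝ) :=
            Real.rpow_le_rpow_of_exponent_le (by norm_num) (by norm_num)
        _ = 4 := by norm_num
    have e3 := (card_union_le _ _).trans (add_le_add ((card_union_le _ _).trans (add_le_add
      (card_image_le (s := univ) (f := fun i : ι => (i, 2 * (σ (b i)).β i)))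
      (card_image_le (s := univ) (f := fun i : ι => (i, (σ M).β i + (σ M).α i)))))
      (card_image_le (s := Y)
        (f := fun p : (ι × Bool) × ℕ => (p.1.1, (σ p.2).idx p.1 0 + (σ p.2).idx p.1 1))))
    rw [card_univ] at e3
    have e4 : ((Fintype.card ι + Fintype.card ι + Y.card : ℕ) : ℝ) ≤ n + n + Y.card := by
      exact_mod_cast (by omega)
    refine ((Nat.cast_le.2 e3).trans e4).trans ?_
    nlinarith [mul_le_mul_of_nonneg_left e2 C0.le]
  · intro i j ij k l k' l' k0 kl l1 k0' k1' l0' l1' e1 e2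
    dsimp only at k0 l1 k0' k1' l0' l1'
    have e1 : A.v i k = A.v j k' := e1
    have e2 : A.v i l = A.v j l' := e2
    rcases R.side i k0 (by omega) (by omega : _ < l) l1 with c | ⟨e, ⟨t1, a1, a2, a3⟩, t2, a4, a5, a6⟩
    · exact Or.inl ⟨(σ M).β i + (σ M).α i, by simp, by omega, by omega⟩
    rcases R.side j k0' k1' l0' l1' with c | ⟨f, ⟨t1', b1, b2, b3⟩, t2', b4, b5, b6⟩
    · exact Or.inr ⟨_, by simp, c⟩
    have sw : ∀ (s : ι × Bool) t, b s.1 ≤ t → mv (σ t) (σ (t + 1)) s →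
        A.v s.1 ((σ t).idx s 1) ∈ (σ t).Un ∧ A.v s.1 ((σ t).idx s 1) ∉ (σ (t + 1)).Un := fun s t a c =>
      ⟨((R.step t).mov s ((R.born _ _).2 a) c).2.2.1, ((R.step t).mov s ((R.born _ _).2 a) c).2.2.2.1⟩
    have p1 := sw (i, e) t1 a1 a2
    have p2 := sw (i, e) t2 a4 a5
    have p3 := sw (j, f) t1' b1 b2
    have p4 := sw (j, f) t2' b4 b5
    rw [a3] at p1
    rw [a6] at p2
    rw [b3, ← e1] at p3
    rw [b6, ← e2] at p4
    obtain rfl := R.once p1.1 p1.2 p3.1 p3.2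
    obtain rfl := R.once p2.1 p2.2 p4.1 p4.2
    have mem : ∀ p ∈ Y, (p.1.1, (σ p.2).idx p.1 0 + (σ p.2).idx p.1 1) ∈
        (univ.image fun i => (i, 2 * (σ (b i)).β i)) ∪
        (univ.image fun i => (i, (σ M).β i + (σ M).α i)) ∪
        Y.image fun p => (p.1.1, (σ p.2).idx p.1 0 + (σ p.2).idx p.1 1) := fun p hp =>
      mem_union_right _ (mem_image_of_mem _ hp)
    rcases lt_trichotomy t1 t2 with c | c | c
    · obtain ⟨τ, x1, x2, x3⟩ := R.lens (s := (i, e)) (u := (j, f)) ij c a1 b1 a2 b2 a5 b5 hY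
      have y1 := R.pos (s := (i, e)) a1 a2 x1 x2
      have y2 := R.pos (s := (j, f)) b1 b2 x1 x2
      rw [a3, a6] at y1
      rw [b3, b6] at y2
      exact x3.imp (fun x => ⟨_, mem _ x, by simp only; omega, by simp only; omega⟩)
        fun x => ⟨_, mem _ x, y2⟩
    · subst c; omega
    · obtain ⟨τ, x1, x2, x3⟩ := R.lens (s := (i, e)) (u := (j, f)) ij c a4 b4 a5 b5 a2 b2 hY
      have y1 := R.pos (s := (i, e)) a4 a5 x1 x2
      have y2 := R.pos (s := (j, f)) b4 b5 x1 x2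
      rw [a3, a6] at y1
      rw [b3, b6, min_comm, max_comm] at y2
      exact x3.imp (fun x => ⟨_, mem _ x, by simp only; omega, by simp only; omega⟩)
        fun x => ⟨_, mem _ x, y2⟩

end Pool.Agent.Lib.MP_65c801_co
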