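import Pool.Agent.Lib.MP_65c801_co.Heavy
import Pool.Agent.Lib.MP_65c801_co.Zb

/-! The derived graph of pairs joined by many good paths. -/

namespace Pool.Agent.Lib.MP_65c801_co

open Finset Classical

variable {V α : Type*} [LinearOrder α] [Fintype V]
variable {h : V → ℕ → α} {H : V → V → Prop} {t : V → V → ℕ} {S' R L : ℕ} {n P Q d σ : ℝ}

/-- the ends of a path inside a window are in the usual order at both ends of the window -/
def PathOK (h : V → ℕ → α) (H : V → V → Prop) (t : V → V → ℕ) (S : ℕ) : Prop :=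
  ∀ a' y a b, H a' y → H a y → H a b → t a' y / S = t a y / S → t a b / S = t a y / S →
    h a' (t a y / S * S) < h b (t a y / S * S) ∧
    h a' (t a y / S * S + (S - 1)) < h b (t a y / S * S + (S - 1))

/-- good paths whose two lower curves have about `c` common neighbours -/
def PC (h : V → ℕ → α) (H : V → V → Prop) (t : V → V → ℕ) (S : ℕ) (K c : ℝ)
    (z : (V × V × V) × V) : Prop :=
  GoodPath h H t S K z ∧
    c ≤ cod (fun y a => H a y) (fun y a => t a y / S) (t z.1.1 z.1.2.1 / S) z.2 z.1.1 ∧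
    cod (fun y a => H a y) (fun y a => t a y / S) (t z.1.1 z.1.2.1 / S) z.2 z.1.1 < 2 * c

/-- number of such paths with given ends -/
noncomputable def mu (h : V → ℕ → α) (H : V → V → Prop) (t : V → V → ℕ) (S : ℕ) (K c : ℝ)
    (a b : V) : ℝ :=
  cnt (fun v : V × V => PC h H t S K c ((v.1, v.2, b), a))

lemma path_lens {S : ℕ} (pp : PathOK h H t S) {K : ℝ} {a y b a' : V}
    (g : GoodPath h H t S K ((a, y, b), a')) : Lens h S (t a y / S) a' b := by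
  obtain ⟨g1, g2, g3, w1, w2, -, l, -⟩ := g
  exact ⟨(pp a' y a b g1 g2 g3 w1 w2).1, (pp a' y a b g1 g2 g3 w1 w2).2, _, w1, l⟩

lemma Reg.walk1 (r : Reg h H t S' R L n P Q d σ) (u : ℕ) (a' : V) :
    cnt (fun z : (V × V) × V => (H a' z.1.1 ∧ t a' z.1.1 / (S' * R) = u) ∧
      (H z.1.2 z.1.1 ∧ t z.1.2 z.1.1 / (S' * R) = u) ∧
      (H z.1.2 z.2 ∧ t z.1.2 z.2 / (S' * R) = u)) ≤ P * Q * P := by
  refine (cnt_pair_le (q := fun v : V × V => (H a' v.1 ∧ t a' v.1 / (S' * R) = u) ∧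
    (H v.2 v.1 ∧ t v.2 v.1 / (S' * R) = u)) (K := P) (fun v b hz => ⟨hz.1, hz.2.1⟩)
    (fun v _ => (cnt_mono fun b hb => hb.2.2).trans (r.dP v.2 u))).trans
    (mul_le_mul_of_nonneg_right ?_ r.Pp.le)
  exact (cnt_pair_le (q := fun y => H a' y ∧ t a' y / (S' * R) = u) (K := Q) (fun y a hz => hz.1)
    (fun y _ => (cnt_mono fun a ha => ha.2).trans (r.dQ y u))).trans
    (mul_le_mul_of_nonneg_right (r.dP a' u) r.Qp.le)

lemma Reg.walk2 (r : Reg h H t S' R L n P Q d σ) (u : ℕ) (b : V) :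
    cnt (fun z : (V × V) × V => (H z.1.1 b ∧ t z.1.1 b / (S' * R) = u) ∧
      (H z.1.1 z.1.2 ∧ t z.1.1 z.1.2 / (S' * R) = u) ∧
      (H z.2 z.1.2 ∧ t z.2 z.1.2 / (S' * R) = u)) ≤ Q * P * Q := by
  refine (cnt_pair_le (q := fun v : V × V => (H v.1 b ∧ t v.1 b / (S' * R) = u) ∧
    (H v.1 v.2 ∧ t v.1 v.2 / (S' * R) = u)) (K := Q) (fun v b hz => ⟨hz.1, hz.2.1⟩)
    (fun v _ => (cnt_mono fun b hb => hb.2.2).trans (r.dQ v.2 u))).trans
    (mul_le_mul_of_nonneg_right ?_ r.Qp.le)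
  exact (cnt_pair_le (q := fun a => H a b ∧ t a b / (S' * R) = u) (K := P) (fun y a hz => hz.1)
    (fun a _ => (cnt_mono fun y ha => ha.2).trans (r.dP a u))).trans
    (mul_le_mul_of_nonneg_right (r.dQ b u) r.Pp.le)

lemma Reg.ballL (r : Reg h H t S' R L n P Q d σ) (u : ℕ) (a' : V) (c : ℝ) :
    cnt (fun a => c ≤ cod (fun y a => H a y) (fun y a => t a y / (S' * R)) u a' a) * c ≤ P * Q := by
  refine (cnt_fib_ge (p := fun v : V × V => (H a' v.1 ∧ t a' v.1 / (S' * R) = u) ∧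
    (H v.2 v.1 ∧ t v.2 v.1 / (S' * R) = u)) (fun v => v.2) ?_).trans ?_
  · intro a ha
    exact ha.trans (cnt_inj (fun y => (y, a)) (fun y hy => ⟨⟨⟨hy.1, hy.2.2.1⟩, hy.2.1, hy.2.2.2⟩, rfl⟩)
      (fun x y _ _ e => congrArg Prod.fst e))
  · exact (cnt_pair_le (q := fun y => H a' y ∧ t a' y / (S' * R) = u) (K := Q) (fun y a hz => hz.1)
      (fun y _ => (cnt_mono fun a ha => ha.2).trans (r.dQ y u))).trans
      (mul_le_mul_of_nonneg_right (r.dP a' u) r.Qp.le)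

section
variable (r : Reg h H t S' R L n P Q d σ) (pp : PathOK h H t (S' * R)) {K c : ℝ} {a' b : V} {u : ℕ}
  (l : Lens h (S' * R) u a' b)
include r pp l

lemma Reg.mu_win {v : V × V} (g : PC h H t (S' * R) K c ((v.1, v.2, b), a')) :
    t v.1 v.2 / (S' * R) = u :=
  (path_lens pp g.1).uniq r.noalt r.inj (Nat.mul_pos r.Sp r.Rp) l

lemma Reg.mu_le1 (K0 : 0 ≤ K) : mu h H t (S' * R) K c a' b ≤
    cnt (fun y => (∃ a, H a b ∧ H a y ∧ t a b / (S' * R) = u ∧ t a y / (S' * R) = u) ∧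
      H a' y ∧ t a' y / (S' * R) = u) * K := by
  refine cnt_fib_le' (fun v => v.2) (fun v g => ?_) fun y _ => ?_
  · have w := r.mu_win pp l g
    obtain ⟨⟨g1, g2, g3, w1, w2, -⟩, -⟩ := g
    exact ⟨⟨v.1, g3, g2, w2.trans w, w⟩, g1, w1.trans w⟩
  · by_cases hK : cod H (fun a y => t a y / (S' * R)) u y b ≤ K
    · refine le_trans (cnt_inj (fun v => v.1) ?_ ?_) hK
      · rintro v ⟨g, rfl⟩
        have w := r.mu_win pp l g
        obtain ⟨⟨g1, g2, g3, w1, w2, -⟩, -⟩ := g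
        exact ⟨g2, g3, w, w2.trans w⟩
      · rintro v w ⟨-, rfl⟩ ⟨-, h2⟩ e
        exact Prod.ext e h2.symm
    · rw [cnt_zero]; · exact K0
      rintro v ⟨g, rfl⟩
      have w := r.mu_win pp l g
      exact hK (w ▸ g.1.2.2.2.2.2.1)

lemma Reg.mu_le2 (c0 : 0 ≤ c) : mu h H t (S' * R) K c a' b ≤
    cnt (fun a => c ≤ cod (fun y a => H a y) (fun y a => t a y / (S' * R)) u a' a ∧
      H a b ∧ t a b / (S' * R) = u) * (2 * c) := by
  refine cnt_fib_le' (fun v => v.1) (fun v g => ?_) fun a _ => ?_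
  · have w := r.mu_win pp l g
    obtain ⟨⟨g1, g2, g3, w1, w2, -⟩, h1, -⟩ := g
    exact ⟨w ▸ h1, g3, w2.trans w⟩
  · by_cases hK : cod (fun y a => H a y) (fun y a => t a y / (S' * R)) u a' a < 2 * c
    · refine le_trans (cnt_inj (fun v => v.2) ?_ ?_) hK.le
      · rintro v ⟨g, rfl⟩
        have w := r.mu_win pp l g
        obtain ⟨⟨g1, g2, g3, w1, w2, -⟩, -⟩ := g
        exact ⟨g1, g2, w1.trans w, w⟩
      · rintro v w ⟨-, rfl⟩ ⟨-, h2⟩ e
        exact Prod.ext h2.symm e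
    · rw [cnt_zero]; · linarith
      rintro v ⟨g, rfl⟩
      have w := r.mu_win pp l g
      exact hK (w ▸ g.2.2)

end

lemma Reg.pc_le (r : Reg h H t S' R L n P Q d σ) (K c : ℝ) :
    cnt (PC h H t (S' * R) K c) ≤ cnt (fun z : (V × V) × V => H z.1.1 z.2 ∧ H z.1.2 z.2 ∧
      t z.1.2 z.2 / (S' * R) = t z.1.1 z.2 / (S' * R) ∧ z.1.1 ≠ z.1.2 ∧
      c ≤ cod (fun y a => H a y) (fun y a => t a y / (S' * R)) (t z.1.1 z.2 / (S' * R))
        z.1.1 z.1.2) * P := by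
  refine cnt_fib_le' (fun z => ((z.2, z.1.1), z.1.2.1)) ?_ fun v _ => ?_
  · rintro ⟨⟨a, y, b⟩, a'⟩ ⟨⟨g1, g2, g3, w1, w2, -, l, yb⟩, h1, -⟩
    refine ⟨g1, g2, w1.symm, ?_, by simp only at w1 h1 ⊢; rw [w1]; exact h1⟩
    intro e
    dsimp only at e l
    subst e
    exact lt_asymm l (r.fam.p2 _ y b g2 g3 yb)
  · refine le_trans (cnt_inj (fun z => z.1.2.2) ?_ ?_) (r.dP v.1.2 (t v.1.2 v.2 / (S' * R)))
    · rintro ⟨⟨a, y, b⟩, a'⟩ ⟨⟨⟨g1, g2, g3, w1, w2, -⟩, -⟩, rfl⟩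
      exact ⟨g3, w2⟩
    · rintro ⟨⟨a, y, b⟩, a'⟩ ⟨⟨a1, y1, b1⟩, a1'⟩ ⟨-, rfl⟩ ⟨-, h2⟩ e
      simp only [Prod.mk.injEq] at h2 e ⊢
      exact ⟨⟨h2.1.2.symm, h2.2.symm, e⟩, h2.1.1.symm⟩

theorem Reg.derived (r : Reg h H t S' R L n P Q d σ) (pp : PathOK h H t (S' * R)) {K c ν : ℝ}
    (K0 : 0 < K) (c0 : 0 < c) (ν1 : 1 ≤ ν) {z1 z2 ε : ℝ} (z10 : 0 < z1) (z20 : 0 < z2) (ε0 : 0 < ε)
    (hz1 : Q ≤ z1 ^ 2 * d) (hz2 : P ≤ z2 ^ 2 * d) :
    cnt (fun e : V × V => ν ≤ mu h H t (S' * R) K c e.1 e.2) ^ 3 * d ^ 2 ≤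
      18 * (L:ℝ) ^ 2 * n ^ 4 * (d * P * Q / ν) ^ 3 * (24 * K / Q + 48 * P * Q ^ 2 / d + 26 * z1 * c +
        (ε + (12 * K ^ 2 / Q + 24 * P * Q * K ^ 2 / (ε * d) + 13 * z2 * K))) := by
  have S0 : 0 < S' * R := Nat.mul_pos r.Sp r.Rp
  have np := r.np
  have dp := r.dp
  have Pp := r.Pp
  have Qp := r.Qp
  have ν0 : 0 < ν := by linarith
  set Γ : V → V → Prop := fun a b => ν ≤ mu h H t (S' * R) K c a b with hΓ
  have ex : ∀ a b, Γ a b → ∃ v : V × V, PC h H t (S' * R) K c ((v.1, v.2, b), a) := fun a b g =>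
    exists_of_cnt_pos (lt_of_lt_of_le ν0 g)
  have : ∀ a b, ∃ u, Γ a b → Lens h (S' * R) u a b := fun a b => by
    by_cases g : Γ a b
    · obtain ⟨v, hv⟩ := ex a b g; exact ⟨_, fun _ => path_lens pp hv.1⟩
    · exact ⟨0, fun g' => absurd g' g⟩
  choose lab hlab using this
  have sg : SignOK Γ lab := lens_sign r.noalt r.inj S0 hlab
  set g := cnt (fun e : V × V => Γ e.1 e.2) with hg
  have g0 : 0 ≤ g := cnt_nonneg _
  rcases g0.eq_or_lt with e | gp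
  · rw [← e, zero_pow (by norm_num), zero_mul]; positivity
  obtain ⟨e0, he0⟩ := exists_of_cnt_pos gp
  have nu1 : ν ≤ P * K := he0.trans ((r.mu_le1 pp (hlab _ _ he0) K0.le).trans
    (mul_le_mul_of_nonneg_right ((cnt_mono fun y hy => hy.2).trans (r.dP _ _)) K0.le))
  have nu2 : ν ≤ Q * (2 * c) := he0.trans ((r.mu_le2 pp (hlab _ _ he0) c0.le).trans
    (mul_le_mul_of_nonneg_right ((cnt_mono fun y hy => hy.2).trans (r.dQ _ _)) (by positivity)))
  have k1 : ∀ a u, cnt (fun b => Γ a b ∧ lab a b = u) ≤ P * Q * P / ν := fun a u => by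
    rw [le_div_iff₀ ν0]
    refine le_trans (cnt_fib_ge (fun z => z.2) ?_) (r.walk1 u a)
    rintro b ⟨g, rfl⟩
    refine g.trans (cnt_inj (fun v => ((v.2, v.1), b)) (fun v hv => ?_) (fun v w _ _ e => ?_))
    · have w := r.mu_win pp (hlab _ _ g) hv
      obtain ⟨⟨g1, g2, g3, w1, w2, -⟩, -⟩ := hv
      exact ⟨⟨⟨g1, w1.trans w⟩, ⟨g2, w⟩, g3, w2.trans w⟩, rfl⟩
    · simp only [Prod.mk.injEq] at e; exact Prod.ext e.1.2 e.1.1
  have k2 : ∀ b u, cnt (fun a => Γ a b ∧ lab a b = u) ≤ Q * P * Q / ν := fun b u => by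
    rw [le_div_iff₀ ν0]
    refine le_trans (cnt_fib_ge (fun z => z.2) ?_) (r.walk2 u b)
    rintro a ⟨g, rfl⟩
    refine g.trans (cnt_inj (fun v => (v, a)) (fun v hv => ?_) (fun v w _ _ e => ?_))
    · have w := r.mu_win pp (hlab _ _ g) hv
      obtain ⟨⟨g1, g2, g3, w1, w2, -⟩, -⟩ := hv
      exact ⟨⟨⟨g3, w2.trans w⟩, ⟨g2, w⟩, g1, w1.trans w⟩, rfl⟩
    · simp only [Prod.mk.injEq] at e; exact e.1
  set Δ := d * P * Q / ν with hΔ
  have Δ0 : 0 < Δ := by positivity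
  have D1 : ∀ a, cnt (fun b => Γ a b) ≤ Δ := fun a => by
    obtain ⟨T, hT, hT'⟩ := r.act1 a
    have := cnt_fib_le (p := fun b => Γ a b) (fun b => lab a b) T (fun b g => by
      obtain ⟨v, hv⟩ := ex a b g
      have w := r.mu_win pp (hlab _ _ g) hv
      exact (hv.1.2.2.2.1.trans w) ▸ hT' v.2 hv.1.1) (fun u _ => k1 a u)
    refine this.trans ?_
    rw [hΔ, ← mul_div_assoc]
    exact div_le_div_of_nonneg_right (by nlinarith [mul_pos Pp Qp]) ν0.le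
  have D2 : ∀ b, cnt (fun a => Γ a b) ≤ Δ := fun b => by
    obtain ⟨T, hT, hT'⟩ := r.act2 b
    have := cnt_fib_le (p := fun a => Γ a b) (fun a => lab a b) T (fun a g => by
      obtain ⟨v, hv⟩ := ex a b g
      have w := r.mu_win pp (hlab _ _ g) hv
      exact (hv.1.2.2.2.2.1.trans w) ▸ hT' v.1 hv.1.2.2.1) (fun u _ => k2 b u)
    refine this.trans ?_
    rw [hΔ, ← mul_div_assoc]
    exact div_le_div_of_nonneg_right (by nlinarith [mul_pos Pp Qp]) ν0.le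
  have i1 := ident sg r.L1 (fun a b g => by
    obtain ⟨v, hv⟩ := ex a b g
    have w := r.mu_win pp (hlab _ _ g) hv
    exact w ▸ lt_of_le_of_lt (Nat.div_le_self _ _) (r.tb _ _ hv.1.2.1))
  have i2 := c4_lower Γ r.card r.card
  set s := max 1 (ν / (2 * c)) with hs
  have s1 : 1 ≤ s := le_max_left _ _
  have s2 : ν / (2 * c) ≤ s := le_max_right _ _
  have zL := ZL_bound sg (H := H) (w := fun a y => t a y / (S' * R)) (al := P * Q / c) (s := s)
    (ze := z1) k1 k2 (by positivity) D2 (r.fam.two r.noalt _) (fun a' u =>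
      ⟨fun a => c ≤ cod (fun y a => H a y) (fun y a => t a y / (S' * R)) u a' a,
        by rw [le_div_iff₀ c0]; exact r.ballL u a' c, fun b g e => by
          have h1 := g.trans (r.mu_le2 pp (e ▸ hlab _ _ g) c0.le)
          refine max_le ?_ (by rw [div_le_iff₀ (by positivity)]; exact h1)
          obtain ⟨a, ha⟩ := exists_of_cnt_pos
            ((pos_iff_pos_of_mul_pos (lt_of_lt_of_le ν0 h1)).2 (by positivity))
          exact one_le_cnt ha⟩)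
    r.dQ Qp.le (by linarith) (by positivity) z10 (by positivity) (by
      rw [hΔ, ← mul_div_assoc]
      exact div_le_div_of_nonneg_right (by nlinarith [mul_pos Pp Qp]) ν0.le)
  have zU := ZL_bound sg.flip (H := fun y a => H a y) (w := fun y a => t a y / (S' * R))
    (al := Q * P) (s := ν / K)
    (ze := z2) k2 k1 (by positivity) D1 (r.fam.flip.two r.noalt.flip _) (fun b u =>
      ⟨fun y => ∃ a, H a b ∧ H a y ∧ t a b / (S' * R) = u ∧ t a y / (S' * R) = u,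
        r.ball u b, fun a g e => by
          rw [div_le_iff₀ K0]
          exact g.trans (r.mu_le1 pp (e ▸ hlab _ _ g) K0.le)⟩)
    r.dP Pp.le (by positivity) (by positivity) z20 (by positivity) (by
      rw [hΔ, ← mul_div_assoc]
      exact div_le_div_of_nonneg_right (by nlinarith [mul_pos Pp Qp]) ν0.le)
  have zT := ZL_triv (fun y x => Γ x y) (fun y x => lab x y) k2 D1
  rw [cnt_swap (fun e : V × V => Γ e.1 e.2)] at zU zT
  have aL : (12 * (P * Q / c) * Δ / s + P * Q * P / ν *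
      (24 * (P * Q / c) * Q * (Q * P * Q / ν) / s ^ 2 + 13 * z1 * Δ)) * d ^ 2 ≤
      Δ ^ 3 * (24 * K / Q + 48 * P * Q ^ 2 / d + 26 * z1 * c) := by
    have s3 : ν ≤ 2 * c * s := by rw [div_le_iff₀ (by positivity)] at s2; linarith
    have t1 : 12 * (P * Q / c) * Δ / s * d ^ 2 ≤ Δ ^ 3 * (24 * K / Q) := by
      rw [hΔ]; field_simp
      nlinarith [mul_le_mul nu1 s3 ν0.le (by positivity)]
    have t2 : P * Q * P / ν * (24 * (P * Q / c) * Q * (Q * P * Q / ν) / s ^ 2) * d ^ 2 ≤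
        Δ ^ 3 * (48 * P * Q ^ 2 / d) := by
      rw [hΔ]; field_simp
      nlinarith [mul_le_mul s3 s1 zero_le_one (by positivity)]
    have t3 : P * Q * P / ν * (13 * z1 * Δ) * d ^ 2 ≤ Δ ^ 3 * (26 * z1 * c) := by
      rw [hΔ]; field_simp
      nlinarith
    nlinarith
  have aU : ZU Γ lab * d ^ 2 ≤
      g * (Δ ^ 3 * (ε + (12 * K ^ 2 / Q + 24 * P * Q * K ^ 2 / (ε * d) + 13 * z2 * K))) := by
    unfold ZU
    by_cases cε : ν ≤ ε * P
    · have t0 : Q * P * Q / ν * Δ * d ^ 2 ≤ Δ ^ 3 * ε := by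
        rw [hΔ]; field_simp; nlinarith
      have : 0 ≤ Δ ^ 3 * (12 * K ^ 2 / Q + 24 * P * Q * K ^ 2 / (ε * d) + 13 * z2 * K) := by
        positivity
      calc _ ≤ g * (Q * P * Q / ν * Δ) * d ^ 2 := mul_le_mul_of_nonneg_right zT (by positivity)
        _ = g * (Q * P * Q / ν * Δ * d ^ 2) := by ring
        _ ≤ _ := mul_le_mul_of_nonneg_left (by nlinarith) g0
    · push Not at cε
      have t1 : 12 * (Q * P) * Δ / (ν / K) * d ^ 2 ≤ Δ ^ 3 * (12 * K ^ 2 / Q) := by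
        rw [hΔ]; field_simp; nlinarith
      have t2 : Q * P * Q / ν * (24 * (Q * P) * P * (P * Q * P / ν) / (ν / K) ^ 2) * d ^ 2 ≤
          Δ ^ 3 * (24 * P * Q * K ^ 2 / (ε * d)) := by
        rw [hΔ]; field_simp; nlinarith
      have t3 : Q * P * Q / ν * (13 * z2 * Δ) * d ^ 2 ≤ Δ ^ 3 * (13 * z2 * K) := by
        rw [hΔ]; field_simp; nlinarith
      have : 0 ≤ Δ ^ 3 * ε := by positivity
      calc _ ≤ g * (12 * (Q * P) * Δ / (ν / K) + Q * P * Q / ν *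
            (24 * (Q * P) * P * (P * Q * P / ν) / (ν / K) ^ 2 + 13 * z2 * Δ)) * d ^ 2 :=
            mul_le_mul_of_nonneg_right zU (by positivity)
        _ = g * (12 * (Q * P) * Δ / (ν / K) * d ^ 2 +
            Q * P * Q / ν * (24 * (Q * P) * P * (P * Q * P / ν) / (ν / K) ^ 2) * d ^ 2 +
            Q * P * Q / ν * (13 * z2 * Δ) * d ^ 2) := by ring
        _ ≤ _ := mul_le_mul_of_nonneg_left (by nlinarith) g0
  have aL' : ZL Γ lab * d ^ 2 ≤ g * (Δ ^ 3 * (24 * K / Q + 48 * P * Q ^ 2 / d + 26 * z1 * c)) := by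
    calc _ ≤ g * _ * d ^ 2 := mul_le_mul_of_nonneg_right zL (by positivity)
      _ = g * (_ * d ^ 2) := mul_assoc _ _ _
      _ ≤ _ := mul_le_mul_of_nonneg_left aL g0
  set A := 24 * K / Q + 48 * P * Q ^ 2 / d + 26 * z1 * c
  set B := ε + (12 * K ^ 2 / Q + 24 * P * Q * K ^ 2 / (ε * d) + 13 * z2 * K)
  have f1 : g ^ 4 ≤ n ^ 4 * (18 * (L:ℝ) ^ 2 * (ZL Γ lab + ZU Γ lab)) :=
    i2.trans (mul_le_mul_of_nonneg_left i1 (by positivity))
  have f2 : g * (g ^ 3 * d ^ 2) ≤ g * (18 * (L:ℝ) ^ 2 * n ^ 4 * Δ ^ 3 * (A + B)) := by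
    calc g * (g ^ 3 * d ^ 2) = g ^ 4 * d ^ 2 := by ring
      _ ≤ n ^ 4 * (18 * (L:ℝ) ^ 2 * (ZL Γ lab + ZU Γ lab)) * d ^ 2 :=
          mul_le_mul_of_nonneg_right f1 (by positivity)
      _ = n ^ 4 * (18 * (L:ℝ) ^ 2) * (ZL Γ lab * d ^ 2 + ZU Γ lab * d ^ 2) := by ring
      _ ≤ n ^ 4 * (18 * (L:ℝ) ^ 2) * (g * (Δ ^ 3 * A) + g * (Δ ^ 3 * B)) :=
          mul_le_mul_of_nonneg_left (add_le_add aL' aU) (by positivity)
      _ = _ := by ring
  exact le_of_mul_le_mul_left f2 gp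

end Pool.Agent.Lib.MP_65c801_co
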