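import Pool.Agent.Lib.MP_65c801_co.Build

/-! From the combinatorial cutting theorem to the geometric one. -/

namespace Pool.Agent.Lib.MP_65c801_co

open Classical

namespace FinalAux

/-- the parameter of the cut number `c` -/
noncomputable def sig (τ : ℤ → ℝ) (c : ℤ) : ℝ := (τ (c / 2) + τ ((c + 1) / 2)) / 2

lemma sig_even (τ : ℤ → ℝ) (k : ℤ) : sig τ (2 * k) = τ k := by
  have h1 : 2 * k / 2 = k := by omega
  have h2 : (2 * k + 1) / 2 = k := by omega
  unfold sig
  rw [h1, h2]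
  ring

lemma lt_sig {τ : ℤ → ℝ} (hτ : StrictMono τ) {k c : ℤ} (h : 2 * k < c) : τ k < sig τ c := by
  have h1 : τ k ≤ τ (c / 2) := hτ.monotone (by omega)
  have h2 : τ k < τ ((c + 1) / 2) := hτ (by omega)
  unfold sig
  linarith

lemma sig_lt {τ : ℤ → ℝ} (hτ : StrictMono τ) {l c : ℤ} (h : c < 2 * l) : sig τ c < τ l := by
  have h1 : τ (c / 2) < τ l := hτ (by omega)
  have h2 : τ ((c + 1) / 2) ≤ τ l := hτ.monotone (by omega)
  unfold sig
  linarith

lemma per {τ : ℤ → ℝ} {m : ℕ} (h : ∀ k, τ (k + m) = τ k + 2 * Real.pi) (k n : ℤ) :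
    τ (k + n * m) = τ k + n * (2 * Real.pi) := by
  induction n using Int.induction_on with
  | zero => simp
  | succ n ih =>
    have e : k + ((n : ℤ) + 1) * m = (k + n * m) + m := by ring
    rw [e, h, ih]
    push_cast
    ring
  | pred n ih =>
    have e : k + (-(n : ℤ)) * m = (k + (-(n : ℤ) - 1) * m) + m := by ring
    rw [e, h] at ih
    push_cast at ih ⊢
    linarith

lemma reduce {τ : ℤ → ℝ} {m : ℕ} (hm : 0 < m) (h : ∀ k, τ (k + m) = τ k + 2 * Real.pi)
    (k0 k : ℤ) : ∃ l, k0 ≤ l ∧ l < k0 + m ∧ Circle.exp (τ l) = Circle.exp (τ k) := by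
  have hm' : (0 : ℤ) < m := by exact_mod_cast hm
  refine ⟨k0 + (k - k0) % m, ?_, ?_, ?_⟩
  · have := Int.emod_nonneg (k - k0) hm'.ne'
    omega
  · have := Int.emod_lt_of_pos (k - k0) hm'
    omega
  · have e : k0 + (k - k0) % m = k + (-((k - k0) / m)) * m := by
      have := Int.emod_add_mul_ediv (k - k0) m
      linear_combination this
    rw [e, per h]
    exact Circle.exp_eq_exp.2 ⟨_, rfl⟩

/-- a cut between two points of a curve separates them -/
lemma key {γ : Circle → ℂ} (hc : Continuous γ) (hi : Function.Injective γ) {τ : ℤ → ℝ} {m : ℕ}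
    (hτ : StrictMono τ) (h : ∀ k, τ (k + m) = τ k + 2 * Real.pi) {Y : Set ℂ} {k0 k l c : ℤ}
    (h0 : γ (Circle.exp (sig τ (2 * k0))) ∈ Y) (hcY : γ (Circle.exp (sig τ c)) ∈ Y)
    (h1 : k0 < k) (h2 : l < k0 + m) (h3 : 2 * k ≤ c) (h4 : c ≤ 2 * l) {S : Set ℂ}
    (hS : IsPreconnected S) (hY : S ⊆ Set.range γ \ Y) (hk : γ (Circle.exp (τ k)) ∈ S)
    (hl : γ (Circle.exp (τ l)) ∈ S) : False := by
  rw [sig_even] at h0
  have h3' : 2 * k < c := by
    rcases h3.lt_or_eq with h3 | h3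
    · exact h3
    · rw [← h3, sig_even] at hcY
      exact absurd hcY (hY hk).2
  have h4' : c < 2 * l := by
    rcases h4.lt_or_eq with h4 | h4
    · exact h4
    · rw [h4, sig_even] at hcY
      exact absurd hcY (hY hl).2
  refine cut_sep hc hi (hτ h1) (lt_sig hτ h3') (sig_lt hτ h4') ?_ h0 hcY hS hY hk hl
  rw [← h]
  exact hτ h2

end FinalAux

open FinalAux in
theorem geo_of_comb (h : CombCut) : GeoCut := by
  obtain ⟨C, hC, hcomb⟩ := h
  refine ⟨C + 1, by linarith, fun n γ hc hi h2 hx => ?_⟩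
  rcases Nat.eq_zero_or_pos n with rfl | hn
  · refine ⟨∅, ?_, by simp, fun i => i.elim0, fun i => i.elim0⟩
    simp only [Finset.card_empty, Nat.cast_zero]
    positivity
  obtain ⟨ι, X, Vx, _, _, _, A, e, τ, pt, he, hV, hpt, hτ, hper, hvt, hmeet⟩ :=
    exists_arr n γ hc hi h2 hx
  have hι : Fintype.card ι ≤ n := by
    simpa using Fintype.card_le_of_injective e he
  obtain ⟨k0, D, hD, hk0, hcut⟩ := hcomb ι X Vx A n hn hι hV
  set Y : Finset ℂ := D.image (fun d => γ (e d.1) (Circle.exp (sig (τ d.1) d.2))) ∪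
    Finset.univ.image (fun i => γ i 1) with hY
  have hmem : ∀ i c, (i, c) ∈ D → γ (e i) (Circle.exp (sig (τ i) c)) ∈ (Y : Set ℂ) := by
    intro i c hic
    exact Finset.mem_coe.2 (Finset.mem_union_left _ (Finset.mem_image.2 ⟨(i, c), hic, rfl⟩))
  refine ⟨Y, ?_, ?_, ?_, ?_⟩
  · have h1 : Y.card ≤ D.card + n := by
      refine (Finset.card_union_le _ _).trans (add_le_add Finset.card_image_le ?_)
      simpa using (Finset.card_image_le (s := (Finset.univ : Finset (Fin n))) (f := fun i => γ i 1))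
    have h1' : (Y.card : ℝ) ≤ D.card + n := by exact_mod_cast h1
    have hn1 : (1 : ℝ) ≤ n := by exact_mod_cast hn
    have h3 : (n : ℝ) ≤ (n : ℝ) ^ ((3 : ℝ) / 2 - 1 / 10 ^ 7) := by
      have := Real.rpow_le_rpow_of_exponent_le hn1
        (show (1 : ℝ) ≤ (3 : ℝ) / 2 - 1 / 10 ^ 7 by norm_num)
      rwa [Real.rpow_one] at this
    linarith
  · intro x hx
    rcases Finset.mem_union.1 hx with hx | hx
    · obtain ⟨d, -, rfl⟩ := Finset.mem_image.1 hx
      exact ⟨_, _, rfl⟩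
    · obtain ⟨i, -, rfl⟩ := Finset.mem_image.1 hx
      exact ⟨_, _, rfl⟩
  · intro i
    exact ⟨γ i 1, Finset.mem_union_right _ (Finset.mem_image.2 ⟨i, Finset.mem_univ _, rfl⟩), _, rfl⟩
  · have par : ∀ i j, i ≠ j → ∀ p, p ∈ Set.range (γ i) → p ∈ Set.range (γ j) → p ∉ (Y : Set ℂ) →
        ∃ i' k, e i' = i ∧ k0 i' < k ∧ k < k0 i' + A.m i' ∧
          γ (e i') (Circle.exp (τ i' k)) = p := by
      rintro i j hij p ⟨z, rfl⟩ hj hp
      obtain ⟨t, rfl⟩ := Circle.exp_surjective z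
      obtain ⟨i', k, rfl, rfl⟩ := hmeet i j hij t hj
      obtain ⟨l, h1, h2, h3⟩ := reduce (A.mpos i') (hper i') (k0 i') k
      refine ⟨i', l, rfl, ?_, h2, by rw [h3]⟩
      rcases h1.lt_or_eq with h1 | h1
      · exact h1
      · exfalso
        apply hp
        have := hmem i' _ (hk0 i')
        rwa [sig_even, h1, h3] at this
    intro i j hij p0 q0 p hp q hq
    by_contra hpq
    have sI := connectedComponentIn_subset (Set.range (γ i) \ (Y : Set ℂ)) p0
    have sJ := connectedComponentIn_subset (Set.range (γ j) \ (Y : Set ℂ)) q0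
    obtain ⟨i1, k, e1, a1, a2, a3⟩ := par i j hij p (sI hp.1).1 (sJ hp.2).1 (sI hp.1).2
    obtain ⟨i2, l, e2, b1, b2, b3⟩ := par i j hij q (sI hq.1).1 (sJ hq.2).1 (sI hq.1).2
    obtain ⟨j1, k', e3, c1, c2, c3⟩ := par j i hij.symm p (sJ hp.2).1 (sI hp.1).1 (sI hp.1).2
    obtain ⟨j2, l', e4, d1, d2, d3⟩ := par j i hij.symm q (sJ hq.2).1 (sI hq.1).1 (sI hq.1).2
    obtain rfl : i2 = i1 := he (e2.trans e1.symm)
    obtain rfl : j2 = j1 := he (e4.trans e3.symm)
    subst e1 e3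
    have hne : i2 ≠ j2 := fun h => hij (by rw [h])
    have v1 : A.vt (A.dart i2 k true) = A.vt (A.dart j2 k' true) :=
      hpt (by rw [hvt, hvt, a3, c3])
    have v2 : A.vt (A.dart i2 l true) = A.vt (A.dart j2 l' true) :=
      hpt (by rw [hvt, hvt, b3, d3])
    have pI := hp.1
    have qI := hq.1
    have pJ := hp.2
    have qJ := hq.2
    rw [← a3] at pI
    rw [← b3] at qI
    rw [← c3] at pJ
    rw [← d3] at qJ
    have onJ : ∀ c, (j2, c) ∈ D → 2 * min k' l' ≤ c → c ≤ 2 * max k' l' → False := by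
      intro c hc' h3 h4
      rcases le_total k' l' with hle | hle
      · rw [min_eq_left hle] at h3
        rw [max_eq_right hle] at h4
        exact key (hc _) (hi _) (hτ j2) (hper j2) (hmem _ _ (hk0 j2)) (hmem _ _ hc') c1 d2 h3 h4
          isPreconnected_connectedComponentIn sJ pJ qJ
      · rw [min_eq_right hle] at h3
        rw [max_eq_left hle] at h4
        exact key (hc _) (hi _) (hτ j2) (hper j2) (hmem _ _ (hk0 j2)) (hmem _ _ hc') d1 c2 h3 h4
          isPreconnected_connectedComponentIn sJ qJ pJ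
    rcases lt_trichotomy k l with hkl | hkl | hkl
    · rcases hcut i2 j2 hne k l k' l' a1 hkl b2 c1 c2 d1 d2 v1 v2 with ⟨c, hc', h3, h4⟩ |
        ⟨c, hc', h3, h4⟩
      · exact key (hc _) (hi _) (hτ i2) (hper i2) (hmem _ _ (hk0 i2)) (hmem _ _ hc') a1 b2 h3 h4
          isPreconnected_connectedComponentIn sI pI qI
      · exact onJ c hc' h3 h4
    · exact hpq (by rw [← a3, ← b3, hkl])
    · rcases hcut i2 j2 hne l k l' k' b1 hkl a2 d1 d2 c1 c2 v2 v1 with ⟨c, hc', h3, h4⟩ |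
        ⟨c, hc', h3, h4⟩
      · exact key (hc _) (hi _) (hτ i2) (hper i2) (hmem _ _ (hk0 i2)) (hmem _ _ hc') b1 a2 h3 h4
          isPreconnected_connectedComponentIn sI qI pI
      · exact onJ c hc' (by rwa [min_comm]) (by rwa [max_comm])

end Pool.Agent.Lib.MP_65c801_co
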