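import Pool.Agent.Lib.MP_65c801_co.Ident

/-! The discrete model: curves are height functions of a discrete time, every two of which change
order at most twice. -/

namespace Pool.Agent.Lib.MP_65c801_co

open Finset Classical

variable {V α : Type*} [LinearOrder α]

/-- no two curves alternate four times -/
def NoAlt (h : V → ℕ → α) : Prop :=
  ∀ u v t1 t2 t3 t4, t1 < t2 → t2 < t3 → t3 < t4 → h u t1 < h v t1 → h v t2 < h u t2 →
    h u t3 < h v t3 → h v t4 < h u t4 → False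

/-- heights are distinct at each time -/
def Inj (h : V → ℕ → α) : Prop := ∀ t u v, h u t = h v t → u = v

/-- a family of non-overlapping lenses, each with a chosen time -/
structure Fam (h : V → ℕ → α) (G : V → V → Prop) (t : V → V → ℕ) : Prop where
  p1 : ∀ a y, G a y → h y (t a y) < h a (t a y)
  p2 : ∀ a x y, G a x → G a y → x ≠ y → h a (t a x) < h y (t a x)
  p3 : ∀ a b x, G a x → G b x → a ≠ b → h b (t a x) < h x (t a x)

variable {h : V → ℕ → α}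

lemma NoAlt.flip (hn : NoAlt h) : NoAlt (fun v s => OrderDual.toDual (h v s)) :=
  fun u v t1 t2 t3 t4 a b c h1 h2 h3 h4 => hn v u t1 t2 t3 t4 a b c h1 h2 h3 h4

lemma Inj.flip (hi : Inj h) : Inj (fun v s => OrderDual.toDual (h v s)) :=
  fun t u v e => hi t u v e

lemma Fam.flip {G : V → V → Prop} {t : V → V → ℕ} (f : Fam h G t) :
    Fam (fun v s => OrderDual.toDual (h v s)) (fun y a => G a y) (fun y a => t a y) :=
  ⟨fun y a g => f.p1 a y g, fun y a b g g' e => f.p3 a b y g g' e,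
    fun x y a g g' e => f.p2 a x y g g' e⟩

lemma Fam.mono {G G' : V → V → Prop} {t : V → V → ℕ} (f : Fam h G t) (hG : ∀ a y, G' a y → G a y) :
    Fam h G' t :=
  ⟨fun a y g => f.p1 a y (hG _ _ g), fun a x y g g' => f.p2 a x y (hG _ _ g) (hG _ _ g'),
    fun a b x g g' => f.p3 a b x (hG _ _ g) (hG _ _ g')⟩

lemma Fam.injU {G : V → V → Prop} {t : V → V → ℕ} (f : Fam h G t) {a x y : V} (g : G a x)
    (g' : G a y) (e : t a x = t a y) : x = y := by
  by_contra hn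
  have h1 := f.p2 a x y g g' hn
  have h2 := f.p1 a y g'
  rw [← e] at h2
  exact lt_asymm h1 h2

lemma Fam.injL {G : V → V → Prop} {t : V → V → ℕ} (f : Fam h G t) {a b x : V} (g : G a x)
    (g' : G b x) (e : t a x = t b x) : a = b :=
  f.flip.injU (a := x) g g' e

lemma sign_nat (p q r s : ℕ) (j1 : p ≠ q) (j2 : r ≠ s) (j3 : p ≠ r) (j4 : q ≠ s) (d1 : p ≠ s)
    (d2 : q ≠ r)
    (f1 : p < r → r < q → q < s → False) (f2 : p < s → s < q → q < r → False)
    (f3 : q < r → r < p → p < s → False) (f4 : q < s → s < p → p < r → False)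
    (f5 : r < p → p < s → s < q → False) (f6 : r < q → q < s → s < p → False)
    (f7 : s < p → p < r → r < q → False) (f8 : s < q → q < r → r < p → False)
    (e1 : p < q → q < r → r < s → False) (e2 : p < s → s < r → r < q → False)
    (e3 : r < q → q < p → p < s → False) (e4 : r < s → s < p → p < q → False)
    (e5 : q < p → p < s → s < r → False) (e6 : q < r → r < s → s < p → False)
    (e7 : s < p → p < q → q < r → False) (e8 : s < r → r < q → q < p → False) :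
    ((p < q ↔ r < s) ↔ ¬ (p < r ↔ q < s)) := by
  rcases Nat.lt_or_lt_of_ne j1 with c1 | c1 <;> rcases Nat.lt_or_lt_of_ne j2 with c2 | c2 <;>
  rcases Nat.lt_or_lt_of_ne j3 with c3 | c3 <;> rcases Nat.lt_or_lt_of_ne j4 with c4 | c4 <;>
  rcases Nat.lt_or_lt_of_ne d1 with c5 | c5 <;> rcases Nat.lt_or_lt_of_ne d2 with c6 | c6 <;>
  first
  | exact (f1 ‹_› ‹_› ‹_›).elim | exact (f2 ‹_› ‹_› ‹_›).elim | exact (f3 ‹_› ‹_› ‹_›).elim
  | exact (f4 ‹_› ‹_› ‹_›).elim | exact (f5 ‹_› ‹_› ‹_›).elim | exact (f6 ‹_› ‹_› ‹_›).elim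
  | exact (f7 ‹_› ‹_› ‹_›).elim | exact (f8 ‹_› ‹_› ‹_›).elim | exact (e1 ‹_› ‹_› ‹_›).elim
  | exact (e2 ‹_› ‹_› ‹_›).elim | exact (e3 ‹_› ‹_› ‹_›).elim | exact (e4 ‹_› ‹_› ‹_›).elim
  | exact (e5 ‹_› ‹_› ‹_›).elim | exact (e6 ‹_› ‹_› ‹_›).elim | exact (e7 ‹_› ‹_› ‹_›).elim
  | exact (e8 ‹_› ‹_› ‹_›).elim
  | (clear f1 f2 f3 f4 f5 f6 f7 f8 e1 e2 e3 e4 e5 e6 e7 e8 j1 j2 j3 j4 d1 d2; omega)

lemma sign_of (hn : NoAlt h) {G : V → V → Prop} {lab τ : V → V → ℕ}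
    (p1 : ∀ a y, G a y → h y (τ a y) < h a (τ a y))
    (p2 : ∀ a x y, G a x → G a y → lab a x ≠ lab a y → h a (τ a x) < h y (τ a x))
    (p3 : ∀ a b x, G a x → G b x → lab a x ≠ lab b x → h b (τ a x) < h x (τ a x))
    (mono : ∀ a x b y, G a x → G b y → lab a x < lab b y → τ a x < τ b y) : SignOK G lab := by
  intro a b x y g1 g2 g3 g4 n1 n2 n3 n4
  have A1 : h b (τ a x) < h a (τ a x) := (p3 a b x g1 g3 n3).trans (p1 a x g1)
  have A2 : h b (τ a y) < h a (τ a y) := (p3 a b y g2 g4 n4).trans (p1 a y g2)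
  have A3 : h a (τ b x) < h b (τ b x) := (p3 b a x g3 g1 n3.symm).trans (p1 b x g3)
  have A4 : h a (τ b y) < h b (τ b y) := (p3 b a y g4 g2 n4.symm).trans (p1 b y g4)
  have B1 : h x (τ a x) < h y (τ a x) := (p1 a x g1).trans (p2 a x y g1 g2 n1)
  have B2 : h y (τ a y) < h x (τ a y) := (p1 a y g2).trans (p2 a y x g2 g1 n1.symm)
  have B3 : h x (τ b x) < h y (τ b x) := (p1 b x g3).trans (p2 b x y g3 g4 n2)
  have B4 : h y (τ b y) < h x (τ b y) := (p1 b y g4).trans (p2 b y x g4 g3 n2.symm)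
  have d1 : τ a x ≠ τ b y := fun e => by rw [e] at A1; exact lt_asymm A1 A4
  have d2 : τ a y ≠ τ b x := fun e => by rw [e] at A2; exact lt_asymm A2 A3
  have K : ∀ p q p' q' : ℕ, p ≠ q → (p < q → p' < q') → (q < p → q' < p') →
      (p < q ↔ p' < q') ∧ p' ≠ q' := by
    intro p q p' q' n m m'
    rcases lt_or_gt_of_ne n with c | c
    · have := m c; exact ⟨⟨fun _ => this, fun _ => c⟩, this.ne⟩
    · have := m' c; exact ⟨⟨fun e => absurd e (lt_asymm c), fun e => absurd e (lt_asymm this)⟩, this.ne'⟩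
  obtain ⟨k1, j1⟩ := K _ _ _ _ n1 (mono a x a y g1 g2) (mono a y a x g2 g1)
  obtain ⟨k2, j2⟩ := K _ _ _ _ n2 (mono b x b y g3 g4) (mono b y b x g4 g3)
  obtain ⟨k3, j3⟩ := K _ _ _ _ n3 (mono a x b x g1 g3) (mono b x a x g3 g1)
  obtain ⟨k4, j4⟩ := K _ _ _ _ n4 (mono a y b y g2 g4) (mono b y a y g4 g2)
  rw [k1, k2, k3, k4]
  exact sign_nat _ _ _ _ j1 j2 j3 j4 d1 d2
    (fun p q r => hn b a _ _ _ _ p q r A1 A3 A2 A4)
    (fun p q r => hn b a _ _ _ _ p q r A1 A4 A2 A3)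
    (fun p q r => hn b a _ _ _ _ p q r A2 A3 A1 A4)
    (fun p q r => hn b a _ _ _ _ p q r A2 A4 A1 A3)
    (fun p q r => hn a b _ _ _ _ p q r A3 A1 A4 A2)
    (fun p q r => hn a b _ _ _ _ p q r A3 A2 A4 A1)
    (fun p q r => hn a b _ _ _ _ p q r A4 A1 A3 A2)
    (fun p q r => hn a b _ _ _ _ p q r A4 A2 A3 A1)
    (fun p q r => hn x y _ _ _ _ p q r B1 B2 B3 B4)
    (fun p q r => hn x y _ _ _ _ p q r B1 B4 B3 B2)
    (fun p q r => hn x y _ _ _ _ p q r B3 B2 B1 B4)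
    (fun p q r => hn x y _ _ _ _ p q r B3 B4 B1 B2)
    (fun p q r => hn y x _ _ _ _ p q r B2 B1 B4 B3)
    (fun p q r => hn y x _ _ _ _ p q r B2 B3 B4 B1)
    (fun p q r => hn y x _ _ _ _ p q r B4 B1 B2 B3)
    (fun p q r => hn y x _ _ _ _ p q r B4 B3 B2 B1)

lemma Fam.sign (hn : NoAlt h) {G : V → V → Prop} {t : V → V → ℕ} (f : Fam h G t) : SignOK G t :=
  sign_of hn f.p1 (fun a x y g g' e => f.p2 a x y g g' fun e' => e (e' ▸ rfl))
    (fun a b x g g' e => f.p3 a b x g g' fun e' => e (e' ▸ rfl)) (fun _ _ _ _ _ _ e => e)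

/-- `a` rises above `b` inside the window `w` only -/
def Lens (h : V → ℕ → α) (S w : ℕ) (a b : V) : Prop :=
  h a (w * S) < h b (w * S) ∧ h a (w * S + (S - 1)) < h b (w * S + (S - 1)) ∧
    ∃ τ, τ / S = w ∧ h b τ < h a τ

lemma win_bounds {S w τ : ℕ} (hS : 0 < S) (e : τ / S = w) : w * S ≤ τ ∧ τ ≤ w * S + (S - 1) := by
  subst e
  have h1 := Nat.div_mul_le_self τ S
  have h2 := Nat.lt_div_mul_add (a := τ) hS
  omega

lemma win_out {S w τ : ℕ} (hS : 0 < S) (e : τ / S ≠ w) : τ < w * S ∨ w * S + (S - 1) < τ := by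
  by_contra hn
  apply e
  push Not at hn
  exact Nat.div_eq_of_lt_le hn.1 (by rw [add_mul]; omega)

lemma lt_of_not_gt' (hi : Inj h) {a b : V} (hab : a ≠ b) {τ : ℕ} (e : ¬ h b τ < h a τ) :
    h a τ < h b τ :=
  lt_of_le_of_ne (not_lt.1 e) fun e' => hab (hi _ _ _ e')

lemma Lens.out (hn : NoAlt h) (hi : Inj h) {S w : ℕ} (hS : 0 < S) {a b : V} (l : Lens h S w a b)
    {τ : ℕ} (e : τ / S ≠ w) : h a τ < h b τ := by
  obtain ⟨l1, l2, σ, l3, l4⟩ := l
  have hab : a ≠ b := fun e => by subst e; exact lt_irrefl _ l1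
  have wb := win_bounds hS l3
  have s1 : w * S ≠ σ := fun e => by rw [e] at l1; exact lt_asymm l1 l4
  have s2 : w * S + (S - 1) ≠ σ := fun e => by rw [e] at l2; exact lt_asymm l2 l4
  refine lt_of_not_gt' hi hab fun hc => ?_
  rcases win_out hS e with c | c
  · exact hn b a τ (w * S) σ _ c (by omega) (by omega) hc l1 l4 l2
  · exact hn a b (w * S) σ _ τ (by omega) (by omega) c l1 l4 l2 hc

lemma Lens.uniq (hn : NoAlt h) (hi : Inj h) {S w w' : ℕ} (hS : 0 < S) {a b : V}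
    (l : Lens h S w a b) (l' : Lens h S w' a b) : w = w' := by
  by_contra hc
  obtain ⟨-, -, σ, l3, l4⟩ := l'
  exact lt_asymm l4 (l.out hn hi hS (by omega))

lemma lens_sign (hn : NoAlt h) (hi : Inj h) {S : ℕ} (hS : 0 < S) {G : V → V → Prop}
    {lab : V → V → ℕ} (hl : ∀ a b, G a b → Lens h S (lab a b) a b) : SignOK G lab := by
  have : ∀ a b, ∃ τ, G a b → τ / S = lab a b ∧ h b τ < h a τ := fun a b => by
    by_cases g : G a b
    · obtain ⟨-, -, τ, h1⟩ := hl a b g; exact ⟨τ, fun _ => h1⟩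
    · exact ⟨0, fun g' => absurd g' g⟩
  choose τ hτ using this
  refine sign_of hn (τ := τ) (fun a y g => (hτ a y g).2) (fun a x y g g' e => ?_)
    (fun a b x g g' e => ?_) (fun a x b y g g' e => ?_)
  · exact (hl a y g').out hn hi hS (by rw [(hτ a x g).1]; exact e)
  · exact (hl b x g').out hn hi hS (by rw [(hτ a x g).1]; exact e)
  · rw [← (hτ a x g).1, ← (hτ b y g').1] at e
    exact Nat.lt_of_div_lt_div e

lemma ends_of_three (hn : NoAlt h) (hi : Inj h) {a b : V} {t1 t2 t3 : ℕ} (c1 : t1 < t2)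
    (c2 : t2 < t3) (h1 : h a t1 < h b t1) (h2 : h b t2 < h a t2) (h3 : h a t3 < h b t3) {τ : ℕ}
    (c : τ ≤ t1 ∨ t3 ≤ τ) : h a τ < h b τ := by
  have hab : a ≠ b := fun e => by subst e; exact lt_irrefl _ h1
  refine lt_of_not_gt' hi hab fun hc => ?_
  rcases c with c | c
  · rcases c.eq_or_lt with e | e
    · subst e; exact lt_asymm hc h1
    · exact hn b a τ t1 t2 t3 e c1 c2 hc h1 h2 h3
  · rcases c.eq_or_lt with e | e
    · subst e; exact lt_asymm hc h3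
    · exact hn a b t1 t2 t3 τ c1 c2 e h1 h2 h3 hc

lemma lens_of_three (hn : NoAlt h) (hi : Inj h) {S w : ℕ} (hS : 0 < S) {a b : V} {t1 t2 t3 : ℕ}
    (c1 : t1 < t2) (c2 : t2 < t3) (w1 : t1 / S = w) (w2 : t2 / S = w) (w3 : t3 / S = w)
    (h1 : h a t1 < h b t1) (h2 : h b t2 < h a t2) (h3 : h a t3 < h b t3) : Lens h S w a b :=
  ⟨ends_of_three hn hi c1 c2 h1 h2 h3 (Or.inl (win_bounds hS w1).1),
    ends_of_three hn hi c1 c2 h1 h2 h3 (Or.inr (win_bounds hS w3).2), t2, w2, h2⟩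

/-- `y` and `z` change order inside the window `w` -/
def Cr (h : V → ℕ → α) (S w : ℕ) (y z : V) : Prop :=
  ∃ t1 t2, t1 / S = w ∧ t2 / S = w ∧ h y t1 < h z t1 ∧ h z t2 < h y t2

lemma Cr.symm {S w : ℕ} {y z : V} (c : Cr h S w y z) : Cr h S w z y := by
  obtain ⟨t1, t2, a, b, c, d⟩ := c
  exact ⟨t2, t1, b, a, d, c⟩

lemma cr_three (hn : NoAlt h) {S u1 u2 u3 : ℕ} {y z : V} (c1 : Cr h S u1 y z) (c2 : Cr h S u2 y z)
    (c3 : Cr h S u3 y z) (l1 : u1 < u2) (l2 : u2 < u3) : False := by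
  obtain ⟨a1, b1, e1, f1, g1, k1⟩ := c1
  obtain ⟨a2, b2, e2, f2, g2, k2⟩ := c2
  obtain ⟨a3, b3, e3, f3, g3, k3⟩ := c3
  have lt : ∀ p q : ℕ, p / S < q / S → p < q := fun p q => Nat.lt_of_div_lt_div
  have d : a1 ≠ b1 := fun e => by subst e; exact lt_asymm g1 k1
  rcases lt_or_gt_of_ne d with c | c
  · exact hn y z a1 b1 a2 b3 c (lt _ _ (by omega)) (lt _ _ (by omega)) g1 k1 g2 k3
  · exact hn z y b1 a1 b2 a3 c (lt _ _ (by omega)) (lt _ _ (by omega)) k1 g1 k2 g3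

lemma cr_two (hn : NoAlt h) (S : ℕ) (y z : V) :
    ∃ u1 u2, ∀ u, Cr h S u y z → u = u1 ∨ u = u2 := by
  by_cases h1 : ∃ u1, Cr h S u1 y z
  · obtain ⟨u1, h1⟩ := h1
    by_cases h2 : ∃ u2, Cr h S u2 y z ∧ u2 ≠ u1
    · obtain ⟨u2, h2, h3⟩ := h2
      refine ⟨u1, u2, fun u hu => ?_⟩
      by_contra hc
      push Not at hc
      rcases lt_or_gt_of_ne h3 with c | c <;> rcases lt_or_gt_of_ne hc.1 with c1 | c1 <;>
        rcases lt_or_gt_of_ne hc.2 with c2 | c2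
      · exact cr_three hn hu h2 h1 c2 c
      · exact cr_three hn h2 hu h1 c2 c1
      · omega
      · exact cr_three hn h2 h1 hu c c1
      · exact cr_three hn hu h1 h2 c1 c
      · omega
      · exact cr_three hn h1 hu h2 c1 c2
      · exact cr_three hn h1 h2 hu c c2
    · push Not at h2
      exact ⟨u1, u1, fun u hu => Or.inl (h2 u hu)⟩
  · exact ⟨0, 0, fun u hu => absurd ⟨u, hu⟩ h1⟩

lemma Fam.crU {G : V → V → Prop} {t : V → V → ℕ} (f : Fam h G t) {S u : ℕ} {a b b' : V}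
    (e : b ≠ b') (g : G a b) (g' : G a b') (w : t a b / S = u) (w' : t a b' / S = u) :
    Cr h S u b b' :=
  ⟨t a b, t a b', w, w', (f.p1 a b g).trans (f.p2 a b b' g g' e),
    (f.p1 a b' g').trans (f.p2 a b' b g' g e.symm)⟩

lemma Fam.two (hn : NoAlt h) {G : V → V → Prop} {t : V → V → ℕ} (f : Fam h G t) (S : ℕ) (b b' : V) :
    ∃ u1 u2, ∀ u a, b ≠ b' → G a b → G a b' → t a b / S = u → t a b' / S = u →
      u = u1 ∨ u = u2 := by
  obtain ⟨u1, u2, hu⟩ := cr_two hn S b b'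
  exact ⟨u1, u2, fun u a e g g' w w' => hu u (f.crU e g g' w w')⟩

variable [Fintype V]

/-- rank of a curve at a time -/
noncomputable def rk (h : V → ℕ → α) (s : ℕ) (v : V) : ℝ := cnt (fun z => h z s < h v s)

lemma lt_of_rk {s : ℕ} {a b : V} (e : rk h s a < rk h s b) : h a s < h b s := by
  by_contra hn
  exact absurd (cnt_mono fun z (hz : h z s < h b s) => lt_of_lt_of_le hz (not_lt.1 hn)) (not_le.2 e)

lemma rk_add_one {s : ℕ} {a b : V} (e : h a s < h b s) : rk h s a + 1 ≤ rk h s b := by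
  unfold rk
  rw [cnt_split (fun z => h z s < h b s) (fun z => h z s < h a s)]
  exact add_le_add (cnt_mono fun z hz => ⟨hz.trans e, hz⟩)
    (one_le_cnt (x := a) ⟨e, lt_irrefl _⟩)

lemma rk_cr (hi : Inj h) {S w : ℕ} (hS : 0 < S) {y y' : V} (c : Cr h S w y y') :
    rk h (w * S) y' ≤ rk h (w * S) y + cnt (Cr h S w y) + cnt (Cr h S w y') := by
  obtain ⟨-, τ, -, e, -, hτ⟩ := c
  have st : w * S / S = w := Nat.mul_div_cancel _ hS
  refine cnt_le_add3 fun z hz => ?_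
  by_cases c1 : h z (w * S) < h y (w * S)
  · exact Or.inl c1
  · by_cases c2 : h z τ < h y τ
    · have : z ≠ y := fun e => by subst e; exact lt_irrefl _ c2
      exact Or.inr (Or.inl ⟨_, τ, st, e, lt_of_not_gt' hi this.symm c1, c2⟩)
    · exact Or.inr (Or.inr ⟨τ, _, e, st, lt_of_lt_of_le hτ (not_lt.1 c2), hz⟩)

end Pool.Agent.Lib.MP_65c801_co
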