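import Pool.Agent.Lib.MP_65c801_co.Select

/-! Most edges have a good level. -/

namespace Pool.Agent.Lib.MP_65c801_co

open Finset Classical

variable {V α : Type*} [LinearOrder α] [Fintype V]
variable {h : V → ℕ → α} {E : V → V → Prop} {t : V → V → ℕ}

lemma ZL_le_deg (f : Fam h E t) : ZL E t ≤ ∑ y, cnt (fun a => E a y) ^ 2 := by
  simp only [cnt_sq]
  rw [← cnt_prod (fun z : V × (V × V) => E z.2.1 z.1 ∧ E z.2.2 z.1)]
  refine cnt_inj (fun z => (z.2.1, z.1)) (fun z hz => ⟨hz.1.1, hz.1.2.2.1⟩) fun z w hz hw e => ?_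
  simp only [Prod.mk.injEq] at e
  refine Prod.ext e.2 (Prod.ext e.1 ?_)
  rw [← f.injU hz.1.1 hz.1.2.1 hz.2, ← f.injU hw.1.1 hw.1.2.1 hw.2, e.1]

lemma deg_sq (hn : NoAlt h) (f : Fam h E t) {L : ℕ} (L1 : 1 ≤ L) {n : ℝ}
    (hc : (Fintype.card V : ℝ) ≤ n) (tb : ∀ a y, E a y → t a y < 2 ^ L) :
    ∑ y, cnt (fun a => E a y) ^ 2 + ∑ a, cnt (fun y => E a y) ^ 2 ≤ 72 * (L:ℝ) ^ 2 * n ^ 2 := by
  have i1 := ident (f.sign hn) L1 tb
  have i2 := ident (f.flip.sign hn.flip) L1 (fun y a g => tb a y g)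
  have z1 := ZL_le_deg f
  have z2 := ZL_le_deg f.flip
  have c1 := cherry_sq_le E hc
  have c2 := cherry_sq_le (fun y a => E a y) hc
  unfold ZU at i1 i2
  set S1 := ∑ y, cnt (fun a => E a y) ^ 2
  set S2 := ∑ a, cnt (fun y => E a y) ^ 2
  have S10 : 0 ≤ S1 := Finset.sum_nonneg fun _ _ => sq_nonneg _
  have S20 : 0 ≤ S2 := Finset.sum_nonneg fun _ _ => sq_nonneg _
  have a1 : S1 ^ 2 ≤ n ^ 2 * (18 * (L:ℝ) ^ 2 * (S1 + S2)) :=
    c1.trans (mul_le_mul_of_nonneg_left (i1.trans (mul_le_mul_of_nonneg_left (add_le_add z1 z2)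
      (by positivity))) (by positivity))
  have a2 : S2 ^ 2 ≤ n ^ 2 * (18 * (L:ℝ) ^ 2 * (S2 + S1)) :=
    c2.trans (mul_le_mul_of_nonneg_left (i2.trans (mul_le_mul_of_nonneg_left (add_le_add z2 z1)
      (by positivity))) (by positivity))
  rcases (add_nonneg S10 S20).eq_or_lt with e | e
  · rw [← e]; positivity
  · have : (S1 + S2) * (S1 + S2) ≤ (S1 + S2) * (72 * (L:ℝ) ^ 2 * n ^ 2) := by
      nlinarith [sq_nonneg (S1 - S2)]
    exact le_of_mul_le_mul_left this e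

lemma high_deg (E : V → V → Prop) {D : ℝ} (D0 : 0 ≤ D) :
    cnt (fun e : V × V => E e.1 e.2 ∧ D < cnt (fun y => E e.1 y)) * D ≤
      ∑ a, cnt (fun y => E a y) ^ 2 := by
  rw [cnt_prod, Finset.sum_mul]
  refine Finset.sum_le_sum fun a _ => ?_
  by_cases c : D < cnt (fun y => E a y)
  · rw [sq]
    exact mul_le_mul (cnt_mono fun y hy => hy.1) c.le D0 (cnt_nonneg _)
  · rw [cnt_zero (fun y hy => c hy.2), zero_mul]; positivity

lemma low_deg (E : V → V → Prop) {D n : ℝ} (D0 : 0 ≤ D) (hc : (Fintype.card V : ℝ) ≤ n) :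
    cnt (fun e : V × V => E e.1 e.2 ∧ cnt (fun y => E e.1 y) < D) ≤ n * D := by
  refine (cnt_pair_le (q := fun a => cnt (fun y => E a y) < D) (K := D) (fun a y hz => hz.2)
    (fun a ha => (cnt_mono fun y hy => hy.1).trans ha.le)).trans ?_
  exact mul_le_mul_of_nonneg_right ((cnt_le_card _).trans hc) D0

lemma growth (E : V → V → Prop) (t : V → V → ℕ) (S : ℕ) {R : ℕ} (R0 : 0 < R) {lam : ℝ}
    (lam0 : 0 ≤ lam) :
    cnt (fun e : V × V => E e.1 e.2 ∧ lam * gs E t S e.1 e.2 < gs E t (S * R) e.1 e.2) * lam ≤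
      R * cnt (fun e : V × V => E e.1 e.2) := by
  rw [cnt_prod, cnt_prod (fun e : V × V => E e.1 e.2), Finset.sum_mul, Finset.mul_sum]
  refine Finset.sum_le_sum fun a _ => ?_
  rw [cnt_fib _ (fun y => t a y / (S * R)) (univ.image fun y => t a y / (S * R))
      (fun z _ => mem_image_of_mem _ (mem_univ _)),
    cnt_fib (fun y => E a y) (fun y => t a y / (S * R)) (univ.image fun y => t a y / (S * R))
      (fun z _ => mem_image_of_mem _ (mem_univ _)), Finset.sum_mul, Finset.mul_sum]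
  refine Finset.sum_le_sum fun u _ => ?_
  rw [cnt_fib _ (fun y => t a y / S % R) (range R) (fun z _ => mem_range.2 (Nat.mod_lt _ R0)),
    Finset.sum_mul]
  calc _ ≤ ∑ _r ∈ range R, cnt (fun y => E a y ∧ t a y / (S * R) = u) :=
        Finset.sum_le_sum fun r _ => ?_
    _ = _ := by simp
  by_cases hex : ∃ y, ((E a y ∧ lam * gs E t S a y < gs E t (S * R) a y) ∧ t a y / (S * R) = u) ∧
      t a y / S % R = r
  · obtain ⟨y, ⟨⟨g, h1⟩, rfl⟩, rfl⟩ := hex
    have : cnt (fun y' => ((E a y' ∧ lam * gs E t S a y' < gs E t (S * R) a y') ∧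
        t a y' / (S * R) = t a y / (S * R)) ∧ t a y' / S % R = t a y / S % R) ≤ gs E t S a y :=
      cnt_mono fun y' hy => ⟨hy.1.1.1, by
        have h2 := hy.1.2
        rw [← Nat.div_div_eq_div_mul, ← Nat.div_div_eq_div_mul] at h2
        rw [← Nat.div_add_mod (t a y' / S) R, ← Nat.div_add_mod (t a y / S) R, h2, hy.2]⟩
    have h3 := mul_le_mul_of_nonneg_right this lam0
    unfold gs at h1 h3
    unfold gs
    linarith
  · rw [cnt_zero (fun y hy => hex ⟨y, hy⟩), zero_mul]; exact cnt_nonneg _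

lemma level_choice (m : ℕ → ℝ) (T : ℕ) {B G lam : ℝ} (G1 : 1 ≤ G) (hB : 1 ≤ lam * B)
    (lam0 : 0 ≤ lam) (m0 : m 0 ≤ 1) (hm : ∀ i < T, m (i + 1) ≤ lam * m i)
    (hT : lam * B * G ^ T < m T) :
    ∃ i < T, B ≤ m i ∧ G * m i ≤ m (i + 1) ∧ m i ≤ lam * B * G ^ T := by
  by_contra hc
  push Not at hc
  have : ∀ i ≤ T, m i ≤ lam * B * G ^ i := by
    intro i
    induction i with
    | zero => intro _; simpa using m0.trans hB
    | succ i ih =>
      intro hi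
      have h1 := ih (by omega)
      have h2 : G ^ i ≤ G ^ T := pow_le_pow_right₀ G1 (by omega)
      have h3 : 1 ≤ G ^ (i + 1) := one_le_pow₀ G1
      by_cases c : B ≤ m i
      · by_cases c2 : G * m i ≤ m (i + 1)
        · have := hc i (by omega) c c2
          nlinarith
        · push Not at c2
          rw [pow_succ]; nlinarith
      · push Not at c
        have := hm i (by omega)
        nlinarith [mul_le_mul_of_nonneg_left c.le lam0]
  linarith [this T le_rfl]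

theorem good_cover (f : Fam h E t) {R T : ℕ} (tb : ∀ a y, E a y → t a y < R ^ T)
    {Dm dm B G lam : ℝ} (G1 : 1 ≤ G) (hB : 1 ≤ lam * B) (lam1 : 1 ≤ lam)
    (hdm : lam * B * G ^ T < dm) {a y : V} (g : E a y)
    (h1 : cnt (fun y' => E a y') ≤ Dm) (h2 : cnt (fun a' => E a' y) ≤ Dm)
    (h3 : dm ≤ cnt (fun y' => E a y')) (h4 : dm ≤ cnt (fun a' => E a' y))
    (h5 : ∀ i < T, gs E t (R ^ i * R) a y ≤ lam * gs E t (R ^ i) a y)
    (h6 : ∀ i < T, gs (fun y a => E a y) (fun y a => t a y) (R ^ i * R) y a ≤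
      lam * gs (fun y a => E a y) (fun y a => t a y) (R ^ i) y a) :
    GoodUp E t R T Dm B G (lam * (lam * B * G ^ T)) lam a y ∨
      GoodUp (fun y a => E a y) (fun y a => t a y) R T Dm B G (lam * (lam * B * G ^ T)) lam y a := by
  set u : ℕ → ℝ := fun i => gs E t (R ^ i) a y with hu
  set v : ℕ → ℝ := fun i => gs (fun y a => E a y) (fun y a => t a y) (R ^ i) y a with hv
  have lam0 : 0 ≤ lam := by linarith
  have mono : ∀ (E : V → V → Prop) (t : V → V → ℕ) (S : ℕ) a y,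
      gs E t S a y ≤ gs E t (S * R) a y := fun E t S a y => cnt_mono fun y' hy => ⟨hy.1, by
        rw [← Nat.div_div_eq_div_mul, ← Nat.div_div_eq_div_mul, hy.2]⟩
  have u0 : u 0 ≤ 1 := cnt_le_one fun x z hx hz => f.injU hx.1 hz.1 (by
    have := hx.2.trans hz.2.symm; simpa using this)
  have uT : dm ≤ u T := h3.trans (cnt_mono fun y' hy => ⟨hy, by
    rw [Nat.div_eq_of_lt (tb _ _ hy), Nat.div_eq_of_lt (tb _ _ g)]⟩)
  have vT : dm ≤ v T := h4.trans (cnt_mono fun a' ha => ⟨ha, by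
    rw [Nat.div_eq_of_lt (tb _ _ ha), Nat.div_eq_of_lt (tb _ _ g)]⟩)
  obtain ⟨i, hi, b1, b2, b3⟩ := level_choice (fun i => min (u i) (v i)) T G1 hB lam0
    ((min_le_left _ _).trans u0) (fun i hi => by
      rw [mul_min_of_nonneg _ _ lam0]
      exact min_le_min (by simpa [hu, pow_succ] using h5 i hi) (by simpa [hv, pow_succ] using h6 i hi))
    (lt_of_lt_of_le hdm (le_min uT vT))
  have e1 : u (i + 1) = gs E t (R ^ i * R) a y := by simp [hu, pow_succ]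
  have e2 : v (i + 1) = gs (fun y a => E a y) (fun y a => t a y) (R ^ i * R) y a := by
    simp [hv, pow_succ]
  have m1 : u i ≤ u (i + 1) := e1 ▸ mono E t _ a y
  have m2 : v i ≤ v (i + 1) := e2 ▸ mono _ _ _ y a
  have g1 : u (i + 1) ≤ lam * u i := e1 ▸ h5 i hi
  have g2 : v (i + 1) ≤ lam * v i := e2 ▸ h6 i hi
  have n1 := min_le_left (u (i + 1)) (v (i + 1))
  have n2 := min_le_right (u (i + 1)) (v (i + 1))
  rcases le_total (v i) (u i) with c | c
  · rw [min_eq_right c] at b1 b2 b3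
    refine Or.inl ⟨i, hi, g, h1, h2, e2 ▸ b1.trans m2, e2 ▸ b2.trans n2,
      e2 ▸ g2.trans (mul_le_mul_of_nonneg_left b3 lam0),
      e1 ▸ e2 ▸ g2.trans (mul_le_mul_of_nonneg_left (c.trans m1) lam0)⟩
  · rw [min_eq_left c] at b1 b2 b3
    refine Or.inr ⟨i, hi, g, h2, h1, e1 ▸ b1.trans m1, e1 ▸ b2.trans n1,
      e1 ▸ g1.trans (mul_le_mul_of_nonneg_left b3 lam0),
      e1 ▸ e2 ▸ g1.trans (mul_le_mul_of_nonneg_left (c.trans m2) lam0)⟩

lemma bad_side (E : V → V → Prop) (t : V → V → ℕ) {R T : ℕ} (R0 : 0 < R) {Dm dm lam n Sq : ℝ}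
    (Dm0 : 0 < Dm) (dm0 : 0 ≤ dm) (lam0 : 0 < lam) (hc : (Fintype.card V : ℝ) ≤ n)
    (hS : ∑ a, cnt (fun y => E a y) ^ 2 ≤ Sq) :
    cnt (fun e : V × V => E e.1 e.2 ∧ ¬ (cnt (fun y' => E e.1 y') ≤ Dm ∧
      dm ≤ cnt (fun y' => E e.1 y') ∧
      ∀ i < T, gs E t (R ^ i * R) e.1 e.2 ≤ lam * gs E t (R ^ i) e.1 e.2)) ≤
      Sq / Dm + n * dm + T * (R * cnt (fun e : V × V => E e.1 e.2) / lam) := by
  have h1 : cnt (fun e : V × V => E e.1 e.2 ∧ Dm < cnt (fun y => E e.1 y)) ≤ Sq / Dm := by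
    rw [le_div_iff₀ Dm0]; exact (high_deg E Dm0.le).trans hS
  have h2 := low_deg E dm0 hc
  have h3 : cnt (fun e : V × V => E e.1 e.2 ∧ ∃ i < T,
      lam * gs E t (R ^ i) e.1 e.2 < gs E t (R ^ i * R) e.1 e.2) ≤
      T * (R * cnt (fun e : V × V => E e.1 e.2) / lam) := by
    refine (cnt_cover _ T (fun i e => lam * gs E t (R ^ i) e.1 e.2 < gs E t (R ^ i * R) e.1 e.2)
      (fun e he => he.2)).trans ?_
    calc _ ≤ ∑ _i ∈ range T, R * cnt (fun e : V × V => E e.1 e.2) / lam :=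
          Finset.sum_le_sum fun i _ => by
            rw [le_div_iff₀ lam0]
            exact le_trans (mul_le_mul_of_nonneg_right (cnt_mono fun e he => ⟨he.1.1, he.2⟩) lam0.le)
              (growth E t (R ^ i) R0 lam0.le)
      _ = _ := by simp
  refine (cnt_le_add3 ?_).trans (add_le_add (add_le_add h1 h2) h3)
  rintro e ⟨g, hc⟩
  by_contra hn
  push Not at hn
  exact hc ⟨hn.1 g, hn.2.1 g, hn.2.2 g⟩

theorem good_count (hn : NoAlt h) (f : Fam h E t) {R T L : ℕ} (R0 : 0 < R) (L1 : 1 ≤ L)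
    (tb : ∀ a y, E a y → t a y < R ^ T) (tb' : ∀ a y, E a y → t a y < 2 ^ L)
    {Dm dm B G lam n : ℝ} (G1 : 1 ≤ G) (hB : 1 ≤ lam * B) (lam1 : 1 ≤ lam)
    (hdm : lam * B * G ^ T < dm) (Dm0 : 0 < Dm) (dm0 : 0 ≤ dm) (hc : (Fintype.card V : ℝ) ≤ n) :
    cnt (fun e : V × V => E e.1 e.2) ≤
      cnt (fun e : V × V => GoodUp E t R T Dm B G (lam * (lam * B * G ^ T)) lam e.1 e.2) +
      cnt (fun e : V × V => GoodUp (fun y a => E a y) (fun y a => t a y) R T Dm B G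
        (lam * (lam * B * G ^ T)) lam e.1 e.2) +
      2 * (72 * (L:ℝ) ^ 2 * n ^ 2 / Dm + n * dm +
        T * (R * cnt (fun e : V × V => E e.1 e.2) / lam)) := by
  have ds := deg_sq hn f L1 hc tb'
  have S10 : 0 ≤ ∑ y, cnt (fun a => E a y) ^ 2 := Finset.sum_nonneg fun _ _ => sq_nonneg _
  have S20 : 0 ≤ ∑ a, cnt (fun y => E a y) ^ 2 := Finset.sum_nonneg fun _ _ => sq_nonneg _
  have b1 := bad_side E t (T := T) R0 Dm0 dm0 (by linarith : 0 < lam) hc
    (Sq := 72 * (L:ℝ) ^ 2 * n ^ 2) (by linarith)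
  have b2 := bad_side (fun y a => E a y) (fun y a => t a y) (T := T) R0 Dm0 dm0
    (by linarith : 0 < lam) hc (Sq := 72 * (L:ℝ) ^ 2 * n ^ 2) (by linarith)
  rw [cnt_swap (fun e : V × V => E e.1 e.2)] at b2
  rw [← cnt_swap] at b2
  rw [← cnt_swap (fun e : V × V => GoodUp (fun y a => E a y) (fun y a => t a y) R T Dm B G
        (lam * (lam * B * G ^ T)) lam e.1 e.2)]
  have c1 := cnt_le_add3 (p := fun e : V × V => E e.1 e.2)
    (q := fun e => GoodUp E t R T Dm B G (lam * (lam * B * G ^ T)) lam e.1 e.2 ∨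
      GoodUp (fun y a => E a y) (fun y a => t a y) R T Dm B G (lam * (lam * B * G ^ T)) lam e.2 e.1)
    (r := fun e => E e.1 e.2 ∧ ¬ (cnt (fun y' => E e.1 y') ≤ Dm ∧
      dm ≤ cnt (fun y' => E e.1 y') ∧
      ∀ i < T, gs E t (R ^ i * R) e.1 e.2 ≤ lam * gs E t (R ^ i) e.1 e.2))
    (s := fun e => E e.1 e.2 ∧ ¬ (cnt (fun a' => E a' e.2) ≤ Dm ∧
      dm ≤ cnt (fun a' => E a' e.2) ∧
      ∀ i < T, gs (fun y a => E a y) (fun y a => t a y) (R ^ i * R) e.2 e.1 ≤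
        lam * gs (fun y a => E a y) (fun y a => t a y) (R ^ i) e.2 e.1)) (fun e g => by
      by_contra hc
      obtain ⟨n1, n23⟩ := not_or.1 hc
      obtain ⟨n2, n3⟩ := not_or.1 n23
      obtain ⟨a1, a2, a3⟩ := not_not.1 fun k => n2 ⟨g, k⟩
      obtain ⟨a4, a5, a6⟩ := not_not.1 fun k => n3 ⟨g, k⟩
      exact n1 (good_cover f tb G1 hB lam1 hdm g a1 a4 a2 a5 a3 a6))
  have c2 := cnt_or
    (fun e : V × V => GoodUp E t R T Dm B G (lam * (lam * B * G ^ T)) lam e.1 e.2)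
    (fun e => GoodUp (fun y a => E a y) (fun y a => t a y) R T Dm B G
      (lam * (lam * B * G ^ T)) lam e.2 e.1)
  linarith

end Pool.Agent.Lib.MP_65c801_co
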