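import Pool.Agent.Lib.MP_65c801_co.Cut

/-! From graphs of continuous functions to the discrete model. -/

namespace Pool.Agent.Lib.MP_65c801_co

open Finset Classical

lemma exists_rank (Z : Finset ℝ) : ∀ k ≤ Z.card, ∃ x, x ∉ Z ∧ (Z.filter (· < x)).card = k := by
  induction Z using Finset.induction_on_max with
  | empty => intro k hk; exact ⟨0, by simp, by simpa using (Nat.le_zero.1 hk).symm⟩
  | insert a Z ha ih =>
    have na : a ∉ Z := fun h => lt_irrefl _ (ha a h)
    intro k hk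
    rw [card_insert_of_notMem na] at hk
    have low : ∀ x < a, (insert a Z).filter (· < x) = Z.filter (· < x) := fun x hx => by
      rw [filter_insert, if_neg (not_lt.2 hx.le)]
    rcases hk.eq_or_lt with e | e
    · refine ⟨a + 1, fun h => ?_, ?_⟩
      · rcases mem_insert.1 h with h | h
        · linarith
        · linarith [ha _ h]
      · rw [filter_true_of_mem, card_insert_of_notMem na, e]
        intro x hx
        rcases mem_insert.1 hx with h | h
        · linarith
        · linarith [ha _ h]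
    · obtain ⟨x, h1, h2⟩ := ih k (by omega)
      by_cases c : x < a
      · exact ⟨x, fun h => (mem_insert.1 h).elim c.ne h1, by rw [low x c, h2]⟩
      · obtain ⟨b, hb, hb'⟩ : ∃ b < a, ∀ z ∈ Z, z < b := by
          rcases Z.eq_empty_or_nonempty with rfl | hne
          · exact ⟨a - 1, by linarith, by simp⟩
          · have := ha _ (Z.max'_mem hne)
            exact ⟨(Z.max' hne + a) / 2, by linarith, fun z hz => by linarith [Z.le_max' z hz]⟩
        refine ⟨b, fun h => (mem_insert.1 h).elim hb.ne (fun h => lt_irrefl _ (hb' b h)), ?_⟩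
        rw [low b hb, filter_true_of_mem hb', ← h2, filter_true_of_mem]
        intro z hz; linarith [ha z hz, not_lt.1 c]

lemma exists_samples (Z : Finset ℝ) : ∃ s : ℕ → ℝ, Monotone s ∧ (∀ k, s k ∉ Z) ∧
    ∀ x1 ∈ Z, ∀ x2 ∈ Z, x1 < x2 → ∃ t1 t2 t3, t1 < t2 ∧ t2 < t3 ∧ t3 ≤ Z.card ∧
      s t1 < x1 ∧ x1 < s t2 ∧ s t2 < x2 ∧ x2 < s t3 := by
  have : ∀ k, ∃ x, k ≤ Z.card → x ∉ Z ∧ (Z.filter (· < x)).card = k := fun k => by
    by_cases c : k ≤ Z.card
    · obtain ⟨x, hx⟩ := exists_rank Z k c; exact ⟨x, fun _ => hx⟩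
    · exact ⟨0, fun c' => absurd c' c⟩
  choose p hp using this
  have mono : ∀ x y : ℝ, x ≤ y → (Z.filter (· < x)).card ≤ (Z.filter (· < y)).card :=
    fun x y h => card_le_card fun z hz => by
      simp only [mem_filter] at hz ⊢; exact ⟨hz.1, hz.2.trans_le h⟩
  have smono : ∀ x ∈ Z, ∀ y : ℝ, x < y → (Z.filter (· < x)).card < (Z.filter (· < y)).card :=
    fun x hx y h => card_lt_card ⟨fun z hz => by
      simp only [mem_filter] at hz ⊢; exact ⟨hz.1, hz.2.trans h⟩, fun hc => by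
        have := hc (mem_filter.2 ⟨hx, h⟩); simp at this⟩
  have lt1 : ∀ x ∈ Z, ∀ k ≤ Z.card, k ≤ (Z.filter (· < x)).card → p k < x := fun x hx k hk h => by
    by_contra hc
    rcases (not_lt.1 hc).eq_or_lt with e | e
    · exact (hp k hk).1 (e ▸ hx)
    · have := smono x hx _ e; rw [(hp k hk).2] at this; omega
  have lt2 : ∀ x, ∀ k ≤ Z.card, (Z.filter (· < x)).card < k → x < p k := fun x k hk h => by
    by_contra hc
    have := mono _ _ (not_lt.1 hc); rw [(hp k hk).2] at this; omega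
  refine ⟨fun k => p (min k Z.card), fun k l hkl => ?_, fun k => (hp _ (min_le_right _ _)).1,
    fun x1 h1 x2 h2 h => ?_⟩
  · rcases (min_le_min_right Z.card hkl).eq_or_lt with e | e
    · simp only [e, le_refl]
    · exact (lt2 _ _ (min_le_right _ _) (by rw [(hp _ (min_le_right _ _)).2]; exact e)).le
  · have a1 := smono x1 h1 x2 h
    have a2 : (Z.filter (· < x2)).card < Z.card :=
      card_lt_card ⟨filter_subset _ _, fun hc => by have := hc h2; simp at this⟩
    refine ⟨(Z.filter (· < x1)).card, (Z.filter (· < x1)).card + 1, (Z.filter (· < x2)).card + 1,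
      by omega, by omega, by omega, ?_, ?_, ?_, ?_⟩
    · simp only [min_eq_left (show (Z.filter (· < x1)).card ≤ Z.card by omega)]
      exact lt1 _ h1 _ (by omega) le_rfl
    · simp only [min_eq_left (show (Z.filter (· < x1)).card + 1 ≤ Z.card by omega)]
      exact lt2 _ _ (by omega) (by omega)
    · simp only [min_eq_left (show (Z.filter (· < x1)).card + 1 ≤ Z.card by omega)]
      exact lt1 _ h2 _ (by omega) (by omega)
    · simp only [min_eq_left (show (Z.filter (· < x2)).card + 1 ≤ Z.card by omega)]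
      exact lt2 _ _ (by omega) (by omega)

lemma zero_between {g : ℝ → ℝ} (hg : Continuous g) {u v : ℝ} (huv : u ≤ v) (h : g u * g v < 0) :
    ∃ x, u < x ∧ x < v ∧ g x = 0 := by
  rcases lt_or_gt_of_ne (show g u ≠ 0 by rintro e; simp [e] at h) with c | c
  · obtain ⟨x, hx, e⟩ := intermediate_value_Ioo huv hg.continuousOn
      (show (0:ℝ) ∈ Set.Ioo (g u) (g v) from ⟨c, by nlinarith⟩)
    exact ⟨x, hx.1, hx.2, e⟩
  · obtain ⟨x, hx, e⟩ := intermediate_value_Ioo' huv hg.continuousOn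
      (show (0:ℝ) ∈ Set.Ioo (g v) (g u) from ⟨by nlinarith, c⟩)
    exact ⟨x, hx.1, hx.2, e⟩

lemma sign_change {g : ℝ → ℝ} (hg : Continuous g) {x u v : ℝ} (hu : u < x) (hv : x < v)
    (hz : ∀ y, u ≤ y → y ≤ v → g y = 0 → y = x)
    (hc : ∀ ε > 0, ∃ y z, |y - x| < ε ∧ |z - x| < ε ∧ g y < 0 ∧ 0 < g z) (hx : g x = 0) :
    g u * g v < 0 := by
  obtain ⟨y, z, h1, h2, h3, h4⟩ := hc (min (x - u) (v - x)) (lt_min (by linarith) (by linarith))
  rw [abs_lt] at h1 h2
  have m1 := min_le_left (x - u) (v - x)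
  have m2 := min_le_right (x - u) (v - x)
  have u0 : g u ≠ 0 := fun e => hu.ne (hz u le_rfl (by linarith) e)
  have v0 : g v ≠ 0 := fun e => hv.ne' (hz v (by linarith) le_rfl e)
  have L : ∀ w, u < w → w < x → 0 ≤ g u * g w := fun w a b => by
    by_contra hc
    obtain ⟨q, q1, q2, q3⟩ := zero_between hg a.le (not_le.1 hc)
    linarith [hz q q1.le (by linarith) q3]
  have R : ∀ w, x < w → w < v → 0 ≤ g w * g v := fun w a b => by
    by_contra hc
    obtain ⟨q, q1, q2, q3⟩ := zero_between hg b.le (not_le.1 hc)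
    linarith [hz q (by linarith) q2.le q3]
  have yx : y ≠ x := fun e => by rw [e, hx] at h3; exact lt_irrefl _ h3
  have zx : z ≠ x := fun e => by rw [e, hx] at h4; exact lt_irrefl _ h4
  rcases lt_or_gt_of_ne yx with a | a <;> rcases lt_or_gt_of_ne zx with b | b
  · have := L y (by linarith) a; have := L z (by linarith) b
    exact absurd (by nlinarith : g u = 0) u0
  · have := L y (by linarith) a; have := R z b (by linarith)
    have a1 : g u < 0 := lt_of_le_of_ne (by nlinarith) u0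
    have a2 : 0 < g v := lt_of_le_of_ne (by nlinarith) v0.symm
    nlinarith
  · have := R y a (by linarith); have := L z (by linarith) b
    have a1 : 0 < g u := lt_of_le_of_ne (by nlinarith) u0.symm
    have a2 : g v < 0 := lt_of_le_of_ne (by nlinarith) v0
    nlinarith
  · have := R y a (by linarith); have := R z b (by linarith)
    exact absurd (by nlinarith : g v = 0) v0

lemma three_le {S : Set ℝ} (hS : S.encard ≤ 2) {a b c : ℝ} (ha : a ∈ S) (hb : b ∈ S) (hc : c ∈ S)
    (ab : a ≠ b) (ac : a ≠ c) (bc : b ≠ c) : False := by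
  have h1 : ({a, b, c} : Set ℝ).encard = 3 := Set.encard_eq_three.2 ⟨a, b, c, ab, ac, bc, rfl⟩
  have h2 : ({a, b, c} : Set ℝ) ⊆ S := by
    intro x hx; rcases hx with rfl | rfl | rfl <;> assumption
  have := (h1 ▸ Set.encard_le_encard h2).trans hS
  norm_num at this

theorem cut_graphs : ∃ C : ℝ, ∀ n : ℕ, 1 ≤ n → ∀ f : Fin n → ℝ → ℝ, (∀ i, Continuous (f i)) →
    (∀ i j, i ≠ j → {x | f i x = f j x}.encard ≤ 2) →
    (∀ i j, i ≠ j → ∀ x, f i x = f j x → ∀ ε > 0, ∃ y z, |y - x| < ε ∧ |z - x| < ε ∧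
      f i y < f j y ∧ f j z < f i z) →
    ∃ X : Finset (ℝ × ℝ), (X.card : ℝ) ≤ C * (n:ℝ) ^ ((3:ℝ) / 2 - 1 / 10 ^ 7) ∧
      (∀ p ∈ X, ∃ i, p.2 = f i p.1) ∧
      ∀ i j, i ≠ j → ∀ x1 x2, x1 < x2 → f i x1 = f j x1 → f i x2 = f j x2 →
        ∃ x, x1 < x ∧ x < x2 ∧ ((x, f i x) ∈ X ∨ (x, f j x) ∈ X) := by
  obtain ⟨C, C0, hC⟩ := cut_discrete
  refine ⟨C * 2 ^ ((3:ℝ) / 2 - 1 / 10 ^ 7), fun n n1 f hf h2 hc => ?_⟩
  have fin : ∀ z : Fin n × Fin n, ∃ Z : Finset ℝ, Z.card ≤ 2 ∧
      ∀ x, z.1 ≠ z.2 → f z.1 x = f z.2 x → x ∈ Z := fun z => by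
    by_cases c : z.1 = z.2
    · exact ⟨∅, by simp, fun x h => absurd c h⟩
    · have h3 := Set.finite_of_encard_le_coe (h2 _ _ c)
      refine ⟨h3.toFinset, ?_, fun x _ e => by simpa using e⟩
      have := h2 _ _ c
      rw [h3.encard_eq_coe_toFinset_card] at this
      exact_mod_cast this
  choose Z0 hZ0 hZ0' using fin
  set Z := univ.biUnion Z0
  have hZ : ∀ i j x, i ≠ j → f i x = f j x → x ∈ Z := fun i j x h e =>
    mem_biUnion.2 ⟨(i, j), mem_univ _, hZ0' (i, j) x h e⟩
  have cZ : Z.card ≤ (2 * n) ^ 2 := by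
    refine card_biUnion_le.trans ((Finset.sum_le_sum fun z _ => hZ0 z).trans ?_)
    simp; nlinarith
  obtain ⟨s, sm, sZ, hs⟩ := exists_samples Z
  have hi : Inj (fun i k => f i (s k)) := fun k i j e => by
    by_contra hc; exact sZ k (hZ i j _ hc e)
  have hn : NoAlt (fun i k => f i (s k)) := by
    intro u v t1 t2 t3 t4 a b c h1 h2' h3 h4
    have uv : u ≠ v := fun e => by subst e; exact lt_irrefl _ h1
    have g : Continuous fun x => f u x - f v x := (hf u).sub (hf v)
    dsimp only at h1 h2' h3 h4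
    obtain ⟨p, p1, p2, p3⟩ := zero_between g (sm a.le) (by nlinarith)
    obtain ⟨q, q1, q2, q3⟩ := zero_between g (sm b.le) (by nlinarith)
    obtain ⟨r, r1, r2, r3⟩ := zero_between g (sm c.le) (by nlinarith)
    exact three_le (h2 u v uv) (sub_eq_zero.1 p3) (sub_eq_zero.1 q3) (sub_eq_zero.1 r3)
      (by linarith) (by linarith) (by linarith)
  obtain ⟨X, hX, hX'⟩ := hC (Fin n) ℝ _ hn hi (2 * n) Z.card (by omega) (by simp; omega) cZ
  refine ⟨X.image fun z => (s z.2, f z.1 (s z.2)), ?_, ?_, ?_⟩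
  · refine le_trans (by exact_mod_cast card_image_le) (hX.trans (le_of_eq ?_))
    push_cast
    rw [Real.mul_rpow (by norm_num) (by positivity)]; ring
  · intro p hp
    obtain ⟨z, -, rfl⟩ := mem_image.1 hp
    exact ⟨z.1, rfl⟩
  · have key : ∀ i j, i ≠ j → ∀ x1 x2, x1 < x2 → f i x1 = f j x1 → f i x2 = f j x2 →
        ∀ t1 t2 t3, t1 < t2 → t2 < t3 → t3 ≤ Z.card → s t1 < x1 → x2 < s t3 →
        f i (s t1) < f j (s t1) → f j (s t2) < f i (s t2) → f i (s t3) < f j (s t3) →
        ∃ τ, x1 < s τ ∧ s τ < x2 ∧ ((i, τ) ∈ X ∨ (j, τ) ∈ X) := by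
      intro i j ij x1 x2 h12 e1 e2 t1 t2 t3 a b c d1 d3 s1 s2 s3
      obtain ⟨τ, -, k1, k2⟩ := hX' i j ⟨t1, t2, t3, a, b, c, s1, s2, s3⟩
      have g : Continuous fun x => f i x - f j x := (hf i).sub (hf j)
      refine ⟨τ, ?_, ?_, k2⟩
      · by_contra hc
        have l : s τ < x1 := lt_of_le_of_ne (not_lt.1 hc) fun e => sZ τ (e ▸ hZ i j _ ij e1)
        rcases le_total (s τ) (s t1) with o | o
        · obtain ⟨p, p1, p2, p3⟩ := zero_between g o (by nlinarith)
          exact three_le (h2 i j ij) (sub_eq_zero.1 p3) e1 e2 (by linarith) (by linarith) h12.ne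
        · obtain ⟨p, p1, p2, p3⟩ := zero_between g o (by nlinarith)
          exact three_le (h2 i j ij) (sub_eq_zero.1 p3) e1 e2 (by linarith) (by linarith) h12.ne
      · by_contra hc
        have l : x2 < s τ := lt_of_le_of_ne (not_lt.1 hc) fun e => sZ τ (e ▸ hZ i j _ ij e2)
        rcases le_total (s τ) (s t3) with o | o
        · obtain ⟨p, p1, p2, p3⟩ := zero_between g o (by nlinarith)
          exact three_le (h2 i j ij) (sub_eq_zero.1 p3) e1 e2 (by linarith) (by linarith) h12.ne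
        · obtain ⟨p, p1, p2, p3⟩ := zero_between g o (by nlinarith)
          exact three_le (h2 i j ij) (sub_eq_zero.1 p3) e1 e2 (by linarith) (by linarith) h12.ne
    intro i j ij x1 x2 h12 e1 e2
    obtain ⟨t1, t2, t3, a, b, c, d1, d2, d3, d4⟩ := hs x1 (hZ i j _ ij e1) x2 (hZ i j _ ij e2) h12
    have g : Continuous fun x => f i x - f j x := (hf i).sub (hf j)
    have only : ∀ y, f i y - f j y = 0 → y = x1 ∨ y = x2 := fun y e => by
      by_contra hc; push Not at hc
      exact three_le (h2 i j ij) (sub_eq_zero.1 e) e1 e2 hc.1 hc.2 h12.ne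
    have cr : ∀ x, f i x = f j x → ∀ ε > 0, ∃ y z, |y - x| < ε ∧ |z - x| < ε ∧
        f i y - f j y < 0 ∧ 0 < f i z - f j z := fun x e ε h => by
      obtain ⟨y, z, k1, k2, k3, k4⟩ := hc i j ij x e ε h
      exact ⟨y, z, k1, k2, by linarith, by linarith⟩
    have c1 := sign_change g d1 d2 (fun y _ k e => (only y e).resolve_right (by linarith))
      (cr x1 e1) (sub_eq_zero.2 e1)
    have c2 := sign_change g d3 d4 (fun y k _ e => (only y e).resolve_left (by linarith))
      (cr x2 e2) (sub_eq_zero.2 e2)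
    have fin : ∀ τ, ((i, τ) ∈ X ∨ (j, τ) ∈ X) →
        ((s τ, f i (s τ)) ∈ X.image (fun z => (s z.2, f z.1 (s z.2))) ∨
          (s τ, f j (s τ)) ∈ X.image (fun z => (s z.2, f z.1 (s z.2)))) := fun τ k =>
      k.imp (fun k => mem_image_of_mem _ k) (fun k => mem_image_of_mem _ k)
    rcases lt_or_gt_of_ne (show f i (s t2) - f j (s t2) ≠ 0 by
      intro e; simp [e] at c1) with o | o
    · obtain ⟨τ, k1, k2, k3⟩ := key j i ij.symm x1 x2 h12 e1.symm e2.symm t1 t2 t3 a b c d1 d4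
        (by nlinarith) (by linarith) (by nlinarith)
      exact ⟨s τ, k1, k2, fin τ k3.symm⟩
    · obtain ⟨τ, k1, k2, k3⟩ := key i j ij x1 x2 h12 e1 e2 t1 t2 t3 a b c d1 d4
        (by nlinarith) (by linarith) (by nlinarith)
      exact ⟨s τ, k1, k2, fin τ k3⟩

end Pool.Agent.Lib.MP_65c801_co
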