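import Pool.Agent.Lib.MP_65c801_co.Paths

/-! Pairs of lower curves with many common neighbours in a window create many lenses among the
upper curves. -/

namespace Pool.Agent.Lib.MP_65c801_co

open Finset Classical

variable {V α : Type*} [LinearOrder α] [Fintype V]
variable {h : V → ℕ → α} {H : V → V → Prop} {t : V → V → ℕ} {S' R L : ℕ} {n P Q d σ : ℝ}

lemma same_sign (p s : V → Prop) {c : ℝ} (c4 : 4 ≤ c) (hc : c ≤ cnt p) :
    cnt p * (c / 4) ≤ cnt (fun z : V × V => p z.1 ∧ p z.2 ∧ z.1 ≠ z.2 ∧ (s z.1 ↔ s z.2)) := by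
  have h1 := cnt_split p s
  have h2 := cnt_sq (fun x => p x ∧ s x)
  have h3 := cnt_sq (fun x => p x ∧ ¬ s x)
  have h4 := cnt_split (fun z : V × V => p z.1 ∧ p z.2 ∧ (s z.1 ↔ s z.2)) (fun z => s z.1)
  have h5 : cnt (fun z : V × V => (p z.1 ∧ s z.1) ∧ p z.2 ∧ s z.2) ≤
      cnt (fun z : V × V => (p z.1 ∧ p z.2 ∧ (s z.1 ↔ s z.2)) ∧ s z.1) :=
    cnt_mono fun z hz => by tauto
  have h6 : cnt (fun z : V × V => (p z.1 ∧ ¬ s z.1) ∧ p z.2 ∧ ¬ s z.2) ≤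
      cnt (fun z : V × V => (p z.1 ∧ p z.2 ∧ (s z.1 ↔ s z.2)) ∧ ¬ s z.1) :=
    cnt_mono fun z hz => by tauto
  have h7 := cnt_le_add (p := fun z : V × V => p z.1 ∧ p z.2 ∧ (s z.1 ↔ s z.2))
    (q := fun z => p z.1 ∧ z.1 = z.2)
    (r := fun z => p z.1 ∧ p z.2 ∧ z.1 ≠ z.2 ∧ (s z.1 ↔ s z.2)) (fun z hz => by tauto)
  have h8 : cnt (fun z : V × V => p z.1 ∧ z.1 = z.2) ≤ cnt p :=
    cnt_inj (fun z => z.1) (fun z hz => hz.1) (fun z w hz hw e =>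
      Prod.ext e (by rw [← hz.2, ← hw.2, e]))
  nlinarith [sq_nonneg (cnt (fun x => p x ∧ s x) - cnt (fun x => p x ∧ ¬ s x))]

omit [Fintype V] in
lemma c4_lens (hn : NoAlt h) (hi : Inj h) (f : Fam h H t) {S u : ℕ} (hS : 0 < S) {a b x y : V}
    (g1 : H a x) (g2 : H a y) (g3 : H b x) (g4 : H b y) (w1 : t a x / S = u) (w2 : t a y / S = u)
    (w3 : t b x / S = u) (w4 : t b y / S = u) (ab : a ≠ b) (xy : x ≠ y)
    (s : t a x < t b x ↔ t a y < t b y) : Lens h S u x y ∨ Lens h S u y x := by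
  have n1 : t a x ≠ t a y := fun e => xy (f.injU g1 g2 e)
  have n2 : t b x ≠ t b y := fun e => xy (f.injU g3 g4 e)
  have n3 : t a x ≠ t b x := fun e => ab (f.injL g1 g3 e)
  have n4 : t a y ≠ t b y := fun e => ab (f.injL g2 g4 e)
  have sg := f.sign hn a b x y g1 g2 g3 g4 n1 n2 n3 n4
  have B1 : h x (t a x) < h y (t a x) := (f.p1 a x g1).trans (f.p2 a x y g1 g2 xy)
  have B2 : h y (t a y) < h x (t a y) := (f.p1 a y g2).trans (f.p2 a y x g2 g1 xy.symm)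
  have B3 : h x (t b x) < h y (t b x) := (f.p1 b x g3).trans (f.p2 b x y g3 g4 xy)
  have B4 : h y (t b y) < h x (t b y) := (f.p1 b y g4).trans (f.p2 b y x g4 g3 xy.symm)
  by_cases c1 : t a x < t b x <;> by_cases c2 : t a x < t a y
  · exact Or.inl (lens_of_three hn hi hS c2 (by omega) w1 w2 w3 B1 B2 B3)
  · exact Or.inr (lens_of_three hn hi hS (by omega) (by omega) w2 w1 w4 B2 B1 B4)
  · exact Or.inr (lens_of_three hn hi hS (by omega) (by omega) w4 w3 w2 B4 B3 B2)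
  · exact Or.inl (lens_of_three hn hi hS (by omega) (by omega) w3 w4 w1 B3 B4 B1)

lemma Reg.ball (r : Reg h H t S' R L n P Q d σ) (u : ℕ) (x : V) :
    cnt (fun y => ∃ a, H a x ∧ H a y ∧ t a x / (S' * R) = u ∧ t a y / (S' * R) = u) ≤ Q * P := by
  have h1 := cnt_fib_ge (p := fun z : V × V => H z.1 x ∧ H z.1 z.2 ∧ t z.1 x / (S' * R) = u ∧
    t z.1 z.2 / (S' * R) = u) (q := fun y => ∃ a, H a x ∧ H a y ∧ t a x / (S' * R) = u ∧
    t a y / (S' * R) = u) (fun z => z.2) (K := 1)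
    (fun y ⟨a, ha⟩ => one_le_cnt (x := (a, y)) ⟨ha, rfl⟩)
  have h2 := cnt_pair_le (p := fun z : V × V => H z.1 x ∧ H z.1 z.2 ∧ t z.1 x / (S' * R) = u ∧
    t z.1 z.2 / (S' * R) = u) (q := fun a => H a x ∧ t a x / (S' * R) = u) (K := P)
    (fun a y hz => ⟨hz.1, hz.2.2.1⟩)
    (fun a _ => (cnt_mono fun y hy => ⟨hy.2.1, hy.2.2.2⟩).trans (r.dP a u))
  have h3 := mul_le_mul_of_nonneg_right (r.dQ x u) r.Pp.le
  linarith

theorem Reg.heavy (r : Reg h H t S' R L n P Q d σ) {c : ℝ} (c4 : 4 ≤ c) :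
    (c * cnt (fun z : (V × V) × V => H z.1.1 z.2 ∧ H z.1.2 z.2 ∧
      t z.1.2 z.2 / (S' * R) = t z.1.1 z.2 / (S' * R) ∧ z.1.1 ≠ z.1.2 ∧
      c ≤ cod (fun y a => H a y) (fun y a => t a y / (S' * R)) (t z.1.1 z.2 / (S' * R))
        z.1.1 z.1.2)) ^ 3 ≤ 18432 * (L:ℝ) ^ 2 * n ^ 4 * d * P ^ 2 * Q ^ 7 := by
  have S0 : 0 < S' * R := Nat.mul_pos r.Sp r.Rp
  have np := r.np
  have dp := r.dp
  have Pp := r.Pp
  have Qp := r.Qp
  have hball := r.ball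
  set S := S' * R with hS
  set J : V → V → Prop := fun x y => ∃ u, Lens h S u x y ∧
    ∃ a, H a x ∧ H a y ∧ t a x / S = u ∧ t a y / S = u with hJ
  have : ∀ x y, ∃ u, J x y → Lens h S u x y ∧
      ∃ a, H a x ∧ H a y ∧ t a x / S = u ∧ t a y / S = u := fun x y => by
    by_cases g : J x y
    · obtain ⟨u, hu⟩ := g; exact ⟨u, fun _ => hu⟩
    · exact ⟨0, fun g' => absurd g' g⟩
  choose lab hlab using this
  have sg : SignOK J lab := lens_sign r.noalt r.inj S0 fun a b g => (hlab a b g).1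
  have k1 : ∀ x u, cnt (fun y => J x y ∧ lab x y = u) ≤ Q * P := fun x u =>
    (cnt_mono fun y hy => hy.2 ▸ (hlab x y hy.1).2).trans (hball u x)
  have k2 : ∀ y u, cnt (fun x => J x y ∧ lab x y = u) ≤ Q * P := fun y u =>
    (cnt_mono fun x hx => by
      obtain ⟨a, h1, h2, h3, h4⟩ := (hlab x y hx.1).2
      exact ⟨a, h2, h1, h4.trans hx.2, h3.trans hx.2⟩).trans (hball u y)
  have D1 : ∀ x, cnt (fun y => J x y) ≤ d * P := fun x => by
    obtain ⟨T, hT, hT'⟩ := r.act2 x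
    have := cnt_fib_le (p := fun y => J x y) (fun y => lab x y) T (fun y g => by
      obtain ⟨a, h1, -, h3, -⟩ := (hlab x y g).2
      exact h3 ▸ hT' a h1) (fun u _ => k1 x u)
    nlinarith
  have D2 : ∀ y, cnt (fun x => J x y) ≤ d * P := fun y => by
    obtain ⟨T, hT, hT'⟩ := r.act2 y
    have := cnt_fib_le (p := fun x => J x y) (fun x => lab x y) T (fun x g => by
      obtain ⟨a, -, h2, -, h4⟩ := (hlab x y g).2
      exact h4 ▸ hT' a h2) (fun u _ => k2 y u)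
    nlinarith
  have i1 := ident sg r.L1 (fun x y g => by
    obtain ⟨a, h1, -, h3, -⟩ := (hlab x y g).2
    exact h3 ▸ lt_of_le_of_lt (Nat.div_le_self _ _) (r.tb a x h1))
  have i2 := c4_lower J r.card r.card
  have z1 := ZL_triv J lab k1 D2
  have z2 := ZL_triv (fun y x => J x y) (fun y x => lab x y) k2 D1
  rw [cnt_swap (fun e : V × V => J e.1 e.2)] at z2
  set g := cnt (fun e : V × V => J e.1 e.2)
  have g0 : 0 ≤ g := cnt_nonneg _
  have i3 : g ^ 3 ≤ 36 * (L:ℝ) ^ 2 * n ^ 4 * d * P ^ 2 * Q := by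
    rcases g0.eq_or_lt with e | e
    · rw [← e, zero_pow (by norm_num)]; positivity
    · have : ZL J lab + ZU J lab ≤ 2 * (g * (Q * P * (d * P))) := by unfold ZU; linarith
      have h2 : g ^ 4 ≤ n ^ 4 * (18 * (L:ℝ) ^ 2 * (2 * (g * (Q * P * (d * P))))) :=
        i2.trans (mul_le_mul_of_nonneg_left (i1.trans
          (mul_le_mul_of_nonneg_left this (by positivity))) (by positivity))
      have : g * g ^ 3 ≤ g * (36 * (L:ℝ) ^ 2 * n ^ 4 * d * P ^ 2 * Q) := by nlinarith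
      exact le_of_mul_le_mul_left this e
  set T1 : (V × V) × (V × V) → Prop := fun z => C4 H z ∧ t z.1.1 z.2.2 / S = t z.1.1 z.2.1 / S ∧
    t z.1.2 z.2.1 / S = t z.1.1 z.2.1 / S ∧ t z.1.2 z.2.2 / S = t z.1.1 z.2.1 / S ∧
    z.1.1 ≠ z.1.2 ∧ z.2.1 ≠ z.2.2 ∧ (t z.1.1 z.2.1 < t z.1.2 z.2.1 ↔ t z.1.1 z.2.2 < t z.1.2 z.2.2)
    with hT1
  have up1 : cnt (fun z => T1 z ∧ Lens h S (t z.1.1 z.2.1 / S) z.2.1 z.2.2) ≤ g * (Q * Q) := by
    refine cnt_fib_le' (fun z => z.2) (fun z hz => ⟨_, hz.2, z.1.1, hz.1.1.1, hz.1.1.2.1, rfl,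
      hz.1.2.1⟩) fun e he => ?_
    refine le_trans (cnt_inj (q := fun v : V × V => (H v.1 e.1 ∧ t v.1 e.1 / S = lab e.1 e.2) ∧
      (H v.2 e.1 ∧ t v.2 e.1 / S = lab e.1 e.2)) (fun z => z.1) ?_ ?_) ?_
    · rintro z ⟨⟨h1, h2⟩, rfl⟩
      have := h2.uniq r.noalt r.inj S0 (hlab _ _ he).1
      exact ⟨⟨h1.1.1, this⟩, h1.1.2.2.1, h1.2.2.1.trans this⟩
    · rintro z w ⟨-, rfl⟩ ⟨-, h2⟩ e
      exact Prod.ext e h2.symm
    · rw [cnt_mul (fun a => H a e.1 ∧ t a e.1 / S = lab e.1 e.2)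
        (fun a => H a e.1 ∧ t a e.1 / S = lab e.1 e.2)]
      exact mul_le_mul (r.dQ _ _) (r.dQ _ _) (cnt_nonneg _) Qp.le
  have up2 : cnt (fun z => T1 z ∧ Lens h S (t z.1.1 z.2.1 / S) z.2.2 z.2.1) ≤ g * (Q * Q) := by
    refine cnt_fib_le' (fun z => (z.2.2, z.2.1)) (fun z hz => ⟨_, hz.2, z.1.1, hz.1.1.2.1,
      hz.1.1.1, hz.1.2.1, rfl⟩) fun e he => ?_
    refine le_trans (cnt_inj (q := fun v : V × V => (H v.1 e.2 ∧ t v.1 e.2 / S = lab e.1 e.2) ∧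
      (H v.2 e.2 ∧ t v.2 e.2 / S = lab e.1 e.2)) (fun z => z.1) ?_ ?_) ?_
    · rintro z ⟨⟨h1, h2⟩, rfl⟩
      have := h2.uniq r.noalt r.inj S0 (hlab _ _ he).1
      exact ⟨⟨h1.1.1, this⟩, h1.1.2.2.1, h1.2.2.1.trans this⟩
    · rintro z w ⟨-, rfl⟩ ⟨-, h2⟩ e
      simp only [Prod.mk.injEq] at h2
      exact Prod.ext e (Prod.ext h2.2.symm h2.1.symm)
    · rw [cnt_mul (fun a => H a e.2 ∧ t a e.2 / S = lab e.1 e.2)
        (fun a => H a e.2 ∧ t a e.2 / S = lab e.1 e.2)]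
      exact mul_le_mul (r.dQ _ _) (r.dQ _ _) (cnt_nonneg _) Qp.le
  have up : cnt T1 ≤ 2 * (g * (Q * Q)) := by
    have := cnt_le_add (p := T1)
      (q := fun z => T1 z ∧ Lens h S (t z.1.1 z.2.1 / S) z.2.1 z.2.2)
      (r := fun z => T1 z ∧ Lens h S (t z.1.1 z.2.1 / S) z.2.2 z.2.1) (fun z hz => by
        obtain ⟨⟨g1, g2, g3, g4⟩, w2, w3, w4, ab, xy, s⟩ := id hz
        rcases c4_lens r.noalt r.inj r.fam S0 g1 g2 g3 g4 rfl w2 w3 w4 ab xy s with l | l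
        · exact Or.inl ⟨hz, l⟩
        · exact Or.inr ⟨hz, l⟩)
    linarith
  set Hc : (V × V) × V → Prop := fun z => H z.1.1 z.2 ∧ H z.1.2 z.2 ∧
      t z.1.2 z.2 / S = t z.1.1 z.2 / S ∧ z.1.1 ≠ z.1.2 ∧
      c ≤ cod (fun y a => H a y) (fun y a => t a y / S) (t z.1.1 z.2 / S) z.1.1 z.1.2 with hHc
  have lo : cnt Hc * (c / 4) ≤ cnt T1 := by
    rw [cnt_prod Hc, cnt_prod T1, Finset.sum_mul]
    refine Finset.sum_le_sum fun ab _ => ?_
    obtain ⟨a, b⟩ := ab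
    rw [cnt_fib _ (fun y => t a y / S) (univ.image fun y => t a y / S)
        (fun z _ => mem_image_of_mem _ (mem_univ _)),
      cnt_fib (fun v => T1 ((a, b), v)) (fun v => t a v.1 / S) (univ.image fun y => t a y / S)
        (fun z _ => mem_image_of_mem (fun y => t a y / S) (mem_univ _)), Finset.sum_mul]
    refine Finset.sum_le_sum fun u _ => ?_
    by_cases hc : a ≠ b ∧ c ≤ cod (fun y a => H a y) (fun y a => t a y / S) u a b
    · have h1 := same_sign (fun y => H a y ∧ H b y ∧ t a y / S = u ∧ t b y / S = u)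
        (fun y => t a y < t b y) c4 hc.2
      refine le_trans (mul_le_mul_of_nonneg_right (cnt_mono ?_) (by linarith))
        (h1.trans (cnt_mono ?_))
      · rintro y ⟨⟨g1, g2, w, -⟩, e⟩
        exact ⟨g1, g2, e, w.trans e⟩
      · rintro ⟨x, y⟩ ⟨⟨g1, g3, w1, w3⟩, ⟨g2, g4, w2, w4⟩, xy, s⟩
        exact ⟨⟨⟨g1, g2, g3, g4⟩, w2.trans w1.symm, w3.trans w1.symm, w4.trans w1.symm, hc.1, xy, s⟩,
          w1⟩
    · rw [cnt_zero, zero_mul]
      · exact cnt_nonneg _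
      · rintro y ⟨⟨-, -, -, h1, h2⟩, rfl⟩
        exact hc ⟨h1, h2⟩
  have f1 : c * cnt Hc ≤ 8 * Q ^ 2 * g := by nlinarith
  calc (c * cnt Hc) ^ 3 ≤ (8 * Q ^ 2 * g) ^ 3 :=
        pow_le_pow_left₀ (mul_nonneg (by linarith) (cnt_nonneg _)) f1 3
    _ = 512 * Q ^ 6 * g ^ 3 := by ring
    _ ≤ 512 * Q ^ 6 * (36 * (L:ℝ) ^ 2 * n ^ 4 * d * P ^ 2 * Q) :=
        mul_le_mul_of_nonneg_left i3 (by positivity)
    _ = _ := by ring

end Pool.Agent.Lib.MP_65c801_co
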