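import Pool.Agent.Lib.MP_65c801_co.Cnt

/-! The sign identity: labelled bipartite graphs in which every rainbow four-cycle has sign `-1`. -/

namespace Pool.Agent.Lib.MP_65c801_co

open Finset Classical

variable {A X : Type*}

/-- the sign rule for four-cycles whose adjacent edges carry distinct labels -/
def SignOK (G : A → X → Prop) (lab : A → X → ℕ) : Prop :=
  ∀ a b x y, G a x → G a y → G b x → G b y → lab a x ≠ lab a y → lab b x ≠ lab b y →
    lab a x ≠ lab b x → lab a y ≠ lab b y →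
    ((lab a x < lab a y ↔ lab b x < lab b y) ↔ ¬ (lab a x < lab b x ↔ lab a y < lab b y))

lemma SignOK.flip {G : A → X → Prop} {lab : A → X → ℕ} (h : SignOK G lab) :
    SignOK (fun x a => G a x) (fun x a => lab a x) := by
  intro x y a b h1 h2 h3 h4 n1 n2 n3 n4
  have := h a b x y h1 h3 h2 h4 n3 n4 n1 n2
  tauto

lemma SignOK.mono {G G' : A → X → Prop} {lab : A → X → ℕ} (h : SignOK G lab)
    (hG : ∀ a x, G' a x → G a x) : SignOK G' lab :=
  fun a b x y h1 h2 h3 h4 => h a b x y (hG _ _ h1) (hG _ _ h2) (hG _ _ h3) (hG _ _ h4)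

/-- no rainbow `K_{3,3}` -/
lemma SignOK.k33 {G : A → X → Prop} {lab : A → X → ℕ} (h : SignOK G lab)
    {a b c : A} {x y z : X} (ax : G a x) (ay : G a y) (az : G a z) (bx : G b x) (b_y : G b y)
    (bz : G b z) (cx : G c x) (cy : G c y) (cz : G c z)
    (a1 : lab a x ≠ lab a y) (a2 : lab a y ≠ lab a z) (a3 : lab a x ≠ lab a z)
    (b1 : lab b x ≠ lab b y) (b2 : lab b y ≠ lab b z) (b3 : lab b x ≠ lab b z)
    (c1 : lab c x ≠ lab c y) (c2 : lab c y ≠ lab c z) (c3 : lab c x ≠ lab c z)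
    (x1 : lab a x ≠ lab b x) (x2 : lab b x ≠ lab c x) (x3 : lab a x ≠ lab c x)
    (y1 : lab a y ≠ lab b y) (y2 : lab b y ≠ lab c y) (y3 : lab a y ≠ lab c y)
    (z1 : lab a z ≠ lab b z) (z2 : lab b z ≠ lab c z) (z3 : lab a z ≠ lab c z) : False := by
  have e1 := h a b x y ax ay bx b_y a1 b1 x1 y1
  have e2 := h a b y z ay az b_y bz a2 b2 y1 z1
  have e3 := h a b x z ax az bx bz a3 b3 x1 z1
  have e4 := h b c x y bx b_y cx cy b1 c1 x2 y2
  have e5 := h b c y z b_y bz cy cz b2 c2 y2 z2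
  have e6 := h b c x z bx bz cx cz b3 c3 x2 z2
  have e7 := h a c x y ax ay cx cy a1 c1 x3 y3
  have e8 := h a c y z ay az cy cz a2 c2 y3 z3
  have e9 := h a c x z ax az cx cz a3 c3 x3 z3
  have three : ∀ p q r : Prop, ∀ F1 F2 F3 : Prop, (F1 ↔ ¬ (p ↔ q)) → (F2 ↔ ¬ (q ↔ r)) →
      (F3 ↔ ¬ (p ↔ r)) → ¬ ((F1 ↔ F2) ↔ F3) := by
    intro p q r F1 F2 F3
    by_cases p <;> by_cases q <;> by_cases r <;> by_cases F1 <;> by_cases F2 <;> by_cases F3 <;>
      simp [*]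
  have t1 := three _ _ _ _ _ _ e1 e2 e3
  have t2 := three _ _ _ _ _ _ e4 e5 e6
  have t3 := three _ _ _ _ _ _ e7 e8 e9
  have fin : ∀ a1 a2 a3 b1 b2 b3 c1 c2 c3 : Prop,
      ¬ (((a1 ↔ b1) ↔ (a2 ↔ b2)) ↔ (a3 ↔ b3)) → ¬ (((b1 ↔ c1) ↔ (b2 ↔ c2)) ↔ (b3 ↔ c3)) →
      ¬ (((a1 ↔ c1) ↔ (a2 ↔ c2)) ↔ (a3 ↔ c3)) → False := by
    intro a1 a2 a3 b1 b2 b3 c1 c2 c3
    by_cases a1 <;> by_cases a2 <;> by_cases a3 <;> by_cases b1 <;> by_cases b2 <;>
      by_cases b3 <;> by_cases c1 <;> by_cases c2 <;> by_cases c3 <;> simp [*]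
  exact fin _ _ _ _ _ _ _ _ _ t1 t2 t3

/-- homomorphic four-cycles -/
def C4 (G : A → X → Prop) (z : (A × A) × (X × X)) : Prop :=
  G z.1.1 z.2.1 ∧ G z.1.1 z.2.2 ∧ G z.1.2 z.2.1 ∧ G z.1.2 z.2.2

/-- sign of `q - p` -/
noncomputable def sg (p q : ℕ) : ℝ := if p < q then 1 else if q < p then -1 else 0

lemma bits_cover {L p q : ℕ} (h : p < q) (hq : q < 2 ^ L) :
    ∃ l < L, p / 2 ^ l / 2 = q / 2 ^ l / 2 ∧ p / 2 ^ l % 2 = 0 ∧ q / 2 ^ l % 2 = 1 := by
  induction L generalizing p q with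
  | zero => omega
  | succ L ih =>
    by_cases h2 : p / 2 = q / 2
    · exact ⟨0, by omega, by simp; omega⟩
    · obtain ⟨l, hl, h3⟩ := ih (p := p / 2) (q := q / 2) (by omega) (by rw [pow_succ] at hq; omega)
      refine ⟨l + 1, by omega, ?_⟩
      have e : ∀ r : ℕ, r / 2 ^ (l + 1) = r / 2 / 2 ^ l := fun r => by
        rw [Nat.div_div_eq_div_mul, pow_succ']
      rw [e, e]; exact h3

variable [Fintype A] [Fintype X]

lemma sum4_comm (F : A → A → X → X → ℝ) :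
    ∑ a, ∑ b, ∑ x, ∑ y, F a b x y = ∑ x, ∑ y, ∑ a, ∑ b, F a b x y := by
  calc ∑ a, ∑ b, ∑ x, ∑ y, F a b x y = ∑ z : A × A, ∑ w : X × X, F z.1 z.2 w.1 w.2 := by
        simp only [Fintype.sum_prod_type]
    _ = ∑ w : X × X, ∑ z : A × A, F z.1 z.2 w.1 w.2 := Finset.sum_comm
    _ = _ := by simp only [Fintype.sum_prod_type]

lemma sumkey {K : Type*} (g : X → ℝ) (key : X → K) (k0 : K) :
    (∑ x, if key x = k0 then g x else 0) ^ 2 ≤
      ∑ x, ∑ y, if key x = key y then g x * g y else 0 := by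
  have e : ∑ x, ∑ y, (if key x = key y then g x * g y else 0) =
      ∑ k ∈ insert k0 (univ.image key), (∑ x, if key x = k then g x else 0) ^ 2 := by
    simp only [sq, Finset.sum_mul_sum]
    rw [Finset.sum_comm (s := insert k0 _)]
    refine Finset.sum_congr rfl fun x _ => ?_
    rw [Finset.sum_comm (s := insert k0 _)]
    refine Finset.sum_congr rfl fun y _ => ?_
    rw [Finset.sum_eq_single (key x)]
    · by_cases h : key x = key y
      · simp [h]
      · simp [h, Ne.symm h]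
    · intro k _ hk; simp [Ne.symm hk]
    · intro hk; exact absurd (mem_insert_of_mem (mem_image_of_mem key (mem_univ x))) hk
  rw [e]
  exact Finset.single_le_sum (f := fun k => (∑ x, if key x = k then g x else 0) ^ 2)
    (fun k _ => sq_nonneg _) (mem_insert_self _ _)

/-- four-cycles with equal labels at the first lower vertex -/
noncomputable def ZL (G : A → X → Prop) (lab : A → X → ℕ) : ℝ :=
  cnt (fun z : (A × A) × (X × X) => C4 G z ∧ lab z.1.1 z.2.1 = lab z.1.1 z.2.2)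

/-- four-cycles with equal labels at the first upper vertex -/
noncomputable def ZU (G : A → X → Prop) (lab : A → X → ℕ) : ℝ :=
  ZL (fun x a => G a x) (fun x a => lab a x)

/-- four-cycles that are not rainbow -/
noncomputable def Zall (G : A → X → Prop) (lab : A → X → ℕ) : ℝ :=
  cnt (fun z : (A × A) × (X × X) => C4 G z ∧ (lab z.1.1 z.2.1 = lab z.1.1 z.2.2 ∨
    lab z.1.2 z.2.1 = lab z.1.2 z.2.2 ∨ lab z.1.1 z.2.1 = lab z.1.2 z.2.1 ∨
    lab z.1.1 z.2.2 = lab z.1.2 z.2.2))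

lemma Zall_le (G : A → X → Prop) (lab : A → X → ℕ) :
    Zall G lab ≤ 2 * (ZL G lab + ZU G lab) := by
  have h1 : cnt (fun z : (A × A) × (X × X) => C4 G z ∧ lab z.1.2 z.2.1 = lab z.1.2 z.2.2) ≤
      ZL G lab :=
    cnt_inj (fun z => ((z.1.2, z.1.1), z.2))
      (fun z hz => ⟨⟨hz.1.2.2.1, hz.1.2.2.2, hz.1.1, hz.1.2.1⟩, hz.2⟩)
      (fun z w _ _ h => by
        simp only [Prod.mk.injEq] at h; exact Prod.ext (Prod.ext h.1.2 h.1.1) h.2)
  have h2 : cnt (fun z : (A × A) × (X × X) => C4 G z ∧ lab z.1.1 z.2.1 = lab z.1.2 z.2.1) ≤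
      ZU G lab :=
    cnt_inj (fun z => (z.2, z.1))
      (fun z hz => ⟨⟨hz.1.1, hz.1.2.2.1, hz.1.2.1, hz.1.2.2.2⟩, hz.2⟩)
      (fun z w _ _ h => by simp only [Prod.mk.injEq] at h; exact Prod.ext h.2 h.1)
  have h3 : cnt (fun z : (A × A) × (X × X) => C4 G z ∧ lab z.1.1 z.2.2 = lab z.1.2 z.2.2) ≤
      ZU G lab :=
    cnt_inj (fun z => ((z.2.2, z.2.1), z.1))
      (fun z hz => ⟨⟨hz.1.2.1, hz.1.2.2.2, hz.1.1, hz.1.2.2.1⟩, hz.2⟩)
      (fun z w _ _ h => by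
        simp only [Prod.mk.injEq] at h; exact Prod.ext h.2 (Prod.ext h.1.2 h.1.1))
  have h4 := cnt_le_add (p := fun z : (A × A) × (X × X) => C4 G z ∧
      (lab z.1.1 z.2.1 = lab z.1.1 z.2.2 ∨
      lab z.1.2 z.2.1 = lab z.1.2 z.2.2 ∨ lab z.1.1 z.2.1 = lab z.1.2 z.2.1 ∨
      lab z.1.1 z.2.2 = lab z.1.2 z.2.2))
    (q := fun z => C4 G z ∧ lab z.1.1 z.2.1 = lab z.1.1 z.2.2)
    (r := fun z => (C4 G z ∧ lab z.1.2 z.2.1 = lab z.1.2 z.2.2) ∨
      (C4 G z ∧ lab z.1.1 z.2.1 = lab z.1.2 z.2.1) ∨ (C4 G z ∧ lab z.1.1 z.2.2 = lab z.1.2 z.2.2))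
    (fun z hz => by tauto)
  have h5 := cnt_le_add3 (p := fun z : (A × A) × (X × X) =>
      (C4 G z ∧ lab z.1.2 z.2.1 = lab z.1.2 z.2.2) ∨
      (C4 G z ∧ lab z.1.1 z.2.1 = lab z.1.2 z.2.1) ∨ (C4 G z ∧ lab z.1.1 z.2.2 = lab z.1.2 z.2.2))
    (fun z hz => hz)
  unfold Zall
  have : ZL G lab = cnt (fun z : (A × A) × (X × X) => C4 G z ∧ lab z.1.1 z.2.1 = lab z.1.1 z.2.2) :=
    rfl
  linarith

/-- common neighbours split by the bit at position `l` -/
noncomputable def Nb (G : A → X → Prop) (lab : A → X → ℕ) (l : ℕ) (a b : A) : ℝ :=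
  cnt (fun x => G a x ∧ G b x ∧ lab a x / 2 ^ l / 2 = lab b x / 2 ^ l / 2 ∧
    lab a x / 2 ^ l % 2 = 0 ∧ lab b x / 2 ^ l % 2 = 1)

lemma level_bound {G : A → X → Prop} {lab : A → X → ℕ} (h : SignOK G lab) (l : ℕ) :
    ∑ a, ∑ b, Nb G lab l a b ^ 2 ≤ Zall G lab := by
  set chi : A → A → X → X → Prop := fun a b x y =>
    (G a x ∧ G a y ∧ G b x ∧ G b y) ∧ lab a x / 2 ^ l / 2 = lab b x / 2 ^ l / 2 ∧
      lab a y / 2 ^ l / 2 = lab b y / 2 ^ l / 2 ∧ lab a x / 2 ^ l % 2 = lab a y / 2 ^ l % 2 ∧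
      lab b x / 2 ^ l % 2 = lab b y / 2 ^ l % 2 with hchi
  have S1 : 0 ≤ ∑ a, ∑ b, ∑ x, ∑ y, if chi a b x y then
      sg (lab a x) (lab a y) * sg (lab b x) (lab b y) else 0 := by
    have e : (∑ a, ∑ b, ∑ x, ∑ y, if chi a b x y then
        sg (lab a x) (lab a y) * sg (lab b x) (lab b y) else 0) =
        ∑ x, ∑ y, ∑ a, ∑ b, if chi a b x y then
        sg (lab a x) (lab a y) * sg (lab b x) (lab b y) else 0 := by
      exact sum4_comm _
    rw [e]
    refine Finset.sum_nonneg fun x _ => Finset.sum_nonneg fun y _ => ?_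
    have := sumkey (fun a => if G a x ∧ G a y ∧ lab a x / 2 ^ l % 2 = lab a y / 2 ^ l % 2 then
      sg (lab a x) (lab a y) else 0) (fun a => (lab a x / 2 ^ l / 2, lab a y / 2 ^ l / 2)) (0, 0)
    refine ((sq_nonneg _).trans this).trans (le_of_eq ?_)
    refine Finset.sum_congr rfl fun a _ => Finset.sum_congr rfl fun b _ => ?_
    simp only [hchi, Prod.mk.injEq]
    by_cases c1 : G a x ∧ G a y ∧ lab a x / 2 ^ l % 2 = lab a y / 2 ^ l % 2
    · by_cases c2 : G b x ∧ G b y ∧ lab b x / 2 ^ l % 2 = lab b y / 2 ^ l % 2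
      · simp only [c1, c2, and_self, if_true, true_and, and_true]
      · rw [if_neg c2, mul_zero, ite_self, if_neg (by tauto)]
    · rw [if_neg c1, zero_mul, ite_self, if_neg (by tauto)]
  have S2 : ∑ a, ∑ b, Nb G lab l a b ^ 2 ≤ ∑ a, ∑ b, ∑ x, ∑ y, if chi a b x y then
      sg (lab a x) (lab b x) * sg (lab a y) (lab b y) else 0 := by
    refine Finset.sum_le_sum fun a _ => Finset.sum_le_sum fun b _ => ?_
    have := sumkey (fun x => if G a x ∧ G b x ∧ lab a x / 2 ^ l / 2 = lab b x / 2 ^ l / 2 then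
      sg (lab a x) (lab b x) else 0) (fun x => (lab a x / 2 ^ l % 2, lab b x / 2 ^ l % 2)) (0, 1)
    refine (le_of_eq ?_).trans (this.trans (le_of_eq ?_))
    · unfold Nb
      rw [cnt_eq_sum]
      refine congrArg (fun r : ℝ => r ^ 2) (Finset.sum_congr rfl fun x _ => ?_)
      simp only [Prod.mk.injEq]
      by_cases c1 : lab a x / 2 ^ l % 2 = 0 ∧ lab b x / 2 ^ l % 2 = 1
      · by_cases c2 : G a x ∧ G b x ∧ lab a x / 2 ^ l / 2 = lab b x / 2 ^ l / 2
        · have h1 : lab a x / 2 ^ l < lab b x / 2 ^ l := by omega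
          have h2 : lab a x < lab b x := Nat.lt_of_div_lt_div h1
          rw [if_pos c1, if_pos c2, if_pos (by tauto)]; simp [sg, h2]
        · rw [if_pos c1, if_neg c2, if_neg (by tauto)]
      · rw [if_neg c1, if_neg (by tauto)]
    · refine Finset.sum_congr rfl fun x _ => Finset.sum_congr rfl fun y _ => ?_
      simp only [hchi, Prod.mk.injEq]
      by_cases c1 : G a x ∧ G b x ∧ lab a x / 2 ^ l / 2 = lab b x / 2 ^ l / 2
      · by_cases c2 : G a y ∧ G b y ∧ lab a y / 2 ^ l / 2 = lab b y / 2 ^ l / 2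
        · simp only [c1, c2, and_self, if_true, true_and]
        · rw [if_neg c2, mul_zero, ite_self, if_neg (by tauto)]
      · rw [if_neg c1, zero_mul, ite_self, if_neg (by tauto)]
  refine S2.trans ((le_add_of_nonneg_left S1).trans ?_)
  unfold Zall
  rw [cnt_prod, Fintype.sum_prod_type, ← Finset.sum_add_distrib]
  refine Finset.sum_le_sum fun a _ => ?_
  rw [← Finset.sum_add_distrib]
  refine Finset.sum_le_sum fun b _ => ?_
  rw [cnt_eq_sum, Fintype.sum_prod_type, ← Finset.sum_add_distrib]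
  refine Finset.sum_le_sum fun x _ => ?_
  rw [← Finset.sum_add_distrib]
  refine Finset.sum_le_sum fun y _ => ?_
  by_cases c : chi a b x y
  · rw [if_pos c, if_pos c]
    obtain ⟨⟨g1, g2, g3, g4⟩, -⟩ := c
    have hs := h a b x y g1 g2 g3 g4
    simp only [C4, g1, g2, g3, g4, and_self, true_and]
    generalize lab a x = p at *
    generalize lab a y = q at *
    generalize lab b x = r at *
    generalize lab b y = s at *
    unfold sg
    split_ifs <;> first | norm_num; done | (exfalso; omega)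
  · rw [if_neg c, if_neg c]; split_ifs <;> norm_num

lemma c4_eq (G : A → X → Prop) :
    cnt (C4 G) = ∑ a, ∑ b, cnt (fun x => G a x ∧ G b x) ^ 2 := by
  rw [cnt_prod, Fintype.sum_prod_type]
  refine Finset.sum_congr rfl fun a _ => Finset.sum_congr rfl fun b _ => ?_
  rw [cnt_sq]
  exact cnt_congr fun z => by simp only [C4]; tauto

/-- the number of four-cycles is at most `18 L^2` times the number of non-rainbow ones -/
theorem ident {G : A → X → Prop} {lab : A → X → ℕ} (h : SignOK G lab) {L : ℕ} (hL : 1 ≤ L)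
    (hb : ∀ a x, G a x → lab a x < 2 ^ L) :
    cnt (C4 G) ≤ 18 * (L:ℝ) ^ 2 * (ZL G lab + ZU G lab) := by
  have h0 : ∑ a, ∑ b, cnt (fun x => G a x ∧ G b x ∧ lab a x = lab b x) ^ 2 ≤ Zall G lab := by
    unfold Zall
    rw [cnt_prod, Fintype.sum_prod_type]
    refine Finset.sum_le_sum fun a _ => Finset.sum_le_sum fun b _ => ?_
    rw [cnt_sq]
    exact cnt_mono fun z hz => by simp only [C4]; tauto
  have hl := level_bound h
  have key : ∀ a b, cnt (fun x => G a x ∧ G b x) ^ 2 ≤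
      3 * cnt (fun x => G a x ∧ G b x ∧ lab a x = lab b x) ^ 2 +
      3 * L * ∑ l ∈ range L, Nb G lab l a b ^ 2 + 3 * L * ∑ l ∈ range L, Nb G lab l b a ^ 2 := by
    intro a b
    have c1 : cnt (fun x => G a x ∧ G b x ∧ lab a x < lab b x) ≤ ∑ l ∈ range L, Nb G lab l a b :=
      (cnt_cover _ L (fun l x => lab a x / 2 ^ l / 2 = lab b x / 2 ^ l / 2 ∧
        lab a x / 2 ^ l % 2 = 0 ∧ lab b x / 2 ^ l % 2 = 1)
        (fun x hx => bits_cover hx.2.2 (hb _ _ hx.2.1))).trans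
        (Finset.sum_le_sum fun l _ => cnt_mono fun x hx => by tauto)
    have c2 : cnt (fun x => G a x ∧ G b x ∧ lab b x < lab a x) ≤ ∑ l ∈ range L, Nb G lab l b a :=
      (cnt_cover _ L (fun l x => lab b x / 2 ^ l / 2 = lab a x / 2 ^ l / 2 ∧
        lab b x / 2 ^ l % 2 = 0 ∧ lab a x / 2 ^ l % 2 = 1)
        (fun x hx => bits_cover hx.2.2 (hb _ _ hx.1))).trans
        (Finset.sum_le_sum fun l _ => cnt_mono fun x hx => by tauto)
    have c3 := cnt_le_add3 (p := fun x => G a x ∧ G b x)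
      (q := fun x => G a x ∧ G b x ∧ lab a x = lab b x)
      (r := fun x => G a x ∧ G b x ∧ lab a x < lab b x)
      (s := fun x => G a x ∧ G b x ∧ lab b x < lab a x) (fun x hx => by
        rcases lt_trichotomy (lab a x) (lab b x) with h | h | h <;> tauto)
    have d1 := sq_sum_le_card_mul_sum_sq (s := range L) (f := fun l => Nb G lab l a b)
    have d2 := sq_sum_le_card_mul_sum_sq (s := range L) (f := fun l => Nb G lab l b a)
    rw [card_range] at d1 d2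
    have n0 := cnt_nonneg (fun x => G a x ∧ G b x)
    set u := cnt (fun x => G a x ∧ G b x)
    set u0 := cnt (fun x => G a x ∧ G b x ∧ lab a x = lab b x)
    set s1 := ∑ l ∈ range L, Nb G lab l a b
    set s2 := ∑ l ∈ range L, Nb G lab l b a
    have : u ≤ u0 + s1 + s2 := by linarith
    have h2 : u ^ 2 ≤ (u0 + s1 + s2) ^ 2 := pow_le_pow_left₀ n0 this 2
    nlinarith [sq_nonneg (u0 - s1), sq_nonneg (u0 - s2), sq_nonneg (s1 - s2)]
  have t1 : ∑ a, ∑ b, ∑ l ∈ range L, Nb G lab l a b ^ 2 ≤ L * Zall G lab := by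
    have : ∑ a, ∑ b, ∑ l ∈ range L, Nb G lab l a b ^ 2 =
        ∑ l ∈ range L, ∑ a, ∑ b, Nb G lab l a b ^ 2 := by
      rw [Finset.sum_comm (s := range L)]
      exact Finset.sum_congr rfl fun a _ => Finset.sum_comm
    rw [this]
    calc _ ≤ ∑ _l ∈ range L, Zall G lab := Finset.sum_le_sum fun l _ => hl l
      _ = _ := by simp
  have t2 : ∑ a, ∑ b, ∑ l ∈ range L, Nb G lab l b a ^ 2 ≤ L * Zall G lab := by
    rw [Finset.sum_comm]; exact t1
  have hz := Zall_le G lab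
  have hz0 : 0 ≤ Zall G lab := cnt_nonneg _
  have hL' : (1:ℝ) ≤ L := by exact_mod_cast hL
  rw [c4_eq]
  have tot : ∑ a, ∑ b, cnt (fun x => G a x ∧ G b x) ^ 2 ≤
      3 * Zall G lab + 3 * L * (L * Zall G lab) + 3 * L * (L * Zall G lab) := by
    refine (Finset.sum_le_sum fun a _ => Finset.sum_le_sum fun b _ => key a b).trans ?_
    simp only [Finset.sum_add_distrib, ← Finset.mul_sum]
    gcongr
  have : (1:ℝ) ≤ L ^ 2 := one_le_pow₀ hL'
  nlinarith [mul_le_mul_of_nonneg_left hz (sq_nonneg (L:ℝ)), mul_le_mul_of_nonneg_right this hz0]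

lemma cherry_eq (G : A → X → Prop) :
    ∑ x, cnt (fun a => G a x) ^ 2 = ∑ a, ∑ b, cnt (fun x => G a x ∧ G b x) := by
  have h1 := cnt_prod (fun z : X × (A × A) => G z.2.1 z.1 ∧ G z.2.2 z.1)
  have h2 := cnt_prod' (fun z : X × (A × A) => G z.2.1 z.1 ∧ G z.2.2 z.1)
  rw [Fintype.sum_prod_type] at h2
  simp only [cnt_sq]
  exact h1.symm.trans h2

lemma cherry_sq_le (G : A → X → Prop) {n : ℝ} (hA : (Fintype.card A : ℝ) ≤ n) :
    (∑ x, cnt (fun a => G a x) ^ 2) ^ 2 ≤ n ^ 2 * cnt (C4 G) := by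
  rw [cherry_eq, c4_eq, ← Fintype.sum_prod_type', ← Fintype.sum_prod_type']
  refine sq_sum_le_card_mul_sum_sq.trans ?_
  have : ((univ : Finset (A × A)).card : ℝ) ≤ n ^ 2 := by
    rw [card_univ, Fintype.card_prod]; push_cast; rw [sq]
    exact mul_le_mul hA hA (by positivity) (le_trans (by positivity) hA)
  exact mul_le_mul_of_nonneg_right this (Finset.sum_nonneg fun _ _ => sq_nonneg _)

/-- the lower bound for four-cycles -/
lemma c4_lower (G : A → X → Prop) {n : ℝ} (hA : (Fintype.card A : ℝ) ≤ n)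
    (hX : (Fintype.card X : ℝ) ≤ n) :
    cnt (fun e : A × X => G e.1 e.2) ^ 4 ≤ n ^ 4 * cnt (C4 G) := by
  have h1 : cnt (fun e : A × X => G e.1 e.2) ^ 2 ≤ n * ∑ x, cnt (fun a => G a x) ^ 2 := by
    rw [cnt_prod']
    refine sq_sum_le_card_mul_sum_sq.trans ?_
    exact mul_le_mul_of_nonneg_right (by simpa using hX) (Finset.sum_nonneg fun _ _ => sq_nonneg _)
  have h2 := cherry_sq_le G hA
  have n0 : 0 ≤ n := le_trans (by positivity) hA
  calc cnt (fun e : A × X => G e.1 e.2) ^ 4 = (cnt (fun e : A × X => G e.1 e.2) ^ 2) ^ 2 := by ring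
    _ ≤ (n * ∑ x, cnt (fun a => G a x) ^ 2) ^ 2 := pow_le_pow_left₀ (sq_nonneg _) h1 2
    _ = n ^ 2 * (∑ x, cnt (fun a => G a x) ^ 2) ^ 2 := by ring
    _ ≤ n ^ 2 * (n ^ 2 * cnt (C4 G)) := mul_le_mul_of_nonneg_left h2 (sq_nonneg _)
    _ = _ := by ring

/-- trivial bound for `ZL` -/
lemma ZL_triv (G : A → X → Prop) (lab : A → X → ℕ) {k D : ℝ}
    (hk : ∀ a w, cnt (fun x => G a x ∧ lab a x = w) ≤ k) (hD : ∀ x, cnt (fun a => G a x) ≤ D) :
    ZL G lab ≤ cnt (fun e : A × X => G e.1 e.2) * (k * D) := by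
  refine cnt_fib_le' (fun z => (z.1.1, z.2.1)) (fun z hz => hz.1.1) fun e _ => ?_
  calc _ ≤ cnt (fun z : X × A => (G e.1 z.1 ∧ lab e.1 z.1 = lab e.1 e.2) ∧ G z.2 e.2) := by
        refine cnt_inj (fun z => (z.2.2, z.1.2)) ?_ ?_
        · rintro ⟨⟨a, b⟩, ⟨x, y⟩⟩ ⟨⟨hc, hl⟩, rfl⟩
          exact ⟨⟨hc.2.1, hl.symm⟩, hc.2.2.1⟩
        · rintro ⟨⟨a, b⟩, ⟨x, y⟩⟩ ⟨⟨a', b'⟩, ⟨x', y'⟩⟩ ⟨_, rfl⟩ ⟨_, h2⟩ h3
          simp only [Prod.mk.injEq] at h2 h3 ⊢; tauto
    _ = cnt (fun x => G e.1 x ∧ lab e.1 x = lab e.1 e.2) * cnt (fun a => G a e.2) :=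
        cnt_mul (fun x => G e.1 x ∧ lab e.1 x = lab e.1 e.2) (fun a => G a e.2)
    _ ≤ _ := mul_le_mul (hk _ _) (hD _) (cnt_nonneg _) ((cnt_nonneg _).trans (hk e.1 0))

end Pool.Agent.Lib.MP_65c801_co
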