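import Pool.Agent.Lib.MP_65c801_co.Derived
import Pool.Agent.Lib.MP_65c801_co.Band

/-! The main inequality for regular families. -/

namespace Pool.Agent.Lib.MP_65c801_co

open Finset Classical

variable {V α : Type*} [LinearOrder α] [Fintype V]
variable {h : V → ℕ → α} {H : V → V → Prop} {t : V → V → ℕ} {S' R L : ℕ} {n P Q d σ : ℝ}

theorem Reg.main (r : Reg h H t S' R L n P Q d σ) (pp : PathOK h H t (S' * R))
    (n1 : 1 ≤ n) (hL : n ^ 2 < 2 ^ L) (hd : n ≤ d ^ 2) (hP : 4 * σ * R ≤ P) {K lam cm : ℝ}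
    (hl : Q ≤ lam * P) (hK : 288 * (L:ℝ) ^ 2 * σ * R * (1 + lam) ≤ K) (K0 : 0 < K)
    (cm4 : 4 ≤ cm) (hcm : (256 * σ ^ 3 * R * L) ^ 3 * (18432 * (L:ℝ) ^ 2) * P ^ 2 * Q ^ 4 ≤ cm ^ 3)
    {z1 z2 ε : ℝ} (z10 : 0 < z1) (z20 : 0 < z2) (ε0 : 0 < ε)
    (hz1 : Q ≤ z1 ^ 2 * d) (hz2 : P ≤ z2 ^ 2 * d) :
    1 ≤ 18 * (L:ℝ) ^ 2 * (512 * σ ^ 3 * R * L ^ 2) ^ 3 *
      (24 * K / Q + 48 * P * Q ^ 2 / d + 26 * z1 * cm +
        (ε + (12 * K ^ 2 / Q + 24 * P * Q * K ^ 2 / (ε * d) + 13 * z2 * K))) := by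
  have np := r.np
  have dp := r.dp
  have Pp := r.Pp
  have Qp := r.Qp
  have sp := r.sp
  have big := r.big
  have Rp : (0:ℝ) < R := by exact_mod_cast r.Rp
  have Lp : (0:ℝ) < L := by exact_mod_cast r.L1
  have p1 := r.paths hP hl hK K0
  obtain ⟨i, -, p2⟩ := pigeon (GoodPath h H t (S' * R) K) L r.L1 (fun i z =>
    (2:ℝ) ^ i ≤ cod (fun y a => H a y) (fun y a => t a y / (S' * R))
      (t z.1.1 z.1.2.1 / (S' * R)) z.2 z.1.1 ∧
    cod (fun y a => H a y) (fun y a => t a y / (S' * R))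
      (t z.1.1 z.1.2.1 / (S' * R)) z.2 z.1.1 < 2 * 2 ^ i) (fun z hz =>
    dyadic _ L (one_le_cnt (x := z.1.2.1) ⟨hz.1, hz.2.1, hz.2.2.2.1, rfl⟩)
      (lt_of_le_of_lt ((cnt_le_card _).trans (r.card.trans (by nlinarith))) hL))
  set c : ℝ := 2 ^ i
  have c0 : 0 < c := by positivity
  change _ ≤ L * cnt (PC h H t (S' * R) K c) at p2
  obtain ⟨j, -, p3⟩ := pigeon (PC h H t (S' * R) K c) L r.L1 (fun j z =>
    (2:ℝ) ^ j ≤ mu h H t (S' * R) K c z.2 z.1.2.2 ∧ mu h H t (S' * R) K c z.2 z.1.2.2 < 2 * 2 ^ j)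
    (fun z hz => dyadic _ L (one_le_cnt (x := (z.1.1, z.1.2.1)) hz)
      (lt_of_le_of_lt ((cnt_le_card _).trans (by
        rw [Fintype.card_prod]; push_cast; rw [sq]
        exact mul_le_mul r.card r.card (by positivity) np.le)) hL))
  set ν : ℝ := 2 ^ j
  have ν1 : 1 ≤ ν := one_le_pow₀ (by norm_num)
  have ν0 : 0 < ν := by positivity
  have p4 : cnt (fun z => PC h H t (S' * R) K c z ∧ ν ≤ mu h H t (S' * R) K c z.2 z.1.2.2 ∧
      mu h H t (S' * R) K c z.2 z.1.2.2 < 2 * ν) ≤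
      cnt (fun e : V × V => ν ≤ mu h H t (S' * R) K c e.1 e.2) * (2 * ν) := by
    refine cnt_fib_le' (fun z => (z.2, z.1.2.2)) (fun z hz => hz.2.1) fun e _ => ?_
    by_cases hc : mu h H t (S' * R) K c e.1 e.2 < 2 * ν
    · refine le_trans (cnt_inj (fun z => (z.1.1, z.1.2.1)) ?_ ?_) hc.le
      · rintro z ⟨hz, rfl⟩; exact hz.1
      · rintro ⟨⟨a, y, b⟩, a'⟩ ⟨⟨a1, y1, b1⟩, a1'⟩ ⟨-, rfl⟩ ⟨-, h2⟩ e
        simp only [Prod.mk.injEq] at h2 e ⊢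
        exact ⟨⟨e.1, e.2, h2.2.symm⟩, h2.1.symm⟩
    · rw [cnt_zero]; · positivity
      rintro z ⟨hz, rfl⟩; exact hc hz.2.2
  have der := r.derived pp K0 c0 ν1 z10 z20 ε0 hz1 hz2
  set m := cnt (fun e : V × V => H e.1 e.2)
  set g := cnt (fun e : V × V => ν ≤ mu h H t (S' * R) K c e.1 e.2)
  have q1 : n * d * P * Q ≤ 256 * σ ^ 3 * R * L * cnt (PC h H t (S' * R) K c) := by
    calc n * d * P * Q ≤ σ * m * P * Q := by gcongr
      _ = σ * (m * P * Q) := by ring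
      _ ≤ σ * (256 * σ ^ 2 * R * (L * cnt (PC h H t (S' * R) K c))) :=
          mul_le_mul_of_nonneg_left (p1.trans (mul_le_mul_of_nonneg_left p2 (by positivity))) sp.le
      _ = _ := by ring
  have ccm : c ≤ cm := by
    by_contra hc
    push Not at hc
    have hv := r.heavy (c := c) (by linarith)
    have pc := r.pc_le K c
    set Hc := cnt (fun z : (V × V) × V => H z.1.1 z.2 ∧ H z.1.2 z.2 ∧
      t z.1.2 z.2 / (S' * R) = t z.1.1 z.2 / (S' * R) ∧ z.1.1 ≠ z.1.2 ∧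
      c ≤ cod (fun y a => H a y) (fun y a => t a y / (S' * R)) (t z.1.1 z.2 / (S' * R))
        z.1.1 z.1.2)
    set A := 256 * σ ^ 3 * R * L
    have A0 : 0 < A := by positivity
    have a1 : n * d * Q ≤ A * Hc := by
      have : P * (n * d * Q) ≤ P * (A * Hc) := by
        nlinarith [mul_le_mul_of_nonneg_left pc A0.le]
      exact le_of_mul_le_mul_left this Pp
    have a2 : (c * (n * d * Q)) ^ 3 ≤ (A * (c * Hc)) ^ 3 :=
      pow_le_pow_left₀ (by positivity) (by nlinarith) 3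
    have a3 : (A * (c * Hc)) ^ 3 ≤ A ^ 3 * (18432 * (L:ℝ) ^ 2 * n ^ 4 * d * P ^ 2 * Q ^ 7) := by
      rw [mul_pow]; exact mul_le_mul_of_nonneg_left hv (by positivity)
    have a4 : A ^ 3 * (18432 * (L:ℝ) ^ 2 * n ^ 4 * d * P ^ 2 * Q ^ 7) ≤
        cm ^ 3 * (n * d * Q) ^ 3 := by
      calc _ = (A ^ 3 * (18432 * (L:ℝ) ^ 2) * P ^ 2 * Q ^ 4) * (n ^ 3 * d * Q ^ 3 * n) := by ring
        _ ≤ cm ^ 3 * (n ^ 3 * d * Q ^ 3 * d ^ 2) := by gcongr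
        _ = _ := by ring
    have a5 : cm ^ 3 < c ^ 3 := pow_lt_pow_left₀ hc (by linarith) (by norm_num)
    have a6 : cm ^ 3 * (n * d * Q) ^ 3 < c ^ 3 * (n * d * Q) ^ 3 :=
      mul_lt_mul_of_pos_right a5 (by positivity)
    rw [mul_pow c] at a2
    linarith
  set κ := 512 * σ ^ 3 * R * L ^ 2
  set Δ := d * P * Q / ν
  have Δ0 : 0 < Δ := by positivity
  have q2 : n * Δ ≤ κ * g := by
    rw [← mul_div_assoc, div_le_iff₀ ν0]
    have := mul_le_mul_of_nonneg_left (p3.trans (mul_le_mul_of_nonneg_left p4 Lp.le))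
      (by positivity : 0 ≤ 256 * σ ^ 3 * R * L)
    calc n * (d * P * Q) = n * d * P * Q := by ring
      _ ≤ _ := q1.trans this
      _ = _ := by ring
  set B := ε + (12 * K ^ 2 / Q + 24 * P * Q * K ^ 2 / (ε * d) + 13 * z2 * K)
  have B0 : 0 ≤ B := by positivity
  have q3 : 24 * K / Q + 48 * P * Q ^ 2 / d + 26 * z1 * c + B ≤
      24 * K / Q + 48 * P * Q ^ 2 / d + 26 * z1 * cm + B := by gcongr
  set E := 24 * K / Q + 48 * P * Q ^ 2 / d + 26 * z1 * cm + B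
  have E0 : 0 ≤ E := by positivity
  have q4 : (n * Δ) ^ 3 * d ^ 2 ≤ (n * Δ) ^ 3 * d ^ 2 * (18 * (L:ℝ) ^ 2 * κ ^ 3 * E) := by
    calc (n * Δ) ^ 3 * d ^ 2 ≤ (κ * g) ^ 3 * d ^ 2 := by gcongr
      _ = κ ^ 3 * (g ^ 3 * d ^ 2) := by ring
      _ ≤ κ ^ 3 * (18 * (L:ℝ) ^ 2 * n ^ 4 * Δ ^ 3 * E) :=
          mul_le_mul_of_nonneg_left (der.trans (mul_le_mul_of_nonneg_left q3 (by positivity)))
            (by positivity)
      _ = (n * Δ) ^ 3 * n * (18 * (L:ℝ) ^ 2 * κ ^ 3 * E) := by ring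
      _ ≤ _ := by gcongr
  exact (le_mul_iff_one_le_right (by positivity)).1 q4

end Pool.Agent.Lib.MP_65c801_co
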