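import Pool.Agent.Lib.MP_65c801_co.Vee

/-! The moves of the sweep. -/

namespace Pool.Agent.Lib.MP_65c801_co

open Finset Classical

/-- the slot `s` moves -/
def mv {ι Vx : Type} (σ σ' : St ι Vx) (s : ι × Bool) : Prop := σ'.idx s 0 ≠ σ.idx s 0

/-- cyclic position after `r` -/
def off (r M p : ℕ) : ℕ := if r < p then p - r else p + M - r

namespace Arr

variable {ι X Vx : Type} [Fintype X] (A : Arr ι X Vx) (σ σ' : St ι Vx)

/-- no common vertex of `i` and `j` is swept -/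
def Quiet (i j : ι) : Prop := ∀ k l, A.v i k = A.v j l → A.v i k ∈ σ.Un → A.v i k ∈ σ'.Un

/-- what one step of the sweep does -/
structure Step : Prop where
  b : ∀ i, σ.born i → σ'.born i
  d : ∀ i, σ.dead i → σ'.dead i
  nb : ∀ i, ¬ σ.born i → ¬ σ'.dead i
  un : σ'.Un ⊆ σ.Un
  one : ∀ y y', y ∈ σ.Un → y ∉ σ'.Un → y' ∈ σ.Un → y' ∉ σ'.Un → y = y'
  ord : ∀ s u : ι × Bool, σ.alive s.1 → σ'.alive s.1 → σ.alive u.1 → σ'.alive u.1 →
    ¬ (mv σ σ' s ∧ mv σ σ' u) → (σ.key s < σ.key u ↔ σ'.key s < σ'.key u)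
  mov : ∀ s : ι × Bool, σ.born s.1 → mv σ σ' s → σ'.idx s 0 = σ.idx s 1 ∧ ¬ mv σ σ' (oth s) ∧
    A.v s.1 (σ.idx s 1) ∈ σ.Un ∧ A.v s.1 (σ.idx s 1) ∉ σ'.Un ∧ ¬ σ'.dead s.1
  birth : ∀ i, ¬ σ.born i → σ'.born i → σ'.α i = σ'.β i + A.m i ∧ A.v i (σ'.β i) ∈ σ.Un ∧
    A.v i (σ'.β i) ∉ σ'.Un ∧ ∀ s : ι × Bool, σ'.alive s.1 → s.1 ≠ i → A.Quiet σ σ' i s.1 →
      σ.born s.1 ∧ (σ'.key s < σ'.key (i, true) ↔ σ'.key s < σ'.key (i, false))
  death : ∀ i, σ.alive i → σ'.dead i → σ.α i ≤ σ.β i + 2 ∧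
    ∀ s : ι × Bool, σ.alive s.1 → s.1 ≠ i → A.Quiet σ σ' i s.1 →
      ¬ σ'.dead s.1 ∧ (σ.key s < σ.key (i, true) ↔ σ.key s < σ.key (i, false))

/-- the data of a move over the vertex `y` -/
structure VData (y : Vx) (B : ι × Bool → Prop) (K r M : ℕ) : Prop where
  hy : y ∈ σ.Un
  b2 : ∀ u, B u → σ.alive u.1 ∧ 1 < σ.len u.1 ∧ A.v u.1 (σ.idx u 1) = y
  b4 : ∀ d : ι × Bool, σ.alive d.1 → A.On σ d y → B d ∨ B (oth d)
  hK : ∀ x : ι × Bool, σ.alive x.1 → ¬ B x → σ.key x ≠ K ∧ ∀ b, B b → (σ.key x < σ.key b ↔ σ.key x < K)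
  hM : ∀ x, A.pos x < M
  rM : r ≤ M
  hr : ∀ x, A.vt x = y → (∀ b, B b → x ≠ A.inn σ b 1) → A.pos x ≠ r
  born : ∀ i, σ'.born i ↔ σ.born i ∨ ∃ k, A.v i k = y
  dead : ∀ i, σ'.dead i ↔ σ.dead i ∨ (B (i, true) ∧ B (i, false))
  hβ : ∀ i, σ.born i → σ'.β i = σ.β i + if B (i, true) ∧ ¬ B (i, false) then 1 else 0
  hα : ∀ i, σ.born i → σ'.α i = σ.α i - if B (i, false) ∧ ¬ B (i, true) then 1 else 0
  new : ∀ i, ¬ σ.born i → σ'.born i → A.v i (σ'.β i) = y ∧ σ'.α i = σ'.β i + A.m i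
  key : ∀ s : ι × Bool, σ'.key s = if A.v s.1 (σ'.idx s 0) = y then
    K * M + off r M (A.pos (A.out σ' s 0)) else σ.key s * M
  un : σ'.Un = σ.Un.erase y

/-- the darts of the swept edges -/
def Gone (B : ι × Bool → Prop) (x : X) : Prop := ∃ b, B b ∧ (x = A.out σ b 0 ∨ x = A.inn σ b 1)

variable {A σ σ'} {y : Vx} {B : ι × Bool → Prop} {K r M : ℕ}

lemma gone_bar {x : X} : A.Gone σ B (A.bar x) ↔ A.Gone σ B x := by
  have key : ∀ x, A.Gone σ B x → A.Gone σ B (A.bar x) := by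
    rintro x ⟨b, hb, rfl | rfl⟩
    · exact ⟨b, hb, Or.inr (A.bar_out σ b 0)⟩
    · exact ⟨b, hb, Or.inl (by rw [← A.bar_out σ b 0, bar_bar])⟩
  exact ⟨fun h => by simpa [bar_bar] using key _ h, key x⟩

lemma both_iff (s : ι × Bool) : (B (s.1, true) ∧ B (s.1, false)) ↔ B s ∧ B (oth s) := by
  obtain ⟨i, e⟩ := s
  cases e <;> simp [oth, and_comm]

variable [Fintype ι] (h : A.Inv σ) (D : A.VData σ σ' y B K r M)

include D in
omit [Fintype ι] in
lemma VData.idx_eq {s : ι × Bool} (b : σ.born s.1) (n : ℕ) :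
    σ'.idx s n = σ.idx s (n + if B s ∧ ¬ B (oth s) then 1 else 0) := by
  have h1 := D.hβ _ b
  have h2 := D.hα _ b
  obtain ⟨i, e⟩ := s
  unfold St.idx oth
  cases e <;> simp only [Bool.not_true, Bool.not_false, if_true, Bool.false_eq_true, if_false] at * <;>
    split_ifs at * <;> push_cast <;> omega

include h D in
lemma VData.len_eq {s : ι × Bool} (b : σ.born s.1) :
    σ'.len s.1 = σ.len s.1 - if (B s ↔ B (oth s)) then 0 else 1 := by
  have h1 := D.hβ _ b
  have h2 := D.hα _ b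
  have h3 := h.lt _ b
  obtain ⟨i, e⟩ := s
  unfold St.len oth
  by_cases c1 : B (i, true) <;> by_cases c2 : B (i, false) <;> cases e <;>
    simp [c1, c2] at h1 h2 ⊢ <;> omega

include D in
omit [Fintype ι] in
lemma VData.not_both {s : ι × Bool} (a : σ'.alive s.1) : ¬ (B s ∧ B (oth s)) := fun c =>
  a.2 ((D.dead _).2 (Or.inr ((both_iff s).2 c)))

include D in
omit [Fintype ι] in
lemma VData.alive_old {i : ι} (a : σ'.alive i) (b : σ.born i) : σ.alive i :=
  ⟨b, fun c => a.2 ((D.dead _).2 (Or.inl c))⟩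

include D in
omit [Fintype ι] in
lemma VData.alive_new {s : ι × Bool} (a : σ.alive s.1) (b : ¬ (B s ∧ B (oth s))) : σ'.alive s.1 :=
  ⟨(D.born _).2 (Or.inl a.1), fun c => ((D.dead _).1 c).elim a.2 fun c => b ((both_iff s).1 c)⟩

include h D in
lemma VData.new_iff {s : ι × Bool} (a : σ'.alive s.1) :
    A.v s.1 (σ'.idx s 0) = y ↔ ¬ σ.born s.1 ∨ B s := by
  by_cases b : σ.born s.1
  · rw [D.idx_eq b]
    by_cases c : B s
    · have := D.not_both a
      rw [if_pos (by tauto)]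
      simp [c, (D.b2 s c).2.2]
    · rw [if_neg (by tauto)]
      simp only [b, c, not_true, or_self, iff_false]
      intro e
      exact h.not_mem_Un b (e ▸ D.hy)
  · obtain ⟨e1, e2⟩ := D.new _ b a.1
    simp only [b, not_false_iff, true_or, iff_true]
    rw [← e1]
    apply A.v_eq_of_dvd
    unfold St.idx
    split_ifs <;> simp [e2]

include h D in
lemma VData.len_two {s : ι × Bool} (c1 : B s) (c2 : B (oth s)) : σ.len s.1 = 2 := by
  obtain ⟨a, l, e⟩ := D.b2 s c1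
  obtain ⟨-, -, e'⟩ := D.b2 _ c2
  rw [h.idx_oth a.1 l.le] at e'
  have := h.idx_inj a.1 l.le (by omega) (by omega) (by omega) (e.trans e'.symm)
  omega

include h D in
lemma VData.act_iff {x : X} : A.Act σ' x ↔ A.Act σ x ∧ ¬ A.Gone σ B x := by
  have unb : ∀ i k e, ¬ σ.born i → ¬ A.Gone σ B (A.dart i k e) := by
    rintro i k e c ⟨b, hb, e | e⟩ <;> exact c (A.fst_eq_of_dart e ▸ (D.b2 b hb).1.1)
  have inn1 : ∀ b, B b → A.inn σ b 1 = A.out σ (oth b) (σ.len b.1 - 1) := fun b hb => by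
    obtain ⟨a, l, -⟩ := D.b2 b hb
    rw [h.out_oth a.1 (by omega)]; congr 1; omega
  constructor
  · rintro (⟨i, k, e, c, rfl⟩ | ⟨s, a, k, k1, rfl⟩)
    · have c' : ¬ σ.born i := fun b => c ((D.born i).2 (Or.inl b))
      exact ⟨Or.inl ⟨i, k, e, c', rfl⟩, unb i k e c'⟩
    · by_cases b : σ.born s.1
      · have a' := D.alive_old a b
        have nb := D.not_both a
        have l := D.len_eq h b
        have lp := h.len_pos b
        have e : A.out σ' s k = A.out σ s (k + if B s ∧ ¬ B (oth s) then 1 else 0) := by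
          unfold out; rw [D.idx_eq b]
        have k2 : (k + if B s ∧ ¬ B (oth s) then 1 else 0) < σ.len s.1 := by
          by_cases c1 : B s <;> by_cases c2 : B (oth s) <;> simp [c1, c2] at l nb ⊢ <;> omega
        rw [e]
        refine ⟨h.act_out a' k2, ?_⟩
        rintro ⟨u, hu, e | e⟩
        · obtain ⟨rfl, e2⟩ := h.out_inj b k2 (h.len_pos (D.b2 u hu).1.1) e
          rw [if_pos ⟨hu, fun c => nb ⟨hu, c⟩⟩] at e2
          exact absurd e2 (Nat.succ_ne_zero _)
        · have := (D.b2 u hu).2.1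
          rw [inn1 u hu] at e
          obtain ⟨rfl, e2⟩ := h.out_inj b k2 (by simp; omega) e
          rw [oth_oth] at nb l e2
          rw [if_neg (by tauto)] at e2
          rw [if_neg (by tauto)] at l
          simp only [oth_fst] at e2 l k1; omega
      · exact ⟨Or.inl ⟨_, _, _, b, rfl⟩, unb _ _ _ b⟩
  · rintro ⟨⟨i, k, e, c, rfl⟩ | ⟨s, a, k, k1, rfl⟩, g⟩
    · by_cases b : σ'.born i
      · obtain ⟨-, e2⟩ := D.new i c b
        have hm := A.mpos i
        have a : σ'.alive i := ⟨b, fun d => ((D.dead i).1 d).elim (fun d => c (h.db i d))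
          fun d => c (D.b2 _ d.1).1.1⟩
        have hl : σ'.len i = A.m i := by unfold St.len; omega
        have m0 : (A.m i : ℤ) ≠ 0 := by omega
        cases e
        · refine Or.inr ⟨(i, false), a, ((σ'.α i - k) % A.m i).toNat, ?_, A.dart_eq_of_dvd _ ?_⟩
          · have := Int.emod_lt_of_pos (σ'.α i - k) (show (0 : ℤ) < A.m i by omega)
            have := Int.emod_nonneg (σ'.α i - k) m0
            simp only [hl]; omega
          · simp only [St.idx, Bool.false_eq_true, if_false]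
            rw [Int.toNat_of_nonneg (Int.emod_nonneg _ m0), Int.emod_def]
            exact ⟨-((σ'.α i - k) / A.m i), by ring⟩
        · refine Or.inr ⟨(i, true), a, ((k - σ'.β i) % A.m i).toNat, ?_, A.dart_eq_of_dvd _ ?_⟩
          · have := Int.emod_lt_of_pos (k - σ'.β i) (show (0 : ℤ) < A.m i by omega)
            have := Int.emod_nonneg (k - σ'.β i) m0
            simp only [hl]; omega
          · simp only [St.idx, if_true]
            rw [Int.toNat_of_nonneg (Int.emod_nonneg _ m0), Int.emod_def]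
            exact ⟨(k - σ'.β i) / A.m i, by ring⟩
      · exact Or.inl ⟨i, k, e, b, rfl⟩
    · have g1 : B s → k ≠ 0 := by rintro c rfl; exact g ⟨s, c, Or.inl rfl⟩
      have g2 : B (oth s) → k ≠ σ.len s.1 - 1 := by
        rintro c rfl; exact g ⟨_, c, Or.inr (by rw [inn1 _ c, oth_oth]; rfl)⟩
      have nb : ¬ (B s ∧ B (oth s)) := fun c => by
        have := D.len_two h c.1 c.2
        have := g1 c.1
        have := g2 c.2
        omega
      have l := D.len_eq h a.1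
      refine Or.inr ⟨s, D.alive_new a nb, k - if B s ∧ ¬ B (oth s) then 1 else 0, ?_, ?_⟩
      · by_cases c1 : B s <;> by_cases c2 : B (oth s) <;> simp [c1, c2] at l g1 g2 nb ⊢ <;> omega
      · unfold out
        rw [D.idx_eq a.1]
        congr 2
        split_ifs with c
        · have := g1 c.1; omega
        · rfl

include h D in
/-- the darts at `y` that are not swept are the new slots -/
lemma VData.at_y {x : X} (hx : A.vt x = y) (g : ¬ A.Gone σ B x) :
    ∃ s : ι × Bool, σ'.alive s.1 ∧ A.v s.1 (σ'.idx s 0) = y ∧ A.out σ' s 0 = x := by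
  obtain ⟨i, k, e, rfl⟩ := A.surj x
  rw [vt_dart] at hx
  have fin : σ'.alive i → A.v i (σ'.idx (i, e) 0) = y → ∃ s : ι × Bool, σ'.alive s.1 ∧
      A.v s.1 (σ'.idx s 0) = y ∧ A.out σ' s 0 = A.dart i k e := fun a c =>
    ⟨(i, e), a, c, A.dart_of_vt e (c.trans hx.symm)⟩
  by_cases b : σ.born i
  · obtain ⟨d, l, l0, l1, e1⟩ := h.unB i k b (hx ▸ D.hy)
    have nb : ¬ B (oth (i, e)) := fun c => g ⟨_, c, Or.inr (by
      unfold inn
      simp only [oth, Bool.not_not]
      exact A.dart_of_vt e (hx.trans (D.b2 _ c).2.2.symm))⟩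
    have a := D.alive_new (s := (i, e)) ⟨b, d⟩ fun c => nb c.2
    obtain ⟨n, n0, n1, e2⟩ := h.exists_idx (s := (i, e)) b l0 l1
    exact fin a ((D.new_iff h (s := (i, e)) a).2 (Or.inr ((D.b4 (i, e) ⟨b, d⟩
      ⟨n, n0, n1, by rw [e2]; exact e1.trans hx⟩).resolve_right nb)))
  · have a : σ'.alive i := ⟨(D.born i).2 (Or.inr ⟨k, hx⟩), fun d => ((D.dead i).1 d).elim
      (fun d => b (h.db i d)) fun d => b (D.b2 _ d.1).1.1⟩
    exact fin a ((D.new_iff h (s := (i, e)) a).2 (Or.inl b))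

include h D in
lemma VData.len_pos {i : ι} (b : σ'.born i) : σ'.β i < σ'.α i := by
  by_cases c : σ.born i
  · have h1 := D.hβ i c
    have h2 := D.hα i c
    have h3 := h.len_eq c
    have h4 := h.lt i c
    have h5 : B (i, true) → 1 < σ.len i := fun c => (D.b2 _ c).2.1
    have h6 : B (i, false) → 1 < σ.len i := fun c => (D.b2 _ c).2.1
    by_cases c1 : B (i, true) <;> by_cases c2 : B (i, false) <;> simp [c1, c2] at h1 h2 h5 h6 <;> omega
  · have := (D.new i c b).2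
    have := A.mpos i
    omega

include h D in
lemma VData.not_gone {s : ι × Bool} (a : σ'.alive s.1) : ¬ A.Gone σ B (A.out σ' s 0) :=
  ((D.act_iff h).1 (Or.inr ⟨s, a, 0, by have := D.len_pos h a.1; unfold St.len; omega, rfl⟩)).2

include h D in
lemma VData.off_lt {s : ι × Bool} (a : σ'.alive s.1) (c : A.v s.1 (σ'.idx s 0) = y) :
    off r M (A.pos (A.out σ' s 0)) < M := by
  have h1 := D.hr _ ((A.vt_out σ' s 0).trans c) fun b hb e => D.not_gone h a ⟨b, hb, Or.inr e⟩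
  have h2 := D.hM (A.out σ' s 0)
  have h3 := D.rM
  unfold off
  split_ifs <;> omega

include h D in
lemma VData.key_old {s : ι × Bool} (a : σ.alive s.1) (c : ¬ B s) :
    σ'.key s = σ.key s * M ∧ σ.key s ≠ K := by
  have a' := D.alive_new a fun d => c d.1
  rw [D.key, if_neg fun e => ((D.new_iff h a').1 e).elim (fun d => d a.1) c]
  exact ⟨rfl, (D.hK s a c).1⟩

include h D in
lemma VData.lt_new {s u : ι × Bool} (a : σ.alive s.1) (c : ¬ B s) (a' : σ'.alive u.1)
    (c' : A.v u.1 (σ'.idx u 0) = y) :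
    (σ'.key s < σ'.key u ↔ σ.key s < K) ∧ (σ'.key u < σ'.key s ↔ K < σ.key s) := by
  obtain ⟨e1, e2⟩ := D.key_old h a c
  have e3 := D.off_lt h a' c'
  rw [e1, D.key u, if_pos c']
  rcases lt_or_gt_of_ne e2 with c | c
  · have := Nat.mul_le_mul_right M (Nat.succ_le_of_lt c)
    rw [Nat.succ_mul] at this
    omega
  · have := Nat.mul_le_mul_right M (Nat.succ_le_of_lt c)
    rw [Nat.succ_mul] at this
    omega

include h D in
lemma VData.lt_old {s u : ι × Bool} (a : σ.alive s.1) (c : ¬ B s) (a' : σ.alive u.1) (c' : ¬ B u) :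
    σ'.key s < σ'.key u ↔ σ.key s < σ.key u := by
  rw [(D.key_old h a c).1, (D.key_old h a' c').1]
  exact Nat.mul_lt_mul_right (lt_of_le_of_lt (Nat.zero_le _) (D.hM (A.out σ s 0)))

end Arr

end Pool.Agent.Lib.MP_65c801_co
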