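import Pool.Agent.Lib.MP_65c801_co.Moves

/-! The move over a vertex keeps the invariant. -/

namespace Pool.Agent.Lib.MP_65c801_co

open Finset Classical

lemma off_par {r M p q : ℕ} (h1 : p ≠ r) (h2 : q ≠ r) (h3 : p < M) (h4 : q < M) (h5 : r ≤ M) :
    ((if q < p then 1 else 0) + (if r < p then 1 else 0) : ZMod 2) =
      (if q < r then 1 else 0) + 1 + (if off r M q < off r M p then 1 else 0) := by
  unfold off
  split_ifs <;> first | rfl | omega

lemma off_inj {r M p q : ℕ} (h3 : p < M) (h4 : q < M) (h5 : r ≤ M) (h : off r M p = off r M q) :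
    p = q := by
  unfold off at h
  split_ifs at h <;> omega

namespace Arr

variable {ι X Vx : Type} [Fintype X] {A : Arr ι X Vx} {σ σ' : St ι Vx}
  {y : Vx} {B : ι × Bool → Prop} {K r M : ℕ} [Fintype ι] (h : A.Inv σ) (D : A.VData σ σ' y B K r M)

include h D

lemma VData.step : A.Step σ σ' := by
  have mvB : ∀ s : ι × Bool, σ.born s.1 → mv σ σ' s → B s ∧ ¬ B (oth s) := fun s b c => by
    by_contra d
    exact c (by rw [D.idx_eq b, if_neg d])
  have quiet : ∀ i j, A.Quiet σ σ' i j → (∃ k, A.v i k = y) → ∀ l, A.v j l ≠ y := by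
    rintro i j q ⟨k, e⟩ l e'
    have := q k l (e.trans e'.symm) (e ▸ D.hy)
    rw [D.un, e] at this
    simp at this
  have yn : y ∉ σ'.Un := by rw [D.un]; simp
  refine ⟨fun i b => (D.born i).2 (Or.inl b), fun i d => (D.dead i).2 (Or.inl d),
    fun i b d => ((D.dead i).1 d).elim (fun d => b (h.db i d)) fun d => b (D.b2 _ d.1).1.1,
    D.un ▸ erase_subset _ _, fun a b a1 a2 b1 b2 => ?_, fun s u a a' b b' c => ?_, fun s b c => ?_,
    fun i b b' => ?_, fun i a d => ?_⟩
  · rw [D.un, mem_erase] at a2 b2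
    have : a = y := by tauto
    have : b = y := by tauto
    simp [*]
  · have mB : ∀ s : ι × Bool, σ.alive s.1 → σ'.alive s.1 → B s → mv σ σ' s := fun s a a' c e => by
      rw [D.idx_eq a.1, if_pos ⟨c, fun d => D.not_both a' ⟨c, d⟩⟩] at e
      unfold St.idx at e
      split_ifs at e <;> omega
    by_cases c1 : B s <;> by_cases c2 : B u
    · exact absurd ⟨mB s a a' c1, mB u b b' c2⟩ c
    · rw [(D.lt_new h b c2 a' ((D.new_iff h a').2 (Or.inr c1))).2]
      have := (D.hK u b c2).2 s c1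
      have := (D.hK u b c2).1
      have := h.key_ne a b (by rintro rfl; exact c2 c1)
      omega
    · rw [(D.lt_new h a c1 b' ((D.new_iff h b').2 (Or.inr c2))).1]
      exact (D.hK s a c1).2 u c2
    · exact (D.lt_old h a c1 b c2).symm
  · obtain ⟨c1, c2⟩ := mvB s b c
    have e := (D.b2 s c1).2.2
    refine ⟨by rw [D.idx_eq b, if_pos ⟨c1, c2⟩], fun d => c2 (mvB (oth s) b d).1, e ▸ D.hy, e ▸ yn,
      (D.alive_new (D.b2 s c1).1 fun d => c2 d.2).2⟩
  · obtain ⟨e1, e2⟩ := D.new i b b'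
    refine ⟨e2, e1 ▸ D.hy, e1 ▸ yn, fun s a ne q => ?_⟩
    have n := quiet i s.1 q ⟨_, e1⟩
    have nn := mt (D.new_iff h a).2 (n _)
    push Not at nn
    have ai : σ'.alive i := ⟨b', fun d => ((D.dead i).1 d).elim (fun d => b (h.db i d))
      fun d => b (D.b2 _ d.1).1.1⟩
    refine ⟨nn.1, ?_⟩
    rw [(D.lt_new h (D.alive_old a nn.1) nn.2 (u := (i, true)) ai
      ((D.new_iff h (s := (i, true)) ai).2 (Or.inl b))).1,
      (D.lt_new h (D.alive_old a nn.1) nn.2 (u := (i, false)) ai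
      ((D.new_iff h (s := (i, false)) ai).2 (Or.inl b))).1]
  · obtain ⟨c1, c2⟩ := ((D.dead i).1 d).resolve_left a.2
    have l := D.len_two h (s := (i, true)) c1 c2
    have l2 := h.len_eq a.1
    refine ⟨by simp only at l; omega, fun s as ne q => ?_⟩
    have n := quiet i s.1 q ⟨_, (D.b2 _ c1).2.2⟩
    have nB : ¬ B s := fun c => n _ (D.b2 _ c).2.2
    refine ⟨(D.alive_new as fun c => nB c.1).2, ?_⟩
    rw [(D.hK s as nB).2 _ c1, (D.hK s as nB).2 _ c2]

lemma VData.sum_new (z : X → ZMod 2) (Q : X → Prop) [DecidablePred Q] :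
    ∑ u ∈ univ.filter (fun u : ι × Bool => (σ'.alive u.1 ∧ A.v u.1 (σ'.idx u 0) = y) ∧
      Q (A.out σ' u 0)), z (A.out σ' u 0) =
    ∑ x ∈ univ.filter (fun x => (A.vt x = y ∧ ¬ A.Gone σ B x) ∧ Q x), z x := by
  refine sum_bij (fun u _ => A.out σ' u 0) (fun u hu => ?_) (fun u _ u' _ e => ?_) (fun x hx => ?_)
    fun _ _ => rfl
  · simp only [mem_filter, mem_univ, true_and] at hu ⊢
    exact ⟨⟨(A.vt_out σ' u 0).trans hu.1.2, D.not_gone h hu.1.1⟩, hu.2⟩
  · obtain ⟨a1, a2, -⟩ := (A.deq _ _ _ _ _ _).1 e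
    exact Prod.ext a1 a2
  · simp only [mem_filter, mem_univ, true_and] at hx ⊢
    obtain ⟨s, a, c, rfl⟩ := D.at_y h hx.1.1 hx.1.2
    exact ⟨s, ⟨⟨a, c⟩, hx.2⟩, rfl⟩

lemma VData.inv (core : ∀ z : X → ZMod 2, (∀ x, A.Act σ' x → z (A.bar x) = z x) →
    (∀ y ∈ σ'.Un, ∑ x ∈ univ.filter (fun x => A.vt x = y), z x = 0) →
    ∃ (w : X → ZMod 2) (f : Vx → ZMod 2) (g : ZMod 2), (∀ x, A.Act σ' x → w (A.bar x) = w x + z x) ∧
      (∀ x, A.vt x ∈ σ'.Un →
        w x = f (A.vt x) + ∑ y ∈ univ.filter (fun y => A.vt y = A.vt x ∧ A.pos y < A.pos x), z y) ∧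
      (∀ x, A.vt x = y → ¬ A.Gone σ B x → w x = g + (∑ u ∈ univ.filter
        (fun u : ι × Bool => (σ.alive u.1 ∧ ¬ B u) ∧ σ.key u < K), z (A.out σ u 0) +
        ∑ u ∈ univ.filter (fun u => (A.vt u = y ∧ ¬ A.Gone σ B u) ∧
          off r M (A.pos u) < off r M (A.pos x)), z u)) ∧
      ∀ s : ι × Bool, σ.alive s.1 → ¬ B s → w (A.out σ s 0) = g + (∑ u ∈ univ.filter
        (fun u : ι × Bool => (σ.alive u.1 ∧ ¬ B u) ∧ σ.key u < σ.key s), z (A.out σ u 0) +
        ∑ u ∈ univ.filter (fun u => (A.vt u = y ∧ ¬ A.Gone σ B u) ∧ K < σ.key s), z u)) :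
    A.Inv σ' := by
  have old : ∀ s : ι × Bool, σ'.alive s.1 → ¬ A.v s.1 (σ'.idx s 0) = y → σ.alive s.1 ∧ ¬ B s :=
    fun s a c => by
      have nn := mt (D.new_iff h a).2 c
      push Not at nn
      exact ⟨D.alive_old a nn.1, nn.2⟩
  have old' : ∀ s : ι × Bool, σ.alive s.1 → ¬ B s → σ'.alive s.1 ∧ ¬ A.v s.1 (σ'.idx s 0) = y :=
    fun s a c => by
      have a' := D.alive_new a fun d => c d.1
      exact ⟨a', fun e => ((D.new_iff h a').1 e).elim (fun d => d a.1) c⟩
  have oute : ∀ s : ι × Bool, σ.alive s.1 → ¬ B s → A.out σ' s 0 = A.out σ s 0 := fun s a c => by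
    unfold out; rw [D.idx_eq a.1, if_neg fun d => c d.1]
  have bT : ∀ i, B (i, true) → A.v i (σ.β i + 1) = y ∧ σ.β i + 1 < σ.α i := fun i c => by
    obtain ⟨a, l, e⟩ := D.b2 _ c
    have := h.len_eq a.1
    exact ⟨by simpa [St.idx] using e, by simp only at l this; omega⟩
  have bF : ∀ i, B (i, false) → A.v i (σ.α i - 1) = y ∧ σ.β i + 1 < σ.α i := fun i c => by
    obtain ⟨a, l, e⟩ := D.b2 _ c
    have := h.len_eq a.1
    exact ⟨by simpa [St.idx] using e, by simp only at l this; omega⟩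
  refine ⟨fun i d => ?_, fun i b => D.len_pos h b, fun i b => ?_, fun s u a b e => ?_,
    fun i k b => ?_, fun i k a k0 k1 => ?_, fun i k b c => ?_, fun z z1 z2 => ?_⟩
  · exact (D.born i).2 (Or.inl (((D.dead i).1 d).elim (h.db i) fun d => (D.b2 _ d.1).1.1))
  · by_cases c : σ.born i
    · have h1 := D.hβ i c
      have h2 := D.hα i c
      have h3 := h.le i c
      split_ifs at h1 h2 <;> omega
    · exact (D.new i c b).2.le
  · by_cases c1 : A.v s.1 (σ'.idx s 0) = y <;> by_cases c2 : A.v u.1 (σ'.idx u 0) = y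
    · rw [D.key, D.key, if_pos c1, if_pos c2] at e
      have := A.pinj _ _ (by rw [vt_out, vt_out, c1, c2])
        (off_inj (D.hM _) (D.hM _) D.rM (Nat.add_left_cancel e))
      obtain ⟨a1, a2, -⟩ := (A.deq _ _ _ _ _ _).1 this
      exact Prod.ext a1 a2
    · have := D.lt_new h (old u b c2).1 (old u b c2).2 a c1
      have := (D.key_old h (old u b c2).1 (old u b c2).2).2
      omega
    · have := D.lt_new h (old s a c1).1 (old s a c1).2 b c2
      have := (D.key_old h (old s a c1).1 (old s a c1).2).2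
      omega
    · have := D.lt_old h (old s a c1).1 (old s a c1).2 (old u b c2).1 (old u b c2).2
      have := D.lt_old h (old u b c2).1 (old u b c2).2 (old s a c1).1 (old s a c1).2
      exact h.kinj s u (old s a c1).1 (old u b c2).1 (by omega)
  · rw [D.born, not_or] at b
    rw [D.un, mem_erase]
    exact ⟨fun c => b.2 ⟨k, c⟩, h.unU i k b.1⟩
  · rw [D.un, mem_erase]
    by_cases c : σ.born i
    · have h1 := D.hβ i c
      have h2 := D.hα i c
      have h3 := h.le i c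
      have nb := D.not_both (s := (i, true)) a
      have k2 : σ.β i < k ∧ k < σ.α i := by split_ifs at h1 h2 <;> omega
      refine ⟨fun e => ?_, h.unA i k (D.alive_old a c) k2.1 k2.2⟩
      obtain ⟨n, n0, n1, e2⟩ := h.exists_idx (s := (i, true)) c k2.1 k2.2
      rcases D.b4 (i, true) (D.alive_old a c) ⟨n, n0, n1, by rw [e2]; exact e⟩ with d | d
      · have := A.v_inj ((bT i d).1.trans e.symm) (by omega) (by omega)
        rw [if_pos ⟨d, fun d' => nb ⟨d, d'⟩⟩] at h1
        omega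
      · have := A.v_inj ((bF i d).1.trans e.symm) (by omega) (by omega)
        rw [if_pos ⟨d, fun d' => nb ⟨d', d⟩⟩] at h2
        omega
    · obtain ⟨e1, e2⟩ := D.new i c a.1
      refine ⟨fun e => ?_, h.unU i k c⟩
      have := A.v_inj (e1.trans e.symm) (by omega) (by omega)
      omega
  · rw [D.un, mem_erase] at c
    by_cases b' : σ.born i
    · obtain ⟨d, l, l0, l1, e⟩ := h.unB i k b' c.2
      have h1 := D.hβ i b'
      have h2 := D.hα i b'
      have n1 : B (i, true) → l ≠ σ.β i + 1 := by rintro d rfl; exact c.1 (e.symm.trans (bT i d).1)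
      have n2 : B (i, false) → l ≠ σ.α i - 1 := by rintro d rfl; exact c.1 (e.symm.trans (bF i d).1)
      refine ⟨fun d' => ?_, l, ?_, ?_, e⟩
      · obtain ⟨d1, d2⟩ := ((D.dead i).1 d').resolve_left d
        have := D.len_two h (s := (i, true)) d1 d2
        have := h.len_eq b'
        have := n1 d1
        simp only at *
        omega
      · split_ifs at h1 with d'
        · have := n1 d'.1; omega
        · omega
      · split_ifs at h2 with d'
        · have := n2 d'.1; omega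
        · omega
    · obtain ⟨e1, e2⟩ := D.new i b' b
      have hm := A.mpos i
      have m1 := Int.emod_lt_of_pos (k - σ'.β i) (show (0 : ℤ) < A.m i by omega)
      have m2 := Int.emod_nonneg (k - σ'.β i) (show (A.m i : ℤ) ≠ 0 by omega)
      have e3 : A.v i (σ'.β i + (k - σ'.β i) % A.m i) = A.v i k :=
        A.v_eq_of_dvd ⟨-((k - σ'.β i) / A.m i), by rw [Int.emod_def]; ring⟩
      refine ⟨fun d => ((D.dead i).1 d).elim (fun d => b' (h.db i d)) fun d => b' (D.b2 _ d.1).1.1,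
        _, ?_, by omega, e3⟩
      rcases m2.eq_or_lt with m3 | m3
      · rw [← m3, add_zero] at e3
        exact absurd (e3.symm.trans e1) c.1
      · omega
  · obtain ⟨w, f, g, w1, w2, w3, w4⟩ := core z z1 z2
    refine ⟨w, f, g, w1, w2, fun s a => ?_⟩
    rw [← sum_filter_add_sum_filter_not _ (fun u : ι × Bool => ¬ A.v u.1 (σ'.idx u 0) = y),
      filter_filter, filter_filter]
    by_cases c : A.v s.1 (σ'.idx s 0) = y
    · rw [w3 _ ((A.vt_out σ' s 0).trans c) (D.not_gone h a), ← D.sum_new h]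
      congr 2
      · refine sum_congr (filter_congr fun u _ => ⟨fun ⟨⟨b, d⟩, e⟩ => ?_, fun ⟨⟨b, e⟩, d⟩ => ?_⟩)
          fun u hu => ?_
        · exact ⟨⟨(old' u b d).1, (D.lt_new h b d a c).1.2 e⟩, (old' u b d).2⟩
        · exact ⟨old u b d, (D.lt_new h (old u b d).1 (old u b d).2 a c).1.1 e⟩
        · obtain ⟨⟨b, -⟩, d⟩ := (mem_filter.1 hu).2
          rw [oute u (old u b d).1 (old u b d).2]
      · refine sum_congr (filter_congr fun u _ => ⟨fun ⟨⟨b, d⟩, e⟩ => ⟨⟨b, ?_⟩, not_not.2 d⟩,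
          fun ⟨⟨b, e⟩, d⟩ => ⟨⟨b, not_not.1 d⟩, ?_⟩⟩) fun _ _ => rfl
        · rw [D.key, D.key, if_pos c, if_pos d]; omega
        · rw [D.key, D.key, if_pos c, if_pos (not_not.1 d)] at e; omega
    · obtain ⟨a1, a2⟩ := old s a c
      rw [oute s a1 a2, w4 s a1 a2, ← D.sum_new h z (fun _ => K < σ.key s)]
      congr 2
      · refine sum_congr (filter_congr fun u _ => ⟨fun ⟨⟨b, d⟩, e⟩ => ?_, fun ⟨⟨b, e⟩, d⟩ => ?_⟩)
          fun u hu => ?_
        · exact ⟨⟨(old' u b d).1, (D.lt_old h b d a1 a2).2 e⟩, (old' u b d).2⟩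
        · exact ⟨old u b d, (D.lt_old h (old u b d).1 (old u b d).2 a1 a2).1 e⟩
        · obtain ⟨⟨b, -⟩, d⟩ := (mem_filter.1 hu).2
          rw [oute u (old u b d).1 (old u b d).2]
      · exact sum_congr (filter_congr fun u _ => ⟨fun ⟨⟨b, d⟩, e⟩ =>
          ⟨⟨b, (D.lt_new h a1 a2 b d).2.2 e⟩, not_not.2 d⟩,
          fun ⟨⟨b, e⟩, d⟩ => ⟨⟨b, not_not.1 d⟩, (D.lt_new h a1 a2 b (not_not.1 d)).2.1 e⟩⟩)
          fun _ _ => rfl

end Arr

end Pool.Agent.Lib.MP_65c801_co
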