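import Pool.Agent.Lib.MP_65c801_co.Moves2

/-! The sweep can always be continued. -/

namespace Pool.Agent.Lib.MP_65c801_co

open Finset Classical

namespace Arr

variable {ι X Vx : Type} [Fintype X] {A : Arr ι X Vx} {σ σ' : St ι Vx}
  {y : Vx} {B : ι × Bool → Prop} {K r M : ℕ} [Fintype ι] (h : A.Inv σ) (D : A.VData σ σ' y B K r M)

include h D

lemma VData.inv_slot {b0 : ι × Bool} (hb : B b0) (eK : K = σ.key b0) (er : r = A.pos (A.inn σ b0 1)) :
    A.Inv σ' := by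
  refine D.inv h fun z z1 z2 => ?_
  obtain ⟨c, hc⟩ : ∃ c, c = ∑ x ∈ univ.filter (fun x => A.vt x = y ∧ ¬ A.Gone σ B x), z x := ⟨_, rfl⟩
  obtain ⟨Z, hZ⟩ : ∃ Z : X → ZMod 2, ∀ x, Z x = if A.Gone σ B x then
    (if x = A.out σ b0 0 ∨ x = A.inn σ b0 1 then c else 0) else z x := ⟨_, fun _ => rfl⟩
  have a0 := (D.b2 b0 hb).1
  have iy : A.vt (A.inn σ b0 1) = y := (A.vt_inn σ b0 1).trans (D.b2 b0 hb).2.2
  have ou : ∀ s : ι × Bool, σ.alive s.1 → A.vt (A.out σ s 0) ∉ σ.Un := fun s a => by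
    rw [vt_out]; exact h.not_mem_Un a.1
  have gy : ∀ x, A.Gone σ B x → A.vt x ∈ σ.Un → A.vt x = y := by
    rintro x ⟨b, hb, rfl | rfl⟩ hx
    · exact absurd hx (ou b (D.b2 b hb).1)
    · exact (A.vt_inn σ b 1).trans (D.b2 b hb).2.2
  have s1 : ∀ (Q : X → Prop) [DecidablePred Q], ∑ x ∈ univ.filter (fun x => A.vt x = y ∧ Q x), Z x =
      ∑ x ∈ univ.filter (fun x => (A.vt x = y ∧ ¬ A.Gone σ B x) ∧ Q x), z x +
        if Q (A.inn σ b0 1) then c else 0 := fun Q _ => by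
    rw [← sum_filter_add_sum_filter_not _ (fun x => ¬ A.Gone σ B x), filter_filter, filter_filter]
    congr 1
    · exact sum_congr (filter_congr fun x _ => by tauto) fun x hx => by
        rw [hZ, if_neg (mem_filter.1 hx).2.1.2]
    · have g0 : A.Gone σ B (A.inn σ b0 1) := ⟨b0, hb, Or.inr rfl⟩
      rw [sum_congr rfl (g := fun x => if x = A.inn σ b0 1 then c else 0) (fun x hx => by
        obtain ⟨⟨x1, -⟩, x2⟩ := (mem_filter.1 hx).2
        have : x ≠ A.out σ b0 0 := by rintro rfl; exact ou b0 a0 (x1 ▸ D.hy)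
        rw [hZ, if_pos (not_not.1 x2)]
        simp [this]), sum_ite_eq']
      simp [iy, g0]
  have s2 : ∀ y' ∈ σ'.Un, ∀ x, A.vt x = y' → Z x = z x := fun y' hy x hx => by
    rw [D.un, mem_erase] at hy
    rw [hZ, if_neg fun g => hy.1 (hx ▸ gy x g (hx ▸ hy.2))]
  have s3 : ∀ p, ∑ u ∈ univ.filter (fun u : ι × Bool => σ.alive u.1 ∧ σ.key u < p), Z (A.out σ u 0) =
      ∑ u ∈ univ.filter (fun u : ι × Bool => (σ.alive u.1 ∧ ¬ B u) ∧ σ.key u < p), z (A.out σ u 0) +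
        if K < p then c else 0 := fun p => by
    rw [← sum_filter_add_sum_filter_not _ (fun u => ¬ B u), filter_filter, filter_filter]
    congr 1
    · refine sum_congr (filter_congr fun x _ => by tauto) fun u hu => ?_
      obtain ⟨⟨u1, u2⟩, -⟩ := (mem_filter.1 hu).2
      rw [hZ, if_neg]
      rintro ⟨b, hb, e | e⟩
      · exact u2 ((h.out_inj u1.1 (h.len_pos u1.1) (h.len_pos (D.b2 b hb).1.1) e).1 ▸ hb)
      · exact ou u u1 (by rw [e, vt_inn, (D.b2 b hb).2.2]; exact D.hy)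
    · rw [sum_congr rfl (g := fun u => if u = b0 then c else 0) (fun u hu => by
        obtain ⟨⟨u1, -⟩, u2⟩ := (mem_filter.1 hu).2
        have e1 : A.out σ u 0 ≠ A.inn σ b0 1 := fun e => ou u u1 (by rw [e, iy]; exact D.hy)
        have e2 : A.out σ u 0 = A.out σ b0 0 ↔ u = b0 :=
          ⟨fun e => (h.out_inj u1.1 (h.len_pos u1.1) (h.len_pos a0.1) e).1, fun e => e ▸ rfl⟩
        rw [hZ, if_pos ⟨u, not_not.1 u2, Or.inl rfl⟩]
        simp [e1, e2]), sum_ite_eq']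
      simp [a0, hb, eK]
  obtain ⟨w, f, g, w1, w2, w3⟩ := h.planar Z (fun x hx => by
    rw [hZ, hZ, gone_bar]
    by_cases c : A.Gone σ B x
    · rw [if_pos c, if_pos c]
      have a : A.bar x = A.out σ b0 0 ↔ x = A.inn σ b0 1 :=
        ⟨fun e => by rw [← A.bar_out σ b0 0, ← e, A.bar_bar],
          fun e => by rw [e, ← A.bar_out σ b0 0, A.bar_bar]⟩
      have b : A.bar x = A.inn σ b0 1 ↔ x = A.out σ b0 0 :=
        ⟨fun e => by rw [← A.bar_bar x, e, ← A.bar_out σ b0 0, A.bar_bar],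
          fun e => by rw [e, A.bar_out]⟩
      simp only [a, b, or_comm]
    · rw [if_neg c, if_neg c]
      exact z1 x ((D.act_iff h).2 ⟨hx, c⟩)) (fun y' hy => by
    by_cases e : y' = y
    · subst e
      have := s1 (fun _ => True)
      simp only [and_true, if_true] at this
      rw [this, ← hc, z2_add_self]
    · have hy' : y' ∈ σ'.Un := by rw [D.un, mem_erase]; exact ⟨e, hy⟩
      rw [← z2 y' hy']
      exact sum_congr rfl fun x hx => s2 y' hy' x (mem_filter.1 hx).2)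
  refine ⟨w, f, g, fun x hx => ?_, fun x hx => ?_, fun x hx gx => ?_, fun s a nb => ?_⟩
  · obtain ⟨a, b⟩ := (D.act_iff h).1 hx
    rw [w1 x a, hZ, if_neg b]
  · rw [w2 x (mem_of_mem_erase (D.un ▸ hx))]
    exact congrArg _ (sum_congr rfl fun u hu => s2 _ hx u (mem_filter.1 hu).2.1)
  · have p1 := w2 x (hx ▸ D.hy)
    have p2 := w2 _ (iy ▸ D.hy)
    have p3 := w1 _ (h.act_out a0 (h.len_pos a0.1))
    rw [hx, s1] at p1
    rw [iy, s1, if_neg (lt_irrefl _), add_zero, ← er] at p2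
    rw [bar_out, w3 b0 a0, s3, ← eK, if_neg (lt_irrefl _), add_zero, hZ,
      if_pos ⟨b0, hb, Or.inl rfl⟩, if_pos (Or.inl rfl), p2] at p3
    have hN : ∀ (Q : X → Prop) [DecidablePred Q],
        ∑ x ∈ univ.filter (fun x => (A.vt x = y ∧ ¬ A.Gone σ B x) ∧ Q x), z x =
        ∑ x ∈ univ.filter (fun x => A.vt x = y ∧ ¬ A.Gone σ B x), (if Q x then 1 else 0) * z x :=
      fun Q _ => by
        rw [← filter_filter, sum_filter]
        exact sum_congr rfl fun x _ => by split_ifs <;> simp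
    have hr : ∀ x, A.vt x = y → ¬ A.Gone σ B x → A.pos x ≠ r := fun x a b =>
      D.hr x a fun u hu e => b ⟨u, hu, Or.inr e⟩
    have key : ∑ u ∈ univ.filter (fun u => (A.vt u = y ∧ ¬ A.Gone σ B u) ∧ A.pos u < A.pos x), z u +
        (if r < A.pos x then c else 0) =
        ∑ u ∈ univ.filter (fun u => (A.vt u = y ∧ ¬ A.Gone σ B u) ∧ A.pos u < r), z u + c +
        ∑ u ∈ univ.filter (fun u => (A.vt u = y ∧ ¬ A.Gone σ B u) ∧
          off r M (A.pos u) < off r M (A.pos x)), z u := by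
      rw [hN, hN, hN, show (if r < A.pos x then c else 0) = (if r < A.pos x then 1 else 0) * c by
        split_ifs <;> simp, hc, mul_sum, ← sum_add_distrib, ← sum_add_distrib, ← sum_add_distrib]
      refine sum_congr rfl fun u hu => ?_
      obtain ⟨u1, u2⟩ := (mem_filter.1 hu).2
      rw [← add_mul, off_par (hr x hx gx) (hr u u1 u2) (D.hM x) (D.hM u) D.rM]
      ring
    rw [p1, ← er, key, ← add_assoc, ← add_assoc, p3, add_assoc _ c c, z2_add_self, add_zero, add_assoc]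
  · rw [w3 s a, s3]
    congr 2
    split_ifs with c <;> simp [c, hc]

lemma VData.inv_start (na : ∀ i, ¬ σ.alive i) (er : r = M) : A.Inv σ' := by
  refine D.inv h fun z z1 z2 => ?_
  have ng : ∀ x, ¬ A.Gone σ B x := fun x ⟨b, hb, _⟩ => na _ (D.b2 b hb).1
  have zb : ∀ x, A.Act σ x → z (A.bar x) = z x := fun x hx => z1 x ((D.act_iff h).2 ⟨hx, ng x⟩)
  have au : ∀ x, A.vt x ∈ σ.Un ↔ ∃ i k e, ¬ σ.born i ∧ x = A.dart i k e := fun x => by
    obtain ⟨i, k, e, rfl⟩ := A.surj x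
    rw [vt_dart]
    refine ⟨fun c => ⟨i, k, e, fun b => na i ⟨b, (h.unB i k b c).1⟩, rfl⟩, ?_⟩
    rintro ⟨j, l, e', b, c⟩
    exact h.unU i k (A.fst_eq_of_dart c ▸ b)
  have hs : ∑ x ∈ univ.filter (fun x => A.vt x ∈ σ.Un), z x = 0 :=
    sum_involution (fun x _ => A.bar x) (fun x hx => by
      rw [zb x (Or.inl ((au x).1 (mem_filter.1 hx).2)), z2_add_self]) (fun x _ _ => A.bar_ne x)
      (fun x hx => by
        obtain ⟨i, k, e, b, rfl⟩ := (au x).1 (mem_filter.1 hx).2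
        exact mem_filter.2 ⟨mem_univ _, (au _).2 ⟨i, _, _, b, A.bar_dart i k e⟩⟩)
      (fun x _ => A.bar_bar x)
  rw [← sum_fiberwise_of_maps_to (t := σ.Un) (g := A.vt) (fun x hx => (mem_filter.1 hx).2),
    ← add_sum_erase _ _ D.hy, ← D.un, sum_eq_zero (s := σ'.Un) (fun y' hy => by
      rw [← z2 y' hy, filter_filter]
      exact sum_congr (filter_congr fun x _ => ⟨fun c => c.2, fun c =>
        ⟨c ▸ mem_of_mem_erase (D.un ▸ hy), c⟩⟩) fun _ _ => rfl), add_zero, filter_filter] at hs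
  obtain ⟨w, f, g, w1, w2, -⟩ := h.planar z zb (fun y' hy => by
    by_cases e : y' = y
    · rw [← hs, e]
      exact sum_congr (filter_congr fun x _ => ⟨fun c => ⟨c ▸ D.hy, c⟩, fun c => c.2⟩) fun _ _ => rfl
    · exact z2 y' (by rw [D.un, mem_erase]; exact ⟨e, hy⟩))
  refine ⟨w, f, f y, fun x hx => w1 x ((D.act_iff h).1 hx).1,
    fun x hx => w2 x (mem_of_mem_erase (D.un ▸ hx)), fun x hx _ => ?_, fun s a => absurd a (na _)⟩
  have ho : ∀ x, off r M (A.pos x) = A.pos x := fun x => by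
    have := D.hM x
    unfold off; split_ifs <;> omega
  rw [w2 x (hx ▸ D.hy), hx, sum_eq_zero (s := univ.filter fun u : ι × Bool => _)
    (fun u hu => absurd (mem_filter.1 hu).2.1.1 (na _)), zero_add]
  simp only [ho, ng, not_false_iff, and_true]

omit h D [Fintype ι] in
lemma exists_V (σ : St ι Vx) (y : Vx) (B : ι × Bool → Prop) (K r M : ℕ) : ∃ σ' : St ι Vx,
    (∀ i, σ'.born i ↔ σ.born i ∨ ∃ k, A.v i k = y) ∧
    (∀ i, σ'.dead i ↔ σ.dead i ∨ (B (i, true) ∧ B (i, false))) ∧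
    (∀ i, σ.born i → σ'.β i = σ.β i + if B (i, true) ∧ ¬ B (i, false) then 1 else 0) ∧
    (∀ i, σ.born i → σ'.α i = σ.α i - if B (i, false) ∧ ¬ B (i, true) then 1 else 0) ∧
    (∀ i, ¬ σ.born i → σ'.born i → A.v i (σ'.β i) = y ∧ σ'.α i = σ'.β i + A.m i) ∧
    (∀ s : ι × Bool, σ'.key s = if A.v s.1 (σ'.idx s 0) = y then
      K * M + off r M (A.pos (A.out σ' s 0)) else σ.key s * M) ∧ σ'.Un = σ.Un.erase y := by
  let τ : St ι Vx := ⟨fun i => σ.born i ∨ ∃ k, A.v i k = y,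
    fun i => σ.dead i ∨ (B (i, true) ∧ B (i, false)),
    fun i => if σ.born i then σ.β i + if B (i, true) ∧ ¬ B (i, false) then 1 else 0
      else epsilon fun k => A.v i k = y,
    fun i => if σ.born i then σ.α i - if B (i, false) ∧ ¬ B (i, true) then 1 else 0
      else (epsilon fun k => A.v i k = y) + A.m i, fun _ => 0, σ.Un.erase y⟩
  let κ : ι × Bool → ℕ := fun s => if A.v s.1 (τ.idx s 0) = y then
      K * M + off r M (A.pos (A.out τ s 0)) else σ.key s * M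
  refine ⟨{τ with key := κ}, fun _ => Iff.rfl, fun _ => Iff.rfl,
    fun i b => if_pos b, fun i b => if_pos b, fun i b b' => ?_, fun _ => rfl, rfl⟩
  simp only [τ, if_neg b, and_true]
  exact epsilon_spec (p := fun k => A.v i k = y) (b'.resolve_left b)

omit D in
lemma Inv.digon {i : ι} (a : σ.alive i) (l : σ.len i = 1)
    (adj : ∀ x : ι × Bool, σ.alive x.1 → ¬ btw (σ.key (i, true)) (σ.key (i, false)) (σ.key x)) :
    A.Inv {σ with dead := fun j => σ.dead j ∨ j = i} ∧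
      A.Step σ {σ with dead := fun j => σ.dead j ∨ j = i} := by
  set σ' : St ι Vx := {σ with dead := fun j => σ.dead j ∨ j = i} with hσ
  have al : ∀ j, σ'.alive j ↔ σ.alive j ∧ j ≠ i := fun j => by
    simp only [St.alive, hσ]; tauto
  have le := h.len_eq a.1
  constructor
  · refine ⟨fun j d => d.elim (h.db j) (by rintro rfl; exact a.1), h.lt, h.le,
      fun s u a b => h.kinj s u ((al _).1 a).1 ((al _).1 b).1, h.unU,
      fun j k a => h.unA j k ((al _).1 a).1, fun j k b c => ?_, fun z z1 z2 => ?_⟩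
    · obtain ⟨d, l', l0, l1, e⟩ := h.unB j k b c
      refine ⟨fun d' => d'.elim d ?_, l', l0, l1, e⟩
      rintro rfl; omega
    obtain ⟨Z, hZ⟩ : ∃ Z : X → ZMod 2, ∀ x, Z x =
      if ∃ e, x = A.out σ (i, e) 0 then 0 else z x := ⟨_, fun _ => rfl⟩
    have bo : ∀ e, A.bar (A.out σ (i, e) 0) = A.out σ (oth (i, e)) 0 := fun e => by
      rw [h.out_oth (s := (i, e)) a.1 (Nat.zero_le _), bar_out]; congr 1; simp [l]
    have gb : ∀ x, (∃ e, A.bar x = A.out σ (i, e) 0) ↔ ∃ e, x = A.out σ (i, e) 0 := fun x =>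
      ⟨fun ⟨e, c⟩ => ⟨!e, by rw [← A.bar_bar x, c, bo]; rfl⟩, fun ⟨e, c⟩ => ⟨!e, by rw [c, bo]; rfl⟩⟩
    have act : ∀ x, A.Act σ' x ↔ A.Act σ x ∧ ¬ ∃ e, x = A.out σ (i, e) 0 := fun x => by
      constructor
      · rintro (⟨j, k, e, b, rfl⟩ | ⟨s, as, k, k1, rfl⟩)
        · exact ⟨Or.inl ⟨j, k, e, b, rfl⟩, fun ⟨e, c⟩ => b (A.fst_eq_of_dart c ▸ a.1)⟩
        · exact ⟨Or.inr ⟨s, ((al _).1 as).1, k, k1, rfl⟩,
            fun ⟨e, c⟩ => ((al _).1 as).2 (A.fst_eq_of_dart c)⟩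
      · rintro ⟨⟨j, k, e, b, rfl⟩ | ⟨⟨j, e⟩, as, k, k1, rfl⟩, c⟩
        · exact Or.inl ⟨j, k, e, b, rfl⟩
        · refine Or.inr ⟨(j, e), (al _).2 ⟨as, ?_⟩, k, k1, rfl⟩
          rintro rfl
          refine c ⟨e, ?_⟩
          have k2 : k < σ.len j := k1
          rw [show k = 0 by omega]
    have s2 : ∀ x, A.vt x ∈ σ.Un → Z x = z x := fun x hx => by
      rw [hZ, if_neg]
      rintro ⟨e, rfl⟩
      rw [vt_out] at hx
      exact h.not_mem_Un (s := (i, e)) a.1 hx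
    obtain ⟨w, f, g, w1, w2, w3⟩ := h.planar Z (fun x hx => by
      rw [hZ, hZ]
      by_cases c : ∃ e, x = A.out σ (i, e) 0
      · rw [if_pos c, if_pos ((gb x).2 c)]
      · rw [if_neg c, if_neg (mt (gb x).1 c)]
        exact z1 x ((act x).2 ⟨hx, c⟩)) (fun y hy => by
      rw [← z2 y hy]
      exact sum_congr rfl fun x hx => s2 x ((mem_filter.1 hx).2 ▸ hy))
    refine ⟨w, f, g, fun x hx => ?_, fun x hx => ?_, fun s as => ?_⟩
    · rw [w1 x ((act x).1 hx).1, hZ, if_neg ((act x).1 hx).2]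
    · rw [w2 x hx]
      exact congrArg _ (sum_congr rfl fun u hu => s2 u ((mem_filter.1 hu).2.1 ▸ hx))
    · refine (w3 s ((al _).1 as).1).trans (congrArg _ ?_)
      rw [sum_filter, sum_filter]
      refine sum_congr rfl fun u _ => ?_
      by_cases c : u.1 = i
      · rw [hZ, if_pos (c := ∃ e, _) ⟨u.2, by rw [← c]⟩, ite_self,
          if_neg fun d => ((al _).1 d.1).2 c]
      · rw [hZ, if_neg (c := ∃ e, _) fun ⟨e, d⟩ => c (A.fst_eq_of_dart d)]
        simp only [al, c, ne_eq, not_false_iff, and_true]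
        rfl
  · refine ⟨fun _ b => b, fun _ d => Or.inl d, fun j b d => b (d.elim (h.db j) (by rintro rfl; exact a.1)),
      Subset.refl _, fun _ _ a b => absurd a b, fun _ _ _ _ _ _ _ => Iff.rfl,
      fun _ _ c => absurd rfl c, fun _ b b' => absurd b' b, fun j aj d => ?_⟩
    obtain rfl : j = i := d.resolve_left aj.2
    refine ⟨by omega, fun s as ne _ => ⟨((al _).2 ⟨as, ne⟩).2, ?_⟩⟩
    have := adj s as
    have := h.key_ne (u := (j, true)) as a (by rintro rfl; exact ne rfl)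
    have := h.key_ne (u := (j, false)) as a (by rintro rfl; exact ne rfl)
    unfold btw at *
    omega

/-- the measure of progress -/
noncomputable def mu (σ : St ι Vx) : ℕ := σ.Un.card + (univ.filter fun i => ¬ σ.dead i).card

lemma VData.mu_lt : mu σ' < mu σ := by
  have h1 : σ'.Un.card < σ.Un.card := D.un ▸ card_erase_lt_of_mem D.hy
  have h2 : (univ.filter fun i => ¬ σ'.dead i).card ≤ (univ.filter fun i => ¬ σ.dead i).card :=
    card_le_card fun i hi => mem_filter.2 ⟨mem_univ _, fun d =>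
      (mem_filter.1 hi).2 ((D.dead i).2 (Or.inl d))⟩
  unfold mu; omega

omit D in
theorem Inv.next (nf : ∃ i, ¬ σ.dead i) : ∃ σ', A.Inv σ' ∧ A.Step σ σ' ∧ mu σ' < mu σ := by
  obtain ⟨M, hM⟩ : ∃ M, ∀ x, A.pos x < M :=
    ⟨univ.sup A.pos + 1, fun x => Nat.lt_succ_of_le (le_sup (mem_univ x))⟩
  by_cases hal : ∃ i, σ.alive i
  · rcases h.move hal with ⟨i, a, l, adj⟩ | ⟨y, B, ⟨b0, hb⟩, b2, b3, b4⟩
    · refine ⟨_, (h.digon a l adj).1, (h.digon a l adj).2, Nat.add_lt_add_left (card_lt_card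
        ⟨fun j hj => ?_, fun c => ?_⟩) _⟩
      · simp only [mem_filter, mem_univ, true_and, not_or] at hj ⊢
        exact hj.1
      · have := c (mem_filter.2 ⟨mem_univ i, a.2⟩)
        simp at this
    · obtain ⟨σ', p1, p2, p3, p4, p5, p6, p7⟩ := exists_V (A := A) σ y B (σ.key b0)
        (A.pos (A.inn σ b0 1)) M
      obtain ⟨a0, l0, e0⟩ := b2 b0 hb
      have D : A.VData σ σ' y B (σ.key b0) (A.pos (A.inn σ b0 1)) M :=
        ⟨e0 ▸ h.mem_Un a0 one_pos l0, b2, b4, fun x a nb => by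
          have k0 := h.key_ne a a0 (by rintro rfl; exact nb hb)
          refine ⟨k0, fun b hb' => ?_⟩
          have k1 := h.key_ne a (b2 b hb').1 (by rintro rfl; exact nb hb')
          have := mt (b3 b b0 x hb' hb a) nb
          unfold btw at this
          omega, hM, (hM _).le, fun x hx ne => A.pos_ne (by rw [hx, vt_inn, e0]) (ne b0 hb),
          p1, p2, p3, p4, p5, p6, p7⟩
      exact ⟨σ', D.inv_slot h hb rfl rfl, D.step h, D.mu_lt h⟩
  · push Not at hal
    obtain ⟨i, d⟩ := nf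
    obtain ⟨σ', p1, p2, p3, p4, p5, p6, p7⟩ := exists_V (A := A) σ (A.v i 0) (fun _ => False) 0 M M
    have D : A.VData σ σ' (A.v i 0) (fun _ => False) 0 M M :=
      ⟨h.unU i 0 fun b => hal i ⟨b, d⟩, fun _ c => c.elim, fun d a => absurd a (hal _),
        fun d a => absurd a (hal _), hM, le_rfl, fun x _ _ => (hM x).ne, p1, p2, p3, p4, p5, p6, p7⟩
    exact ⟨σ', D.inv_start h hal rfl, D.step h, D.mu_lt h⟩

end Arr

end Pool.Agent.Lib.MP_65c801_co
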