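import Pool.Agent.Lib.MP_65c801_co.State

/-! Parity consequences of planarity. -/

namespace Pool.Agent.Lib.MP_65c801_co

open Finset Classical

lemma ite_btw {a b p : ℕ} (h1 : a ≠ p) (h2 : b ≠ p) :
    ((if a < p then 1 else 0) + (if b < p then 1 else 0) : ZMod 2) = if btw a b p then 1 else 0 := by
  unfold btw
  split_ifs <;> first | omega | rfl

lemma z2_cases (a : ZMod 2) : a = 0 ∨ a = 1 := by revert a; decide

lemma z2_add_self (a : ZMod 2) : a + a = 0 := by revert a; decide

lemma z2_flip (x g : ZMod 2) : ¬ (x + 1 + g = 1 ↔ x + g = 1) := by revert x g; decide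

namespace Arr

variable {ι X Vx : Type} [Fintype X] (A : Arr ι X Vx) (σ : St ι Vx)

/-- the indicator of the first `n` edges from the slot `s` -/
noncomputable def pind (s : ι × Bool) (n : ℕ) (x : X) : ZMod 2 :=
  ∑ k ∈ range n, ((if x = A.out σ s k then 1 else 0) + (if x = A.inn σ s (k + 1) then 1 else 0))

/-- the unswept part of the curve of `s` passes through `y` -/
def On (s : ι × Bool) (y : Vx) : Prop := ∃ n, 0 < n ∧ n < σ.len s.1 ∧ A.v s.1 (σ.idx s n) = y

lemma pind_bar (s : ι × Bool) (n : ℕ) (x : X) : A.pind σ s n (A.bar x) = A.pind σ s n x := by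
  refine sum_congr rfl fun k _ => ?_
  have a : A.bar x = A.out σ s k ↔ x = A.inn σ s (k + 1) :=
    ⟨fun e => by rw [← A.bar_out, ← e, A.bar_bar], fun e => by rw [e, ← A.bar_out, A.bar_bar]⟩
  have b : A.bar x = A.inn σ s (k + 1) ↔ x = A.out σ s k :=
    ⟨fun e => by rw [← A.bar_bar x, e, ← A.bar_out, A.bar_bar], fun e => by rw [e, A.bar_out]⟩
  simp only [a, b]
  exact add_comm _ _

lemma sum_pind (s : ι × Bool) (n : ℕ) (P : X → Prop) [DecidablePred P] :
    ∑ x ∈ univ.filter P, A.pind σ s n x = ∑ k ∈ range n,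
      ((if P (A.out σ s k) then 1 else 0) + (if P (A.inn σ s (k + 1)) then 1 else 0)) := by
  unfold pind
  rw [sum_comm]
  refine sum_congr rfl fun k _ => ?_
  rw [sum_add_distrib, sum_ite_eq', sum_ite_eq']
  simp

lemma sum_vt (s : ι × Bool) (n : ℕ) (y : Vx) :
    ∑ x ∈ univ.filter (fun x => A.vt x = y), A.pind σ s n x =
      (if A.v s.1 (σ.idx s 0) = y then 1 else 0) + (if A.v s.1 (σ.idx s n) = y then 1 else 0) := by
  rw [sum_pind]
  simp only [vt_out, vt_inn]
  induction n with
  | zero => simp [z2_add_self]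
  | succ n ih => rw [sum_range_succ, ih, add_assoc, ← add_assoc (ite (A.v s.1 (σ.idx s n) = y) _ _),
      z2_add_self, zero_add]

lemma sum_off (s : ι × Bool) (n : ℕ) (y : Vx) (Q : X → Prop) [DecidablePred Q]
    (h : ∀ k ≤ n, A.v s.1 (σ.idx s k) ≠ y) :
    ∑ x ∈ univ.filter (fun x => A.vt x = y ∧ Q x), A.pind σ s n x = 0 := by
  rw [sum_pind]
  refine sum_eq_zero fun k hk => ?_
  have := mem_range.1 hk
  rw [vt_out, vt_inn, if_neg (fun c => h k (by omega) c.1), if_neg (fun c => h _ (by omega) c.1),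
    add_zero]

lemma pind_off (s : ι × Bool) (n : ℕ) (x : X) (h : ∀ k ≤ n, A.v s.1 (σ.idx s k) ≠ A.vt x) :
    A.pind σ s n x = 0 := by
  refine sum_eq_zero fun k hk => ?_
  have := mem_range.1 hk
  rw [if_neg (fun c => h k (by omega) (by rw [c, vt_out])),
    if_neg (fun c => h (k + 1) (by omega) (by rw [c, vt_inn])), add_zero]

lemma pind_other (s : ι × Bool) (n : ℕ) {c : ι} (hc : c ≠ s.1) (l : ℤ) (e : Bool) :
    A.pind σ s n (A.dart c l e) = 0 := by
  refine sum_eq_zero fun k _ => ?_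
  unfold out inn
  rw [if_neg (fun h => hc (A.fst_eq_of_dart h)), if_neg (fun h => hc (A.fst_eq_of_dart h)), add_zero]

variable {A σ} [Fintype ι] (h : A.Inv σ)
include h

lemma Inv.sum_on {s : ι × Bool} (b : σ.born s.1) {n j : ℕ} (j0 : 0 < j) (j1 : j ≤ n)
    (n1 : n ≤ σ.len s.1) (j2 : j < σ.len s.1) (Q : X → Prop) [DecidablePred Q] :
    ∑ x ∈ univ.filter (fun x => A.vt x = A.v s.1 (σ.idx s j) ∧ Q x), A.pind σ s n x =
      (if j < n ∧ Q (A.out σ s j) then 1 else 0) + (if Q (A.inn σ s j) then 1 else 0) := by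
  rw [sum_pind, sum_add_distrib]
  congr 1
  · have o : ∀ k ∈ range n, k ≠ j →
        (if A.vt (A.out σ s k) = A.v s.1 (σ.idx s j) ∧ Q (A.out σ s k) then (1 : ZMod 2) else 0) = 0 := by
      intro k hk kj
      have := mem_range.1 hk
      rw [vt_out, if_neg fun c => kj (h.idx_inj b (by omega) (by omega) (by omega) (by omega) c.1)]
    by_cases c : j < n
    · rw [sum_eq_single j o fun c' => absurd (mem_range.2 c) c']
      simp [vt_out, c]
    · rw [sum_eq_zero fun k hk => o k hk (by have := mem_range.1 hk; omega)]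
      simp [c]
  · rw [sum_eq_single (j - 1)]
    · simp only [show j - 1 + 1 = j by omega, vt_inn, true_and]
    · intro k hk kj
      have := mem_range.1 hk
      rw [vt_inn, if_neg fun c => kj (by
        have := h.idx_inj b (by omega) (by omega) (by omega) (by omega) c.1; omega)]
    · intro c
      exact absurd (mem_range.2 (by omega)) c

lemma Inv.pind_out {s : ι × Bool} (b : σ.born s.1) {n k : ℕ} (n1 : n ≤ σ.len s.1)
    (k1 : k < σ.len s.1) : A.pind σ s n (A.out σ s k) = if k < n then 1 else 0 := by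
  unfold pind
  simp only [A.out_ne_inn, if_false, add_zero]
  have o : ∀ l ∈ range n, l ≠ k → (if A.out σ s k = A.out σ s l then (1 : ZMod 2) else 0) = 0 := by
    intro l hl lk
    have := mem_range.1 hl
    rw [if_neg fun c => lk (h.out_inj b k1 (by omega) c).2.symm]
  by_cases c : k < n
  · rw [sum_eq_single k o fun c' => absurd (mem_range.2 c) c']
    simp [c]
  · rw [sum_eq_zero fun l hl => o l hl (by have := mem_range.1 hl; omega), if_neg c]

lemma Inv.pind_slot {s : ι × Bool} (b : σ.born s.1) {n : ℕ} (n0 : 0 < n) (n1 : n ≤ σ.len s.1)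
    (u : ι × Bool) : A.pind σ s n (A.out σ u 0) =
      (if u = s then 1 else 0) + if u = oth s ∧ n = σ.len s.1 then 1 else 0 := by
  by_cases c : u.1 = s.1
  · rcases eq_or_oth c with rfl | rfl
    · rw [h.pind_out b n1 (by omega)]
      simp [n0, (oth_ne u).symm]
    · rw [h.out_oth b (Nat.zero_le _), show σ.len s.1 - 0 = (σ.len s.1 - 1) + 1 by omega, ← A.bar_out,
        pind_bar, h.pind_out b n1 (by omega), if_neg (oth_ne s), zero_add]
      simp only [true_and]
      congr 1
      exact propext ⟨by omega, by omega⟩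
  · have c1 : u ≠ s := by rintro rfl; exact c rfl
    have c2 : u ≠ oth s := by rintro rfl; exact c rfl
    unfold out
    rw [A.pind_other σ s n c]
    simp [c1, c2]

omit h [Fintype X] in
lemma slot_sum {a b : ι × Bool} (ha : σ.alive a.1) (hb : σ.alive b.1) (p : ℕ) (F : ι × Bool → ZMod 2)
    (hF : ∀ u, F u = (if u = a then 1 else 0) + if u = b then 1 else 0) :
    ∑ u ∈ univ.filter (fun u : ι × Bool => σ.alive u.1 ∧ σ.key u < p), F u =
      (if σ.key a < p then 1 else 0) + if σ.key b < p then 1 else 0 := by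
  simp only [hF]
  rw [sum_add_distrib, sum_ite_eq', sum_ite_eq']
  simp [ha, hb]

lemma Inv.key_ne {s u : ι × Bool} (a : σ.alive s.1) (b : σ.alive u.1) (ne : s ≠ u) :
    σ.key s ≠ σ.key u := fun e => ne (h.kinj s u a b e)

lemma Inv.act_out {s : ι × Bool} (a : σ.alive s.1) {k : ℕ} (k1 : k < σ.len s.1) :
    A.Act σ (A.out σ s k) := Or.inr ⟨s, a, k, k1, rfl⟩

lemma Inv.len_pos {i : ι} (b : σ.born i) : 0 < σ.len i := by
  have := h.len_eq b
  have := h.lt i b
  omega

omit h [Fintype ι] in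
lemma cross_sum {s u : ι × Bool} (su : u.1 ≠ s.1) {j k : ℕ}
    (e : A.v s.1 (σ.idx s j) = A.v u.1 (σ.idx u k)) :
    ((if A.pos (A.out σ s j) < A.pos (A.out σ u k) then 1 else 0) +
      (if A.pos (A.inn σ s j) < A.pos (A.out σ u k) then 1 else 0) : ZMod 2) =
    (if A.pos (A.out σ s j) < A.pos (A.inn σ u k) then 1 else 0) +
      (if A.pos (A.inn σ s j) < A.pos (A.inn σ u k) then 1 else 0) + 1 := by
  have c := A.cross' su.symm e s.2 u.2
  have ne : ∀ a b, A.pos (A.dart s.1 (σ.idx s j) a) ≠ A.pos (A.dart u.1 (σ.idx u k) b) := fun a b =>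
    A.pos_ne (by rw [vt_dart, vt_dart, e]) fun c => su (A.fst_eq_of_dart c).symm
  unfold out inn
  rw [ite_btw (ne _ _) (ne _ _), ite_btw (ne _ _) (ne _ _)]
  split_ifs <;> first | rfl | tauto

/-- the side of one chord on which another chord runs -/
lemma Inv.par {s u : ι × Bool} (a : σ.alive s.1) (b : σ.alive u.1) (su : u.1 ≠ s.1) :
    ∃ val : ℕ → Prop, (val 0 ↔ btw (σ.key s) (σ.key (oth s)) (σ.key u)) ∧
      (val (σ.len u.1 - 1) ↔ btw (σ.key s) (σ.key (oth s)) (σ.key (oth u))) ∧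
      ∀ k, 0 < k → k < σ.len u.1 → ((val k ↔ val (k - 1)) ↔ ¬ A.On σ s (A.v u.1 (σ.idx u k))) := by
  have ls := h.len_pos a.1
  have lu := h.len_pos b.1
  have e0 := h.not_mem_Un (s := s) a.1
  have e1 : A.v s.1 (σ.idx s (σ.len s.1)) ∉ σ.Un := by
    have := h.not_mem_Un (s := oth s) a.1
    rwa [h.idx_oth a.1 (Nat.zero_le _)] at this
  obtain ⟨w, f, g, w1, w2, w3⟩ := h.planar (A.pind σ s (σ.len s.1)) (fun x _ => A.pind_bar σ s _ x)
    (fun y hy => by
      rw [sum_vt, if_neg (by rintro rfl; exact e0 hy), if_neg (by rintro rfl; exact e1 hy), add_zero])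
  have slot : ∀ x : ι × Bool, x.1 = u.1 → (w (A.out σ x 0) + g = 1 ↔
      btw (σ.key s) (σ.key (oth s)) (σ.key x)) := fun x hx => by
    have ax : σ.alive x.1 := hx ▸ b
    rw [w3 x ax, slot_sum a (a := s) (b := oth s) a _ _ (fun y => by
      rw [h.pind_slot a.1 ls le_rfl]; simp),
      ite_btw (h.key_ne a ax (by rintro rfl; exact su hx.symm))
        (h.key_ne (s := oth s) a ax (by rintro rfl; exact su hx.symm)), add_comm g, add_assoc, z2_add_self]
    split_ifs with c <;> simp [c]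
  have wb : ∀ k < σ.len u.1, w (A.inn σ u (k + 1)) = w (A.out σ u k) := fun k k1 => by
    rw [← A.bar_out, w1 _ (h.act_out b k1)]
    unfold out
    rw [A.pind_other σ s _ su, add_zero]
  refine ⟨fun k => w (A.out σ u k) + g = 1, slot u rfl, ?_, fun k k0 k1 => ?_⟩
  · dsimp only
    rw [← slot (oth u) rfl, h.out_oth b.1 (Nat.zero_le _), ← wb _ (by omega),
      show σ.len u.1 - 1 + 1 = σ.len u.1 - 0 by omega]
  · have hU := h.mem_Un b k0 k1
    have p1 := w2 (A.out σ u k) (by rwa [vt_out])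
    have p2 := w2 (A.inn σ u k) (by rwa [vt_inn])
    rw [vt_out] at p1
    rw [vt_inn] at p2
    dsimp only
    rw [← wb (k - 1) (by omega), show k - 1 + 1 = k by omega]
    by_cases c : A.On σ s (A.v u.1 (σ.idx u k))
    · obtain ⟨j, j0, j1, e⟩ := c
      have c : A.On σ s (A.v u.1 (σ.idx u k)) := ⟨j, j0, j1, e⟩
      rw [← e, h.sum_on a.1 j0 j1.le le_rfl j1] at p1 p2
      simp only [j1, true_and] at p1 p2
      rw [cross_sum su e, ← add_assoc, ← p2] at p1
      rw [p1]
      simp only [c, not_true, iff_false]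
      exact z2_flip _ _
    · have o : ∀ j ≤ σ.len s.1, A.v s.1 (σ.idx s j) ≠ A.v u.1 (σ.idx u k) := fun j j1 e => by
        rcases j1.eq_or_lt with rfl | j1
        · exact e1 (e ▸ hU)
        · rcases Nat.eq_zero_or_pos j with rfl | j0
          · exact e0 (e ▸ hU)
          · exact c ⟨j, j0, j1, e⟩
      rw [A.sum_off σ s _ _ _ o] at p1 p2
      rw [p1, p2]
      simp [c]

end Arr

end Pool.Agent.Lib.MP_65c801_co
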