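import Pool.Agent.Lib.MP_65c801_co.Good

/-! Choice of the parameters. -/

namespace Pool.Agent.Lib.MP_65c801_co

open Finset Classical

variable {V α : Type*} [LinearOrder α] [Fintype V]
variable {h : V → ℕ → α} {E : V → V → Prop} {t : V → V → ℕ}

lemma cpw {X c : ℝ} (X1 : 1 ≤ X) (hc : c ≤ X) {i j : ℕ} (hij : i + 1 ≤ j) : c * X ^ i ≤ X ^ j :=
  calc c * X ^ i ≤ X * X ^ i := mul_le_mul_of_nonneg_right hc (by positivity)
    _ = X ^ (i + 1) := by ring
    _ ≤ X ^ j := pow_le_pow_right₀ X1 hij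

lemma term_le {X A D : ℝ} (X1 : 1 ≤ X) {c : ℝ} (hc : 8 * c ≤ X) {i j μ : ℕ} (c0 : 0 ≤ c)
    (hA : A ≤ c * X ^ i) (hD : X ^ j ≤ D) (hij : i + μ + 1 ≤ j) : X ^ μ * (A / D) ≤ 1 / 8 := by
  have Xp : 0 < X ^ j := by positivity
  rw [← mul_div_assoc, div_le_div_iff₀ (by linarith) (by norm_num)]
  calc X ^ μ * A * 8 ≤ X ^ μ * (c * X ^ i) * 8 := by gcongr
    _ = (8 * c) * X ^ (i + μ) := by ring
    _ ≤ X ^ j := cpw X1 hc hij
    _ ≤ _ := by linarith

theorem up_small (hn : NoAlt h) (hi : Inj h) (f : Fam h E t) {x a T N b q φ p c y1 y2 : ℕ}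
    (T0 : 0 < T) (hx : 2000 ≤ x) (hxT : 32 * T ≤ x) (hxL : x ^ (4 * N + 16) < 2 ^ x)
    (hc : (Fintype.card V : ℝ) ≤ (x:ℝ) ^ (2 * N + 8)) (tb : ∀ a y, E a y → t a y < 2 ^ x)
    (e1 : 7 * a + 186 ≤ b) (e2 : 2 * a + 3 + b + 16 * T ≤ q) (e3 : N + q + 14 ≤ 3 * φ)
    (e4 : 2 * φ + 16 ≤ p) (e5 : 3 * a + 145 + 2 * p + 4 * q ≤ 3 * c) (e6 : c + 3 * a + 148 ≤ y1)
    (e7 : q + 2 * y1 ≤ N + 10) (e8 : 5 * a + 167 ≤ y2) (e9 : p + 2 * y2 ≤ N + 10)
    (e10 : p + 2 * q + 3 * a + 148 ≤ N + 10) (e11 : p + q + 10 * a + 334 ≤ N + 10) :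
    cnt (fun e : V × V => GoodUp E t (x ^ a) T ((x:ℝ) ^ (N + 10)) ((x:ℝ) ^ b) ((x:ℝ) ^ 16)
      ((x:ℝ) ^ (a + 1) * ((x:ℝ) ^ (a + 1) * (x:ℝ) ^ b * ((x:ℝ) ^ 16) ^ T)) ((x:ℝ) ^ (a + 1))
      e.1 e.2) < (x:ℝ) ^ (3 * N + 8) := by
  by_contra hg
  push Not at hg
  set X : ℝ := (x:ℝ) with hX
  have X2 : 2000 ≤ X := by rw [hX]; exact_mod_cast hx
  have X1 : 1 ≤ X := by linarith
  have X0 : 0 < X := by linarith
  have XT : 32 * (T:ℝ) ≤ X := by rw [hX]; exact_mod_cast hxT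
  have hL : (X ^ (2 * N + 8)) ^ 2 < 2 ^ x := by
    have : (X ^ (2 * N + 8)) ^ 2 = X ^ (4 * N + 16) := by ring
    rw [this, hX]; exact_mod_cast hxL
  have n1 : 1 ≤ X ^ (2 * N + 8) := one_le_pow₀ X1
  obtain ⟨H, S', P, Q, r, pp, q1, q2, q3⟩ := up_reg hn hi f (R := x ^ a) (L := x) (by positivity) T0
    (by omega) (σ := X ^ 15) (G := X ^ 16) (B := X ^ b) (lam := X ^ (a + 1)) (Dm := X ^ (N + 10))
    (Bm := X ^ (a + 1) * (X ^ (a + 1) * X ^ b * (X ^ 16) ^ T)) hc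
    (lt_of_le_of_lt (le_self_pow₀ n1 two_ne_zero) hL) (by positivity) tb
    (by positivity) (by positivity) (by positivity) (cpw X1 (by linarith) le_rfl)
    (le_trans (by
      calc _ = (32 * T) * X ^ (3 * N + a + 21) := by rw [← hX]; ring
        _ ≤ X ^ (b + (3 * N + 8)) := cpw X1 XT (by omega)
        _ = X ^ b * X ^ (3 * N + 8) := by ring) (mul_le_mul_of_nonneg_left hg (by positivity)))
    (le_trans (by
      calc _ = (4 * T) * X ^ (3 * N + 22) := by rw [← hX]; ring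
        _ ≤ X ^ (15 + (3 * N + 8)) := cpw X1 (by linarith [Nat.cast_nonneg (α := ℝ) T]) (by omega)
        _ = X ^ 15 * X ^ (3 * N + 8) := by ring) (mul_le_mul_of_nonneg_left hg (by positivity)))
  have Pp := r.Pp
  have Qp := r.Qp
  have hR : ((x ^ a : ℕ) : ℝ) = X ^ a := by rw [hX]; push_cast; rfl
  have Qup : Q ≤ X ^ q := q2.trans (by
    calc _ = 2 * X ^ (2 * a + 2 + b + 16 * T) := by ring
      _ ≤ _ := cpw X1 (by linarith) (by omega))
  have dl : X ^ (N + 10) ≤ 2 * X ^ (N + 10) := by linarith [pow_pos X0 (N + 10)]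
  have band := r.band (W := x ^ (N + q + 14)) (φ := X ^ φ) (by positivity) (by
      have big := r.big
      have : X ^ 15 * (16 * (X ^ (2 * N + 8)) ^ 2 * Q) ≤
          X ^ 15 * ((x ^ (N + q + 14) : ℕ) * cnt (fun e : V × V => H e.1 e.2)) := by
        calc X ^ 15 * (16 * (X ^ (2 * N + 8)) ^ 2 * Q)
            ≤ X ^ 15 * (16 * (X ^ (2 * N + 8)) ^ 2 * X ^ q) := by gcongr
          _ = 2 * (8 * X ^ (4 * N + q + 31)) := by ring
          _ ≤ 2 * X ^ (4 * N + q + 32) := by gcongr; exact cpw X1 (by linarith) le_rfl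
          _ = X ^ (N + q + 14) * (X ^ (2 * N + 8) * (2 * X ^ (N + 10))) := by ring
          _ ≤ X ^ (N + q + 14) * (X ^ 15 * cnt (fun e : V × V => H e.1 e.2)) := by gcongr
          _ = _ := by rw [hX]; push_cast; ring
      exact le_of_mul_le_mul_left this (by positivity))
    (by positivity) (by
      rw [← pow_mul]; push_cast; exact pow_le_pow_right₀ X1 (by omega))
    (le_trans (cpw X1 (by linarith) (by omega)) q1)
  have Pq : P ≤ X ^ p := band.trans (by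
    calc _ = 78 * X ^ (2 * φ + 15) := by ring
      _ ≤ _ := cpw X1 (by linarith) (by omega))
  have main := r.main pp n1 hL (by
      calc X ^ (2 * N + 8) ≤ X ^ (2 * N + 20) := pow_le_pow_right₀ X1 (by omega)
        _ = (X ^ (N + 10)) ^ 2 := by ring
        _ ≤ _ := by gcongr)
    (by
      rw [hR]
      have : (2 * X ^ (a + 1)) * (4 * X ^ 15 * X ^ a) ≤ (2 * X ^ (a + 1)) * P := by
        calc _ = 8 * X ^ (2 * a + 16) := by ring
          _ ≤ X ^ b := cpw X1 (by linarith) (by omega)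
          _ ≤ _ := q1.trans q3
      exact le_of_mul_le_mul_left this (by positivity))
    (K := X ^ (2 * a + 19)) (cm := X ^ c) q3 (by
      rw [hR, ← hX]
      have : 1 ≤ X ^ (a + 1) := one_le_pow₀ X1
      calc 288 * X ^ 2 * X ^ 15 * X ^ a * (1 + 2 * X ^ (a + 1))
          ≤ 288 * X ^ 2 * X ^ 15 * X ^ a * (3 * X ^ (a + 1)) := by gcongr; linarith
        _ = 864 * X ^ (2 * a + 18) := by ring
        _ ≤ _ := cpw X1 (by linarith) le_rfl) (by positivity)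
    (by simpa using cpw (c := 4) (i := 0) (j := c) X1 (by linarith) (by omega))
    (by
      rw [hR, ← hX]
      have h1 : (256:ℝ) ≤ X := by linarith
      have h2 : (18432:ℝ) ≤ X ^ 2 :=
        le_trans (by norm_num) (pow_le_pow_left₀ (by norm_num) h1 2)
      calc _ ≤ (X * (X ^ 15) ^ 3 * X ^ a * X) ^ 3 * (X ^ 2 * X ^ 2) * (X ^ p) ^ 2 * (X ^ q) ^ 4 := by
            gcongr
        _ = X ^ (3 * a + 145 + 2 * p + 4 * q) := by ring
        _ ≤ X ^ (c * 3) := pow_le_pow_right₀ X1 (by omega)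
        _ = _ := by ring)
    (z1 := 1 / X ^ y1) (z2 := 1 / X ^ y2) (ε := 1 / X ^ (3 * a + 148)) (by positivity)
    (by positivity) (by positivity)
    (by
      rw [div_pow, one_pow, div_mul_eq_mul_div, one_mul, le_div_iff₀ (by positivity)]
      calc _ ≤ X ^ q * (X ^ y1) ^ 2 := by gcongr
        _ = X ^ (q + 2 * y1) := by ring
        _ ≤ X ^ (N + 10) := pow_le_pow_right₀ X1 (by omega)
        _ ≤ _ := dl)
    (by
      rw [div_pow, one_pow, div_mul_eq_mul_div, one_mul, le_div_iff₀ (by positivity)]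
      calc _ ≤ X ^ p * (X ^ y2) ^ 2 := by gcongr
        _ = X ^ (p + 2 * y2) := by ring
        _ ≤ X ^ (N + 10) := pow_le_pow_right₀ X1 (by omega)
        _ ≤ _ := dl)
  rw [hR, ← hX] at main
  have hM : 18 * X ^ 2 * (512 * (X ^ 15) ^ 3 * X ^ a * X ^ 2) ^ 3 ≤ X ^ (3 * a + 147) := by
    have h1 : (512:ℝ) ≤ X := by linarith
    have h2 : (18:ℝ) ≤ X := by linarith
    calc _ ≤ X * X ^ 2 * (X * (X ^ 15) ^ 3 * X ^ a * X ^ 2) ^ 3 := by gcongr
      _ = _ := by ring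
  have t1 := term_le (A := 24 * X ^ (2 * a + 19)) (D := Q) (μ := 3 * a + 147) X1
    (by linarith : 8 * 24 ≤ X) (by norm_num) le_rfl q1 (by omega)
  have t2 := term_le (A := 48 * P * Q ^ 2) (i := p + 2 * q) (μ := 3 * a + 147) X1
    (by linarith : 8 * 48 ≤ X) (by norm_num) (by
      calc _ ≤ 48 * X ^ p * (X ^ q) ^ 2 := by gcongr
        _ = _ := by ring) dl (by omega)
  have t3 := term_le (A := 26 * X ^ c) (D := X ^ y1) (μ := 3 * a + 147) X1
    (by linarith : 8 * 26 ≤ X) (by norm_num) le_rfl le_rfl (by omega)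
  have t4 := term_le (A := 1) (i := 0) (D := X ^ (3 * a + 148)) (μ := 3 * a + 147) X1
    (by linarith : 8 * 1 ≤ X) (by norm_num) (by simp) le_rfl (by omega)
  have t5 := term_le (A := 12 * (X ^ (2 * a + 19)) ^ 2) (i := 4 * a + 38) (D := Q)
    (μ := 3 * a + 147) X1 (by linarith : 8 * 12 ≤ X) (by norm_num) (le_of_eq (by ring)) q1
    (by omega)
  have t6 := term_le (A := 24 * P * Q * (X ^ (2 * a + 19)) ^ 2 * X ^ (3 * a + 148))
    (i := p + q + 7 * a + 186) (μ := 3 * a + 147) X1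
    (by linarith : 8 * 24 ≤ X) (by norm_num) (by
      calc _ ≤ 24 * X ^ p * X ^ q * (X ^ (2 * a + 19)) ^ 2 * X ^ (3 * a + 148) := by gcongr
        _ = _ := by ring) dl (by omega)
  have t7 := term_le (A := 13 * X ^ (2 * a + 19)) (D := X ^ y2) (μ := 3 * a + 147) X1
    (by linarith : 8 * 13 ≤ X) (by norm_num) le_rfl le_rfl (by omega)
  have u3 : 26 * (1 / X ^ y1) * X ^ c = 26 * X ^ c / X ^ y1 := by ring
  have u6 : 24 * P * Q * (X ^ (2 * a + 19)) ^ 2 / (1 / X ^ (3 * a + 148) * (2 * X ^ (N + 10))) =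
      24 * P * Q * (X ^ (2 * a + 19)) ^ 2 * X ^ (3 * a + 148) / (2 * X ^ (N + 10)) := by
    field_simp
  have u7 : 13 * (1 / X ^ y2) * X ^ (2 * a + 19) = 13 * X ^ (2 * a + 19) / X ^ y2 := by ring
  rw [u3, u6, u7] at main
  have fin := main.trans (mul_le_mul_of_nonneg_right hM (by positivity))
  simp only [mul_add] at fin
  linarith

theorem fam_small (hn : NoAlt h) (hi : Inj h) (f : Fam h E t) {x a T N b q φ p c y1 y2 : ℕ}
    (T0 : 0 < T) (hx : 2000 ≤ x) (hxT : 32 * T ≤ x) (hxL : x ^ (4 * N + 16) < 2 ^ x)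
    (hc : (Fintype.card V : ℝ) ≤ (x:ℝ) ^ (2 * N + 8))
    (tb : ∀ a y, E a y → t a y < x ^ (4 * N + 16)) (e0 : 4 * N + 16 ≤ a * T)
    (e1 : 7 * a + 186 ≤ b) (e2 : 2 * a + 3 + b + 16 * T ≤ q) (e3 : N + q + 14 ≤ 3 * φ)
    (e4 : 2 * φ + 16 ≤ p) (e5 : 3 * a + 145 + 2 * p + 4 * q ≤ 3 * c) (e6 : c + 3 * a + 148 ≤ y1)
    (e7 : q + 2 * y1 ≤ N + 10) (e8 : 5 * a + 167 ≤ y2) (e9 : p + 2 * y2 ≤ N + 10)
    (e10 : p + 2 * q + 3 * a + 148 ≤ N + 10) (e11 : p + q + 10 * a + 334 ≤ N + 10) :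
    cnt (fun e : V × V => E e.1 e.2) ≤ (x:ℝ) ^ (3 * N + 9) := by
  by_contra hg
  push Not at hg
  have tb' : ∀ a y, E a y → t a y < 2 ^ x := fun a y g => (tb a y g).trans hxL
  have u1 := up_small hn hi f T0 hx hxT hxL hc tb' e1 e2 e3 e4 e5 e6 e7 e8 e9 e10 e11
  have u2 := up_small hn.flip hi.flip f.flip T0 hx hxT hxL hc (fun y a g => tb' a y g)
    e1 e2 e3 e4 e5 e6 e7 e8 e9 e10 e11
  set X : ℝ := (x:ℝ) with hX
  have X2 : 2000 ≤ X := by rw [hX]; exact_mod_cast hx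
  have X1 : 1 ≤ X := by linarith
  have X0 : 0 < X := by linarith
  have XT : 32 * (T:ℝ) ≤ X := by rw [hX]; exact_mod_cast hxT
  have gc := good_count hn f (R := x ^ a) (T := T) (L := x) (by positivity) (by omega)
    (fun a' y g => (tb a' y g).trans_le (by
      rw [← pow_mul]; exact Nat.pow_le_pow_right (by omega) e0)) tb'
    (Dm := X ^ (N + 10)) (dm := X ^ N) (B := X ^ b) (G := X ^ 16) (lam := X ^ (a + 1))
    (one_le_pow₀ X1) (one_le_mul_of_one_le_of_one_le (one_le_pow₀ X1) (one_le_pow₀ X1))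
    (one_le_pow₀ X1) (by
      calc _ = X ^ (a + 1 + b + 16 * T) := by ring
        _ < X ^ N := pow_lt_pow_right₀ (by linarith) (by omega)) (by positivity) (by positivity) hc
  have hR : ((x ^ a : ℕ) : ℝ) = X ^ a := by rw [hX]; push_cast; rfl
  rw [hR, ← hX] at gc
  set e := cnt (fun e : V × V => E e.1 e.2)
  have w0 : 2000 * X ^ (3 * N + 8) ≤ X ^ (3 * N + 9) := cpw X1 X2 le_rfl
  have w1 : 72 * X ^ 2 * (X ^ (2 * N + 8)) ^ 2 / X ^ (N + 10) = 72 * X ^ (3 * N + 8) := by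
    field_simp; ring
  have w2 : X ^ (2 * N + 8) * X ^ N = X ^ (3 * N + 8) := by ring
  have w3 : T * (X ^ a * e / X ^ (a + 1)) ≤ e / 32 := by
    have : T * (X ^ a * e / X ^ (a + 1)) = T * e / X := by field_simp; ring
    rw [this, div_le_div_iff₀ X0 (by norm_num)]
    have e0 : 0 ≤ e := cnt_nonneg _
    linarith [mul_le_mul_of_nonneg_left XT e0]
  rw [w1, w2] at gc
  have := pow_pos X0 (3 * N + 8)
  linarith

/-- the bound for families of non-overlapping lenses in the discrete model -/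
theorem fam_bound (hn : NoAlt h) (hi : Inj h) (f : Fam h E t) {x N : ℕ} (hN : N = 4999996)
    (hx : 128000 ≤ x) (hxL : x ^ (4 * N + 16) < 2 ^ x)
    (hc : (Fintype.card V : ℝ) ≤ (x:ℝ) ^ (2 * N + 8))
    (tb : ∀ a y, E a y → t a y < x ^ (4 * N + 16)) :
    cnt (fun e : V × V => E e.1 e.2) ≤ (x:ℝ) ^ (3 * N + 9) :=
  fam_small hn hi f (a := 5000) (T := 4000) (b := 35186) (q := 109189) (φ := 1703067)
    (p := 3406150) (c := 2421401) (y1 := 2436549) (y2 := 25167) (by norm_num) (by omega) (by omega)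
    hxL hc tb (by omega) (by omega) (by omega) (by omega) (by omega) (by omega) (by omega)
    (by omega) (by omega) (by omega) (by omega) (by omega)

end Pool.Agent.Lib.MP_65c801_co
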