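import Pool.Agent.Lib.MP_65c801_co.Geo

/-! Regular families and the abundance of good paths of length three inside the windows. -/

namespace Pool.Agent.Lib.MP_65c801_co

open Finset Classical

variable {V α : Type*} [LinearOrder α] [Fintype V]

/-- a family that is regular with respect to windows of length `S' * R` -/
structure Reg (h : V → ℕ → α) (H : V → V → Prop) (t : V → V → ℕ) (S' R L : ℕ)
    (n P Q d σ : ℝ) : Prop where
  noalt : NoAlt h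
  inj : Inj h
  fam : Fam h H t
  card : (Fintype.card V : ℝ) ≤ n
  Sp : 0 < S'
  Rp : 0 < R
  L1 : 1 ≤ L
  tb : ∀ a y, H a y → t a y < 2 ^ L
  dP : ∀ a w, cnt (fun y => H a y ∧ t a y / (S' * R) = w) ≤ P
  dQ : ∀ y w, cnt (fun a => H a y ∧ t a y / (S' * R) = w) ≤ Q
  dq : ∀ y w, 8 * σ * cnt (fun a => H a y ∧ t a y / S' = w) ≤ Q
  act1 : ∀ a, ∃ T : Finset ℕ, T.card * P ≤ d ∧ ∀ y, H a y → t a y / (S' * R) ∈ T
  act2 : ∀ y, ∃ T : Finset ℕ, T.card * Q ≤ d ∧ ∀ a, H a y → t a y / (S' * R) ∈ T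
  big : n * d ≤ σ * cnt (fun e : V × V => H e.1 e.2)
  np : 0 < n
  Pp : 0 < P
  Qp : 0 < Q
  dp : 0 < d
  sp : 0 < σ

lemma groups {H : V → V → Prop} {w : V → V → ℕ} {n P d : ℝ} (hc : (Fintype.card V : ℝ) ≤ n)
    (hP : 0 ≤ P) (hd : 0 ≤ d)
    (act : ∀ a, ∃ T : Finset ℕ, T.card * P ≤ d ∧ ∀ y, H a y → w a y ∈ T) :
    ∃ G : Finset (V × ℕ), G.card * P ≤ n * d ∧ ∀ a y, H a y → (a, w a y) ∈ G := by
  choose T hT hT' using act
  refine ⟨univ.biUnion fun a => (T a).image fun u => (a, u), ?_, fun a y g => ?_⟩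
  · have h1 : ((univ.biUnion fun a => (T a).image fun u => (a, u)).card : ℝ) ≤
        ∑ a, ((T a).card : ℝ) := by
      exact_mod_cast card_biUnion_le.trans (Finset.sum_le_sum fun a _ => card_image_le)
    calc _ ≤ (∑ a, ((T a).card : ℝ)) * P := mul_le_mul_of_nonneg_right h1 hP
      _ = ∑ a, ((T a).card : ℝ) * P := Finset.sum_mul _ _ _
      _ ≤ ∑ _a : V, d := Finset.sum_le_sum fun a _ => hT a
      _ = Fintype.card V * d := by simp
      _ ≤ _ := mul_le_mul_of_nonneg_right hc hd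
  · exact mem_biUnion.2 ⟨a, mem_univ _, mem_image_of_mem _ (hT' a y g)⟩

/-- common neighbours inside a window -/
noncomputable def cod (H : V → V → Prop) (w : V → V → ℕ) (u : ℕ) (y b : V) : ℝ :=
  cnt (fun a => H a y ∧ H a b ∧ w a y = u ∧ w a b = u)

lemma cod_symm (H : V → V → Prop) (w : V → V → ℕ) (u : ℕ) (y b : V) :
    cod H w u y b = cod H w u b y := cnt_congr fun a => by tauto

variable {h : V → ℕ → α} {H : V → V → Prop} {t : V → V → ℕ} {S' R L : ℕ} {n P Q d σ : ℝ}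

lemma Reg.c4w (r : Reg h H t S' R L n P Q d σ) :
    cnt (fun z : (V × V) × (V × V) => C4 H z ∧
      t z.1.1 z.2.2 / (S' * R) = t z.1.1 z.2.1 / (S' * R) ∧
      t z.1.2 z.2.1 / (S' * R) = t z.1.1 z.2.1 / (S' * R) ∧
      t z.1.2 z.2.2 / (S' * R) = t z.1.1 z.2.1 / (S' * R)) ≤
      18 * (L:ℝ) ^ 2 * (cnt (fun e : V × V => H e.1 e.2) * (P + Q)) := by
  set T := (univ : Finset (V × V)).image (fun e => t e.1 e.2 / (S' * R))
  rw [cnt_fib _ (fun z : (V × V) × (V × V) => t z.1.1 z.2.1 / (S' * R)) T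
      (fun z _ => mem_image_of_mem (fun e : V × V => t e.1 e.2 / (S' * R))
        (mem_univ (z.1.1, z.2.1))),
    cnt_fib (fun e : V × V => H e.1 e.2) (fun e => t e.1 e.2 / (S' * R)) T
      (fun z _ => mem_image_of_mem _ (mem_univ _)), Finset.sum_mul, Finset.mul_sum]
  refine Finset.sum_le_sum fun u _ => ?_
  set Hu : V → V → Prop := fun a y => H a y ∧ t a y / (S' * R) = u with hHu
  have fu : Fam h Hu t := r.fam.mono fun a y g => g.1
  have i1 := ident (fu.sign r.noalt) r.L1 (fun a x g => r.tb a x g.1)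
  have z1 := ZL_triv Hu t (k := 1) (D := Q)
    (fun a w => cnt_le_one fun x y hx hy => fu.injU hx.1 hy.1 (hx.2.trans hy.2.symm))
    (fun x => r.dQ x u)
  have z2 := ZL_triv (fun x a => Hu a x) (fun x a => t a x) (k := 1) (D := P)
    (fun x w => cnt_le_one fun a b hx hy => fu.injL hx.1 hy.1 (hx.2.trans hy.2.symm))
    (fun a => r.dP a u)
  rw [cnt_swap (fun e : V × V => Hu e.1 e.2)] at z2
  have c1 : cnt (fun z : (V × V) × (V × V) => (C4 H z ∧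
      t z.1.1 z.2.2 / (S' * R) = t z.1.1 z.2.1 / (S' * R) ∧
      t z.1.2 z.2.1 / (S' * R) = t z.1.1 z.2.1 / (S' * R) ∧
      t z.1.2 z.2.2 / (S' * R) = t z.1.1 z.2.1 / (S' * R)) ∧ t z.1.1 z.2.1 / (S' * R) = u) ≤
      cnt (C4 Hu) := cnt_mono fun z hz =>
        ⟨⟨hz.1.1.1, hz.2⟩, ⟨hz.1.1.2.1, hz.1.2.1.trans hz.2⟩,
          ⟨hz.1.1.2.2.1, hz.1.2.2.1.trans hz.2⟩, ⟨hz.1.1.2.2.2, hz.1.2.2.2.trans hz.2⟩⟩
  refine c1.trans (i1.trans (mul_le_mul_of_nonneg_left ?_ (by positivity)))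
  unfold ZU
  change _ ≤ cnt (fun e : V × V => Hu e.1 e.2) * (P + Q)
  linarith

lemma few_extreme {β : Type*} [LinearOrder β] (p : V → Prop) (f : V → β) {η : ℝ} (hη : 0 ≤ η)
    (hf : ∀ b, cnt (fun a => p a ∧ f a = b) ≤ η) :
    cnt (fun a => p a ∧ ¬ η ≤ cnt (fun a' => p a' ∧ f a < f a')) ≤ 2 * η := by
  by_cases hne : ∃ a, p a ∧ ¬ η ≤ cnt (fun a' => p a' ∧ f a < f a')
  · obtain ⟨a0, ha0, hmin⟩ := Finset.exists_min_image
      (univ.filter fun a => p a ∧ ¬ η ≤ cnt (fun a' => p a' ∧ f a < f a')) f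
      (by obtain ⟨a, ha⟩ := hne; exact ⟨a, by simpa using ha⟩)
    simp only [mem_filter, mem_univ, true_and] at ha0 hmin
    have := cnt_le_add (p := fun a => p a ∧ ¬ η ≤ cnt (fun a' => p a' ∧ f a < f a'))
      (q := fun a => p a ∧ f a = f a0) (r := fun a => p a ∧ f a0 < f a) (fun a ha => by
        rcases (hmin a ha).eq_or_lt with e | e
        · exact Or.inl ⟨ha.1, e.symm⟩
        · exact Or.inr ⟨ha.1, e⟩)
    have h2 := not_le.1 ha0.2
    linarith [hf (f a0)]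
  · rw [cnt_zero (fun a ha => hne ⟨a, ha⟩)]; linarith

/-- an edge with many edges of its upper end before and after it in the window -/
def Central (H : V → V → Prop) (t : V → V → ℕ) (S' R : ℕ) (η : ℝ) (a y : V) : Prop :=
  H a y ∧ η ≤ cnt (fun a' => (H a' y ∧ t a' y / (S' * R) = t a y / (S' * R)) ∧
      t a y / S' < t a' y / S') ∧
    η ≤ cnt (fun a' => (H a' y ∧ t a' y / (S' * R) = t a y / (S' * R)) ∧ t a' y / S' < t a y / S')

lemma noncentral (H : V → V → Prop) (t : V → V → ℕ) (S' R : ℕ) {η : ℝ} (η0 : 0 ≤ η)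
    (G : Finset (V × ℕ)) (hG' : ∀ y a, H a y → (y, t a y / (S' * R)) ∈ G)
    (hq : ∀ y w, cnt (fun a => H a y ∧ t a y / S' = w) ≤ η) :
    cnt (fun e : V × V => H e.1 e.2 ∧ ¬ Central H t S' R η e.1 e.2) ≤ G.card * (4 * η) := by
  refine cnt_fib_le (fun e => (e.2, t e.1 e.2 / (S' * R))) G (fun e he => hG' _ _ he.1) ?_
  rintro ⟨y, u⟩ -
  have e1 := few_extreme (fun a => H a y ∧ t a y / (S' * R) = u) (fun a => t a y / S') η0
    (fun b => (cnt_mono fun a ha => ⟨ha.1.1, ha.2⟩).trans (hq y b))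
  have e2 := few_extreme (fun a => H a y ∧ t a y / (S' * R) = u)
    (fun a => OrderDual.toDual (t a y / S')) η0
    (fun b => (cnt_mono fun a ha => ⟨ha.1.1, ha.2⟩).trans (hq y (OrderDual.ofDual b)))
  have e3 := cnt_or (fun a => (H a y ∧ t a y / (S' * R) = u) ∧
    ¬ η ≤ cnt (fun a' => (H a' y ∧ t a' y / (S' * R) = u) ∧ t a y / S' < t a' y / S'))
    (fun a => (H a y ∧ t a y / (S' * R) = u) ∧
    ¬ η ≤ cnt (fun a' => (H a' y ∧ t a' y / (S' * R) = u) ∧ t a' y / S' < t a y / S'))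
  refine le_trans (cnt_inj (fun e => e.1) ?_ ?_) (e3.trans (by
    have := add_le_add e1 e2
    exact this.trans (by linarith)))
  · rintro ⟨a, y'⟩ ⟨⟨g, hc⟩, he⟩
    simp only [Prod.mk.injEq] at he
    obtain ⟨rfl, rfl⟩ := he
    simp only [Central] at hc
    tauto
  · rintro ⟨a, y1⟩ ⟨b, y2⟩ ⟨-, h1⟩ ⟨-, h2⟩ e
    simp only [Prod.mk.injEq] at h1 h2 e ⊢
    exact ⟨e, h1.1.trans h2.1.symm⟩

lemma Reg.central (r : Reg h H t S' R L n P Q d σ) :
    cnt (fun e : V × V => H e.1 e.2) ≤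
      2 * cnt (fun e : V × V => Central H t S' R (Q / (8 * σ)) e.1 e.2) := by
  obtain ⟨G, hG, hG'⟩ := groups (H := fun y a => H a y) (w := fun y a => t a y / (S' * R))
    r.card r.Qp.le r.dp.le r.act2
  have sp := r.sp
  have Qp := r.Qp
  set η := Q / (8 * σ) with hη
  have η0 : 0 ≤ η := by positivity
  have hq : ∀ y w, cnt (fun a => H a y ∧ t a y / S' = w) ≤ η := fun y w => by
    rw [hη, le_div_iff₀ (by positivity)]; linarith [r.dq y w]
  have h1 := noncentral H t S' R η0 G hG' hq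
  have h2 := cnt_split (fun e : V × V => H e.1 e.2) (fun e => Central H t S' R η e.1 e.2)
  have h3 : cnt (fun e : V × V => H e.1 e.2 ∧ Central H t S' R η e.1 e.2) ≤
      cnt (fun e : V × V => Central H t S' R η e.1 e.2) := cnt_mono fun e he => he.2
  have h4 : G.card * (4 * η) * (2 * σ) = G.card * Q := by rw [hη]; field_simp; ring
  have h5 := r.big
  nlinarith

lemma Reg.cherries (r : Reg h H t S' R L n P Q d σ) (hP : 4 * σ * R ≤ P) :
    cnt (fun e : V × V => H e.1 e.2) * P ≤ 8 * σ * R *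
      cnt (fun z : V × V × V => Central H t S' R (Q / (8 * σ)) z.1 z.2.1 ∧
        Central H t S' R (Q / (8 * σ)) z.1 z.2.2 ∧ z.2.1 ≠ z.2.2 ∧
        t z.1 z.2.1 / S' = t z.1 z.2.2 / S') := by
  obtain ⟨G, hG, hG'⟩ := groups (H := H) (w := fun a y => t a y / (S' * R))
    r.card r.Pp.le r.dp.le r.act1
  have hc := r.central
  set Ce := Central H t S' R (Q / (8 * σ))
  set T := (G ×ˢ range R).image (fun z : (V × ℕ) × ℕ => (z.1.1, z.1.2 * R + z.2))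
  have hT : (T.card : ℝ) ≤ G.card * R := by
    exact_mod_cast card_image_le.trans (by rw [card_product, card_range])
  have cs := cnt_cs (p := fun e : V × V => Ce e.1 e.2) (fun e => (e.1, t e.1 e.2 / S')) T
    (fun e he => mem_image.2 ⟨((e.1, t e.1 e.2 / (S' * R)), t e.1 e.2 / S' % R),
      mem_product.2 ⟨hG' _ _ he.1, mem_range.2 (Nat.mod_lt _ r.Rp)⟩, by
        simp only [Prod.mk.injEq, true_and]
        rw [← Nat.div_div_eq_div_mul, mul_comm]; exact Nat.div_add_mod _ _⟩)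
  set N := cnt (fun z : V × V × V => Ce z.1 z.2.1 ∧ Ce z.1 z.2.2 ∧ z.2.1 ≠ z.2.2 ∧
        t z.1 z.2.1 / S' = t z.1 z.2.2 / S')
  set C := cnt (fun e : V × V => Ce e.1 e.2)
  have pr : cnt (fun z : (V × V) × (V × V) => Ce z.1.1 z.1.2 ∧ Ce z.2.1 z.2.2 ∧
      (z.1.1, t z.1.1 z.1.2 / S') = (z.2.1, t z.2.1 z.2.2 / S')) ≤ C + N := by
    refine (cnt_le_add (q := fun z => (Ce z.1.1 z.1.2 ∧ Ce z.2.1 z.2.2 ∧
      (z.1.1, t z.1.1 z.1.2 / S') = (z.2.1, t z.2.1 z.2.2 / S')) ∧ z.1.2 = z.2.2)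
      (r := fun z => (Ce z.1.1 z.1.2 ∧ Ce z.2.1 z.2.2 ∧
      (z.1.1, t z.1.1 z.1.2 / S') = (z.2.1, t z.2.1 z.2.2 / S')) ∧ z.1.2 ≠ z.2.2)
      (fun z hz => by tauto)).trans (add_le_add ?_ ?_)
    · refine cnt_inj (fun z => z.1) (fun z hz => hz.1.1) ?_
      rintro ⟨⟨a, y⟩, ⟨b, x⟩⟩ ⟨⟨a', y'⟩, ⟨b', x'⟩⟩ ⟨⟨-, -, h1⟩, h2⟩ ⟨⟨-, -, h3⟩, h4⟩ h5
      simp only [Prod.mk.injEq] at h1 h2 h3 h4 h5 ⊢
      obtain ⟨rfl, rfl⟩ := h5
      exact ⟨⟨rfl, rfl⟩, h1.1.symm.trans h3.1, h2.symm.trans h4⟩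
    · refine cnt_inj (fun z => (z.1.1, z.1.2, z.2.2)) ?_ ?_
      · rintro ⟨⟨a, y⟩, ⟨b, x⟩⟩ ⟨⟨h1, h2, h3⟩, h4⟩
        simp only [Prod.mk.injEq] at h3
        obtain ⟨rfl, h3⟩ := h3
        exact ⟨h1, h2, h4, h3⟩
      · rintro ⟨⟨a, y⟩, ⟨b, x⟩⟩ ⟨⟨a', y'⟩, ⟨b', x'⟩⟩ ⟨⟨-, -, h1⟩, -⟩ ⟨⟨-, -, h3⟩, -⟩ h5
        simp only [Prod.mk.injEq] at h1 h3 h5 ⊢
        obtain ⟨rfl, rfl, rfl⟩ := h5
        exact ⟨⟨rfl, rfl⟩, h1.1.symm.trans h3.1, rfl⟩
  have big := r.big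
  have np := r.np
  have dp := r.dp
  have sp := r.sp
  have Pp := r.Pp
  have Rp : (0:ℝ) < R := by exact_mod_cast r.Rp
  set m := cnt (fun e : V × V => H e.1 e.2)
  have N0 : 0 ≤ N := cnt_nonneg _
  have mp : 0 < m := by
    by_contra hm; push Not at hm; nlinarith [mul_pos np dp]
  have Cp : 0 < C := by linarith
  have a1 : C ^ 2 ≤ G.card * R * (C + N) :=
    cs.trans (mul_le_mul hT pr (cnt_nonneg _) (by positivity))
  have a2 : (G.card : ℝ) * P ≤ 2 * σ * C := by nlinarith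
  have a3 : C ^ 2 * P ≤ 2 * σ * C * R * (C + N) := by
    calc C ^ 2 * P ≤ G.card * R * (C + N) * P := mul_le_mul_of_nonneg_right a1 Pp.le
      _ = (G.card * P) * (R * (C + N)) := by ring
      _ ≤ 2 * σ * C * (R * (C + N)) := mul_le_mul_of_nonneg_right a2 (by positivity)
      _ = _ := by ring
  have a4 : C * P ≤ 2 * σ * R * (C + N) := by
    have : C * (C * P) ≤ C * (2 * σ * R * (C + N)) := by nlinarith
    exact le_of_mul_le_mul_left this Cp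
  nlinarith

/-- good paths `a' - y - a - b`, written `((a, y, b), a')` -/
def GoodPath (h : V → ℕ → α) (H : V → V → Prop) (t : V → V → ℕ) (S : ℕ) (K : ℝ)
    (z : (V × V × V) × V) : Prop :=
  H z.2 z.1.2.1 ∧ H z.1.1 z.1.2.1 ∧ H z.1.1 z.1.2.2 ∧
    t z.2 z.1.2.1 / S = t z.1.1 z.1.2.1 / S ∧ t z.1.1 z.1.2.2 / S = t z.1.1 z.1.2.1 / S ∧
    cod H (fun a y => t a y / S) (t z.1.1 z.1.2.1 / S) z.1.2.1 z.1.2.2 ≤ K ∧
    h z.1.2.2 (t z.2 z.1.2.1) < h z.2 (t z.2 z.1.2.1) ∧ z.1.2.1 ≠ z.1.2.2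

lemma Reg.rich (r : Reg h H t S' R L n P Q d σ) {η K : ℝ} {a y b : V}
    (c1 : Central H t S' R η a y) (c2 : Central H t S' R η a b) (hne : y ≠ b)
    (ho : t a y / S' = t a b / S') (lt : t a y < t a b)
    (hK : cod H (fun a y => t a y / (S' * R)) (t a y / (S' * R)) y b ≤ K) :
    η ≤ cnt (fun a' => GoodPath h H t (S' * R) K ((a, y, b), a')) ∨
      η ≤ cnt (fun a' => GoodPath h H t (S' * R) K ((a, b, y), a')) := by
  have hw : t a b / (S' * R) = t a y / (S' * R) := by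
    rw [← Nat.div_div_eq_div_mul, ← Nat.div_div_eq_div_mul, ho]
  have s1 : h y (t a y) < h b (t a y) := (r.fam.p1 a y c1.1).trans (r.fam.p2 a y b c1.1 c2.1 hne)
  have s2 : h b (t a b) < h y (t a b) :=
    (r.fam.p1 a b c2.1).trans (r.fam.p2 a b y c2.1 c1.1 hne.symm)
  by_cases hc : ∀ τ, t a b < τ → h b τ < h y τ
  · refine Or.inl (c1.2.1.trans (cnt_mono fun a' ha => ?_))
    refine ⟨ha.1.1, c1.1, c2.1, ha.1.2, hw, hK, ?_, hne⟩
    have : t a b < t a' y := Nat.lt_of_div_lt_div (ho ▸ ha.2)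
    exact (hc _ this).trans (r.fam.p1 a' y ha.1.1)
  · push Not at hc
    obtain ⟨τ, h1, h2⟩ := hc
    have s3 : h y τ < h b τ := lt_of_not_gt' r.inj hne (not_lt.2 h2)
    refine Or.inr (c2.2.2.trans (cnt_mono fun a' ha => ?_))
    refine ⟨ha.1.1, c2.1, c1.1, ha.1.2, hw.symm, ?_, ?_, hne.symm⟩
    · show cod H _ (t a b / (S' * R)) b y ≤ K
      rw [cod_symm, hw]; exact hK
    · have : t a' b < t a y := Nat.lt_of_div_lt_div (ho ▸ ha.2)
      exact (ends_of_three r.noalt r.inj lt h1 s1 s2 s3 (Or.inl this.le)).trans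
        (r.fam.p1 a' b ha.1.1)

theorem Reg.paths (r : Reg h H t S' R L n P Q d σ) (hP : 4 * σ * R ≤ P) {K lam : ℝ}
    (hl : Q ≤ lam * P) (hK : 288 * (L:ℝ) ^ 2 * σ * R * (1 + lam) ≤ K) (K0 : 0 < K) :
    cnt (fun e : V × V => H e.1 e.2) * P * Q ≤
      256 * σ ^ 2 * R * cnt (GoodPath h H t (S' * R) K) := by
  have ch := r.cherries hP
  have c4 := r.c4w
  have sp := r.sp
  have Qp := r.Qp
  have Pp := r.Pp
  have Rp : (0:ℝ) < R := by exact_mod_cast r.Rp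
  set η := Q / (8 * σ) with hη
  set Ce := Central H t S' R η
  set m := cnt (fun e : V × V => H e.1 e.2)
  have m0 : 0 ≤ m := cnt_nonneg _
  set Ch : V × V × V → Prop := fun z => Ce z.1 z.2.1 ∧ Ce z.1 z.2.2 ∧ z.2.1 ≠ z.2.2 ∧
        t z.1 z.2.1 / S' = t z.1 z.2.2 / S' with hCh
  set Li : V × V × V → Prop := fun z =>
    cod H (fun a y => t a y / (S' * R)) (t z.1 z.2.1 / (S' * R)) z.2.1 z.2.2 ≤ K with hLi
  have hw : ∀ z, Ch z → t z.1 z.2.2 / (S' * R) = t z.1 z.2.1 / (S' * R) := fun z hz => by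
    rw [← Nat.div_div_eq_div_mul, ← Nat.div_div_eq_div_mul, hz.2.2.2]
  have heavy : cnt (fun z => Ch z ∧ ¬ Li z) * K ≤ 18 * (L:ℝ) ^ 2 * (m * (P + Q)) := by
    refine le_trans (cnt_fib_ge (fun z => (z.1.1, z.2.1, z.2.2)) ?_) c4
    rintro ⟨a, y, b⟩ ⟨h1, h2⟩
    refine (not_le.1 h2).le.trans (cnt_inj (fun a' => ((a, a'), (y, b))) ?_ ?_)
    · intro a' ha
      exact ⟨⟨⟨h1.1.1, h1.2.1.1, ha.1, ha.2.1⟩, hw _ h1, ha.2.2.1, ha.2.2.2⟩, rfl⟩
    · intro a1 a2 _ _ e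
      simp only [Prod.mk.injEq] at e; exact e.1.2
  set Ri : V × V × V → Prop := fun z => η ≤ cnt (fun a' => GoodPath h H t (S' * R) K (z, a'))
  have ri : cnt Ri * η ≤ cnt (GoodPath h H t (S' * R) K) := cnt_pair_ge fun z hz => hz
  have ri2 : cnt (fun z : V × V × V => Ri (z.1, z.2.2, z.2.1)) ≤ cnt Ri :=
    cnt_inj (fun z => (z.1, z.2.2, z.2.1)) (fun z hz => hz) (fun z w _ _ e => by
      simp only [Prod.mk.injEq] at e; exact Prod.ext e.1 (Prod.ext e.2.2 e.2.1))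
  have light : cnt (fun z => Ch z ∧ Li z) ≤ cnt Ri +
      cnt (fun z : V × V × V => Ri (z.1, z.2.2, z.2.1)) := by
    refine cnt_le_add ?_
    rintro ⟨a, y, b⟩ ⟨h1, h2⟩
    have ne : t a y ≠ t a b := fun e => h1.2.2.1 (r.fam.injU h1.1.1 h1.2.1.1 e)
    rcases lt_or_gt_of_ne ne with c | c
    · exact r.rich h1.1 h1.2.1 h1.2.2.1 h1.2.2.2 c h2
    · refine (r.rich h1.2.1 h1.1 (Ne.symm h1.2.2.1) h1.2.2.2.symm c ?_).symm
      have := hw _ h1
      simp only at this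
      rw [cod_symm, this]; exact h2
  have sp2 := cnt_split Ch Li
  set He := cnt (fun z => Ch z ∧ ¬ Li z)
  have b1 : He * K * (16 * σ * R) ≤ m * P * K := by
    calc He * K * (16 * σ * R) ≤ 18 * (L:ℝ) ^ 2 * (m * (P + Q)) * (16 * σ * R) :=
          mul_le_mul_of_nonneg_right heavy (by positivity)
      _ ≤ 18 * (L:ℝ) ^ 2 * (m * (P + lam * P)) * (16 * σ * R) := by gcongr
      _ = m * P * (288 * (L:ℝ) ^ 2 * σ * R * (1 + lam)) := by ring
      _ ≤ _ := mul_le_mul_of_nonneg_left hK (by positivity)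
  have b2 : He * (16 * σ * R) ≤ m * P := by
    have : K * (He * (16 * σ * R)) ≤ K * (m * P) := by nlinarith
    exact le_of_mul_le_mul_left this K0
  have b3 : m * P ≤ 32 * σ * R * cnt Ri := by
    have : 8 * σ * R * cnt Ch ≤ 8 * σ * R * (2 * cnt Ri + He) :=
      mul_le_mul_of_nonneg_left (by linarith) (by positivity)
    nlinarith
  have b4 : Q = 8 * σ * η := by rw [hη]; field_simp
  calc m * P * Q ≤ 32 * σ * R * cnt Ri * Q := mul_le_mul_of_nonneg_right b3 Qp.le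
    _ = 256 * σ ^ 2 * R * (cnt Ri * η) := by rw [b4]; ring
    _ ≤ _ := mul_le_mul_of_nonneg_left ri (by positivity)

end Pool.Agent.Lib.MP_65c801_co
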