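import Pool.Agent.Lib.MP_65c801_co.Moves3

/-! The whole sweep. -/

namespace Pool.Agent.Lib.MP_65c801_co

open Finset Classical

namespace Arr

variable {ι X Vx : Type} [Fintype X] [Fintype ι] (A : Arr ι X Vx)

/-- a run of the sweep with birth times `b` and death times `d` -/
structure Run (σ : ℕ → St ι Vx) (M : ℕ) (b d : ι → ℕ) : Prop where
  inv : ∀ t, A.Inv (σ t)
  step : ∀ t, A.Step (σ t) (σ (t + 1))
  born : ∀ t i, (σ t).born i ↔ b i ≤ t
  dead : ∀ t i, (σ t).dead i ↔ d i ≤ t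
  bpos : ∀ i, 0 < b i
  bd : ∀ i, b i < d i
  dM : ∀ i, d i ≤ M

omit [Fintype ι] in
lemma Step.refl (σ : St ι Vx) (h : ∀ i, σ.dead i → σ.born i) : A.Step σ σ :=
  ⟨fun _ b => b, fun _ d => d, fun i b d => b (h i d), Subset.refl _, fun _ _ a b => absurd a b,
    fun _ _ _ _ _ _ _ => Iff.rfl, fun _ _ c => absurd rfl c, fun _ b b' => absurd b' b,
    fun _ a d => absurd d a.2⟩

theorem exists_run [Fintype Vx] : ∃ σ b d, A.Run σ (Fintype.card Vx + Fintype.card ι) b d := by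
  let σ0 : St ι Vx := ⟨fun _ => False, fun _ => False, fun _ => 0, fun _ => 0, fun _ => 0, univ⟩
  have h0 : A.Inv σ0 := by
    refine ⟨fun _ d => d, fun _ b => b.elim, fun _ b => b.elim, fun _ _ a => a.1.elim,
      fun _ _ _ => mem_univ _, fun _ _ a => a.1.elim, fun _ _ b => b.elim, fun z z1 z2 => ?_⟩
    obtain ⟨w, f, w1, w2⟩ := A.planar z (fun x => z1 x (by
      obtain ⟨i, k, e, rfl⟩ := A.surj x
      exact Or.inl ⟨i, k, e, id, rfl⟩)) fun y => z2 y (mem_univ _)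
    exact ⟨w, f, 0, fun x _ => w1 x, fun x _ => w2 x, fun _ a => a.1.elim⟩
  have nx : ∀ s : {s : St ι Vx // A.Inv s}, ∃ s' : {s : St ι Vx // A.Inv s}, A.Step s.1 s'.1 ∧
      ((∃ i, ¬ s.1.dead i) → mu s'.1 < mu s.1) := fun s => by
    by_cases c : ∃ i, ¬ s.1.dead i
    · obtain ⟨s', a, b, d⟩ := s.2.next c
      exact ⟨⟨s', a⟩, b, fun _ => d⟩
    · exact ⟨s, Step.refl A _ s.2.db, fun d => absurd d c⟩
  choose nx n1 n2 using nx
  obtain ⟨σ, s0, s1⟩ : ∃ σ : ℕ → {s : St ι Vx // A.Inv s}, σ 0 = ⟨σ0, h0⟩ ∧ ∀ t, σ (t + 1) = nx (σ t) :=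
    ⟨fun t => nx^[t] ⟨σ0, h0⟩, rfl, fun t => Function.iterate_succ_apply' _ _ _⟩
  have st : ∀ t, A.Step (σ t).1 (σ (t + 1)).1 := fun t => s1 t ▸ n1 (σ t)
  have mb : ∀ i t t', t ≤ t' → (σ t).1.born i → (σ t').1.born i := fun i t t' c b => by
    induction t', c using Nat.le_induction with
    | base => exact b
    | succ t' _ ih => exact (st t').b i ih
  have md : ∀ i t t', t ≤ t' → (σ t).1.dead i → (σ t').1.dead i := fun i t t' c b => by
    induction t', c using Nat.le_induction with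
    | base => exact b
    | succ t' _ ih => exact (st t').d i ih
  have dec : ∀ t, (∃ i, ¬ (σ t).1.dead i) → mu (σ t).1 + t ≤ Fintype.card Vx + Fintype.card ι := by
    intro t
    induction t with
    | zero => intro _; rw [s0]; simp [mu, σ0]
    | succ t ih =>
      rintro ⟨i, hi⟩
      have c : ∃ i, ¬ (σ t).1.dead i := ⟨i, fun d => hi ((st t).d i d)⟩
      have := ih c
      have := n2 (σ t) c
      rw [s1]; omega
  have fin : ∀ i, (σ (Fintype.card Vx + Fintype.card ι)).1.dead i := fun i => by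
    by_contra c
    have h1 := dec _ ⟨i, c⟩
    have h2 : 0 < (univ.filter fun i => ¬ (σ (Fintype.card Vx + Fintype.card ι)).1.dead i).card :=
      card_pos.2 ⟨i, mem_filter.2 ⟨mem_univ _, c⟩⟩
    unfold mu at h1
    omega
  have eb : ∀ i, ∃ t, (σ t).1.born i := fun i => ⟨_, (σ _).2.db i (fin i)⟩
  have ed : ∀ i, ∃ t, (σ t).1.dead i := fun i => ⟨_, fin i⟩
  have hb : ∀ t i, (σ t).1.born i ↔ Nat.find (eb i) ≤ t := fun t i =>
    ⟨fun b => Nat.find_min' _ b, fun c => mb i _ _ c (Nat.find_spec (eb i))⟩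
  have hd : ∀ t i, (σ t).1.dead i ↔ Nat.find (ed i) ≤ t := fun t i =>
    ⟨fun b => Nat.find_min' _ b, fun c => md i _ _ c (Nat.find_spec (ed i))⟩
  have bp : ∀ i, 0 < Nat.find (eb i) := fun i => by
    by_contra c
    have := (hb 0 i).2 (by omega)
    rw [s0] at this
    exact this
  refine ⟨fun t => (σ t).1, _, _, fun t => (σ t).2, st, hb, hd, bp, fun i => ?_,
    fun i => (hd _ i).1 (fin i)⟩
  have := bp i
  have h1 := (st (Nat.find (eb i) - 1)).nb i (by rw [hb]; omega)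
  rw [hd] at h1
  omega

/-- the common vertices of two curves -/
noncomputable def com [Fintype Vx] (i j : ι) : Finset Vx :=
  univ.filter fun y => ∃ k l, A.v i k = y ∧ A.v j l = y

omit [Fintype ι] in
lemma com_card [Fintype Vx] {i j : ι} (ij : i ≠ j) : (A.com i j).card ≤ 2 := by
  by_contra c
  obtain ⟨x, hx, y, hy, z, hz, xy, xz, yz⟩ := two_lt_card.1 (not_le.1 c)
  have hm : (0 : ℤ) < A.m i := by have := A.mpos i; omega
  have red : ∀ y ∈ A.com i j, ∃ k : ℤ, 0 ≤ k ∧ k < A.m i ∧ A.v i k = y ∧ ∃ l, A.v i k = A.v j l := by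
    intro y hy
    obtain ⟨k, l, e1, e2⟩ := (mem_filter.1 hy).2
    have e : A.v i (k % A.m i) = y := by
      rw [← e1]; exact A.v_eq_of_dvd ⟨-(k / A.m i), by rw [Int.emod_def]; ring⟩
    exact ⟨_, Int.emod_nonneg _ hm.ne', Int.emod_lt_of_pos _ hm, e, l, e.trans e2.symm⟩
  obtain ⟨a, a0, a1, rfl, l1, e1⟩ := red x hx
  obtain ⟨b, b0, b1, rfl, l2, e2⟩ := red y hy
  obtain ⟨c, c0, c1, rfl, l3, e3⟩ := red z hz
  have ab : a ≠ b := by rintro rfl; exact xy rfl
  have ac : a ≠ c := by rintro rfl; exact xz rfl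
  have bc : b ≠ c := by rintro rfl; exact yz rfl
  rcases lt_or_gt_of_ne ab with h1 | h1 <;> rcases lt_or_gt_of_ne ac with h2 | h2 <;>
    rcases lt_or_gt_of_ne bc with h3 | h3
  · exact two' ij h1 h3 (by omega) e1 e2 e3
  · exact two' ij h2 h3 (by omega) e1 e3 e2
  · omega
  · exact two' ij h2 h1 (by omega) e3 e1 e2
  · exact two' ij h1 h2 (by omega) e2 e1 e3
  · omega
  · exact two' ij h3 h2 (by omega) e2 e3 e1
  · exact two' ij h3 h1 (by omega) e3 e2 e1

/-- the number of swept common vertices -/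
noncomputable def cnt [Fintype Vx] (σ : St ι Vx) (i j : ι) : ℕ :=
  ((A.com i j).filter fun y => y ∉ σ.Un).card

/-- the number of slots of `j` below `s` -/
def rk (σ : St ι Vx) (j : ι) (s : ι × Bool) : ℕ :=
  (if σ.key (j, true) < σ.key s then 1 else 0) + if σ.key (j, false) < σ.key s then 1 else 0

/-- the pair of ranks moves by at most the increase of the counter -/
def Ham (a b c a' b' c' : ℕ) : Prop := a + b + c ≤ a' + b' + c' ∧ a + b' + c ≤ a' + b + c' ∧
  a' + b + c ≤ a + b' + c' ∧ a' + b' + c ≤ a + b + c'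

variable {A} [Fintype Vx]

omit [Fintype ι] in
lemma cnt_le {σ : St ι Vx} {i j : ι} (ij : i ≠ j) : A.cnt σ i j ≤ 2 :=
  (card_filter_le _ _).trans (A.com_card ij)

omit [Fintype ι] in
lemma Step.cnt_mono {σ σ' : St ι Vx} (S : A.Step σ σ') (i j : ι) : A.cnt σ i j ≤ A.cnt σ' i j :=
  card_le_card fun _ hy => mem_filter.2 ⟨(mem_filter.1 hy).1, fun c => (mem_filter.1 hy).2 (S.un c)⟩

omit [Fintype ι] in
lemma Step.quiet {σ σ' : St ι Vx} (S : A.Step σ σ') {i j : ι} (c : A.cnt σ' i j ≤ A.cnt σ i j) :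
    A.Quiet σ σ' i j ∧ A.Quiet σ σ' j i := by
  have key : ∀ y ∈ A.com i j, y ∈ σ.Un → y ∈ σ'.Un := fun y hy a => by
    by_contra b
    refine absurd c (not_le.2 (card_lt_card ⟨fun _ hy => mem_filter.2 ⟨(mem_filter.1 hy).1,
      fun c => (mem_filter.1 hy).2 (S.un c)⟩, fun h => ?_⟩))
    exact (mem_filter.1 (h (mem_filter.2 ⟨hy, b⟩))).2 a
  exact ⟨fun k l e => key _ (mem_filter.2 ⟨mem_univ _, k, l, rfl, e.symm⟩),
    fun k l e => key _ (mem_filter.2 ⟨mem_univ _, l, k, e.symm, rfl⟩)⟩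

omit [Fintype ι] [Fintype Vx] in
lemma Step.both {σ σ' : St ι Vx} (S : A.Step σ σ') {s u : ι × Bool} (a : σ.born s.1) (b : σ.born u.1)
    (c : mv σ σ' s ∧ mv σ σ' u) : A.v s.1 (σ.idx s 1) = A.v u.1 (σ.idx u 1) ∧
      A.v s.1 (σ.idx s 1) ∈ σ.Un ∧ A.v s.1 (σ.idx s 1) ∉ σ'.Un := by
  obtain ⟨-, -, a1, a2, -⟩ := S.mov s a c.1
  obtain ⟨-, -, b1, b2, -⟩ := S.mov u b c.2
  exact ⟨S.one _ _ a1 a2 b1 b2, a1, a2⟩

omit [Fintype ι] in
lemma Step.ham {σ σ' : St ι Vx} (S : A.Step σ σ') {s : ι × Bool} {j : ι} (a : σ.alive s.1)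
    (a' : σ'.alive s.1) (b : σ.alive j) (b' : σ'.alive j) :
    Ham (rk σ j s) (rk σ j (oth s)) (A.cnt σ s.1 j) (rk σ' j s) (rk σ' j (oth s)) (A.cnt σ' s.1 j) := by
  have o := fun (x : ι × Bool) (hx : x.1 = s.1) (f : Bool) =>
    S.ord (j, f) x b b' (hx ▸ a) (hx ▸ a')
  have o1 := o s rfl true
  have o2 := o s rfl false
  have o3 := o (oth s) rfl true
  have o4 := o (oth s) rfl false
  have m := S.cnt_mono s.1 j
  unfold Ham rk
  by_cases c : A.cnt σ' s.1 j ≤ A.cnt σ s.1 j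
  · have n : ∀ (x : ι × Bool), x.1 = s.1 → ∀ f, ¬ (mv σ σ' (j, f) ∧ mv σ σ' x) := fun x hx f d => by
      obtain ⟨e1, e2, e3⟩ := S.both (s := (j, f)) b.1 (hx ▸ a.1) d
      exact e3 ((S.quiet c).2 _ _ (hx ▸ e1) e2)
    simp only [o1 (n _ rfl _), o2 (n _ rfl _), o3 (n (oth s) rfl _), o4 (n (oth s) rfl _)]
    omega
  · have m1 : mv σ σ' s → ¬ mv σ σ' (oth s) := fun c => (S.mov s a.1 c).2.1
    have m2 : mv σ σ' (j, true) → ¬ mv σ σ' (j, false) := fun c => (S.mov (j, true) b.1 c).2.1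
    by_cases c1 : mv σ σ' s <;> by_cases c2 : mv σ σ' (j, true)
    · simp only [o2 (by tauto), o3 (by tauto), o4 (by tauto)]
      split_ifs <;> omega
    · simp only [o1 (by tauto), o3 (by tauto), o4 (by tauto)]
      split_ifs <;> omega
    · simp only [o1 (by tauto), o2 (by tauto), o4 (by tauto)]
      split_ifs <;> omega
    · simp only [o1 (by tauto), o2 (by tauto), o3 (by tauto)]
      split_ifs <;> omega

variable {σ : ℕ → St ι Vx} {M : ℕ} {b d : ι → ℕ} (R : A.Run σ M b d)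
include R

omit [Fintype Vx] in
lemma Run.alive {t : ℕ} {i : ι} (h1 : b i ≤ t) (h2 : t < d i) : (σ t).alive i :=
  ⟨(R.born t i).2 h1, by rw [R.dead]; omega⟩

lemma Run.ham {s : ι × Bool} {j : ι} {t t' : ℕ} (h1 : b s.1 ≤ t) (h2 : b j ≤ t) (tt : t ≤ t')
    (h3 : t' < d s.1) (h4 : t' < d j) : Ham (rk (σ t) j s) (rk (σ t) j (oth s)) (A.cnt (σ t) s.1 j)
      (rk (σ t') j s) (rk (σ t') j (oth s)) (A.cnt (σ t') s.1 j) := by
  induction t', tt using Nat.le_induction with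
  | base => unfold Ham; omega
  | succ t' tt ih =>
    have a := ih (by omega) (by omega)
    have c := (R.step t').ham (s := s) (j := j) (R.alive (by omega) (by omega))
      (R.alive (by omega) (by omega)) (R.alive (by omega) (by omega)) (R.alive (by omega) (by omega))
    unfold Ham at *
    omega

omit [Fintype Vx] in
lemma Run.same {s : ι × Bool} (c : (σ (b s.1)).key (oth s) < (σ (b s.1)).key s) {t : ℕ}
    (h1 : b s.1 ≤ t) (h2 : t < d s.1) : (σ t).key (oth s) < (σ t).key s := by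
  induction t, h1 using Nat.le_induction with
  | base => exact c
  | succ t h1 ih =>
    have a := R.alive h1 (by omega)
    have a' := R.alive (t := t + 1) (by omega) h2
    exact ((R.step t).ord (oth s) s a a' a a' fun c => ((R.step t).mov s a.1 c.2).2.1 c.1).1
      (ih (by omega))

lemma Run.birth {i j : ι} (ij : i ≠ j) (h1 : b j ≤ b i) (h2 : b i < d j)
    (c : A.cnt (σ (b i)) i j = 0 ∨ A.cnt (σ (b i)) j i = 0) : b j < b i ∧ ∀ e,
      ((σ (b i)).key (j, e) < (σ (b i)).key (i, true) ↔ (σ (b i)).key (j, e) < (σ (b i)).key (i, false)) := by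
  have := R.bpos i
  obtain ⟨t, ht⟩ : ∃ t, b i = t + 1 := ⟨b i - 1, by omega⟩
  rw [ht] at c ⊢
  have q : A.Quiet (σ t) (σ (t + 1)) i j :=
    c.elim (fun c => ((R.step t).quiet (by omega)).1) fun c => ((R.step t).quiet (by omega)).2
  have key := fun e => ((R.step t).birth i (by rw [R.born]; omega) (by rw [R.born]; omega)).2.2.2 (j, e)
    (R.alive (by simp only; omega) (by simp only; omega)) ij.symm q
  have := (R.born _ _).1 (key true).1
  exact ⟨by simp only at this; omega, fun e => (key e).2⟩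

lemma Run.death {i j : ι} (ij : i ≠ j) (h1 : d i ≤ d j) (h2 : b j < d i)
    (c : A.cnt (σ (d i - 1)) i j = 2 ∨ A.cnt (σ (d i - 1)) j i = 2) : d i < d j ∧ ∀ e,
      ((σ (d i - 1)).key (j, e) < (σ (d i - 1)).key (i, true) ↔
        (σ (d i - 1)).key (j, e) < (σ (d i - 1)).key (i, false)) := by
  have := R.bd i
  obtain ⟨t, ht⟩ : ∃ t, d i = t + 1 := ⟨d i - 1, by omega⟩
  rw [ht, Nat.add_sub_cancel] at c ⊢
  have q : A.Quiet (σ t) (σ (t + 1)) i j :=
    c.elim (fun c => ((R.step t).quiet (c ▸ cnt_le ij)).1)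
      fun c => ((R.step t).quiet (c ▸ cnt_le ij.symm)).2
  have key := fun e => ((R.step t).death i (R.alive (by omega) (by omega))
    (by rw [R.dead]; omega)).2 (j, e) (R.alive (by simp only; omega) (by simp only; omega)) ij.symm q
  have := (key true).1
  rw [R.dead] at this
  exact ⟨by simp only at this; omega, fun e => (key e).2⟩

end Arr

end Pool.Agent.Lib.MP_65c801_co
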