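import Pool.Agent.Lib.MP_65c801_co.Main

/-! Choosing the level of windows and a regular subfamily. -/

namespace Pool.Agent.Lib.MP_65c801_co

open Finset Classical

variable {V α : Type*} [LinearOrder α] [Fintype V]
variable {h : V → ℕ → α} {E : V → V → Prop} {t : V → V → ℕ}

lemma cnt_fib_ge' {X Y : Type*} [Fintype X] {p : X → Prop} (f : X → Y) (T : Finset Y) {K : ℝ}
    (hK : ∀ y ∈ T, K ≤ cnt (fun x => p x ∧ f x = y)) : T.card * K ≤ cnt p := by
  have h1 := cnt_fib (fun x => p x ∧ f x ∈ T) f T (fun x hx => hx.2)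
  have h2 : cnt (fun x => p x ∧ f x ∈ T) ≤ cnt p := cnt_mono fun x hx => hx.1
  refine le_trans ?_ (h1 ▸ h2)
  calc (T.card : ℝ) * K = ∑ _y ∈ T, K := by simp
    _ ≤ _ := Finset.sum_le_sum fun y hy =>
        (hK y hy).trans (cnt_mono fun x hx => ⟨⟨hx.1, hx.2 ▸ hy⟩, hx.2⟩)

theorem gap (hn : NoAlt h) (hi : Inj h) (f : Fam h E t) {S L : ℕ} (S0 : 0 < S) (L1 : 1 ≤ L) {n : ℝ}
    (hc : (Fintype.card V : ℝ) ≤ n) (hL : n < 2 ^ L) (G : Finset (V × ℕ))
    (hG : ∀ a y, E a y → (a, t a y / S) ∈ G) :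
    ∃ H : V → V → Prop, (∀ a y, H a y → E a y) ∧ PathOK h H t S ∧
      cnt (fun e : V × V => E e.1 e.2) ≤ L * (L * cnt (fun e : V × V => H e.1 e.2)) + G.card * 4 := by
  have nc := noncentral (fun y a => E a y) (fun y a => t a y) 1 S zero_le_one G
    (fun a y g => by rw [one_mul]; exact hG a y g)
    (fun a w => cnt_le_one fun x y hx hy => f.injU hx.1 hy.1 (by
      have := hx.2.trans hy.2.symm; simpa using this))
  set Ce : V → V → Prop := fun a y => Central (fun y a => E a y) (fun y a => t a y) 1 S 1 y a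
  have inner : ∀ a y, Ce a y → h a (t a y / S * S) < h y (t a y / S * S) ∧
      h a (t a y / S * S + (S - 1)) < h y (t a y / S * S + (S - 1)) := by
    intro a y ⟨g, c1, c2⟩
    obtain ⟨y1, ⟨g1, w1⟩, l1⟩ := exists_of_cnt_pos (lt_of_lt_of_le one_pos c1)
    obtain ⟨y2, ⟨g2, w2⟩, l2⟩ := exists_of_cnt_pos (lt_of_lt_of_le one_pos c2)
    simp only [one_mul, Nat.div_one] at w1 w2 l1 l2
    have := lens_of_three hn hi S0 l2 l1 w2 rfl w1
      (f.p2 a y2 y g2 g (fun e => by subst e; exact lt_irrefl _ l2)) (f.p1 a y g)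
      (f.p2 a y1 y g1 g (fun e => by subst e; exact lt_irrefl _ l1))
    exact ⟨this.1, this.2.1⟩
  have dy : ∀ s a y, h a s < h y s → ∃ i < L, (2:ℝ) ^ i ≤ rk h s y - rk h s a ∧
      rk h s y - rk h s a < 2 * 2 ^ i := fun s a y l =>
    dyadic _ L (by linarith [rk_add_one l]) (by
      have h1 : rk h s y ≤ n := (cnt_le_card _).trans hc
      have h2 : 0 ≤ rk h s a := cnt_nonneg _
      linarith)
  obtain ⟨i, -, p1⟩ := pigeon (fun e : V × V => Ce e.1 e.2) L L1 (fun i e =>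
    (2:ℝ) ^ i ≤ rk h (t e.1 e.2 / S * S) e.2 - rk h (t e.1 e.2 / S * S) e.1 ∧
    rk h (t e.1 e.2 / S * S) e.2 - rk h (t e.1 e.2 / S * S) e.1 < 2 * 2 ^ i)
    (fun e he => dy _ _ _ (inner _ _ he).1)
  obtain ⟨j, -, p2⟩ := pigeon (fun e : V × V => Ce e.1 e.2 ∧
    (2:ℝ) ^ i ≤ rk h (t e.1 e.2 / S * S) e.2 - rk h (t e.1 e.2 / S * S) e.1 ∧
    rk h (t e.1 e.2 / S * S) e.2 - rk h (t e.1 e.2 / S * S) e.1 < 2 * 2 ^ i) L L1 (fun j e =>
    (2:ℝ) ^ j ≤ rk h (t e.1 e.2 / S * S + (S - 1)) e.2 - rk h (t e.1 e.2 / S * S + (S - 1)) e.1 ∧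
    rk h (t e.1 e.2 / S * S + (S - 1)) e.2 - rk h (t e.1 e.2 / S * S + (S - 1)) e.1 < 2 * 2 ^ j)
    (fun e he => dy _ _ _ (inner _ _ he.1).2)
  refine ⟨fun a y => (Ce a y ∧
    (2:ℝ) ^ i ≤ rk h (t a y / S * S) y - rk h (t a y / S * S) a ∧
    rk h (t a y / S * S) y - rk h (t a y / S * S) a < 2 * 2 ^ i) ∧
    (2:ℝ) ^ j ≤ rk h (t a y / S * S + (S - 1)) y - rk h (t a y / S * S + (S - 1)) a ∧
    rk h (t a y / S * S + (S - 1)) y - rk h (t a y / S * S + (S - 1)) a < 2 * 2 ^ j,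
    fun a y g => g.1.1.1, ?_, ?_⟩
  · intro a' y a b g1 g2 g3 w1 w2
    rw [w1] at g1; rw [w2] at g3
    exact ⟨lt_of_rk (by linarith [g1.1.2.1, g2.1.2.2, g3.1.2.1]),
      lt_of_rk (by linarith [g1.2.1, g2.2.2, g3.2.1])⟩
  · have s1 := cnt_split (fun e : V × V => E e.1 e.2) (fun e => Ce e.1 e.2)
    have s2 : cnt (fun e : V × V => E e.1 e.2 ∧ Ce e.1 e.2) ≤ cnt (fun e : V × V => Ce e.1 e.2) :=
      cnt_mono fun e he => he.2
    have s3 := cnt_swap (fun e : V × V => E e.1 e.2 ∧ ¬ Ce e.1 e.2)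
    have s4 := mul_le_mul_of_nonneg_left p2 (by positivity : (0:ℝ) ≤ L)
    have s5 : cnt (fun e : V × V => E e.1 e.2 ∧ ¬ Ce e.1 e.2) ≤ G.card * 4 := by
      rw [← s3]; simpa using nc
    linarith

/-- the number of edges at the lower end of an edge in its window -/
noncomputable def gs (E : V → V → Prop) (t : V → V → ℕ) (S : ℕ) (a y : V) : ℝ :=
  cnt (fun y' => E a y' ∧ t a y' / S = t a y / S)

/-- edges with a good level at which the upper window degree grows -/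
def GoodUp (E : V → V → Prop) (t : V → V → ℕ) (R T : ℕ) (Dm B G Bm lam : ℝ) (a y : V) : Prop :=
  ∃ i < T, E a y ∧ cnt (fun y' => E a y') ≤ Dm ∧ cnt (fun a' => E a' y) ≤ Dm ∧
    B ≤ gs (fun y a => E a y) (fun y a => t a y) (R ^ i * R) y a ∧
    G * gs (fun y a => E a y) (fun y a => t a y) (R ^ i) y a ≤
      gs (fun y a => E a y) (fun y a => t a y) (R ^ i * R) y a ∧
    gs (fun y a => E a y) (fun y a => t a y) (R ^ i * R) y a ≤ Bm ∧
    gs (fun y a => E a y) (fun y a => t a y) (R ^ i * R) y a ≤ lam * gs E t (R ^ i * R) a y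

lemma class_facts {H : V → V → Prop} (hH : ∀ a y, H a y → E a y) {S : ℕ} {D Dm : ℝ} (D0 : 0 ≤ D)
    (Dm0 : 0 ≤ Dm) (h1 : ∀ a y, H a y → D ≤ gs E t S a y ∧ gs E t S a y < 2 * D)
    (h2 : ∀ a y, H a y → cnt (fun y' => E a y') ≤ Dm) :
    (∀ a w, cnt (fun y => H a y ∧ t a y / S = w) ≤ 2 * D) ∧
      ∀ a, ∃ T : Finset ℕ, T.card * (2 * D) ≤ 2 * Dm ∧ ∀ y, H a y → t a y / S ∈ T := by
  constructor
  · intro a w
    by_cases hex : ∃ y, H a y ∧ t a y / S = w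
    · obtain ⟨y, g, rfl⟩ := hex
      exact (cnt_mono fun y' hy => ⟨hH _ _ hy.1, hy.2⟩).trans (h1 a y g).2.le
    · rw [cnt_zero (fun y hy => hex ⟨y, hy⟩)]; linarith
  · intro a
    refine ⟨(univ.filter (H a)).image (fun y => t a y / S), ?_,
      fun y g => mem_image_of_mem _ (by simpa using g)⟩
    by_cases hex : ∃ y, H a y
    · obtain ⟨y, g⟩ := hex
      have := cnt_fib_ge' (p := fun y' => E a y') (fun y => t a y / S)
        ((univ.filter (H a)).image (fun y => t a y / S)) (K := D) (fun u hu => by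
          obtain ⟨y', hy', rfl⟩ := mem_image.1 hu
          exact (h1 a y' (by simpa using hy')).1)
      linarith [h2 a y g]
    · have : univ.filter (H a) = ∅ := by
        ext y; simp only [mem_filter, mem_univ, true_and, notMem_empty, iff_false]
        exact fun g => hex ⟨y, g⟩
      rw [this]; simp; linarith

theorem up_reg (hn : NoAlt h) (hi : Inj h) (f : Fam h E t) {R T L : ℕ} (R0 : 0 < R) (T0 : 0 < T)
    (L1 : 1 ≤ L) {n Dm B G Bm lam σ : ℝ} (hc : (Fintype.card V : ℝ) ≤ n) (hL : n < 2 ^ L)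
    (np : 0 < n) (tb : ∀ a y, E a y → t a y < 2 ^ L) (Dm0 : 0 < Dm) (sp : 0 < σ) (lam0 : 0 < lam)
    (hG : 8 * σ ≤ G) (hB : 16 * lam * T * L ^ 2 * (n * (2 * Dm)) ≤
      B * cnt (fun e : V × V => GoodUp E t R T Dm B G Bm lam e.1 e.2))
    (hσ : 2 * T * L ^ 4 * (n * (2 * Dm)) ≤
      σ * cnt (fun e : V × V => GoodUp E t R T Dm B G Bm lam e.1 e.2)) :
    ∃ (H : V → V → Prop) (S' : ℕ) (P Q : ℝ), Reg h H t S' R L n P Q (2 * Dm) σ ∧
      PathOK h H t (S' * R) ∧ B ≤ Q ∧ Q ≤ 2 * Bm ∧ Q ≤ 2 * lam * P := by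
  have T0' : (0:ℝ) < T := by exact_mod_cast T0
  have L0' : (0:ℝ) < L := by exact_mod_cast L1
  set GU : ℕ → V × V → Prop := fun i e => E e.1 e.2 ∧ cnt (fun y' => E e.1 y') ≤ Dm ∧
    cnt (fun a' => E a' e.2) ≤ Dm ∧
    B ≤ gs (fun y a => E a y) (fun y a => t a y) (R ^ i * R) e.2 e.1 ∧
    G * gs (fun y a => E a y) (fun y a => t a y) (R ^ i) e.2 e.1 ≤
      gs (fun y a => E a y) (fun y a => t a y) (R ^ i * R) e.2 e.1 ∧
    gs (fun y a => E a y) (fun y a => t a y) (R ^ i * R) e.2 e.1 ≤ Bm ∧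
    gs (fun y a => E a y) (fun y a => t a y) (R ^ i * R) e.2 e.1 ≤ lam * gs E t (R ^ i * R) e.1 e.2
  obtain ⟨i, -, p1⟩ := pigeon (fun e : V × V => GoodUp E t R T Dm B G Bm lam e.1 e.2) T T0 GU
    (fun e he => he)
  have p1' : cnt (fun e => GoodUp E t R T Dm B G Bm lam e.1 e.2 ∧ GU i e) ≤ cnt (GU i) :=
    cnt_mono fun e he => he.2
  obtain ⟨j, -, p2⟩ := pigeon (GU i) L L1 (fun j e => (2:ℝ) ^ j ≤ gs E t (R ^ i * R) e.1 e.2 ∧
    gs E t (R ^ i * R) e.1 e.2 < 2 * 2 ^ j) (fun e he => dyadic _ L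
      (one_le_cnt (x := e.2) ⟨he.1, rfl⟩) (lt_of_le_of_lt ((cnt_le_card _).trans hc) hL))
  obtain ⟨k, -, p3⟩ := pigeon (fun e => GU i e ∧ (2:ℝ) ^ j ≤ gs E t (R ^ i * R) e.1 e.2 ∧
    gs E t (R ^ i * R) e.1 e.2 < 2 * 2 ^ j) L L1 (fun k e =>
      (2:ℝ) ^ k ≤ gs (fun y a => E a y) (fun y a => t a y) (R ^ i * R) e.2 e.1 ∧
      gs (fun y a => E a y) (fun y a => t a y) (R ^ i * R) e.2 e.1 < 2 * 2 ^ k)
      (fun e he => dyadic _ L
      (one_le_cnt (x := e.1) ⟨he.1.1, rfl⟩) (lt_of_le_of_lt ((cnt_le_card _).trans hc) hL))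
  set D1 : ℝ := 2 ^ j
  set D2 : ℝ := 2 ^ k
  have D10 : 0 < D1 := by positivity
  have D20 : 0 < D2 := by positivity
  set H0 : V → V → Prop := fun a y => (GU i (a, y) ∧ D1 ≤ gs E t (R ^ i * R) a y ∧
    gs E t (R ^ i * R) a y < 2 * D1) ∧
      D2 ≤ gs (fun y a => E a y) (fun y a => t a y) (R ^ i * R) y a ∧
      gs (fun y a => E a y) (fun y a => t a y) (R ^ i * R) y a < 2 * D2 with hH0
  change _ ≤ L * cnt (fun e : V × V => H0 e.1 e.2) at p3
  set g := cnt (fun e : V × V => GoodUp E t R T Dm B G Bm lam e.1 e.2)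
  set m0 := cnt (fun e : V × V => H0 e.1 e.2)
  have q1 : g ≤ T * (L * (L * m0)) :=
    p1.trans (mul_le_mul_of_nonneg_left (p1'.trans (p2.trans
      (mul_le_mul_of_nonneg_left p3 L0'.le))) T0'.le)
  have nd : 0 < n * (2 * Dm) := by positivity
  have gp : 0 < g := by
    have : 0 < 2 * T * L ^ 4 * (n * (2 * Dm)) := by positivity
    exact (pos_iff_pos_of_mul_pos (lt_of_lt_of_le this hσ)).1 sp
  have mp : 0 < m0 := by
    by_contra hm; push Not at hm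
    have : (T:ℝ) * (L * (L * m0)) ≤ 0 :=
      mul_nonpos_of_nonneg_of_nonpos T0'.le (mul_nonpos_of_nonneg_of_nonpos L0'.le
        (mul_nonpos_of_nonneg_of_nonpos L0'.le hm))
    linarith
  obtain ⟨e0, he0⟩ := exists_of_cnt_pos mp
  have hE : ∀ a y, H0 a y → E a y := fun a y g => g.1.1.1
  obtain ⟨c1, c2⟩ := class_facts (t := t) hE D10.le Dm0.le (fun a y g => g.1.2)
    (fun a y g => g.1.1.2.1)
  obtain ⟨c3, c4⟩ := class_facts (E := fun y a => E a y) (t := fun y a => t a y)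
    (H := fun y a => H0 a y) (fun y a g => hE a y g) D20.le Dm0.le (fun y a g => g.2)
    (fun y a g => g.1.1.2.2.1)
  have S0 : 0 < R ^ i * R := by positivity
  obtain ⟨G1, hG1, hG1'⟩ := groups hc (by linarith) (by linarith) c2
  obtain ⟨H, hH, pp, q2⟩ := gap hn hi (f.mono hE) S0 L1 hc hL G1 hG1'
  obtain ⟨⟨⟨-, -, -, b1, -, b2, b3⟩, b4, b5⟩, b6, b7⟩ := he0
  have B1 : B ≤ 2 * D2 := by linarith
  have B3 : 2 * D2 ≤ 2 * lam * (2 * D1) := by nlinarith
  refine ⟨H, R ^ i, 2 * D1, 2 * D2, ⟨hn, hi, f.mono fun a y g => hE a y (hH a y g), hc,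
    by positivity, R0, L1, fun a y g => tb a y (hE a y (hH a y g)),
    fun a w => (cnt_mono fun y hy => ⟨hH _ _ hy.1, hy.2⟩).trans (c1 a w),
    fun y w => (cnt_mono fun a ha => ⟨hH _ _ ha.1, ha.2⟩).trans (c3 y w), fun y w => ?_,
    fun a => ?_, fun y => ?_, ?_, np, by linarith, by linarith, by linarith, sp⟩, pp, B1,
    by linarith, B3⟩
  · by_cases hex : ∃ a, H a y ∧ t a y / R ^ i = w
    · obtain ⟨a, g, rfl⟩ := hex
      have g' := hH a y g
      have h1 : cnt (fun a' => H a' y ∧ t a' y / R ^ i = t a y / R ^ i) ≤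
          gs (fun y a => E a y) (fun y a => t a y) (R ^ i) y a :=
        cnt_mono fun a' ha => ⟨hE _ _ (hH _ _ ha.1), ha.2⟩
      have h2 := g'.1.1.2.2.2.2.1
      have h3 := g'.2.2
      have h4 := mul_le_mul hG h1 (cnt_nonneg _) (by linarith)
      dsimp only at h2
      linarith
    · rw [cnt_zero (fun a ha => hex ⟨a, ha⟩)]; linarith
  · obtain ⟨T1, h1, h2⟩ := c2 a
    exact ⟨T1, h1, fun y g => h2 y (hH a y g)⟩
  · obtain ⟨T1, h1, h2⟩ := c4 y
    exact ⟨T1, h1, fun a g => h2 a (hH a y g)⟩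
  · set m := cnt (fun e : V × V => H e.1 e.2)
    have a1 : B * g ≤ 2 * lam * (2 * D1) * (T * (L * (L * m0))) :=
      mul_le_mul (by linarith) q1 gp.le (by positivity)
    have a2 : 8 * (n * (2 * Dm)) ≤ 2 * D1 * m0 := by
      have : (2 * lam * T * L ^ 2) * (8 * (n * (2 * Dm))) ≤ (2 * lam * T * L ^ 2) * (2 * D1 * m0) := by
        nlinarith
      exact le_of_mul_le_mul_left this (by positivity)
    have a3 : (G1.card : ℝ) * 8 ≤ m0 := by
      have : (2 * D1) * (G1.card * 8) ≤ (2 * D1) * m0 := by nlinarith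
      exact le_of_mul_le_mul_left this (by positivity)
    have a4 : m0 ≤ 2 * (L * (L * m)) := by linarith
    have a5 : g ≤ 2 * T * L ^ 4 * m := by
      refine q1.trans ?_
      calc (T:ℝ) * (L * (L * m0)) ≤ T * (L * (L * (2 * (L * (L * m))))) := by gcongr
        _ = _ := by ring
    have : (2 * T * L ^ 4) * (n * (2 * Dm)) ≤ (2 * T * L ^ 4) * (σ * m) := by
      nlinarith [mul_le_mul_of_nonneg_left a5 sp.le]
    exact le_of_mul_le_mul_left this (by positivity)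

end Pool.Agent.Lib.MP_65c801_co
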