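import Pool.Agent.Lib.MP_65c801_co.Chord3

/-! States of the sweep. -/

namespace Pool.Agent.Lib.MP_65c801_co

open Finset Classical

/-- A state of the sweep: the part of an alive curve `i` still to be swept runs from its vertex
`β i` to its vertex `α i`; `key` orders the ends of these parts; `Un` are the unswept vertices. -/
structure St (ι Vx : Type) where
  born : ι → Prop
  dead : ι → Prop
  β : ι → ℤ
  α : ι → ℤ
  key : ι × Bool → ℕ
  Un : Finset Vx

namespace St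

variable {ι Vx : Type} (σ : St ι Vx)

/-- born and not dead -/
def alive (i : ι) : Prop := σ.born i ∧ ¬ σ.dead i

/-- the number of edges still to be swept -/
def len (i : ι) : ℕ := (σ.α i - σ.β i).toNat

/-- the index of the `n`-th vertex from the slot `s` -/
def idx (s : ι × Bool) (n : ℕ) : ℤ := if s.2 then σ.β s.1 + n else σ.α s.1 - n

end St

/-- the other slot of the same curve -/
def oth {ι : Type} (s : ι × Bool) : ι × Bool := (s.1, !s.2)

@[simp] lemma oth_fst {ι : Type} (s : ι × Bool) : (oth s).1 = s.1 := rfl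

@[simp] lemma oth_oth {ι : Type} (s : ι × Bool) : oth (oth s) = s := by simp [oth]

lemma oth_ne {ι : Type} (s : ι × Bool) : oth s ≠ s := fun h => by
  have := congrArg Prod.snd h; simp [oth] at this

lemma eq_or_oth {ι : Type} {s u : ι × Bool} (h : u.1 = s.1) : u = s ∨ u = oth s := by
  obtain ⟨i, e⟩ := s
  obtain ⟨j, f⟩ := u
  dsimp only at h
  subst h
  cases e <;> cases f <;> simp [oth]

namespace Arr

variable {ι X Vx : Type} [Fintype X] (A : Arr ι X Vx) (σ : St ι Vx)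

/-- the `k`-th vertex of the curve `i` -/
def v (i : ι) (k : ℤ) : Vx := A.vt (A.dart i k true)

/-- the dart leaving the `n`-th vertex from the slot `s` -/
def out (s : ι × Bool) (n : ℕ) : X := A.dart s.1 (σ.idx s n) s.2

/-- the dart at the `n`-th vertex from the slot `s` that points back to `s` -/
def inn (s : ι × Bool) (n : ℕ) : X := A.dart s.1 (σ.idx s n) (!s.2)

/-- the darts not yet swept -/
def Act (x : X) : Prop :=
  (∃ i k e, ¬ σ.born i ∧ x = A.dart i k e) ∨ ∃ s : ι × Bool, σ.alive s.1 ∧ ∃ k < σ.len s.1, x = A.out σ s k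

lemma vt_dart (i : ι) (k : ℤ) (e : Bool) : A.vt (A.dart i k e) = A.v i k := by
  cases e
  · exact A.vtTF i k
  · rfl

lemma vt_out (s : ι × Bool) (n : ℕ) : A.vt (A.out σ s n) = A.v s.1 (σ.idx s n) := A.vt_dart _ _ _

lemma vt_inn (s : ι × Bool) (n : ℕ) : A.vt (A.inn σ s n) = A.v s.1 (σ.idx s n) := A.vt_dart _ _ _

lemma bar_bar (x : X) : A.bar (A.bar x) = x := by
  obtain ⟨i, k, e, rfl⟩ := A.surj x
  cases e
  · obtain ⟨l, rfl⟩ : ∃ l, k = l + 1 := ⟨k - 1, by ring⟩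
    rw [A.barF, A.barT]
  · rw [A.barT, A.barF]

lemma bar_dart (i : ι) (k : ℤ) (e : Bool) :
    A.bar (A.dart i k e) = A.dart i (if e then k + 1 else k - 1) (!e) := by
  cases e
  · obtain ⟨l, rfl⟩ : ∃ l, k = l + 1 := ⟨k - 1, by ring⟩
    rw [A.barF]; simp
  · rw [A.barT]; simp

lemma bar_ne (x : X) : A.bar x ≠ x := by
  obtain ⟨i, k, e, rfl⟩ := A.surj x
  rw [bar_dart]
  intro h
  have := ((A.deq _ _ _ _ _ _).1 h).2.1
  simp at this

lemma bar_out (s : ι × Bool) (n : ℕ) : A.bar (A.out σ s n) = A.inn σ s (n + 1) := by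
  obtain ⟨i, e⟩ := s
  unfold out inn St.idx
  rw [bar_dart]
  cases e <;> simp <;> congr 1 <;> ring

lemma dart_eq_of_dvd {i : ι} {k l : ℤ} (e : Bool) (h : (A.m i : ℤ) ∣ k - l) :
    A.dart i k e = A.dart i l e := (A.deq _ _ _ _ _ _).2 ⟨rfl, rfl, h⟩

lemma v_eq_of_dvd {i : ι} {k l : ℤ} (h : (A.m i : ℤ) ∣ k - l) : A.v i k = A.v i l := by
  unfold v; rw [A.dart_eq_of_dvd true h]

lemma eq_of_dvd {i : ι} {k l : ℤ} (h : (A.m i : ℤ) ∣ k - l) (h1 : k < l + A.m i) (h2 : l < k + A.m i) :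
    k = l := by
  have := Int.eq_zero_of_abs_lt_dvd h (abs_lt.2 ⟨by omega, by omega⟩)
  omega

lemma v_inj {i : ι} {k l : ℤ} (h : A.v i k = A.v i l) (h1 : k < l + A.m i) (h2 : l < k + A.m i) :
    k = l := A.eq_of_dvd (A.vinj i k l h) h1 h2

lemma dart_of_vt {i : ι} {k l : ℤ} (e : Bool) (h : A.v i k = A.v i l) : A.dart i k e = A.dart i l e :=
  A.dart_eq_of_dvd e (A.vinj i k l h)

lemma fst_eq_of_dart {i j : ι} {k l : ℤ} {e f : Bool} (h : A.dart i k e = A.dart j l f) : i = j :=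
  ((A.deq _ _ _ _ _ _).1 h).1

lemma out_ne_inn (s : ι × Bool) (n k : ℕ) : A.out σ s n ≠ A.inn σ s k := fun h => by
  have := ((A.deq _ _ _ _ _ _).1 h).2.1
  simp at this

/-- the crossing property for arbitrary directions -/
lemma cross' {i j : ι} {k l : ℤ} (ij : i ≠ j) (h : A.v i k = A.v j l) (e f : Bool) :
    ¬ (btw (A.pos (A.dart i k e)) (A.pos (A.dart i k (!e))) (A.pos (A.dart j l f)) ↔
      btw (A.pos (A.dart i k e)) (A.pos (A.dart i k (!e))) (A.pos (A.dart j l (!f)))) := by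
  have := A.cross i k j l ij h
  unfold btw at *
  cases e <;> cases f <;> simp only [Bool.not_true, Bool.not_false] <;> omega

lemma pos_ne {x y : X} (h : A.vt x = A.vt y) (ne : x ≠ y) : A.pos x ≠ A.pos y := fun e =>
  ne (A.pinj x y h e)

/-- the invariant of the sweep -/
structure Inv [Fintype ι] : Prop where
  db : ∀ i, σ.dead i → σ.born i
  lt : ∀ i, σ.born i → σ.β i < σ.α i
  le : ∀ i, σ.born i → σ.α i ≤ σ.β i + A.m i
  kinj : ∀ s u : ι × Bool, σ.alive s.1 → σ.alive u.1 → σ.key s = σ.key u → s = u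
  unU : ∀ i k, ¬ σ.born i → A.v i k ∈ σ.Un
  unA : ∀ i k, σ.alive i → σ.β i < k → k < σ.α i → A.v i k ∈ σ.Un
  unB : ∀ i k, σ.born i → A.v i k ∈ σ.Un →
    ¬ σ.dead i ∧ ∃ l, σ.β i < l ∧ l < σ.α i ∧ A.v i l = A.v i k
  planar : ∀ z : X → ZMod 2, (∀ x, A.Act σ x → z (A.bar x) = z x) →
    (∀ y ∈ σ.Un, ∑ x ∈ univ.filter (fun x => A.vt x = y), z x = 0) →
    ∃ (w : X → ZMod 2) (f : Vx → ZMod 2) (g : ZMod 2), (∀ x, A.Act σ x → w (A.bar x) = w x + z x) ∧
      (∀ x, A.vt x ∈ σ.Un →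
        w x = f (A.vt x) + ∑ y ∈ univ.filter (fun y => A.vt y = A.vt x ∧ A.pos y < A.pos x), z y) ∧
      ∀ s : ι × Bool, σ.alive s.1 → w (A.out σ s 0) =
        g + ∑ u ∈ univ.filter (fun u : ι × Bool => σ.alive u.1 ∧ σ.key u < σ.key s), z (A.out σ u 0)

variable {A σ} [Fintype ι] (h : A.Inv σ)
include h

lemma Inv.len_eq {i : ι} (b : σ.born i) : (σ.len i : ℤ) = σ.α i - σ.β i := by
  have := h.lt i b
  unfold St.len; omega

lemma Inv.idx_oth {s : ι × Bool} (b : σ.born s.1) {n : ℕ} (hn : n ≤ σ.len s.1) :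
    σ.idx (oth s) n = σ.idx s (σ.len s.1 - n) := by
  have := h.len_eq b
  obtain ⟨i, e⟩ := s
  unfold St.idx oth
  cases e <;> simp at * <;> omega

lemma Inv.out_oth {s : ι × Bool} (b : σ.born s.1) {n : ℕ} (hn : n ≤ σ.len s.1) :
    A.out σ (oth s) n = A.inn σ s (σ.len s.1 - n) := by
  unfold out inn
  rw [h.idx_oth b hn]; rfl

lemma Inv.idx_mem {s : ι × Bool} (b : σ.born s.1) {n : ℕ} (n0 : 0 < n) (hn : n < σ.len s.1) :
    σ.β s.1 < σ.idx s n ∧ σ.idx s n < σ.α s.1 := by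
  have := h.len_eq b
  unfold St.idx
  split_ifs <;> omega

lemma Inv.exists_idx {s : ι × Bool} (b : σ.born s.1) {k : ℤ} (k0 : σ.β s.1 < k) (k1 : k < σ.α s.1) :
    ∃ n, 0 < n ∧ n < σ.len s.1 ∧ σ.idx s n = k := by
  have := h.len_eq b
  unfold St.idx
  split_ifs
  · exact ⟨(k - σ.β s.1).toNat, by omega, by omega, by omega⟩
  · exact ⟨(σ.α s.1 - k).toNat, by omega, by omega, by omega⟩

lemma Inv.idx_inj {s : ι × Bool} (b : σ.born s.1) {n k : ℕ} (n1 : n ≤ σ.len s.1) (k1 : k ≤ σ.len s.1)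
    (c : n < k + σ.len s.1) (c' : k < n + σ.len s.1) (e : A.v s.1 (σ.idx s n) = A.v s.1 (σ.idx s k)) :
    n = k := by
  have := h.len_eq b
  have := h.le _ b
  have := A.v_inj e (by unfold St.idx; split_ifs <;> omega) (by unfold St.idx; split_ifs <;> omega)
  unfold St.idx at this
  split_ifs at this <;> omega

lemma Inv.mem_Un {s : ι × Bool} (a : σ.alive s.1) {n : ℕ} (n0 : 0 < n) (hn : n < σ.len s.1) :
    A.v s.1 (σ.idx s n) ∈ σ.Un :=
  h.unA _ _ a (h.idx_mem a.1 n0 hn).1 (h.idx_mem a.1 n0 hn).2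

lemma Inv.not_mem_Un {s : ι × Bool} (b : σ.born s.1) : A.v s.1 (σ.idx s 0) ∉ σ.Un := fun c => by
  obtain ⟨-, l, l0, l1, e⟩ := h.unB _ _ b c
  obtain ⟨n, n0, n1, rfl⟩ := h.exists_idx b l0 l1
  have := h.idx_inj b n1.le (Nat.zero_le _) (by omega) (by omega) e
  omega

lemma Inv.out_inj {s u : ι × Bool} (b : σ.born s.1) {n k : ℕ} (n1 : n < σ.len s.1)
    (k1 : k < σ.len u.1) (e : A.out σ s n = A.out σ u k) : s = u ∧ n = k := by
  obtain ⟨a1, a2, a3⟩ := (A.deq _ _ _ _ _ _).1 e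
  have su : s = u := Prod.ext a1 a2
  subst su
  exact ⟨rfl, h.idx_inj b n1.le k1.le (by omega) (by omega) (A.v_eq_of_dvd a3)⟩

end Arr

end Pool.Agent.Lib.MP_65c801_co
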