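import Pool.Agent.Lib.MP_65c801_co.Par

/-! The chords of a state of the sweep. -/

namespace Pool.Agent.Lib.MP_65c801_co

open Finset Classical

lemma z2_r5 {a b c d : ℕ} (h : ¬ (btw a b c ↔ btw a b d)) (h1 : a ≠ c) (h2 : a ≠ d) (h3 : b ≠ c)
    (h4 : b ≠ d) (h5 : a ≠ b) (h6 : c ≠ d) :
    ((0 + if b < a then 1 else 0) + ((0 : ZMod 2) + if d < a then 1 else 0) : ZMod 2) =
      (0 + if b < c then 1 else 0) + (0 + if d < c then 1 else 0) := by
  unfold btw at h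
  split_ifs <;> first | rfl | omega

namespace Arr

variable {ι X Vx : Type} [Fintype X] {A : Arr ι X Vx} {σ : St ι Vx} [Fintype ι] (h : A.Inv σ)
include h

omit h [Fintype ι] in
lemma two' {i j : ι} (ij : i ≠ j) {k1 k2 k3 l1 l2 l3 : ℤ} (c1 : k1 < k2) (c2 : k2 < k3)
    (c3 : k3 < k1 + A.m i) (e1 : A.v i k1 = A.v j l1) (e2 : A.v i k2 = A.v j l2)
    (e3 : A.v i k3 = A.v j l3) : False := by
  have hm := A.mpos i
  obtain ⟨c, hc, hd⟩ : ∃ c : ℤ, 0 ≤ k1 + c ∧ (A.m i : ℤ) ∣ c :=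
    ⟨A.m i * |k1|, by nlinarith [neg_abs_le k1, abs_nonneg k1], Dvd.intro _ rfl⟩
  have key : ∀ k, k1 ≤ k → A.v i ((k + c).toNat : ℤ) = A.v i k := fun k hk =>
    A.v_eq_of_dvd (by rw [Int.toNat_of_nonneg (by omega)]; simpa using hd)
  exact A.two i j ij (k1 + c).toNat (k2 + c).toNat (k3 + c).toNat l1 l2 l3 (by omega) (by omega)
    (by omega) ((key _ le_rfl).trans e1) ((key _ c1.le).trans e2) ((key _ (by omega)).trans e3)

lemma Inv.two {s u : ι × Bool} (b : σ.born u.1) (su : u.1 ≠ s.1) {k1 k2 k3 : ℕ} (c0 : 0 < k1)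
    (c1 : k1 < k2) (c2 : k2 < k3) (c3 : k3 < σ.len u.1) (o1 : A.On σ s (A.v u.1 (σ.idx u k1)))
    (o2 : A.On σ s (A.v u.1 (σ.idx u k2))) (o3 : A.On σ s (A.v u.1 (σ.idx u k3))) : False := by
  obtain ⟨l1, -, -, e1⟩ := o1
  obtain ⟨l2, -, -, e2⟩ := o2
  obtain ⟨l3, -, -, e3⟩ := o3
  have := h.len_eq b
  have := h.le _ b
  by_cases c : u.2 = true
  · refine two' su ?_ ?_ ?_ e1.symm e2.symm e3.symm <;>
      simp only [St.idx, c, if_true] <;> omega
  · refine two' su ?_ ?_ ?_ e3.symm e2.symm e1.symm <;>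
      simp only [St.idx, c] <;> simp <;> omega

omit h in
lemma val_const {val P : ℕ → Prop} {L : ℕ} (hv : ∀ k, 0 < k → k < L → ((val k ↔ val (k - 1)) ↔ ¬ P k))
    {a b : ℕ} (ab : a ≤ b) (bL : b < L) (hP : ∀ k, a < k → k ≤ b → ¬ P k) : val a ↔ val b := by
  induction b, ab using Nat.le_induction with
  | base => rfl
  | succ b ab ih =>
    rw [ih (by omega) fun k k1 k2 => hP k k1 (by omega)]
    exact ((hv (b + 1) (by omega) bL).2 (hP _ (by omega) le_rfl)).symm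

lemma Inv.int0 {s u : ι × Bool} (a : σ.alive s.1) (b : σ.alive u.1) (su : u.1 ≠ s.1)
    (hn : ∀ k, 0 < k → k < σ.len u.1 → ¬ A.On σ s (A.v u.1 (σ.idx u k))) :
    btw (σ.key s) (σ.key (oth s)) (σ.key u) ↔ btw (σ.key s) (σ.key (oth s)) (σ.key (oth u)) := by
  obtain ⟨val, v0, v1, v2⟩ := h.par a b su
  have := h.len_pos b.1
  rw [← v0, ← v1]
  exact val_const v2 (by omega) (by omega) fun k k0 k1 => hn k k0 (by omega)

lemma Inv.int1 {s u : ι × Bool} (a : σ.alive s.1) (b : σ.alive u.1) (su : u.1 ≠ s.1) {l : ℕ}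
    (l0 : 0 < l) (l1 : l < σ.len u.1) (hl : A.On σ s (A.v u.1 (σ.idx u l)))
    (hn : ∀ k, 0 < k → k < σ.len u.1 → k ≠ l → ¬ A.On σ s (A.v u.1 (σ.idx u k))) :
    ¬ (btw (σ.key s) (σ.key (oth s)) (σ.key u) ↔ btw (σ.key s) (σ.key (oth s)) (σ.key (oth u))) := by
  obtain ⟨val, v0, v1, v2⟩ := h.par a b su
  rw [← v0, ← v1, val_const v2 (a := 0) (b := l - 1) (by omega) (by omega)
    (fun k k0 k1 => hn k k0 (by omega) (by omega)), ← val_const v2 (a := l) (b := σ.len u.1 - 1)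
    (by omega) (by omega) (fun k k0 k1 => hn k (by omega) (by omega) (by omega))]
  exact fun c => (v2 l l0 l1).1 c.symm hl

lemma Inv.int2 {s u : ι × Bool} (a : σ.alive s.1) (b : σ.alive u.1) (su : u.1 ≠ s.1) {k l : ℕ}
    (k0 : 0 < k) (kl : k < l) (l1 : l < σ.len u.1) (hk : A.On σ s (A.v u.1 (σ.idx u k)))
    (hl : A.On σ s (A.v u.1 (σ.idx u l))) :
    btw (σ.key s) (σ.key (oth s)) (σ.key u) ↔ btw (σ.key s) (σ.key (oth s)) (σ.key (oth u)) := by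
  obtain ⟨val, v0, v1, v2⟩ := h.par a b su
  have c1 := val_const v2 (a := 0) (b := k - 1) (by omega) (by omega)
    (fun j j0 j1 c => h.two b.1 su j0 (by omega) kl l1 c hk hl)
  have c2 := val_const v2 (a := k) (b := l - 1) (by omega) (by omega)
    (fun j j0 j1 c => h.two b.1 su k0 j0 (by omega) l1 hk c hl)
  have c3 := val_const v2 (a := l) (b := σ.len u.1 - 1) (by omega) (by omega)
    (fun j j0 j1 c => h.two b.1 su k0 kl j0 (by omega) hk hl c)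
  have c4 : ¬ (val k ↔ val (k - 1)) := fun c => (v2 k k0 (by omega)).1 c hk
  have c5 : ¬ (val l ↔ val (l - 1)) := fun c => (v2 l (by omega) l1).1 c hl
  rw [← v0, ← v1]
  tauto

lemma Inv.vee {s t : ι × Bool} (a : σ.alive s.1) (b : σ.alive t.1) (ts : t.1 ≠ s.1) {n m : ℕ}
    (n0 : 0 < n) (n1 : n < σ.len s.1) (m0 : 0 < m) (m1 : m < σ.len t.1)
    (e : A.v s.1 (σ.idx s n) = A.v t.1 (σ.idx t m)) : ∃ val : ι × Bool → ℕ → Prop,
    (∀ u, σ.alive u.1 → u ≠ s → u ≠ t → (val u 0 ↔ btw (σ.key s) (σ.key t) (σ.key u))) ∧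
    (∀ u k, σ.alive u.1 → k < σ.len u.1 → (val (oth u) k ↔ val u (σ.len u.1 - 1 - k))) ∧
    (∀ u k u' k', σ.alive u.1 → 0 < k → k < σ.len u.1 →
      A.v u.1 (σ.idx u k) = A.v u'.1 (σ.idx u' k') →
      (∀ j, 0 < j → j ≤ n → A.v s.1 (σ.idx s j) ≠ A.v u.1 (σ.idx u k)) →
      (∀ j, 0 < j → j ≤ m → A.v t.1 (σ.idx t j) ≠ A.v u.1 (σ.idx u k)) → (val u k ↔ val u' k')) ∧
    (∀ u k j, σ.alive u.1 → 0 < k → k < σ.len u.1 → 0 < j → j < m →
      A.v u.1 (σ.idx u k) = A.v t.1 (σ.idx t j) → u.1 ≠ t.1 →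
      (∀ j, 0 < j → j ≤ n → A.v s.1 (σ.idx s j) ≠ A.v u.1 (σ.idx u k)) →
      ¬ (val u k ↔ val u (k - 1))) ∧ (val s n ↔ val t m) := by
  have e0 := h.not_mem_Un (s := s) a.1
  have e1 := h.not_mem_Un (s := t) b.1
  obtain ⟨z, hz⟩ : ∃ z : X → ZMod 2, ∀ x, z x = A.pind σ s n x + A.pind σ t m x := ⟨_, fun _ => rfl⟩
  have zb : ∀ x, z (A.bar x) = z x := fun x => by rw [hz, hz, pind_bar, pind_bar]
  have zs : ∀ (P : X → Prop) [DecidablePred P], ∑ x ∈ univ.filter P, z x =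
      ∑ x ∈ univ.filter P, A.pind σ s n x + ∑ x ∈ univ.filter P, A.pind σ t m x := fun P _ => by
    rw [← sum_add_distrib]; exact sum_congr rfl fun x _ => hz x
  obtain ⟨w, f, g, w1, w2, w3⟩ := h.planar z (fun x _ => zb x) (fun y hy => by
    rw [zs, sum_vt, sum_vt, if_neg (by rintro rfl; exact e0 hy), if_neg (c := _ = y) (t := 1)
      (show ¬ A.v t.1 (σ.idx t 0) = y by rintro rfl; exact e1 hy), e, zero_add, z2_add_self])
  obtain ⟨val, hv⟩ : ∃ val : ι × Bool → ℕ → Prop, ∀ u k, val u k ↔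
    w (A.out σ u k) + (if u.2 then 0 else z (A.out σ u k)) + g = 1 := ⟨_, fun _ _ => Iff.rfl⟩
  have hv0 : ∀ u k, z (A.out σ u k) = 0 → (val u k ↔ w (A.out σ u k) + g = 1) := fun u k c => by
    rw [hv, c, ite_self, add_zero]
  have hb : ∀ (u : ι × Bool) k, σ.alive u.1 → k < σ.len u.1 →
      w (A.out σ (oth u) k) + z (A.out σ (oth u) k) = w (A.out σ u (σ.len u.1 - 1 - k)) := by
    intro u k au k1
    rw [← w1 _ (h.act_out (s := oth u) au k1), bar_out]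
    have := h.out_oth (s := oth u) au.1 (n := σ.len u.1 - 1 - k) (by simp; omega)
    rw [oth_oth] at this
    rw [this]; congr 2; simp; omega
  have offs : ∀ {y}, y ∈ σ.Un → (∀ j, 0 < j → j ≤ n → A.v s.1 (σ.idx s j) ≠ y) →
      ∀ j ≤ n, A.v s.1 (σ.idx s j) ≠ y := fun hy o j j1 => by
    rcases Nat.eq_zero_or_pos j with rfl | j0
    · rintro rfl; exact e0 hy
    · exact o j j0 j1
  refine ⟨val, fun u au us ut => ?_, fun u k au k1 => ?_, fun u k u' k' au k0 k1 ee o1 o2 => ?_,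
    fun u k j au k0 k1 j0 j1 ee ut o => ?_, ?_⟩
  · have zz : ∀ y, z (A.out σ y 0) = (if y = s then 1 else 0) + if y = t then 1 else 0 := fun y => by
      rw [hz, h.pind_slot a.1 n0 n1.le, h.pind_slot b.1 m0 m1.le]
      simp [n1.ne, m1.ne]
    rw [hv0 u 0 (by rw [zz]; simp [us, ut]), w3 u au, slot_sum a b _ _ zz,
      ite_btw (h.key_ne a au us.symm) (h.key_ne b au ut.symm), add_comm g, add_assoc, z2_add_self]
    split_ifs with c <;> simp [c]
  · rw [hv, hv]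
    have h1 := hb u k au k1
    have h2 := hb (oth u) (σ.len u.1 - 1 - k) au (by simp; omega)
    rw [oth_oth, oth_fst, show σ.len u.1 - 1 - (σ.len u.1 - 1 - k) = k by omega] at h2
    obtain ⟨i, e⟩ := u
    cases e
    · simp only [oth, Bool.not_false, if_true, add_zero] at *
      simp [h2]
    · simp only [oth, Bool.not_true, if_true, add_zero] at *
      simp [h1]
  · have hU := h.mem_Un au k0 k1
    have o1' := offs hU o1
    have o2' : ∀ j ≤ m, A.v t.1 (σ.idx t j) ≠ A.v u.1 (σ.idx u k) := fun j j1 => by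
      rcases Nat.eq_zero_or_pos j with rfl | j0
      · intro c; exact e1 (c ▸ hU)
      · exact o2 j j0 j1
    have key : ∀ x, A.vt x = A.v u.1 (σ.idx u k) → z x = 0 ∧ w x = f (A.v u.1 (σ.idx u k)) := by
      intro x hx
      refine ⟨by rw [hz, A.pind_off σ s n x (hx ▸ o1'), A.pind_off σ t m x (hx ▸ o2'), add_zero], ?_⟩
      rw [w2 x (hx ▸ hU), hx, zs, A.sum_off σ s n _ _ o1', A.sum_off σ t m _ _ o2']
      simp
    have p1 := key _ (A.vt_out σ u k)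
    have p2 := key _ ((A.vt_out σ u' k').trans ee.symm)
    rw [hv0 _ _ p1.1, hv0 _ _ p2.1, p1.2, p2.2]
  · have hU := h.mem_Un au k0 k1
    have o' := offs hU o
    have z0 : ∀ e, z (A.dart u.1 (σ.idx u k) e) = 0 := fun e => by
      rw [hz, A.pind_off σ s n _ (by rw [vt_dart]; exact o'), A.pind_other σ t m ut, add_zero]
    have bb : A.bar (A.out σ u (k - 1)) = A.inn σ u k := by rw [bar_out]; congr 1; omega
    have z1 : z (A.out σ u (k - 1)) = 0 := by rw [← zb, bb]; exact z0 _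
    have p0 := w1 _ (h.act_out au (k := k - 1) (by omega))
    rw [bb, z1, add_zero] at p0
    have p1 := w2 (A.out σ u k) (by rwa [vt_out])
    have p2 := w2 (A.inn σ u k) (by rwa [vt_inn])
    rw [vt_out, zs, A.sum_off σ s n _ _ o', zero_add] at p1
    rw [vt_inn, zs, A.sum_off σ s n _ _ o', zero_add] at p2
    rw [ee, h.sum_on b.1 j0 j1.le m1.le (by omega)] at p1 p2
    simp only [j1, true_and] at p1 p2
    rw [cross_sum ut ee.symm, ← add_assoc, ← p2] at p1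
    rw [hv0 _ _ (z0 _), hv0 _ _ z1, p1, ← p0]
    exact z2_flip _ _
  · have hU := h.mem_Un a n0 n1
    have z1 : z (A.out σ s n) = 0 := by
      rw [hz, h.pind_out a.1 n1.le n1, if_neg (lt_irrefl n), zero_add]
      exact A.pind_other σ t m ts.symm _ _
    have z2 : z (A.out σ t m) = 0 := by
      rw [hz, h.pind_out b.1 m1.le m1, if_neg (lt_irrefl m), add_zero]
      exact A.pind_other σ s n ts _ _
    have p1 := w2 (A.out σ s n) (by rwa [vt_out])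
    have p2 := w2 (A.out σ t m) (by rwa [vt_out, ← e])
    rw [vt_out, zs, h.sum_on a.1 n0 le_rfl n1.le n1, e, h.sum_on b.1 m0 le_rfl m1.le m1] at p1
    rw [vt_out, zs, h.sum_on b.1 m0 le_rfl m1.le m1, ← e, h.sum_on a.1 n0 le_rfl n1.le n1, e] at p2
    simp only [lt_irrefl, false_and, if_false] at p1 p2
    have ne : ∀ a b, A.pos (A.dart s.1 (σ.idx s n) a) ≠ A.pos (A.dart t.1 (σ.idx t m) b) := fun a b =>
      A.pos_ne (by rw [vt_dart, vt_dart, e]) fun c => ts (A.fst_eq_of_dart c).symm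
    rw [hv0 _ _ z1, hv0 _ _ z2, p1, p2]
    unfold out inn
    rw [z2_r5 (A.cross' ts.symm e s.2 t.2) (ne _ _) (ne _ _) (ne _ _) (ne _ _)
      (A.pos_ne (by rw [vt_dart, vt_dart]) (A.out_ne_inn σ s n n))
      (A.pos_ne (by rw [vt_dart, vt_dart]) (A.out_ne_inn σ t m m))]

omit h in
lemma fst_ne {P : ι → Prop} {s u : {s : ι × Bool // P s.1}} (h1 : u ≠ s) (h2 : u ≠ ⟨oth s.1, s.2⟩) :
    u.1.1 ≠ s.1.1 := fun c =>
  (eq_or_oth c).elim (fun e => h1 (Subtype.ext e)) fun e => h2 (Subtype.ext e)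

/-- the chords of a state -/
def Inv.chords : Chords {s : ι × Bool // σ.alive s.1} Vx where
  key s := σ.key s.1
  pa s := ⟨oth s.1, s.2⟩
  len s := σ.len s.1.1
  seq s n := A.v s.1.1 (σ.idx s.1 n)
  kinj a b e := Subtype.ext (h.kinj _ _ a.2 b.2 e)
  papa s := Subtype.ext (oth_oth s.1)
  pane s e := oth_ne s.1 (congrArg Subtype.val e)
  lenpos s := h.len_pos s.2.1
  lenpa s := rfl
  seqpa s n hn := by rw [h.idx_oth s.2.1 hn]; rfl
  inj s n m n0 n1 m0 m1 e := h.idx_inj s.2.1 n1.le m1.le (by omega) (by omega) e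
  two s u h1 h2 k1 k2 k3 c0 c1 c2 c3 o1 o2 o3 := h.two u.2.1 (fst_ne h1 h2) c0 c1 c2 c3 o1 o2 o3
  c0 s u h1 h2 hn := h.int0 s.2 u.2 (fst_ne h1 h2) fun k k0 k1 ⟨n, n0, n1, e⟩ => hn k n k0 k1 n0 n1 e
  c2 s u h1 h2 k1 k2 c0 c1 c2 o1 o2 := h.int2 s.2 u.2 (fst_ne h1 h2) c0 c1 c2 o1 o2
  vee s n t m n0 n1 m0 m1 h1 h2 e := by
    obtain ⟨val, r0, r1, r4, r3, r5⟩ := h.vee s.2 t.2 (fst_ne h1 h2) n0 n1 m0 m1 e
    exact ⟨fun u => val u.1, fun u us ut => r0 u.1 u.2 (fun c => us (Subtype.ext c))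
      (fun c => ut (Subtype.ext c)), fun u k k1 => r1 u.1 k u.2 k1,
      fun u k u' k' k0 k1 _ _ => r4 u.1 k u'.1 k' u.2 k0 k1,
      fun u k j k0 k1 j0 j1 ee a b => r3 u.1 k j u.2 k0 k1 j0 j1 ee (fst_ne a b), r5⟩

/-- the available moves -/
lemma Inv.move (hal : ∃ i, σ.alive i) :
    (∃ i, σ.alive i ∧ σ.len i = 1 ∧
      ∀ x : ι × Bool, σ.alive x.1 → ¬ btw (σ.key (i, true)) (σ.key (i, false)) (σ.key x)) ∨
    ∃ (y : Vx) (B : ι × Bool → Prop), (∃ u, B u) ∧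
      (∀ u, B u → σ.alive u.1 ∧ 1 < σ.len u.1 ∧ A.v u.1 (σ.idx u 1) = y) ∧
      (∀ a b x, B a → B b → σ.alive x.1 → btw (σ.key a) (σ.key b) (σ.key x) → B x) ∧
      ∀ d : ι × Bool, σ.alive d.1 → A.On σ d y → B d ∨ B (oth d) := by
  by_cases c : ∃ s : ι × Bool, σ.alive s.1 ∧ 1 < σ.len s.1 ∧
      ∀ d : ι × Bool, σ.alive d.1 → A.On σ d (A.v s.1 (σ.idx s 1)) → d.1 = s.1
  · obtain ⟨s, a, l, hs⟩ := c
    refine Or.inr ⟨_, (· = s), ⟨s, rfl⟩, by rintro u rfl; exact ⟨a, l, rfl⟩, ?_, fun d ad o => ?_⟩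
    · rintro a b x rfl rfl - c
      unfold btw at c; omega
    · rcases eq_or_oth (hs d ad o) with rfl | rfl
      · exact Or.inl rfl
      · exact Or.inr (oth_oth s)
  push Not at c
  have vert : ∀ s : {s : ι × Bool // σ.alive s.1}, 1 < σ.len s.1.1 → h.chords.Vert univ s 1 := by
    intro s l
    obtain ⟨d, ad, o, ne⟩ := c s.1 s.2 l
    exact ⟨one_pos, l, ⟨d, ad⟩, Or.inl (mem_univ _), fun e => ne (congrArg (·.1.1) e),
      fun e => ne (congrArg (·.1.1) e), o⟩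
  obtain ⟨i, ai⟩ := hal
  rcases Chords.move (C := h.chords) univ (fun _ _ _ _ _ _ => mem_univ _)
    ⟨⟨(i, true), ai⟩, mem_univ _, Or.inl (mem_univ _)⟩ with
    ⟨u, -, -, u1, u2⟩ | ⟨y, B, ⟨u, hu⟩, b2, b3, b4⟩
  · refine Or.inl ⟨u.1.1, u.2, ?_, fun x ax hx => u1 ⟨x, ax⟩ ?_⟩
    · have := h.len_pos u.2.1
      by_contra c
      exact u2 1 (vert u (by omega))
    · obtain ⟨⟨j, e⟩, aj⟩ := u
      cases e
      · exact Or.symm hx
      · exact hx
  · refine Or.inr ⟨y, fun s => ∃ a : σ.alive s.1, B ⟨s, a⟩, ⟨u.1, u.2, hu⟩, ?_, ?_, fun d ad o => ?_⟩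
    · rintro s ⟨a, hs⟩
      obtain ⟨-, n, n1, n2, n3⟩ := b2 _ hs
      have n0 : 0 < n := n1.1
      have n4 : n < σ.len s.1 := n1.2.1
      have : n = 1 := by
        by_contra c
        exact n3 1 (by omega) (vert ⟨s, a⟩ (show 1 < σ.len s.1 by omega))
      subst this
      exact ⟨a, n4, n2⟩
    · rintro a b x ⟨aa, ha⟩ ⟨ab, hb⟩ ax hx
      exact ⟨ax, b3 _ _ ⟨x, ax⟩ ha hb hx⟩
    · exact (b4 ⟨d, ad⟩ (Or.inl (mem_univ _)) o).imp (fun c => ⟨ad, c⟩) fun c => ⟨ad, c⟩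

end Arr

end Pool.Agent.Lib.MP_65c801_co
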