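import Pool.Agent.Lib.MP_65c801_co.Wind

/-! The rotation at the vertices of a plane graph given by its half-edges. -/

namespace Pool.Agent.Lib.MP_65c801_co

open Finset Classical Complex

namespace WheelAux

lemma cyc_iff {X R : Type} [Fintype X] [CommRing R] {p : X → ℝ → ℂ} {a : X → R} :
    Cyc p a ↔ ∀ k : ℂ → R, ∑ x, a x * k (p x 1) = ∑ x, a x * k (p x 0) := by
  constructor
  · intro h k
    set T : Finset ℂ := univ.image (fun x => p x 1) ∪ univ.image (fun x => p x 0) with hT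
    have key : ∀ t : ℝ, (∀ x, p x t ∈ T) → ∑ x, a x * k (p x t) =
        ∑ r ∈ T, (∑ x ∈ univ.filter (fun x => p x t = r), a x) * k r := fun t ht => by
      rw [← sum_fiberwise_of_maps_to (s := univ) (t := T) (g := fun x => p x t)
        (fun x _ => ht x)]
      refine sum_congr rfl fun r _ => ?_
      rw [sum_mul]
      exact sum_congr rfl fun x hx => by rw [(mem_filter.1 hx).2]
    rw [key 1 (fun x => by simp [hT]), key 0 (fun x => by simp [hT])]
    exact sum_congr rfl fun r _ => by rw [h r]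
  · intro h r
    have := h (fun z => if z = r then 1 else 0)
    simpa [sum_filter] using this

lemma two_pi_ne : (2 * Real.pi * I : ℂ) ≠ 0 := by simp [Real.pi_ne_zero]

lemma wn_add {p : ℝ → ℂ} (hp : ContinuousOn p (Set.Icc 0 1)) {q : ℂ}
    (hq : ∀ s ∈ Set.Icc (0 : ℝ) 1, p s ≠ q) {σ : ℝ} (h0 : 0 ≤ σ) (h1 : σ ≤ 1) :
    wn p q = wn (fun s => p (s * σ)) q + wn (fun s => p (σ + s * (1 - σ))) q := by
  obtain ⟨L, hL, he⟩ := exists_log_Icc (f := fun s => p s - q) (hp.sub continuousOn_const)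
    (fun s hs => sub_ne_zero.2 (hq s hs))
  have m1 : ∀ s ∈ Set.Icc (0 : ℝ) 1, s * σ ∈ Set.Icc (0 : ℝ) 1 := fun s hs =>
    ⟨mul_nonneg hs.1 h0, mul_le_one₀ hs.2 h0 h1⟩
  have m2 : ∀ s ∈ Set.Icc (0 : ℝ) 1, σ + s * (1 - σ) ∈ Set.Icc (0 : ℝ) 1 := fun s hs =>
    ⟨by nlinarith [hs.1], by nlinarith [hs.2]⟩
  have e0 := wn_spec hL he
  have e1 := wn_spec (p := fun s => p (s * σ)) (L := fun s => L (s * σ))
    (hL.comp (by fun_prop) m1) (fun s hs => he _ (m1 s hs))
  have e2 := wn_spec (p := fun s => p (σ + s * (1 - σ))) (L := fun s => L (σ + s * (1 - σ)))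
    (hL.comp (by fun_prop) m2) (fun s hs => he _ (m2 s hs))
  simp only [one_mul, zero_mul, add_zero, add_sub_cancel] at e1 e2
  have : (wn p q : ℂ) = wn (fun s => p (s * σ)) q + wn (fun s => p (σ + s * (1 - σ))) q :=
    mul_left_cancel₀ two_pi_ne (by linear_combination e1 + e2 - e0)
  exact_mod_cast this

/-- the arc of a circle between two angles -/
noncomputable def arc (v : ℂ) (ε α β : ℝ) (s : ℝ) : ℂ := circleMap v ε (α + s * (β - α))

lemma arc_cont (v : ℂ) (ε α β : ℝ) : Continuous (arc v ε α β) :=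
  (continuous_circleMap v ε).comp (by fun_prop)

lemma arc_zero (v : ℂ) (ε α β : ℝ) : arc v ε α β 0 = circleMap v ε α := by simp [arc]

lemma arc_one (v : ℂ) (ε α β : ℝ) : arc v ε α β 1 = circleMap v ε β := by simp [arc]

lemma arc_norm (v : ℂ) {ε : ℝ} (hε : 0 < ε) (α β s : ℝ) : ‖arc v ε α β s - v‖ = ε := by
  rw [arc, circleMap_sub_center, norm_circleMap_zero, abs_of_pos hε]

lemma wn_arc {v q : ℂ} {ε : ℝ} (hε : 0 < ε) (hq : ‖q - v‖ < ε) (α β : ℝ) :
    wn (arc v ε α β) q = wn (arc v ε (α + 2 * Real.pi) β) q + 1 := by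
  set l : ℝ → ℂ := fun φ => (Real.log ε : ℂ) + φ * I + log (1 + (v - q) / circleMap 0 ε φ)
    with hl
  have hc : ∀ φ, circleMap 0 ε φ ≠ 0 := fun φ => circleMap_ne_center hε.ne'
  have hs : ∀ φ, 1 + (v - q) / circleMap 0 ε φ ∈ slitPlane := fun φ =>
    mem_slitPlane_of_norm_lt_one (by
      rw [norm_div, norm_circleMap_zero, abs_of_pos hε, div_lt_one hε, norm_sub_rev]; exact hq)
  have hcont : Continuous l := by
    refine Continuous.add (by fun_prop) (Continuous.clog ?_ hs)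
    exact continuous_const.add (continuous_const.div (continuous_circleMap 0 ε) hc)
  have he : ∀ φ, exp (l φ) = circleMap v ε φ - q := fun φ => by
    have h1 : circleMap 0 ε φ = ε * exp (φ * I) := by simp [circleMap]
    have h2 : circleMap v ε φ = v + circleMap 0 ε φ := by simp [circleMap]
    rw [hl]
    simp only
    rw [exp_add, exp_add, exp_log (slitPlane_ne_zero (hs φ)), ← ofReal_exp, Real.exp_log hε,
      ← h1, h2, mul_add, mul_div_cancel₀ _ (hc φ)]
    ring
  have e1 := wn_spec (p := arc v ε α β) (q := q) (L := fun s => l (α + s * (β - α)))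
    (hcont.comp (by fun_prop)).continuousOn (fun s _ => he _)
  have e2 := wn_spec (p := arc v ε (α + 2 * Real.pi) β) (q := q)
    (L := fun s => l (α + 2 * Real.pi + s * (β - (α + 2 * Real.pi))))
    (hcont.comp (by fun_prop)).continuousOn (fun s _ => he _)
  have e3 : l (α + 2 * Real.pi) = l α + 2 * Real.pi * I := by
    rw [hl]
    simp only
    rw [periodic_circleMap]
    push_cast
    ring
  simp only [one_mul, zero_mul, add_zero, add_sub_cancel, arc_zero, arc_one] at e1 e2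
  rw [periodic_circleMap, e3] at e2
  have : (wn (arc v ε α β) q : ℂ) = wn (arc v ε (α + 2 * Real.pi) β) q + 1 :=
    mul_left_cancel₀ two_pi_ne (by linear_combination e2 - e1)
  exact_mod_cast this

lemma first_time {p : ℝ → ℂ} (hp : ContinuousOn p (Set.Icc 0 1)) {ε : ℝ} (hε : 0 < ε)
    (h1 : ε < ‖p 1 - p 0‖) : ∃ σ : ℝ, 0 < σ ∧ σ < 1 ∧ ‖p σ - p 0‖ = ε ∧
      ∀ s, 0 ≤ s → s < σ → ‖p s - p 0‖ < ε := by
  have hc : ContinuousOn (fun s => ‖p s - p 0‖) (Set.Icc 0 1) := (hp.sub continuousOn_const).norm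
  have hT : IsCompact (Set.Icc (0 : ℝ) 1 ∩ (fun s => ‖p s - p 0‖) ⁻¹' Set.Ici ε) :=
    isCompact_Icc.of_isClosed_subset (hc.preimage_isClosed_of_isClosed isClosed_Icc isClosed_Ici)
      Set.inter_subset_left
  obtain ⟨σ, ⟨hσ, h2⟩, hmin⟩ := hT.exists_isLeast ⟨1, ⟨zero_le_one, le_rfl⟩, h1.le⟩
  have h2' : ε ≤ ‖p σ - p 0‖ := h2
  obtain ⟨s, hs, e⟩ := intermediate_value_Icc hσ.1 (hc.mono (Set.Icc_subset_Icc le_rfl hσ.2))
    (show ε ∈ _ from ⟨by simpa using hε.le, h2'⟩)
  have e1 : s = σ := le_antisymm hs.2 (hmin ⟨⟨hs.1, hs.2.trans hσ.2⟩, e.ge⟩)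
  subst e1
  have e' : ‖p s - p 0‖ = ε := e
  refine ⟨s, lt_of_le_of_ne hσ.1 fun h => ?_, lt_of_le_of_ne hσ.2 fun h => ?_, e',
    fun t h0 ht => ?_⟩
  · rw [← h] at e'; simp at e'; exact hε.ne e'
  · rw [h] at e'; exact h1.ne' e'
  · by_contra hn
    exact absurd (hmin ⟨⟨h0, ht.le.trans hσ.2⟩, not_lt.1 hn⟩) (not_le.2 ht)

lemma slit {v e z : ℂ} {ε : ℝ} (hε : 0 < ε) (he : ‖e - v‖ = ε) (hz : ‖z - v‖ ≤ ε) (hne : z ≠ e) :
    (z - e) / (v - e) ∈ slitPlane := by
  have h0 : e - v ≠ 0 := fun h => by rw [h, norm_zero] at he; exact hε.ne he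
  have h0' : v - e ≠ 0 := fun h => h0 (by linear_combination -h)
  have e1 : (z - e) / (v - e) = 1 - (z - v) / (e - v) := by field_simp; ring
  have h1 : ‖(z - v) / (e - v)‖ ≤ 1 := by rw [norm_div, he, div_le_one hε]; exact hz
  have h2 : (z - v) / (e - v) ≠ 1 := fun h => hne (by
    rw [div_eq_one_iff_eq h0] at h; linear_combination h)
  rw [e1]
  generalize (z - v) / (e - v) = t at h1 h2
  by_contra hc
  rw [mem_slitPlane_iff] at hc
  push Not at hc
  simp only [sub_re, one_re, sub_im, one_im] at hc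
  have h3 := (re_le_norm t).trans h1
  exact h2 (Complex.ext (by simp; linarith [hc.1]) (by simp; linarith [hc.2]))

lemma vertex {X : Type} [Fintype X] (p : X → ℝ → ℂ) (bar : X → X)
    (hp : ∀ x, ContinuousOn (p x) (Set.Icc 0 1))
    (disj : ∀ x y s t, s ∈ Set.Ioc (0 : ℝ) 1 → t ∈ Set.Icc (0 : ℝ) 1 → p x s = p y t →
      (y = x ∧ t = s) ∨ (y = bar x ∧ s = 1 ∧ t = 1)) (v : ℂ) :
    ∃ (θ : X → ℝ) (g : X → ℤ), (∀ x y, p x 0 = v → p y 0 = v → θ x = θ y → x = y) ∧
      ∀ (R : Type) [CommRing R] (a : X → R), Cyc p a → ∀ x, p x 0 = v → a x = 0 →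
        a (bar x) = 0 → W p a (p x 1) = ∑ y, a y * (g y : R) +
          ∑ y ∈ univ.filter (fun y => p y 0 = v ∧ θ y < θ x), a y := by
  have nv : ∀ x y s, s ∈ Set.Ioc (0 : ℝ) 1 → p x s ≠ p y 0 := fun x y s hs e => by
    rcases disj x y s 0 hs ⟨le_rfl, zero_le_one⟩ e with h | h
    · exact hs.1.ne h.2
    · exact zero_ne_one h.2.2
  obtain ⟨ε, hε, hε1⟩ : ∃ ε : ℝ, 0 < ε ∧ ∀ y, p y 0 = v → ε < ‖p y 1 - v‖ := by
    have h : ∀ᶠ ε in nhdsWithin (0 : ℝ) (Set.Ioi 0), ∀ y, p y 0 = v → ε < ‖p y 1 - v‖ := by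
      refine nhdsWithin_le_nhds (Filter.eventually_all.2 fun y => ?_)
      by_cases hy : p y 0 = v
      · have : 0 < ‖p y 1 - v‖ :=
          norm_pos_iff.2 (sub_ne_zero.2 (hy ▸ nv y y 1 ⟨zero_lt_one, le_rfl⟩))
        exact (eventually_lt_nhds this).mono fun _ h _ => h
      · exact Filter.Eventually.of_forall fun _ h => absurd h hy
    obtain ⟨ε, h1, h2⟩ := (h.and self_mem_nhdsWithin).exists
    exact ⟨ε, h2, h1⟩
  have hσ : ∀ y, ∃ σ : ℝ, 0 < σ ∧ σ < 1 ∧ (p y 0 = v → ‖p y σ - v‖ = ε ∧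
      ∀ s, 0 ≤ s → s < σ → ‖p y s - v‖ < ε) := fun y => by
    by_cases hy : p y 0 = v
    · obtain ⟨σ, h1, h2, h3⟩ := first_time (hp y) hε (hy ▸ hε1 y hy)
      exact ⟨σ, h1, h2, fun _ => hy ▸ h3⟩
    · exact ⟨1 / 2, by norm_num, by norm_num, fun h => absurd h hy⟩
  choose σ σ0 σ1 hσ using hσ
  set θ : X → ℝ := fun y => arg (p y (σ y) - v) with hθ
  have he : ∀ y, p y 0 = v → circleMap v ε (θ y) = p y (σ y) := fun y hy => by
    have := norm_mul_exp_arg_mul_I (p y (σ y) - v)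
    rw [(hσ y hy).1] at this
    rw [circleMap, this]; ring
  obtain ⟨φ, hφ0, hφ⟩ : ∃ φ : ℝ, -Real.pi < φ ∧ ∀ y, φ < θ y := by
    have h : ∀ᶠ φ in nhdsWithin (-Real.pi) (Set.Ioi (-Real.pi)), ∀ y, φ < θ y :=
      nhdsWithin_le_nhds (Filter.eventually_all.2 fun y => eventually_lt_nhds (neg_pi_lt_arg _))
    obtain ⟨φ, h1, h2⟩ := (h.and self_mem_nhdsWithin).exists
    exact ⟨φ, h2, h1⟩
  have hφ1 : ∀ y, θ y < φ + 2 * Real.pi := fun y => by
    have : θ y ≤ Real.pi := arg_le_pi _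
    linarith
  have m1 : ∀ y, ∀ s ∈ Set.Icc (0 : ℝ) 1, s * σ y ∈ Set.Icc (0 : ℝ) 1 := fun y s hs =>
    ⟨mul_nonneg hs.1 (σ0 y).le, mul_le_one₀ hs.2 (σ0 y).le (σ1 y).le⟩
  have m2 : ∀ y, ∀ s ∈ Set.Icc (0 : ℝ) 1, σ y + s * (1 - σ y) ∈ Set.Ioc (0 : ℝ) 1 := fun y s hs =>
    ⟨by nlinarith [hs.1, σ0 y, σ1 y], by nlinarith [hs.2, σ0 y, σ1 y]⟩
  have inj : ∀ x y, p x 0 = v → p y 0 = v → θ x = θ y → x = y := fun x y hx hy e => by
    have h1 : p x (σ x) = p y (σ y) := by rw [← he x hx, ← he y hy, e]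
    rcases disj x y _ _ ⟨σ0 x, (σ1 x).le⟩ ⟨(σ0 y).le, (σ1 y).le⟩ h1 with h | h
    · exact h.1.symm
    · exact absurd h.2.1 (σ1 x).ne
  set out : X → ℝ → ℂ := fun y => if p y 0 = v then fun s => p y (σ y + s * (1 - σ y)) else p y
    with hout
  set A : X → ℝ → ℂ := fun y => arc v ε φ (θ y) with hA
  refine ⟨θ, fun y => wn (out y) v + if p y 0 = v then wn (A y) v else 0, inj,
    fun R _ a hc x hx ax abx => ?_⟩
  set b : X → R := fun y => if p y 0 = v then a y else 0 with hb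
  have hb0 : ∑ y, b y = 0 := by
    have h1 := hc v
    rw [filter_false_of_mem (fun y _ => hx ▸ nv y x 1 ⟨zero_lt_one, le_rfl⟩), sum_empty,
      sum_filter] at h1
    exact h1.symm
  have hbc : ∀ c : R, ∑ y, b y * c = 0 := fun c => by rw [← sum_mul, hb0, zero_mul]
  have hbn : ∀ y, b y ≠ 0 → p y 0 = v ∧ y ≠ x := fun y hy => by
    by_cases h : p y 0 = v
    · refine ⟨h, fun e => hy ?_⟩
      simp [hb, e, ax]
    · simp [hb, h] at hy
  have han : ∀ y, a y ≠ 0 → y ≠ x := fun y hy e => hy (e ▸ ax)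
  set B : X → ℝ → ℂ := fun y => arc v ε (if θ y < θ x then φ else φ + 2 * Real.pi) (θ y) with hB
  set inn : X → ℝ → ℂ := fun y s => p y (s * σ y) with hinn
  have hq0 : 0 < σ x / 2 := half_pos (σ0 x)
  have hq1 : σ x / 2 < σ x := half_lt_self (σ0 x)
  set q := p x (σ x / 2) with hq
  -- points of `p x` before the end lie on no other half-edge
  have other : ∀ y s t, y ≠ x → 0 < s → s < 1 → t ∈ Set.Icc (0 : ℝ) 1 → p y t ≠ p x s :=
    fun y s t hy h0 h1 ht e => by
      rcases disj x y s t ⟨h0, h1.le⟩ ht e.symm with h | h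
      · exact hy h.1
      · exact h1.ne h.2.1
  have pre : ∀ c d : ℝ, 0 ≤ c → d ≤ 1 → IsPreconnected (p x '' Set.Icc c d) := fun c d h0 h1 =>
    isPreconnected_Icc.image _ ((hp x).mono (Set.Icc_subset_Icc h0 h1))
  have e1 : W p a (p x 1) = W p a q := by
    refine W_const hp hc (pre (σ x / 2) 1 hq0.le le_rfl) ?_
      ⟨1, ⟨(hq1.trans (σ1 x)).le, le_rfl⟩, rfl⟩ ⟨_, ⟨le_rfl, (hq1.trans (σ1 x)).le⟩, rfl⟩
    rintro _ ⟨s, hs, rfl⟩ y hy t ht e
    rcases disj x y s t ⟨hq0.trans_le hs.1, hs.2⟩ ht e.symm with h | h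
    · exact hy (h.1 ▸ ax)
    · exact hy (h.1 ▸ abx)
  have cout : ∀ y, ContinuousOn (out y) (Set.Icc 0 1) := fun y => by
    simp only [hout]
    split_ifs
    · exact (hp y).comp (by fun_prop) fun s hs => Set.Ioc_subset_Icc_self (m2 y s hs)
    · exact hp y
  have e2 : W (Sum.elim out A) (Sum.elim a b) q = W (Sum.elim out A) (Sum.elim a b) v := by
    refine W_const (by
        rintro (y | y)
        exacts [cout y, (arc_cont _ _ _ _).continuousOn]) (cyc_iff.2 fun k => ?_)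
      (pre 0 (σ x / 2) le_rfl (hq1.trans (σ1 x)).le) ?_ ⟨_, ⟨hq0.le, le_rfl⟩, rfl⟩
      ⟨0, ⟨le_rfl, hq0.le⟩, hx⟩
    · simp only [Fintype.sum_sum_type, Sum.elim_inl, Sum.elim_inr, hA, arc_zero, arc_one, hbc]
      have h1 : ∀ y, out y 1 = p y 1 := fun y => by
        simp only [hout]; split_ifs <;> simp
      have h2 : ∀ y, a y * k (p y 0) + b y * k (circleMap v ε (θ y)) =
          a y * k (out y 0) + b y * k v := fun y => by
        by_cases h : p y 0 = v
        · simp [hout, hb, h, he y h, add_comm]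
        · simp [hout, hb, h]
      simp only [h1]
      rw [cyc_iff.1 hc k, ← sum_add_distrib, sum_congr rfl (fun y _ => h2 y), sum_add_distrib,
        hbc]
    · rintro _ ⟨s, hs, rfl⟩ (y | y) hy t ht
      · have hyx := han y hy
        have hs1 : s < 1 := hs.2.trans_lt (hq1.trans (σ1 x))
        simp only [Sum.elim_inl, hout]
        rcases hs.1.lt_or_eq with h | h
        · split_ifs
          · exact other y s _ hyx h hs1 (Set.Ioc_subset_Icc_self (m2 y t ht))
          · exact other y s t hyx h hs1 ht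
        · subst h
          split_ifs with h
          · exact nv y x _ (m2 y t ht)
          · rcases ht.1.lt_or_eq with h' | h'
            · exact nv y x t ⟨h', ht.2⟩
            · rw [← h', hx]; exact h
      · intro e
        have h1 := (hσ x hx).2 s hs.1 (hs.2.trans_lt hq1)
        rw [← e] at h1
        exact h1.ne (arc_norm v hε _ _ _)
  have cI : ∀ y, ContinuousOn (Sum.elim inn B y) (Set.Icc 0 1) := by
    rintro (y | y)
    exacts [(hp y).comp (by fun_prop) (m1 y), (arc_cont _ _ _ _).continuousOn]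
  have cyI : Cyc (Sum.elim inn B) (Sum.elim b (fun y => -b y)) := cyc_iff.2 fun k => by
    simp only [Fintype.sum_sum_type, Sum.elim_inl, Sum.elim_inr, hB, hinn, arc_zero, arc_one,
      one_mul, zero_mul]
    have h1 : ∀ y, b y * k (p y (σ y)) + -b y * k (circleMap v ε (θ y)) = 0 := fun y => by
      by_cases h : p y 0 = v
      · simp [he y h]
      · simp [hb, h]
    have h2 : ∀ y, b y * k (p y 0) = b y * k v := fun y => by
      by_cases h : p y 0 = v
      · rw [h]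
      · simp [hb, h]
    have h3 : ∀ y, circleMap v ε (if θ y < θ x then φ else φ + 2 * Real.pi) =
        circleMap v ε φ := fun y => by
      split_ifs
      · rfl
      · exact periodic_circleMap v ε φ
    simp only [h2, h3, neg_mul, sum_neg_distrib, hbc]
    rw [← sum_neg_distrib, ← sum_add_distrib]
    simpa using sum_eq_zero fun y (_ : y ∈ univ) => h1 y
  have avB : ∀ y, b y ≠ 0 → ∀ t ∈ Set.Icc (0 : ℝ) 1, B y t ≠ p x (σ x) := fun y hy t ht e => by
    obtain ⟨h1, h2⟩ := hbn y hy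
    rw [← he x hx] at e
    have h3 : θ y ≠ θ x := fun e => h2 (inj y x h1 hx e)
    have k1 := hφ x
    have k2 := hφ y
    have k3 := hφ1 x
    have k4 := hφ1 y
    simp only [hB, arc] at e
    split_ifs at e with h
    · have k5 := mul_nonneg ht.1 (sub_pos.2 k2).le
      have k6 := mul_le_of_le_one_left (sub_pos.2 k2).le ht.2
      have := eq_of_circleMap_eq hε.ne' (abs_lt.2 ⟨by linarith, by linarith⟩) e
      linarith
    · have h4 : θ x < θ y := lt_of_le_of_ne (not_lt.1 h) h3.symm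
      have k5 := mul_nonneg ht.1 (sub_pos.2 k4).le
      have k6 := mul_le_of_le_one_left (sub_pos.2 k4).le ht.2
      have := eq_of_circleMap_eq hε.ne' (abs_lt.2 ⟨by linarith, by linarith⟩) e
      linarith
  have e3 : W (Sum.elim inn B) (Sum.elim b (fun y => -b y)) q = 0 := by
    rw [W_const cI cyI (pre (σ x / 2) (σ x) hq0.le (σ1 x).le) ?_ ⟨_, ⟨le_rfl, hq1.le⟩, rfl⟩
      ⟨σ x, ⟨hq1.le, le_rfl⟩, rfl⟩]
    · have hn := (hσ x hx).1
      refine W_slit cI cyI (u := v - p x (σ x)) (fun e => ?_) ?_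
      · rw [norm_sub_rev, e, norm_zero] at hn
        exact hε.ne hn
      · rintro (y | y) hy t ht
        · obtain ⟨h1, h2⟩ := hbn y hy
          refine slit hε hn ?_ (other y _ _ h2 (σ0 x) (σ1 x) (m1 y t ht))
          rcases (mul_le_of_le_one_left (σ0 y).le ht.2).lt_or_eq with h | h
          · exact ((hσ y h1).2 _ (m1 y t ht).1 h).le
          · simp only [Sum.elim_inl, hinn]
            rw [h]; exact (hσ y h1).1.le
        · exact slit hε hn (arc_norm v hε _ _ _).le (avB y (neg_ne_zero.1 hy) t ht)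
    · rintro _ ⟨s, hs, rfl⟩ (y | y) hy t ht
      · exact other y s _ (hbn y hy).2 (hq0.trans_le hs.1) (hs.2.trans_lt (σ1 x)) (m1 y t ht)
      · rcases hs.2.lt_or_eq with h | h
        · intro e
          have h1 := (hσ x hx).2 s (hq0.le.trans hs.1) h
          rw [← e] at h1
          exact h1.ne (arc_norm v hε _ _ _)
        · rw [h]; exact avB y (neg_ne_zero.1 hy) t ht
  have hqv : ‖q - v‖ < ε := (hσ x hx).2 _ hq0.le hq1
  have key : ∀ y, a y * (wn (p y) q : R) + b y =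
      (a y * (wn (out y) q : R) + b y * (wn (A y) q : R)) +
        (b y * (wn (inn y) q : R) + -b y * (wn (B y) q : R)) +
        (if p y 0 = v ∧ θ y < θ x then a y else 0) := fun y => by
    by_cases h : p y 0 = v
    · by_cases hy : a y = 0
      · simp [hb, hy]
      have h1 := wn_add (hp y) (q := q)
        (fun t ht => other y _ t (han y hy) hq0 (hq1.trans (σ1 x)) ht) (σ0 y).le (σ1 y).le
      have h2 := wn_arc hε hqv φ (θ y)
      simp only [hout, hb, hA, hB, hinn, h, if_true, true_and]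
      rw [h1]
      split_ifs with h3
      · push_cast; ring
      · rw [h2]; push_cast; ring
    · simp [hout, hb, h]
  have e4 := sum_congr rfl fun y (_ : y ∈ (univ : Finset X)) => key y
  simp only [W, Fintype.sum_sum_type, Sum.elim_inl, Sum.elim_inr] at e2 e3
  simp only [sum_add_distrib] at e4
  rw [hb0, add_zero, e2, e3, add_zero, ← sum_filter] at e4
  rw [e1, W, e4, ← sum_add_distrib]
  congr 1
  refine sum_congr rfl fun y _ => ?_
  by_cases h : p y 0 = v
  · simp [hb, h, mul_add]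
  · simp [hb, h]

end WheelAux

theorem wheel {X : Type} [Fintype X] (p : X → ℝ → ℂ) (bar : X → X)
    (hp : ∀ x, ContinuousOn (p x) (Set.Icc 0 1))
    (disj : ∀ x y s t, s ∈ Set.Ioc (0 : ℝ) 1 → t ∈ Set.Icc (0 : ℝ) 1 → p x s = p y t →
      (y = x ∧ t = s) ∨ (y = bar x ∧ s = 1 ∧ t = 1)) :
    ∃ (pos : X → ℕ) (g : ℂ → X → ℤ), (∀ x y, p x 0 = p y 0 → pos x = pos y → x = y) ∧
      ∀ (R : Type) [CommRing R] (a : X → R), Cyc p a → ∀ x, a x = 0 → a (bar x) = 0 →
        W p a (p x 1) = ∑ y, a y * (g (p x 0) y : R) +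
          ∑ y ∈ univ.filter (fun y => p y 0 = p x 0 ∧ pos y < pos x), a y := by
  choose θ g h1 h2 using WheelAux.vertex p bar hp disj
  set Θ : X → ℝ := fun x => θ (p x 0) x with hΘ
  set pos : X → ℕ := fun x => (univ.filter (fun y => Θ y < Θ x)).card with hpos
  have lt : ∀ x y, Θ y < Θ x → pos y < pos x := fun x y h =>
    card_lt_card ⟨fun z hz => by simp only [mem_filter, mem_univ, true_and] at hz ⊢; linarith,
      fun hs => by simpa using hs (show y ∈ _ by simpa using h)⟩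
  have le : ∀ x y, Θ y ≤ Θ x → pos y ≤ pos x := fun x y h =>
    card_le_card fun z hz => by simp only [mem_filter, mem_univ, true_and] at hz ⊢; linarith
  refine ⟨pos, g, fun x y e h => h1 (p x 0) x y rfl e.symm ?_, fun R _ a hc x ax abx => ?_⟩
  · have : Θ x = Θ y := le_antisymm (not_lt.1 fun k => (lt _ _ k).ne' h)
      (not_lt.1 fun k => (lt _ _ k).ne h)
    simp only [hΘ] at this
    rw [this, e]
  · rw [h2 (p x 0) R a hc x rfl ax abx]
    congr 1
    refine sum_congr (filter_congr fun y _ => and_congr_right fun e => ?_) fun _ _ => rfl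
    have : θ (p x 0) y = Θ y := by simp only [hΘ, e]
    rw [this]
    exact ⟨lt x y, fun k => not_le.1 fun k' => absurd (le y x k') (not_le.2 k)⟩

end Pool.Agent.Lib.MP_65c801_co
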