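import Pool.Agent.Lib.MP_65c801_co.Arr

/-! Winding numbers of weighted families of paths. -/

namespace Pool.Agent.Lib.MP_65c801_co

open Finset Classical Complex

/-- the integer by which the increment of a continuous logarithm of `p s - q` on `[0, 1]` differs
from the difference of the principal logarithms at the ends -/
noncomputable def wn (p : ℝ → ℂ) (q : ℂ) : ℤ :=
  if h : ∃ k : ℤ, ∃ L : ℝ → ℂ, ContinuousOn L (Set.Icc 0 1) ∧
      (∀ s ∈ Set.Icc (0 : ℝ) 1, exp (L s) = p s - q) ∧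
      L 1 - L 0 = 2 * Real.pi * I * k + log (p 1 - q) - log (p 0 - q) then h.choose else 0

/-- the winding number of a weighted family of paths -/
noncomputable def W {X R : Type} [Fintype X] [CommRing R] (p : X → ℝ → ℂ) (a : X → R) (q : ℂ) : R :=
  ∑ x, a x * (wn (p x) q : R)

/-- the weighted family has no boundary -/
def Cyc {X R : Type} [Fintype X] [CommRing R] (p : X → ℝ → ℂ) (a : X → R) : Prop :=
  ∀ r : ℂ, ∑ x ∈ univ.filter (fun x => p x 1 = r), a x = ∑ x ∈ univ.filter (fun x => p x 0 = r), a x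

lemma exists_log_real {f : ℝ → ℂ} (hf : Continuous f) (h0 : ∀ s, f s ≠ 0) :
    ∃ L : ℝ → ℂ, Continuous L ∧ ∀ s, exp (L s) = f s := by
  have hU : IsSimplyConnected (Set.univ : Set ℝ) :=
    (Homeomorph.Set.univ ℝ).toHomotopyEquiv.simplyConnectedSpace
  obtain ⟨L, h1, h2⟩ := exists_continuousOn_eqOn_exp_comp hU isOpen_univ hf.continuousOn
    (fun ⟨s, _, hs⟩ => h0 s hs)
  exact ⟨L, continuousOn_univ.1 h1, fun s => h2 (Set.mem_univ s)⟩

lemma exists_log_Icc {f : ℝ → ℂ} {a b : ℝ} (hf : ContinuousOn f (Set.Icc a b))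
    (h0 : ∀ s ∈ Set.Icc a b, f s ≠ 0) :
    ∃ L : ℝ → ℂ, ContinuousOn L (Set.Icc a b) ∧ ∀ s ∈ Set.Icc a b, exp (L s) = f s := by
  rcases le_or_gt a b with hab | hab
  · obtain ⟨L, h1, h2⟩ := exists_log_real (f := fun s => f (Set.projIcc a b hab s))
      (hf.comp_continuous (continuous_subtype_val.comp continuous_projIcc)
        fun s => (Set.projIcc a b hab s).2) fun s => h0 _ (Set.projIcc a b hab s).2
    exact ⟨L, h1.continuousOn, fun s hs => by rw [h2, Set.projIcc_of_mem hab hs]⟩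
  · exact ⟨fun _ => 0, continuousOn_const, fun s hs => absurd (hs.1.trans hs.2) hab.not_ge⟩

namespace WindAux

lemma m0 : (0 : ℝ) ∈ Set.Icc (0 : ℝ) 1 := Set.left_mem_Icc.2 zero_le_one

lemma m1 : (1 : ℝ) ∈ Set.Icc (0 : ℝ) 1 := Set.right_mem_Icc.2 zero_le_one

lemma incr_eq {L L' : ℝ → ℂ} (hL : ContinuousOn L (Set.Icc 0 1)) (hL' : ContinuousOn L' (Set.Icc 0 1))
    (h : ∀ s ∈ Set.Icc (0 : ℝ) 1, exp (L s) = exp (L' s)) : L 1 - L 0 = L' 1 - L' 0 := by
  have h1 : ∀ s ∈ Set.Icc (0 : ℝ) 1, exp (L s - L' s) = 1 := fun s hs => by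
    rw [exp_sub, h s hs, div_self (exp_ne_zero _)]
  have h2 := isCoveringMap_exp.constOn_of_comp (g := fun s => L s - L' s) isPreconnected_Icc
    (hL.sub hL') (fun s hs t ht => Subtype.ext ((h1 s hs).trans (h1 t ht).symm)) m1 m0
  linear_combination h2

lemma log_eq {z w : ℂ} (h : exp z = w) : ∃ k : ℤ, log w = z + k * (2 * Real.pi * I) :=
  exp_eq_exp_iff_exists_int.1 (by rw [h, exp_log (h ▸ exp_ne_zero z)])

end WindAux

open WindAux

lemma wn_spec {p L : ℝ → ℂ} {q : ℂ} (hL : ContinuousOn L (Set.Icc 0 1))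
    (h : ∀ s ∈ Set.Icc (0 : ℝ) 1, exp (L s) = p s - q) :
    L 1 - L 0 = 2 * Real.pi * I * (wn p q) + log (p 1 - q) - log (p 0 - q) := by
  have hex : ∃ k : ℤ, ∃ L : ℝ → ℂ, ContinuousOn L (Set.Icc 0 1) ∧
      (∀ s ∈ Set.Icc (0 : ℝ) 1, exp (L s) = p s - q) ∧
      L 1 - L 0 = 2 * Real.pi * I * k + log (p 1 - q) - log (p 0 - q) := by
    obtain ⟨k1, h1⟩ := log_eq (h 1 m1)
    obtain ⟨k0, h0⟩ := log_eq (h 0 m0)
    refine ⟨k0 - k1, L, hL, h, ?_⟩
    rw [h1, h0]
    push_cast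
    ring
  obtain ⟨L', h1, h2, h3⟩ := hex.choose_spec
  rw [wn, dif_pos hex, ← h3]
  exact incr_eq hL h1 fun s hs => (h s hs).trans (h2 s hs).symm

namespace WindAux

variable {X R : Type} [Fintype X] [CommRing R] {p : X → ℝ → ℂ} {a : X → R}

lemma cyc_sum (hc : Cyc p a) (φ : ℂ → R) : ∑ x, a x * φ (p x 1) = ∑ x, a x * φ (p x 0) := by
  have key : ∀ t : ℝ, t = 0 ∨ t = 1 → ∑ x, a x * φ (p x t) =
      ∑ r ∈ univ.image (fun x => p x 0) ∪ univ.image (fun x => p x 1),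
        (∑ x ∈ univ.filter (fun x => p x t = r), a x) * φ r := by
    intro t ht
    rw [← sum_fiberwise_of_maps_to (g := fun x => p x t)
      (t := univ.image (fun x => p x 0) ∪ univ.image (fun x => p x 1))]
    · refine sum_congr rfl fun r _ => ?_
      rw [sum_mul]
      exact sum_congr rfl fun x hx => by rw [(mem_filter.1 hx).2]
    · intro x _
      rcases ht with rfl | rfl
      · exact mem_union_left _ (mem_image_of_mem _ (mem_univ x))
      · exact mem_union_right _ (mem_image_of_mem _ (mem_univ x))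
  rw [key 1 (Or.inr rfl), key 0 (Or.inl rfl)]
  exact sum_congr rfl fun r _ => by rw [hc r]

lemma core (hc : Cyc p a) {q : ℂ} (l : ℂ → ℂ) (n : X → ℤ)
    (h : ∀ x, a x ≠ 0 → ∃ L : ℝ → ℂ, ContinuousOn L (Set.Icc 0 1) ∧
      (∀ s ∈ Set.Icc (0 : ℝ) 1, exp (L s) = p x s - q) ∧
      (∀ s ∈ Set.Icc (0 : ℝ) 1, exp (l (p x s)) = p x s - q) ∧
      L 1 - L 0 = 2 * Real.pi * I * n x + l (p x 1) - l (p x 0)) :
    W p a q = ∑ x, a x * (n x : R) := by
  have hk : ∀ r, ∃ k : ℤ, exp (l r) = r - q → log (r - q) = l r + k * (2 * Real.pi * I) := by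
    intro r
    by_cases e : exp (l r) = r - q
    · exact (log_eq e).imp fun k hk _ => hk
    · exact ⟨0, fun e' => absurd e' e⟩
  choose k hk using hk
  have h1 : ∀ x, a x * (wn (p x) q : R)
      = a x * (n x : R) - a x * (k (p x 1) : R) + a x * (k (p x 0) : R) := by
    intro x
    by_cases e : a x = 0
    · simp [e]
    obtain ⟨L, l1, l2, l3, l4⟩ := h x e
    have h2 := wn_spec l1 l2
    rw [hk _ (l3 1 m1), hk _ (l3 0 m0), l4] at h2
    have h3 : ((wn (p x) q : ℤ) : ℂ) = ((n x - k (p x 1) + k (p x 0) : ℤ) : ℂ) := by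
      refine mul_left_cancel₀ two_pi_I_ne_zero ?_
      push_cast
      linear_combination -h2
    rw [Int.cast_injective h3]
    push_cast
    ring
  rw [W, sum_congr rfl fun x _ => h1 x, sum_add_distrib, sum_sub_distrib,
    cyc_sum hc fun r => (k r : R), sub_add_cancel]

lemma near (hp : ∀ x, ContinuousOn (p x) (Set.Icc 0 1)) (hc : Cyc p a) {q q' : ℂ}
    (h : ∀ x, a x ≠ 0 → ∀ s ∈ Set.Icc (0 : ℝ) 1, ‖q - q'‖ < ‖p x s - q‖) :
    W p a q' = W p a q := by
  refine core hc (fun r => log (r - q) + log (1 + (q - q') / (r - q))) (fun x => wn (p x) q)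
    fun x hx => ?_
  have h0 : ∀ s ∈ Set.Icc (0 : ℝ) 1, p x s - q ≠ 0 := fun s hs =>
    norm_pos_iff.1 ((norm_nonneg _).trans_lt (h x hx s hs))
  have h1 : ∀ s ∈ Set.Icc (0 : ℝ) 1, 1 + (q - q') / (p x s - q) ∈ slitPlane := fun s hs =>
    mem_slitPlane_of_norm_lt_one (by
      rw [norm_div, div_lt_one (norm_pos_iff.2 (h0 s hs))]; exact h x hx s hs)
  have h2 : ∀ s ∈ Set.Icc (0 : ℝ) 1, (p x s - q) * exp (log (1 + (q - q') / (p x s - q)))
      = p x s - q' := fun s hs => by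
    rw [exp_log (slitPlane_ne_zero (h1 s hs)), mul_add, mul_div_cancel₀ _ (h0 s hs)]
    ring
  have c0 : ContinuousOn (fun s => p x s - q) (Set.Icc 0 1) := (hp x).sub continuousOn_const
  obtain ⟨L, l1, l2⟩ := exists_log_Icc c0 h0
  refine ⟨fun s => L s + log (1 + (q - q') / (p x s - q)),
    l1.add ((continuousOn_const.add (continuousOn_const.div c0 h0)).clog h1),
    fun s hs => ?_, fun s hs => ?_, ?_⟩
  · rw [exp_add, l2 s hs, h2 s hs]
  · rw [exp_add, exp_log (h0 s hs), h2 s hs]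
  · linear_combination wn_spec l1 l2

end WindAux

theorem W_const {X R : Type} [Fintype X] [CommRing R] {p : X → ℝ → ℂ} {a : X → R}
    (hp : ∀ x, ContinuousOn (p x) (Set.Icc 0 1)) (hc : Cyc p a) {S : Set ℂ} (hS : IsPreconnected S)
    (hav : ∀ q ∈ S, ∀ x, a x ≠ 0 → ∀ s ∈ Set.Icc (0 : ℝ) 1, p x s ≠ q) {q q' : ℂ} (hq : q ∈ S)
    (hq' : q' ∈ S) : W p a q = W p a q' := by
  refine hS.induction₂' (fun q q' => W p a q = W p a q') (fun z hz => ?_)
    (fun _ _ _ _ _ _ h h' => h.trans h') hq hq'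
  have h1 : ∀ᶠ z' in nhds z, ∀ x, a x ≠ 0 → ∀ s ∈ Set.Icc (0 : ℝ) 1, ‖z - z'‖ < ‖p x s - z‖ := by
    refine Filter.eventually_all.2 fun x => ?_
    by_cases hx : a x = 0
    · exact Filter.Eventually.of_forall fun _ h => absurd hx h
    obtain ⟨t, ht, hm⟩ := isCompact_Icc.exists_isMinOn ⟨0, m0⟩
      (((hp x).sub (continuousOn_const (c := z))).norm)
    have h2 : 0 < ‖p x t - z‖ := norm_pos_iff.2 (sub_ne_zero.2 (hav z hz x hx t ht))
    filter_upwards [Metric.ball_mem_nhds z h2] with z' hz' _ s hs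
    exact (mem_ball_iff_norm'.1 hz').trans_le (hm hs)
  filter_upwards [nhdsWithin_le_nhds h1] with z' hz'
  exact ⟨(near hp hc hz').symm, near hp hc hz'⟩

theorem W_slit {X R : Type} [Fintype X] [CommRing R] {p : X → ℝ → ℂ} {a : X → R}
    (hp : ∀ x, ContinuousOn (p x) (Set.Icc 0 1)) (hc : Cyc p a) {q u : ℂ} (hu : u ≠ 0)
    (h : ∀ x, a x ≠ 0 → ∀ s ∈ Set.Icc (0 : ℝ) 1, (p x s - q) / u ∈ slitPlane) : W p a q = 0 := by
  rw [core hc (fun r => log ((r - q) / u) + log u) (fun _ => 0) fun x hx => ?_]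
  · simp
  have h1 : ∀ s ∈ Set.Icc (0 : ℝ) 1, exp (log ((p x s - q) / u) + log u) = p x s - q := fun s hs => by
    rw [exp_add, exp_log (slitPlane_ne_zero (h x hx s hs)), exp_log hu, div_mul_cancel₀ _ hu]
  exact ⟨fun s => log ((p x s - q) / u) + log u,
    ((((hp x).sub continuousOn_const).div_const u).clog (h x hx)).add continuousOn_const,
    h1, h1, by simp⟩

end Pool.Agent.Lib.MP_65c801_co
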